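import Pool.Agent.Lib.MP_76b24b_lcM.Spec2

/-!
# MP_76b24b_lc, package M: the access network
-/

set_option autoImplicit false

namespace Pool.Agent.Lin

open Finset

private theorem acc_num (k s : ℕ) : num (fun t : Fin k => s.testBit t) = s % 2 ^ k := by
  induction k with
  | zero => simp [num, Nat.mod_one]
  | succ k ih =>
    have h0 : num (fun t : Fin (k + 1) => s.testBit t) =
        num (fun t : Fin k => s.testBit t) + if s.testBit k = true then 2 ^ k else 0 := by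
      unfold num
      rw [Fin.sum_univ_castSucc]
      rfl
    rw [h0, ih, Nat.mod_pow_succ, Nat.testBit_eq_decide_div_mod_eq]
    rcases Nat.mod_two_eq_zero_or_one (s / 2 ^ k) with h | h
    · rw [h]
      simp
    · rw [h]
      simp

private theorem acc_digits {k s s' : ℕ} (hs : s < 2 ^ k) (hs' : s' < 2 ^ k)
    (h : ∀ t : Fin k, s.testBit t = s'.testBit t) : s = s' := by
  have h1 : num (fun t : Fin k => s.testBit t) = num (fun t : Fin k => s'.testBit t) := by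
    have : (fun t : Fin k => s.testBit t) = fun t : Fin k => s'.testBit t := funext h
    rw [this]
  rw [acc_num, acc_num, Nat.mod_eq_of_lt hs, Nat.mod_eq_of_lt hs'] at h1
  exact h1

/-- The first chunk place of the superblock `a`. -/
private def acd (l : ℕ) (I : ℕ → ℕ) (a : ℕ) : ℕ := a + I a / 2 ^ l

private theorem acd_le {l : ℕ} {I : ℕ → ℕ} {a t : ℕ} (h : t * 2 ^ l < I (a + 1) - I a) :
    acd l I a + t + 1 ≤ acd l I (a + 1) := by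
  have h1 : I a / 2 ^ l + t ≤ I (a + 1) / 2 ^ l := by
    rw [Nat.le_div_iff_mul_le (Nat.two_pow_pos l), Nat.add_mul]
    have := Nat.div_mul_le_self (I a) (2 ^ l)
    omega
  unfold acd
  omega

private theorem acd_succ {l : ℕ} {I : ℕ → ℕ} {a : ℕ} (h : I a ≤ I (a + 1)) :
    acd l I a + 1 ≤ acd l I (a + 1) := by
  have := Nat.div_le_div_right (c := 2 ^ l) h
  unfold acd
  omega

private theorem acd_mono {l : ℕ} {I : ℕ → ℕ} (h : ∀ a, I a ≤ I (a + 1)) : Monotone (acd l I) :=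
  monotone_nat_of_le_succ fun a => by
    have := acd_succ (l := l) (h a)
    omega

private theorem acd_inj {l : ℕ} {I : ℕ → ℕ} (hm : ∀ a, I a ≤ I (a + 1)) {a a' d : ℕ}
    (h1 : acd l I a ≤ d) (h2 : d < acd l I (a + 1)) (h1' : acd l I a' ≤ d)
    (h2' : d < acd l I (a' + 1)) : a = a' := by
  rcases lt_trichotomy a a' with h | h | h
  · have := acd_mono (l := l) hm (show a + 1 ≤ a' from h)
    omega
  · exact h
  · have := acd_mono (l := l) hm (show a' + 1 ≤ a from h)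
    omega

private theorem acc_core {σ γ l r : ℕ} (hr : r + 12 ≤ σ) (h4 : S_RkL) (I : ℕ → ℕ)
    (hI : Prf σ γ l I) (A : Fin (2 ^ σ) → Slot σ r → Prop) (hPB : PB (fun _ => True) A)
    (hA : ∀ a p, A a p → I (a + 1) - I a < 2 ^ (l + (p.1 : ℕ)))
    (V : Fin (r + 1) × Fin (2 ^ (σ + l)) → Bool)
    (hV : ∀ (i : Fin (r + 1)) (e : Fin (2 ^ (σ + l))), V (i, e) = true ↔
      ∃ a p, A a p ∧ p.1 = i ∧ (p.2 : ℕ) = e / 2 ^ (l + (i : ℕ)) ∧
        (e : ℕ) % 2 ^ (l + (i : ℕ)) < I (a + 1) - I a)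
    (W : (Fin (r + 1) × Fin (2 ^ σ)) × (Unit ⊕ Fin (σ + 1)) → Bool)
    (hWv : ∀ (i : Fin (r + 1)) (e : Fin (2 ^ σ)), W ((i, e), Sum.inl ()) = true ↔
      ∃ a p, A a p ∧ p.1 = i ∧ (p.2 : ℕ) = e / 2 ^ (i : ℕ) ∧
        (e : ℕ) % 2 ^ (i : ℕ) * 2 ^ l < I (a + 1) - I a)
    (hWd : ∀ (e : Fin (2 ^ σ)) (t : Fin (σ + 1)) (a : Fin (2 ^ σ)) (p : Slot σ r),
      A a p → (p.2 : ℕ) = e / 2 ^ (p.1 : ℕ) →
      W ((p.1, e), Sum.inr t) = ((a : ℕ) + I a / 2 ^ l + (e : ℕ) % 2 ^ (p.1 : ℕ)).testBit t)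
    (f : Fin (r + 1) × Fin (2 ^ σ) → Fin (2 ^ (σ + 1)) → Prop)
    (hf : (∀ i i', W (i, Sum.inl ()) = true → W (i', Sum.inl ()) = true →
        (∀ t, W (i, Sum.inr t) = W (i', Sum.inr t)) → i = i') →
      ∀ i j, f i j ↔ W (i, Sum.inl ()) = true ∧ num (fun t => W (i, Sum.inr t)) = j)
    (R1 : Fin (r + 1) × Fin (2 ^ (σ + l)) → Fin (2 ^ (σ + 1 + l)) → Prop)
    (hR1 : ∀ i e k, R1 (i, e) k ↔ ∃ (c : Fin (2 ^ σ)) (j : Fin (2 ^ (σ + 1))),
      (c : ℕ) = e / 2 ^ l ∧ (j : ℕ) = k / 2 ^ l ∧ f (i, c) j ∧ (e : ℕ) % 2 ^ l = k % 2 ^ l)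
    (PV : Fin (2 ^ (σ + 1 + l)) → Bool)
    (hPV : ∀ k, PV k = true ↔ ∃ q, R1 q k ∧ V q = true)
    (i : Fin (r + 1)) (e : Fin (2 ^ (σ + l))) (ρ : Fin (2 ^ (σ + 1 + l))) :
    (∃ k, R1 (i, e) k ∧ PV k = true ∧ rk Fin.val PV k = ρ) ↔
      ∃ a p, A a p ∧ p.1 = i ∧ (p.2 : ℕ) = e / 2 ^ (l + (i : ℕ)) ∧
        (e : ℕ) % 2 ^ (l + (i : ℕ)) < I (a + 1) - I a ∧
        (ρ : ℕ) = I a + (e : ℕ) % 2 ^ (l + (i : ℕ)) := by
  obtain ⟨hI0, hm, hIγ, hI1⟩ := hI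
  obtain ⟨-, hB2, hB3, hB4⟩ := hPB
  have hmono : Monotone I := monotone_nat_of_le_succ hm
  have hpl : 0 < 2 ^ l := Nat.two_pow_pos l
  -- bound of the destinations
  have hdest : ∀ (a : Fin (2 ^ σ)) (t : ℕ), t * 2 ^ l < I (a + 1) - I a →
      acd l I a + t < 2 ^ (σ + 1) := by
    intro a t ht
    have h1 := a.isLt
    have h2 : I (a + 1) ≤ I (2 ^ σ) := hmono h1
    have h3 : (I a / 2 ^ l + t) * 2 ^ l < 2 ^ (σ - 13) * 2 ^ l := by
      rw [Nat.add_mul, ← pow_add]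
      have := Nat.div_mul_le_self (I a) (2 ^ l)
      omega
    have h4' : I a / 2 ^ l + t < 2 ^ (σ - 13) := Nat.lt_of_mul_lt_mul_right h3
    have h5 : 2 ^ (σ - 13) ≤ 2 ^ σ := Nat.pow_le_pow_right (by norm_num) (Nat.sub_le _ _)
    rw [pow_succ]
    unfold acd
    omega
  -- a slot is determined by its class and its number
  have hslot : ∀ p p' : Slot σ r, p.1 = p'.1 → (p.2 : ℕ) = p'.2 → p = p' := by
    rintro ⟨i, α⟩ ⟨i', α'⟩ h h'
    have hi : i = i' := h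
    subst hi
    have : α = α' := Fin.ext h'
    rw [this]
  -- the digits of the destination
  have hnum : ∀ (e' : Fin (2 ^ σ)) (a : Fin (2 ^ σ)) (p : Slot σ r), A a p →
      (p.2 : ℕ) = e' / 2 ^ (p.1 : ℕ) → (e' : ℕ) % 2 ^ (p.1 : ℕ) * 2 ^ l < I (a + 1) - I a →
      num (fun t => W ((p.1, e'), Sum.inr t)) = acd l I a + (e' : ℕ) % 2 ^ (p.1 : ℕ) := by
    intro e' a p hap hp ht
    have : (fun t : Fin (σ + 1) => W ((p.1, e'), Sum.inr t)) = fun t : Fin (σ + 1) =>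
        (acd l I a + (e' : ℕ) % 2 ^ (p.1 : ℕ)).testBit t := by
      funext t
      exact hWd e' t a p hap hp
    rw [this, acc_num, Nat.mod_eq_of_lt (hdest a _ ht)]
  -- valid chunks have different destinations
  have hdiff : ∀ i i', W (i, Sum.inl ()) = true → W (i', Sum.inl ()) = true →
      (∀ t, W (i, Sum.inr t) = W (i', Sum.inr t)) → i = i' := by
    rintro ⟨i, c⟩ ⟨i', c'⟩ hi hi' hd
    obtain ⟨a, p, hap, rfl, hp2, ht⟩ := (hWv i c).1 hi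
    obtain ⟨a', p', hap', rfl, hp2', ht'⟩ := (hWv i' c').1 hi'
    have hn : num (fun t => W ((p.1, c), Sum.inr t)) = num (fun t => W ((p'.1, c'), Sum.inr t)) := by
      have : (fun t : Fin (σ + 1) => W ((p.1, c), Sum.inr t)) =
        fun t : Fin (σ + 1) => W ((p'.1, c'), Sum.inr t) := funext hd
      rw [this]
    rw [hnum c a p hap hp2 ht, hnum c' a' p' hap' hp2' ht'] at hn
    have q1 := acd_le (l := l) ht
    have q2 := acd_le (l := l) ht'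
    have haa : (a : ℕ) = a' := acd_inj (l := l) hm (d := acd l I a + (c : ℕ) % 2 ^ (p.1 : ℕ))
      (by omega) (by omega) (by omega) (by omega)
    have haa' : a = a' := Fin.ext haa
    subst haa'
    have hpp : p = p' := hB3 a p p' hap hap'
    subst hpp
    have hmod : (c : ℕ) % 2 ^ (p.1 : ℕ) = c' % 2 ^ (p.1 : ℕ) := by omega
    have hdiv : (c : ℕ) / 2 ^ (p.1 : ℕ) = c' / 2 ^ (p.1 : ℕ) := by rw [← hp2, ← hp2']
    have hc : c = c' := by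
      apply Fin.ext
      rw [← Nat.div_add_mod (c : ℕ) (2 ^ (p.1 : ℕ)), ← Nat.div_add_mod (c' : ℕ) (2 ^ (p.1 : ℕ)),
        hmod, hdiv]
    rw [hc]
  have hf' := hf hdiff
  -- arithmetic of the places
  have hmodmul : ∀ (i : ℕ) (e : ℕ), e % 2 ^ (l + i) = e % 2 ^ l + 2 ^ l * (e / 2 ^ l % 2 ^ i) := by
    intro i e
    rw [pow_add, Nat.mod_mul]
  have hdivmul : ∀ (i : ℕ) (e : ℕ), e / 2 ^ (l + i) = e / 2 ^ l / 2 ^ i := by
    intro i e
    rw [pow_add, Nat.div_div_eq_div_mul]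
  -- the relation R1
  have hR : ∀ (i : Fin (r + 1)) (e : Fin (2 ^ (σ + l))) (k : Fin (2 ^ (σ + 1 + l))),
      R1 (i, e) k ↔ ∃ a p, A a p ∧ p.1 = i ∧ (p.2 : ℕ) = e / 2 ^ (l + (i : ℕ)) ∧
        (e : ℕ) / 2 ^ l % 2 ^ (i : ℕ) * 2 ^ l < I (a + 1) - I a ∧
        (k : ℕ) = acd l I a * 2 ^ l + (e : ℕ) % 2 ^ (l + (i : ℕ)) := by
    intro i e k
    rw [hR1]
    constructor
    · rintro ⟨c, j, hc, hj, hfc, hmod⟩
      obtain ⟨hval, hn⟩ := (hf' (i, c) j).1 hfc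
      obtain ⟨a, p, hap, rfl, hp2, ht⟩ := (hWv i c).1 hval
      rw [hnum c a p hap hp2 ht] at hn
      refine ⟨a, p, hap, rfl, ?_, ?_, ?_⟩
      · rw [hp2, hc, hdivmul]
      · rw [← hc]
        exact ht
      · rw [hmodmul, ← hc, ← Nat.div_add_mod (k : ℕ) (2 ^ l), ← hj, ← hn, hmod]
        ring
    · rintro ⟨a, p, hap, rfl, hp2, ht, hk⟩
      have he := e.isLt
      have hc : (e : ℕ) / 2 ^ l < 2 ^ σ := by
        rw [Nat.div_lt_iff_lt_mul hpl, ← pow_add]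
        exact he
      have hp2' : (p.2 : ℕ) = ((⟨(e : ℕ) / 2 ^ l, hc⟩ : Fin (2 ^ σ)) : ℕ) / 2 ^ (p.1 : ℕ) := by
        rw [hp2, hdivmul]
      have hkk : (k : ℕ) = (acd l I a + (e : ℕ) / 2 ^ l % 2 ^ (p.1 : ℕ)) * 2 ^ l +
          (e : ℕ) % 2 ^ l := by
        rw [hk, hmodmul]
        ring
      have hml := Nat.mod_lt (e : ℕ) hpl
      have hkd : (k : ℕ) / 2 ^ l = acd l I a + (e : ℕ) / 2 ^ l % 2 ^ (p.1 : ℕ) := by
        rw [hkk, Nat.add_comm, Nat.add_mul_div_right _ _ hpl, Nat.div_eq_of_lt hml, Nat.zero_add]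
      have hkm : (k : ℕ) % 2 ^ l = (e : ℕ) % 2 ^ l := by
        rw [hkk, Nat.add_comm, Nat.add_mul_mod_self_right, Nat.mod_mod]
      refine ⟨⟨(e : ℕ) / 2 ^ l, hc⟩, ⟨(k : ℕ) / 2 ^ l, ?_⟩, rfl, rfl, ?_, hkm.symm⟩
      · rw [hkd]
        exact hdest a _ ht
      · rw [hf']
        refine ⟨(hWv p.1 _).2 ⟨a, p, hap, rfl, hp2', ht⟩, ?_⟩
        rw [hnum _ a p hap hp2' ht]
        exact hkd.symm
  -- places of the tokens
  have hplace : ∀ a < 2 ^ σ, ∀ w < I (a + 1) - I a,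
      (a + I a / 2 ^ l) * 2 ^ l + w < 2 ^ (σ + 1 + l) := by
    intro a ha w hw
    have h2 : I (a + 1) ≤ I (2 ^ σ) := hmono ha
    have h3 := Nat.div_mul_le_self (I a) (2 ^ l)
    have h5 : 2 ^ (σ - 13 + l) ≤ 2 ^ (σ + l) := Nat.pow_le_pow_right (by norm_num) (by omega)
    have h6 : a * 2 ^ l ≤ 2 ^ σ * 2 ^ l := Nat.mul_le_mul_right _ ha.le
    have h7 : 2 ^ (σ + 1 + l) = 2 ^ (σ + l) + 2 ^ (σ + l) := by
      rw [show σ + 1 + l = σ + l + 1 by omega, pow_succ]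
      ring
    have h8 : 2 ^ (σ + l) = 2 ^ σ * 2 ^ l := pow_add _ _ _
    rw [Nat.add_mul]
    omega
  -- the cells with P
  have hP : ∀ k : Fin (2 ^ (σ + 1 + l)), PV k = true ↔
      ∃ a < 2 ^ σ, ∃ w < I (a + 1) - I a, (k : ℕ) = (a + I a / 2 ^ l) * 2 ^ l + w := by
    intro k
    rw [hPV]
    constructor
    · rintro ⟨⟨i, e⟩, hRk, hVk⟩
      obtain ⟨a, p, hap, hi, hp2, ht, hk⟩ := (hR i e k).1 hRk
      obtain ⟨a', p', hap', hi', hp2', hw⟩ := (hV i e).1 hVk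
      have hpp : p = p' := hslot p p' (hi.trans hi'.symm) (hp2.trans hp2'.symm)
      subst hpp
      have haa : a = a' := hB4 a a' p hap hap'
      subst haa
      exact ⟨a, a.isLt, _, hw, hk⟩
    · rintro ⟨a, ha, w, hw, hk⟩
      obtain ⟨p, hap⟩ := hB2 ⟨a, ha⟩ trivial
      have hlt : I (a + 1) - I a < 2 ^ (l + (p.1 : ℕ)) := hA ⟨a, ha⟩ p hap
      have hwl : w < 2 ^ (l + (p.1 : ℕ)) := hw.trans hlt
      have hp2 := p.2.isLt
      have hpr : (p.1 : ℕ) ≤ σ := by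
        have := p.1.isLt
        omega
      have he : (p.2 : ℕ) * 2 ^ (l + (p.1 : ℕ)) + w < 2 ^ (σ + l) := by
        have h8 : 2 ^ (σ + l) = 2 ^ (σ - (p.1 : ℕ)) * 2 ^ (l + (p.1 : ℕ)) := by
          rw [← pow_add]
          congr 1
          omega
        rw [h8]
        have h9 : ((p.2 : ℕ) + 1) * 2 ^ (l + (p.1 : ℕ)) ≤
            2 ^ (σ - (p.1 : ℕ)) * 2 ^ (l + (p.1 : ℕ)) := Nat.mul_le_mul_right _ hp2
        rw [Nat.add_mul, Nat.one_mul] at h9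
        omega
      have hpl' := Nat.two_pow_pos (l + (p.1 : ℕ))
      have hed : ((p.2 : ℕ) * 2 ^ (l + (p.1 : ℕ)) + w) / 2 ^ (l + (p.1 : ℕ)) = p.2 := by
        rw [Nat.add_comm, Nat.add_mul_div_right _ _ hpl', Nat.div_eq_of_lt hwl, Nat.zero_add]
      have hem : ((p.2 : ℕ) * 2 ^ (l + (p.1 : ℕ)) + w) % 2 ^ (l + (p.1 : ℕ)) = w := by
        rw [Nat.add_comm, Nat.add_mul_mod_self_right, Nat.mod_eq_of_lt hwl]
      refine ⟨(p.1, ⟨_, he⟩), ?_, ?_⟩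
      · rw [hR]
        refine ⟨⟨a, ha⟩, p, hap, rfl, hed.symm, ?_, ?_⟩
        · have h10 := hmodmul (p.1 : ℕ) ((p.2 : ℕ) * 2 ^ (l + (p.1 : ℕ)) + w)
          rw [hem] at h10
          show ((p.2 : ℕ) * 2 ^ (l + (p.1 : ℕ)) + w) / 2 ^ l % 2 ^ (p.1 : ℕ) * 2 ^ l <
            I (a + 1) - I a
          rw [Nat.mul_comm]
          omega
        · show (k : ℕ) = acd l I a * 2 ^ l +
            ((p.2 : ℕ) * 2 ^ (l + (p.1 : ℕ)) + w) % 2 ^ (l + (p.1 : ℕ))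
          rw [hem]
          exact hk
      · rw [hV]
        refine ⟨⟨a, ha⟩, p, hap, rfl, hed.symm, ?_⟩
        show ((p.2 : ℕ) * 2 ^ (l + (p.1 : ℕ)) + w) % 2 ^ (l + (p.1 : ℕ)) < I (a + 1) - I a
        rw [hem]
        exact hw
  have hrk := h4 σ l (2 ^ (σ + 1 + l)) I PV hI0 hm hplace hP
  constructor
  · rintro ⟨k, hRk, hPk, hk⟩
    obtain ⟨a, p, hap, hi, hp2, ht, hka⟩ := (hR i e k).1 hRk
    obtain ⟨a', ha', w, hw, hk'⟩ := (hP k).1 hPk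
    have haa : (a : ℕ) = a' := by
      have q1 := acd_le (l := l) ht
      have hml := Nat.mod_lt (e : ℕ) hpl
      have hkd : (k : ℕ) / 2 ^ l = acd l I a + (e : ℕ) / 2 ^ l % 2 ^ (i : ℕ) := by
        have hkk : (k : ℕ) = (e : ℕ) % 2 ^ l +
            (acd l I a + (e : ℕ) / 2 ^ l % 2 ^ (i : ℕ)) * 2 ^ l := by
          rw [hka, hmodmul]
          ring
        rw [hkk, Nat.add_mul_div_right _ _ hpl, Nat.div_eq_of_lt hml, Nat.zero_add]
      have hkd' : (k : ℕ) / 2 ^ l = acd l I a' + w / 2 ^ l := by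
        have hkk : (k : ℕ) = w + acd l I a' * 2 ^ l := by
          rw [hk', Nat.add_comm]
          rfl
        rw [hkk, Nat.add_mul_div_right _ _ hpl, Nat.add_comm]
      have q2 := acd_le (l := l) (I := I) (a := a') (t := w / 2 ^ l)
        ((Nat.div_mul_le_self w (2 ^ l)).trans_lt hw)
      have q3 := Nat.zero_le (w / 2 ^ l)
      have q4 := Nat.zero_le ((e : ℕ) / 2 ^ l % 2 ^ (i : ℕ))
      generalize w / 2 ^ l = w1 at *
      generalize (e : ℕ) / 2 ^ l % 2 ^ (i : ℕ) = w2 at *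
      exact acd_inj (l := l) hm (d := (k : ℕ) / 2 ^ l) (by omega) (by omega) (by omega) (by omega)
    subst haa
    have hwe : w = (e : ℕ) % 2 ^ (l + (i : ℕ)) := by
      have : acd l I a * 2 ^ l + w = acd l I a * 2 ^ l + (e : ℕ) % 2 ^ (l + (i : ℕ)) := by
        rw [← hka]
        exact hk'.symm
      omega
    refine ⟨a, p, hap, hi, hp2, hwe ▸ hw, ?_⟩
    rw [← hwe, ← hk]
    exact hrk a w k a.isLt hw hk'
  · rintro ⟨a, p, hap, hi, hp2, hw, hρ⟩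
    have hlt := hplace a a.isLt _ hw
    have hRk : R1 (i, e) ⟨_, hlt⟩ := by
      rw [hR]
      refine ⟨a, p, hap, hi, hp2, ?_, rfl⟩
      have := hmodmul (i : ℕ) (e : ℕ)
      rw [Nat.mul_comm]
      omega
    refine ⟨⟨_, hlt⟩, hRk, ?_, ?_⟩
    · rw [hP]
      exact ⟨a, a.isLt, _, hw, rfl⟩
    · rw [hrk a _ ⟨_, hlt⟩ a.isLt hw rfl, hρ]

/-- The access network. -/
theorem tAcc (h1 : S_Acc1) (h2 : S_CR) (h3 : S_NvM) (h4 : S_RkL) : S_Acc := by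
  obtain ⟨c1, h1⟩ := h1
  obtain ⟨c2, h2⟩ := h2
  obtain ⟨c3, h3⟩ := h3
  refine ⟨3 * c1 + 2 * c2 + 4 * c3, ?_⟩
  intro σ γ l r hlr hl hr hσ
  obtain ⟨A, V, W, hAm, hVc, hWc, hcor⟩ := h1 σ γ l r hlr hl hr hσ
  obtain ⟨f, hfm, hf⟩ := h2 σ r
  -- renaming of the cells and places
  have e1 : 2 ^ σ * 2 ^ l = 2 ^ (σ + l) := (pow_add _ _ _).symm
  have e2 : 2 ^ (σ + 1) * 2 ^ l = 2 ^ (σ + 1 + l) := (pow_add _ _ _).symm
  let E1 : Fin (2 ^ (σ + l)) ≃ Fin (2 ^ σ) × Fin (2 ^ l) :=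
    (finCongr e1.symm).trans finProdFinEquiv.symm
  let eX : Fin (r + 1) × Fin (2 ^ (σ + l)) ≃ (Fin (r + 1) × Fin (2 ^ σ)) × Fin (2 ^ l) :=
    (Equiv.prodCongr (Equiv.refl _) E1).trans (Equiv.prodAssoc _ _ _).symm
  let eY : Fin (2 ^ (σ + 1 + l)) ≃ Fin (2 ^ (σ + 1)) × Fin (2 ^ l) :=
    (finCongr e2.symm).trans finProdFinEquiv.symm
  have heX1 : ∀ i e, ((eX (i, e)).1.1 = i) ∧ ((eX (i, e)).1.2 : ℕ) = e / 2 ^ l ∧
      ((eX (i, e)).2 : ℕ) = e % 2 ^ l := fun i e => ⟨rfl, rfl, rfl⟩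
  have heY1 : ∀ k, ((eY k).1 : ℕ) = k / 2 ^ l ∧ ((eY k).2 : ℕ) = k % 2 ^ l :=
    fun k => ⟨rfl, rfl⟩
  have M1 := (((hfm.pre hWc).lift (Fin (2 ^ l))).equiv eX eY)
  set R1 : (Fin (2 ^ σ + 1) × Fin (σ + γ + 1) → Bool) → Fin (r + 1) × Fin (2 ^ (σ + l)) →
    Fin (2 ^ (σ + 1 + l)) → Prop := fun x i j => f (W x) (eX i).1 (eY j).1 ∧ (eX i).2 = (eY j).2
    with hR1def
  have hVU : Cx (fun x => Sum.elim x (fun p : (Fin (r + 1) × Fin (2 ^ (σ + l))) × Unit => V x p.1))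
      (0 + c1 * ((σ + γ + 1) ^ 2 * 2 ^ σ + (σ + γ + 1) * 2 ^ (σ + l))) :=
    (Cx.proj (fun p : Fin (2 ^ σ + 1) × Fin (σ + γ + 1) => p)).pair
      (hVc.out (fun p : (Fin (r + 1) × Fin (2 ^ (σ + l))) × Unit => p.1))
  have hPVc := (hVU.comp (M1.cx Unit)).out (fun k : Fin (2 ^ (σ + 1 + l)) => (k, ()))
  have M2 := M1.comp hPVc (h3 (σ + 1 + l))
  -- sizes
  have hrγ : r ≤ γ := by omega
  have hlγ : l ≤ γ := by omega
  have a1 : (σ + r + 1) ^ 2 * 2 ^ σ ≤ (σ + γ + 1) ^ 2 * 2 ^ σ :=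
    Nat.mul_le_mul_right _ (Nat.pow_le_pow_left (by omega) 2)
  have a2 : (σ + r + 1) * 2 ^ σ * 2 ^ l ≤ (σ + γ + 1) * 2 ^ (σ + l) := by
    rw [Nat.mul_assoc, e1]
    exact Nat.mul_le_mul_right _ (by omega)
  have a3 : (σ + 1 + l + 1) * 2 ^ (σ + 1 + l) ≤ 4 * ((σ + γ + 1) * 2 ^ (σ + l)) := by
    have q1 : 2 ^ (σ + 1 + l) = 2 * 2 ^ (σ + l) := by
      rw [show σ + 1 + l = σ + l + 1 by omega, pow_succ]
      ring
    have q2 : (σ + 1 + l + 1) * 2 ^ (σ + l) ≤ (2 * (σ + γ + 1)) * 2 ^ (σ + l) :=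
      Nat.mul_le_mul_right _ (by omega)
    rw [q1]
    nlinarith
  refine ⟨A, _, hAm.mono ?_ ?_, M2.mono ?_ ?_, ?_⟩
  · exact Nat.mul_le_mul_right _ (by omega)
  · exact Nat.mul_le_mul_right _ (by omega)
  · rw [Fintype.card_fin, Fintype.card_unit]
    generalize (σ + γ + 1) ^ 2 * 2 ^ σ = u1 at *
    generalize (σ + γ + 1) * 2 ^ (σ + l) = u2 at *
    generalize (σ + 1 + l + 1) * 2 ^ (σ + 1 + l) = u3 at *
    generalize (σ + r + 1) ^ 2 * 2 ^ σ = u4 at *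
    have a2' : c2 * ((σ + r + 1) * 2 ^ σ) * 2 ^ l ≤ c2 * u2 := by
      rw [Nat.mul_assoc]
      exact Nat.mul_le_mul_left _ a2
    generalize c2 * ((σ + r + 1) * 2 ^ σ) * 2 ^ l = u5 at *
    have b1 := Nat.mul_le_mul_left c2 a1
    have b3 := Nat.mul_le_mul_left c3 a3
    have z1 := Nat.zero_le (c2 * u2)
    have z2 := Nat.zero_le (c3 * u1)
    nlinarith
  · rw [Fintype.card_fin]
    generalize (σ + γ + 1) * 2 ^ (σ + l) = u2 at *
    generalize (σ + 1 + l + 1) * 2 ^ (σ + 1 + l) = u3 at *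
    have a2' : c2 * ((σ + r + 1) * 2 ^ σ) * 2 ^ l ≤ c2 * u2 := by
      rw [Nat.mul_assoc]
      exact Nat.mul_le_mul_left _ a2
    have b3 := Nat.mul_le_mul_left c3 a3
    have z1 := Nat.zero_le (c2 * u2)
    have z2 := Nat.zero_le (c1 * u2)
    nlinarith
  · intro I hI
    obtain ⟨g1, g2, g3, g4, g5⟩ := hcor I hI
    refine ⟨g1, g2, fun i e ρ => ?_⟩
    refine acc_core (γ := γ) hσ h4 I hI (A (dig σ (σ + γ + 1) I)) g1 g2 (V (dig σ (σ + γ + 1) I)) g3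
      (W (dig σ (σ + γ + 1) I)) g4 g5 (f (W (dig σ (σ + γ + 1) I)))
      (hf (W (dig σ (σ + γ + 1) I))) (R1 (dig σ (σ + γ + 1) I)) ?_ _ ?_ i e ρ
    · intro i e k
      constructor
      · rintro ⟨q1, q2⟩
        exact ⟨(eX (i, e)).1.2, (eY k).1, (heX1 i e).2.1, (heY1 k).1, q1, congrArg Fin.val q2⟩
      · rintro ⟨c, j, hc, hj, hfc, hmod⟩
        have q1 : (eX (i, e)).1 = (i, c) := Prod.ext rfl (Fin.ext hc.symm)
        have q2 : (eY k).1 = j := Fin.ext hj.symm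
        refine ⟨?_, Fin.ext hmod⟩
        rw [q1, q2]
        exact hfc
    · intro k
      rw [mv_iff]
      rfl

end Pool.Agent.Lin
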