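import Pool.Agent.Lib.MP_76b24b_lcM.Spec2

/-!
# MP_76b24b_lc, package M: the slots, the valid cells and the chunks with their destinations
-/

set_option autoImplicit false

namespace Pool.Agent.Lin

open Finset

private theorem ac_num_testBit (k : ℕ) :
    ∀ m : ℕ, m < 2 ^ k → num (fun t : Fin k => m.testBit t) = m := by
  induction k with
  | zero =>
    intro m hm
    have : m = 0 := by simpa using hm
    subst this
    rfl
  | succ k ih =>
    intro m hm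
    have h0 : num (fun t : Fin (k + 1) => m.testBit t) =
        (if m.testBit ((0 : Fin (k + 1)) : ℕ) = true then 1 else 0) +
          2 * num (fun t : Fin k => (m / 2).testBit t) := by
      unfold num
      rw [Fin.sum_univ_succ, Finset.mul_sum]
      congr 1
      refine Finset.sum_congr rfl fun i _ => ?_
      show (if m.testBit ((i.succ : Fin (k + 1)) : ℕ) = true then
        2 ^ ((i.succ : Fin (k + 1)) : ℕ) else 0) =
        2 * if (m / 2).testBit (i : ℕ) = true then 2 ^ (i : ℕ) else 0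
      rw [Fin.val_succ, Nat.testBit_succ]
      split_ifs
      · rw [pow_succ, Nat.mul_comm]
      · rfl
    rw [h0, ih (m / 2) (by rw [pow_succ] at hm; omega), Fin.val_zero, Nat.testBit_zero]
    by_cases h3 : m % 2 = 1
    · rw [if_pos (by rw [h3]; rfl)]
      omega
    · rw [if_neg (by simpa using h3)]
      omega

private theorem ac_num_false {k : ℕ} (u : Fin k → Bool) (h : ∀ t, u t = false) : num u = 0 := by
  unfold num
  refine Finset.sum_eq_zero fun i _ => ?_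
  rw [h i]
  rfl

private theorem ac_tel (I : ℕ → ℕ) (h0 : I 0 = 0) (h : ∀ a, I a ≤ I (a + 1)) (n : ℕ) :
    ∑ a ∈ range n, (I (a + 1) - I a) = I n := by
  induction n with
  | zero => rw [Finset.sum_range_zero, h0]
  | succ n ih =>
    rw [Finset.sum_range_succ, ih]
    have := h n
    omega

private theorem ac_size (c1 c2 c3 σ γ l r : ℕ) (hl : l + r = γ + 1) :
    (c2 * ((σ + γ + 1) * 2 ^ σ)) +
      ((c2 * ((σ + γ + 1) * 2 ^ σ) + c1 * ((σ + l + r + 1) * 2 ^ σ)) +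
        c1 * 2 ^ σ * ((l + r) + (σ + 1))) +
      c3 * ((σ + 1) * (r + 1) * 2 ^ σ + (r + 1) * 2 ^ (σ + l)) ≤
    (4 * (c1 + c2 + c3)) * ((σ + γ + 1) ^ 2 * 2 ^ σ + (σ + γ + 1) * 2 ^ (σ + l)) := by
  have h1 : σ + l + r + 1 ≤ 2 * (σ + γ + 1) := by omega
  have h2 : (l + r) + (σ + 1) ≤ 2 * (σ + γ + 1) := by omega
  have h3 : σ + 1 ≤ σ + γ + 1 := by omega
  have h4 : r + 1 ≤ 2 * (σ + γ + 1) := by omega
  have h5 : 1 ≤ σ + γ + 1 := by omega
  generalize σ + γ + 1 = S at *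
  generalize 2 ^ (σ + l) = T
  generalize 2 ^ σ = U at *
  have hS : S ≤ S ^ 2 := by nlinarith
  have hSU : S * U ≤ S ^ 2 * U := Nat.mul_le_mul_right _ hS
  have e1 : c2 * (S * U) ≤ c2 * (S ^ 2 * U) := Nat.mul_le_mul_left _ hSU
  have e2 : c1 * ((σ + l + r + 1) * U) ≤ c1 * (2 * (S ^ 2 * U)) := by
    refine Nat.mul_le_mul_left _ ?_
    calc (σ + l + r + 1) * U ≤ 2 * S * U := Nat.mul_le_mul_right _ h1
      _ = 2 * (S * U) := by ring
      _ ≤ 2 * (S ^ 2 * U) := Nat.mul_le_mul_left _ hSU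
  have e3 : c1 * U * ((l + r) + (σ + 1)) ≤ c1 * (2 * (S ^ 2 * U)) := by
    calc c1 * U * ((l + r) + (σ + 1)) ≤ c1 * U * (2 * S) := Nat.mul_le_mul_left _ h2
      _ = c1 * (2 * (S * U)) := by ring
      _ ≤ c1 * (2 * (S ^ 2 * U)) := Nat.mul_le_mul_left _ (Nat.mul_le_mul_left _ hSU)
  have e4 : (σ + 1) * (r + 1) * U ≤ 2 * (S ^ 2 * U) := by
    calc (σ + 1) * (r + 1) * U ≤ S * (2 * S) * U :=
          Nat.mul_le_mul_right _ (Nat.mul_le_mul h3 h4)
      _ = 2 * (S ^ 2 * U) := by ring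
  have e5 : (r + 1) * T ≤ 2 * (S * T) := by
    calc (r + 1) * T ≤ 2 * S * T := Nat.mul_le_mul_right _ h4
      _ = 2 * (S * T) := by ring
  have e6 : c3 * ((σ + 1) * (r + 1) * U + (r + 1) * T) ≤
      c3 * (2 * (S ^ 2 * U) + 2 * (S * T)) := Nat.mul_le_mul_left _ (Nat.add_le_add e4 e5)
  generalize S ^ 2 * U = A at *
  generalize S * T = B at *
  nlinarith [Nat.zero_le (c1 * B), Nat.zero_le (c2 * B), Nat.zero_le (c2 * A),
    Nat.zero_le (c3 * A), Nat.zero_le (c3 * B), Nat.zero_le (c1 * A)]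

private theorem ac_size2 (c1 c2 c3 σ γ l r : ℕ) (hl : l + r = γ + 1) :
    c2 * ((σ + γ + 1) * 2 ^ σ) + c1 * ((σ + l + r + 1) * 2 ^ σ) ≤
      4 * (c1 + c2 + c3) * ((σ + γ + 1) * 2 ^ σ) := by
  have h : σ + l + r + 1 ≤ 2 * (σ + γ + 1) := by omega
  have h' : c1 * ((σ + l + r + 1) * 2 ^ σ) ≤ c1 * (2 * (σ + γ + 1) * 2 ^ σ) :=
    Nat.mul_le_mul_left _ (Nat.mul_le_mul_right _ h)
  generalize σ + γ + 1 = S at *
  generalize 2 ^ σ = U at *
  nlinarith [Nat.zero_le (c1 * (S * U)), Nat.zero_le (c2 * (S * U)),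
    Nat.zero_le (c3 * (S * U))]

theorem tAcc1 (h1 : S_Al) (h2 : S_Qk) (h3 : S_SK) : S_Acc1 := by
  obtain ⟨c1, h1⟩ := h1
  obtain ⟨c2, h2⟩ := h2
  obtain ⟨c3, h3⟩ := h3
  refine ⟨4 * (c1 + c2 + c3), fun σ γ l r hlr hl hr hσ => ?_⟩
  obtain ⟨A0, hA0, hA1⟩ := h1 r l σ hσ
  obtain ⟨G, hG, hG1⟩ := h2 σ γ l r hlr hr (by omega)
  obtain ⟨F, hF, hF1⟩ := h3 σ l r hl (by omega)
  have hAM : Mv (fun x => A0 (fun p => G x (p.1, Sum.inl p.2)))
      (c2 * ((σ + γ + 1) * 2 ^ σ) + c1 * ((σ + l + r + 1) * 2 ^ σ)) (c1 * 2 ^ σ) :=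
    Mv.pre (hG.out (fun p : Fin (2 ^ σ) × Fin (l + r) => (p.1, Sum.inl p.2))) hA0
  obtain ⟨A, hA⟩ : ∃ A : (Fin (2 ^ σ + 1) × Fin (σ + γ + 1) → Bool) → Fin (2 ^ σ) → Slot σ r → Prop,
      A = fun x => A0 (fun p => G x (p.1, Sum.inl p.2)) := ⟨_, rfl⟩
  rw [← hA] at hAM
  have hY : Cx (fun (x : Fin (2 ^ σ + 1) × Fin (σ + γ + 1) → Bool) =>
      (mv A (Sum.elim x (G x)) : Slot σ r × (Fin (l + r) ⊕ Fin (σ + 1)) → Bool))
      (c2 * ((σ + γ + 1) * 2 ^ σ) +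
        ((c2 * ((σ + γ + 1) * 2 ^ σ) + c1 * ((σ + l + r + 1) * 2 ^ σ)) +
          c1 * 2 ^ σ * ((l + r) + (σ + 1)))) := by
    have a := hG.keep.comp (hAM.cx (Fin (l + r) ⊕ Fin (σ + 1)))
    rwa [Fintype.card_sum, Fintype.card_fin, Fintype.card_fin] at a
  obtain ⟨y, hy⟩ : ∃ y : (Fin (2 ^ σ + 1) × Fin (σ + γ + 1) → Bool) →
      Slot σ r × (Fin (l + r) ⊕ Fin (σ + 1)) → Bool, y = fun x => mv A (Sum.elim x (G x)) :=
    ⟨_, rfl⟩
  have hyi : ∀ x p e, y x (p, e) = true ↔ ∃ a, A x a p ∧ G x (a, e) = true := by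
    intro x p e
    rw [hy]
    exact mv_iff A (Sum.elim x (G x)) (p, e)
  rw [← hy] at hY
  have hFY := (hY.comp hF).mono (ac_size c1 c2 c3 σ γ l r hlr)
  have hlt : ∀ e : Fin (2 ^ σ), (e : ℕ) * 2 ^ l < 2 ^ (σ + l) := fun e => by
    rw [pow_add]
    exact Nat.mul_lt_mul_of_pos_right e.isLt (Nat.two_pow_pos l)
  refine ⟨A, fun x p => F (y x) (Sum.inl p), fun x p => F (y x)
    (Sum.elim (fun _ : Unit => Sum.inl (p.1.1, ⟨(p.1.2 : ℕ) * 2 ^ l, hlt p.1.2⟩))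
      (fun t => Sum.inr (p.1, t)) p.2), ?_, ?_, ?_, ?_⟩
  · refine hAM.mono ?_ ?_
    · exact ac_size2 c1 c2 c3 σ γ l r hlr
    · refine Nat.mul_le_mul_right _ (by omega)
  · exact hFY.out (fun p => Sum.inl p)
  · exact hFY.out (fun p : (Fin (r + 1) × Fin (2 ^ σ)) × (Unit ⊕ Fin (σ + 1)) =>
      (Sum.elim (fun _ : Unit => Sum.inl (p.1.1, ⟨(p.1.2 : ℕ) * 2 ^ l, hlt p.1.2⟩))
        (fun t => Sum.inr (p.1, t)) p.2))
  intro I hI
  obtain ⟨hI0, hI1, hI2, hI3⟩ := hI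
  have hG2 := hG1 I ⟨hI0, hI1, hI2, hI3⟩
  have hmono : ∀ a b, a ≤ b → I a ≤ I b := fun a b hab => monotone_nat_of_le_succ hI1 hab
  obtain ⟨X, hX⟩ : ∃ X, X = dig σ (σ + γ + 1) I := ⟨_, rfl⟩
  rw [← hX] at hG2 ⊢
  have hq : ∀ a : Fin (2 ^ σ), num (fun t => G X (a, Sum.inl t)) = I (a + 1) - I a := by
    intro a
    have h : (fun t => G X (a, Sum.inl t)) = fun t : Fin (l + r) => (I (a + 1) - I a).testBit t :=
      funext fun t => (hG2 a).1 t
    rw [h]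
    refine ac_num_testBit _ _ ?_
    have h4 := hI2 a
    have h5 : 2 ^ γ < 2 ^ (l + r) := Nat.pow_lt_pow_right (by norm_num) (by omega)
    have h6 := Nat.two_pow_pos γ
    omega
  have hd : ∀ a : Fin (2 ^ σ), num (fun t => G X (a, Sum.inr t)) = (a : ℕ) + I a / 2 ^ l := by
    intro a
    have h : (fun t => G X (a, Sum.inr t)) =
        fun t : Fin (σ + 1) => ((a : ℕ) + I a / 2 ^ l).testBit t := funext fun t => (hG2 a).2 t
    rw [h]
    refine ac_num_testBit _ _ ?_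
    have h4 : I a ≤ 2 ^ (σ - 13 + l) := (hmono _ _ a.isLt.le).trans hI3
    have h5 : I a / 2 ^ l ≤ 2 ^ (σ - 13) := by
      calc I a / 2 ^ l ≤ 2 ^ (σ - 13 + l) / 2 ^ l := Nat.div_le_div_right h4
        _ = 2 ^ (σ - 13) := by rw [pow_add, Nat.mul_div_cancel _ (Nat.two_pow_pos l)]
    have h6 : 2 ^ (σ - 13) ≤ 2 ^ σ := Nat.pow_le_pow_right (by norm_num) (by omega)
    have h7 := a.isLt
    rw [pow_succ]
    omega
  obtain ⟨hPB, hlarge⟩ := hA1 (fun p => G X (p.1, Sum.inl p.2)) (by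
    have h : ∀ a : Fin (2 ^ σ), num (fun t => (fun p : Fin (2 ^ σ) × Fin (l + r) =>
        G X (p.1, Sum.inl p.2)) (a, t)) = I (a + 1) - I a := hq
    rw [Finset.sum_congr rfl fun a _ => h a, Finset.sum_range (fun a => I (a + 1) - I a) |>.symm,
      ac_tel I hI0 hI1]
    exact hI3)
  have hAX : A X = A0 (fun p => G X (p.1, Sum.inl p.2)) := by rw [hA]
  rw [← hAX] at hPB hlarge
  have hlarge' : ∀ a p, A X a p → I (a + 1) - I a < 2 ^ (l + (p.1 : ℕ)) := by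
    intro a p hap
    have h := hlarge a p hap
    have h' : num (fun t => (fun p : Fin (2 ^ σ) × Fin (l + r) =>
        G X (p.1, Sum.inl p.2)) (a, t)) = I (a + 1) - I a := hq a
    rwa [h'] at h
  obtain ⟨hP1, hP2, hP3, hP4⟩ := hPB
  -- the data at a slot
  have hyA : ∀ a p e, A X a p → y X (p, e) = G X (a, e) := by
    intro a p e hap
    rw [Bool.eq_iff_iff, hyi]
    constructor
    · rintro ⟨a', ha', hg⟩
      rw [hP4 a a' p hap ha']
      exact hg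
    · intro hg
      exact ⟨a, hap, hg⟩
  have hyN : ∀ p e, (¬ ∃ a, A X a p) → y X (p, e) = false := by
    intro p e hn
    rw [← Bool.not_eq_true, hyi]
    rintro ⟨a, ha, _⟩
    exact hn ⟨a, ha⟩
  have hnum : ∀ a p, A X a p → num (fun t => y X (p, Sum.inl t)) = I (a + 1) - I a := by
    intro a p hap
    rw [← hq a]
    exact congrArg num (funext fun t => hyA a p _ hap)
  have hnum' : ∀ a p, A X a p → num (fun t => y X (p, Sum.inr t)) = (a : ℕ) + I a / 2 ^ l := by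
    intro a p hap
    rw [← hd a]
    exact congrArg num (funext fun t => hyA a p _ hap)
  have hnumN : ∀ p, (¬ ∃ a, A X a p) → num (fun t => y X (p, Sum.inl t)) = 0 := by
    intro p hn
    exact ac_num_false _ fun t => hyN p _ hn
  have hsm : ∀ p : Slot σ r, num (fun t => y X (p, Sum.inl t)) < 2 ^ (l + (p.1 : ℕ)) := by
    intro p
    by_cases hn : ∃ a, A X a p
    · obtain ⟨a, ha⟩ := hn
      rw [hnum a p ha]
      exact hlarge' a p ha
    · rw [hnumN p hn]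
      exact Nat.two_pow_pos _
  have hslot : ∀ (i : Fin (r + 1)) (e : Fin (2 ^ (σ + l))),
      (e : ℕ) / 2 ^ (l + (i : ℕ)) < 2 ^ (σ - (i : ℕ)) := by
    intro i e
    rw [Nat.div_lt_iff_lt_mul (Nat.two_pow_pos _), ← pow_add]
    have h4 : σ - (i : ℕ) + (l + (i : ℕ)) = σ + l := by
      have := i.isLt
      omega
    rw [h4]
    exact e.isLt
  have hV : ∀ (i : Fin (r + 1)) (e : Fin (2 ^ (σ + l))), F (y X) (Sum.inl (i, e)) = true ↔
      ∃ a p, A X a p ∧ p.1 = i ∧ (p.2 : ℕ) = e / 2 ^ (l + (i : ℕ)) ∧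
        (e : ℕ) % 2 ^ (l + (i : ℕ)) < I (a + 1) - I a := by
    intro i e
    obtain ⟨p, hp⟩ : ∃ p : Slot σ r, p = ⟨i, ⟨(e : ℕ) / 2 ^ (l + (i : ℕ)), hslot i e⟩⟩ :=
      ⟨_, rfl⟩
    have hp1 : p.1 = i := by rw [hp]
    have hp2 : (p.2 : ℕ) = e / 2 ^ (l + (i : ℕ)) := by rw [hp]
    have h := (hF1 (y X) p (hsm p)).1 e (by rw [hp2, hp1])
    rw [hp1] at h
    rw [h, decide_eq_true_iff]
    constructor
    · intro hlt
      by_cases hn : ∃ a, A X a p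
      · obtain ⟨a, ha⟩ := hn
        rw [hnum a p ha] at hlt
        exact ⟨a, p, ha, hp1, hp2, hlt⟩
      · rw [hnumN p hn] at hlt
        exact absurd hlt (Nat.not_lt_zero _)
    · rintro ⟨a, p', ha, hp1', hp2', hlt⟩
      have hpp : p' = p := by
        obtain ⟨i', b⟩ := p'
        have hi : i' = i := hp1'
        subst hi
        rw [hp]
        have hb : b = ⟨(e : ℕ) / 2 ^ (l + (i' : ℕ)), hslot i' e⟩ := Fin.ext hp2'
        rw [hb]
      rw [hpp] at ha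
      rw [hnum a p ha]
      exact hlt
  refine ⟨⟨hP1, hP2, hP3, hP4⟩, hlarge', hV, ?_, ?_⟩
  · intro i e
    have h := hV i ⟨(e : ℕ) * 2 ^ l, hlt e⟩
    refine Iff.trans h ?_
    refine exists_congr fun a => exists_congr fun p => and_congr Iff.rfl (and_congr Iff.rfl ?_)
    have h5 : (e : ℕ) * 2 ^ l / 2 ^ (l + (i : ℕ)) = e / 2 ^ (i : ℕ) := by
      rw [pow_add, Nat.mul_comm (2 ^ l), Nat.mul_div_mul_right _ _ (Nat.two_pow_pos l)]
    have h6 : (e : ℕ) * 2 ^ l % 2 ^ (l + (i : ℕ)) = (e : ℕ) % 2 ^ (i : ℕ) * 2 ^ l := by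
      rw [pow_add, Nat.mul_comm (2 ^ l), Nat.mul_mod_mul_right]
    show (p.2 : ℕ) = (e : ℕ) * 2 ^ l / 2 ^ (l + (i : ℕ)) ∧
      (e : ℕ) * 2 ^ l % 2 ^ (l + (i : ℕ)) < I (a + 1) - I a ↔ _
    rw [h5, h6]
  · intro e t a p hap hpe
    show F (y X) (Sum.inr ((p.1, e), t)) = _
    rw [(hF1 (y X) p (hsm p)).2 e t hpe, hnum' a p hap]

end Pool.Agent.Lin
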