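import Pool.Agent.Lib.MP_76b24b_lcM.Spec2

/-!
# MP_76b24b_lc, package M: allocation of slots (`tAl`)
-/

set_option autoImplicit false

namespace Pool.Agent.Lin

open Finset

/-! ### Numbers -/

private theorem al_num_ge {K l : ℕ} (u : Fin K → Bool) (t : Fin K) (ht : u t = true)
    (hl : l ≤ t) : 2 ^ l ≤ num u := by
  unfold num
  have h1 := Finset.single_le_sum (f := fun i : Fin K => if u i = true then 2 ^ (i : ℕ) else 0)
    (fun i _ => Nat.zero_le _) (Finset.mem_univ t)
  rw [if_pos ht] at h1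
  exact (Nat.pow_le_pow_right (by norm_num) hl).trans h1

private theorem al_geom (l : ℕ) : ∑ i ∈ range l, 2 ^ i + 1 = 2 ^ l := by
  induction l with
  | zero => rfl
  | succ l ih =>
    rw [Finset.sum_range_succ, pow_succ]
    omega

private theorem al_num_lt {K l : ℕ} (u : Fin K → Bool) (h : ∀ t : Fin K, u t = true → (t : ℕ) < l) :
    num u < 2 ^ l := by
  have h1 : num u ≤ ∑ i : Fin K, (fun i : ℕ => if i < l then 2 ^ i else 0) (i : ℕ) := by
    unfold num
    refine Finset.sum_le_sum fun i _ => ?_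
    by_cases hu : u i = true
    · rw [if_pos hu]
      show 2 ^ (i : ℕ) ≤ if (i : ℕ) < l then 2 ^ (i : ℕ) else 0
      rw [if_pos (h i hu)]
    · rw [if_neg hu]
      exact Nat.zero_le _
  rw [Fin.sum_univ_eq_sum_range (fun i : ℕ => if i < l then 2 ^ i else 0) K,
    ← Finset.sum_filter] at h1
  have h2 : ∑ i ∈ (range K).filter (fun i => i < l), 2 ^ i ≤ ∑ i ∈ range l, 2 ^ i :=
    Finset.sum_le_sum_of_subset fun i hi => mem_range.2 (mem_filter.1 hi).2
  have h3 := al_geom l
  omega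

private theorem al_num_cast {m n : ℕ} (h : m = n) (u : Fin n → Bool) :
    num (fun t : Fin m => u (Fin.cast h t)) = num u := by
  subst h
  rfl

private theorem al_num_zero {k : ℕ} (u : Fin k → Bool) (h : ∀ t, u t = false) : num u = 0 := by
  unfold num
  refine Finset.sum_eq_zero fun i _ => ?_
  rw [h i]
  rfl

/-! ### Partial bijections -/

private theorem al_PB_equiv {X Y Y' : Type} {u : X → Prop} {R : X → Y → Prop} (h : PB u R)
    (e : Y' ≃ Y) : PB u (fun i j => R i (e j)) := by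
  obtain ⟨h1, h2, h3, h4⟩ := h
  refine ⟨fun i j hj => h1 i _ hj, fun i hi => ?_,
    fun i j j' hj hj' => e.injective (h3 i _ _ hj hj'), fun i i' j hj hj' => h4 i i' _ hj hj'⟩
  obtain ⟨j, hj⟩ := h2 i hi
  refine ⟨e.symm j, ?_⟩
  show R i (e (e.symm j))
  rw [e.apply_symm_apply]
  exact hj

private theorem al_PB_sum {X Y Z : Type} {u v : X → Prop} {R : X → Y → Prop} {S : X → Z → Prop}
    (hR : PB u R) (hS : PB v S) (h1 : ∀ i, u i ∨ v i) (h2 : ∀ i, u i → ¬ v i) :
    PB (fun _ => True) (fun i (j : Y ⊕ Z) => Sum.elim (fun j => R i j) (fun j => S i j) j) := by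
  refine ⟨fun _ _ _ => trivial, fun i _ => ?_, fun i j j' hj hj' => ?_, fun i i' j hj hj' => ?_⟩
  · rcases h1 i with h | h
    · obtain ⟨j, hj⟩ := hR.2.1 i h
      exact ⟨Sum.inl j, hj⟩
    · obtain ⟨j, hj⟩ := hS.2.1 i h
      exact ⟨Sum.inr j, hj⟩
  · rcases j with j | j
    · rcases j' with j' | j'
      · exact congrArg Sum.inl (hR.2.2.1 i j j' hj hj')
      · exact absurd (hS.1 i j' hj') (h2 i (hR.1 i j hj))
    · rcases j' with j' | j'
      · exact absurd (hS.1 i j hj) (h2 i (hR.1 i j' hj'))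
      · exact congrArg Sum.inr (hS.2.2.1 i j j' hj hj')
  · rcases j with j | j
    · exact hR.2.2.2 i i' j hj hj'
    · exact hS.2.2.2 i i' j hj hj'

private theorem al_PB_comp {X Y Z : Type} {u : X → Prop} {R : X → Y → Prop} {S : Y → Z → Prop}
    (hR : PB u R) (hS : PB (fun _ => True) S) : PB u (fun i k => ∃ j, R i j ∧ S j k) := by
  refine ⟨?_, ?_, ?_, ?_⟩
  · rintro i k ⟨j, h, -⟩
    exact hR.1 i j h
  · intro i hi
    obtain ⟨j, hj⟩ := hR.2.1 i hi
    obtain ⟨k, hk⟩ := hS.2.1 j trivial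
    exact ⟨k, j, hj, hk⟩
  · rintro i k k' ⟨j, h, h'⟩ ⟨j', g, g'⟩
    have : j = j' := hR.2.2.1 i j j' h g
    subst this
    exact hS.2.2.1 j k k' h' g'
  · rintro i i' k ⟨j, h, h'⟩ ⟨j', g, g'⟩
    have : j = j' := hS.2.2.2 j j' k h' g'
    subst this
    exact hR.2.2.2 i i' j h g

private theorem al_sum_le {X Y : Type} [Fintype X] [Fintype Y] (R : X → Y → Prop)
    (h3 : ∀ i j j', R i j → R i j' → j = j') (n : X → ℕ) (m : Y → ℕ)
    (hm : ∀ j, m j = 0 ∨ ∃ i, R i j ∧ m j = n i) : ∑ j, m j ≤ ∑ i, n i := by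
  classical
  have h1 : ∀ j, m j ≤ ∑ i, if R i j then n i else 0 := by
    intro j
    rcases hm j with h | ⟨i, hi, h⟩
    · rw [h]
      exact Nat.zero_le _
    · have h5 := Finset.single_le_sum (f := fun i => if R i j then n i else 0)
        (fun i _ => Nat.zero_le _) (mem_univ i)
      rw [if_pos hi] at h5
      rw [h]
      exact h5
  calc ∑ j, m j ≤ ∑ j, ∑ i, (if R i j then n i else 0) := sum_le_sum fun j _ => h1 j
    _ = ∑ i, ∑ j, (if R i j then n i else 0) := sum_comm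
    _ ≤ ∑ i, n i := by
      refine sum_le_sum fun i _ => ?_
      by_cases h : ∃ j, R i j
      · obtain ⟨j, hj⟩ := h
        rw [Finset.sum_eq_single j]
        · rw [if_pos hj]
        · intro b _ hb
          exact if_neg fun h' => hb (h3 i b j h' hj)
        · intro h
          exact absurd (mem_univ j) h
      · rw [Finset.sum_eq_zero]
        · exact Nat.zero_le _
        · intro j _
          exact if_neg fun h' => h ⟨j, h'⟩

/-! ### Slots -/

private theorem al_slot_ext {σ r : ℕ} {p q : Slot σ r} (h1 : (p.1 : ℕ) = q.1)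
    (h2 : (p.2 : ℕ) = q.2) : p = q := by
  obtain ⟨i, a⟩ := p
  obtain ⟨j, b⟩ := q
  have h : i = j := Fin.ext h1
  subst h
  have h' : a = b := Fin.ext h2
  rw [h']

private def al_e0 (σ : ℕ) : Slot σ 0 ≃ Fin (2 ^ σ) where
  toFun p := ⟨(p.2 : ℕ), p.2.isLt.trans_le (Nat.pow_le_pow_right (by norm_num) (Nat.sub_le _ _))⟩
  invFun a := ⟨0, ⟨(a : ℕ), a.isLt⟩⟩
  left_inv p := al_slot_ext (by
    show (0 : ℕ) = p.1
    have := p.1.isLt
    omega) rfl
  right_inv a := rfl

private def al_g (σ r : ℕ) : Fin (2 ^ σ) ⊕ Slot (σ - 1) r → Slot σ (r + 1)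
  | Sum.inl a => ⟨0, ⟨(a : ℕ), a.isLt⟩⟩
  | Sum.inr q => ⟨q.1.succ, ⟨(q.2 : ℕ), by
      have h := q.2.isLt
      have h1 : σ - 1 - (q.1 : ℕ) = σ - ((q.1.succ : Fin (r + 1 + 1)) : ℕ) := by
        rw [Fin.val_succ]
        omega
      exact h.trans_eq (by rw [h1])⟩⟩

private theorem al_g_bij (σ r : ℕ) : Function.Bijective (al_g σ r) := by
  constructor
  · rintro (a | p) (b | q) h
    · have h1 : (a : ℕ) = b := congrArg (fun s : Slot σ (r + 1) => (s.2 : ℕ)) h
      rw [Fin.ext h1]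
    · have h1 : (0 : ℕ) = (q.1.succ : Fin (r + 1 + 1)) :=
        congrArg (fun s : Slot σ (r + 1) => (s.1 : ℕ)) h
      rw [Fin.val_succ] at h1
      omega
    · have h1 : ((p.1.succ : Fin (r + 1 + 1)) : ℕ) = (0 : ℕ) :=
        congrArg (fun s : Slot σ (r + 1) => (s.1 : ℕ)) h
      rw [Fin.val_succ] at h1
      omega
    · have h1 : ((p.1.succ : Fin (r + 1 + 1)) : ℕ) = (q.1.succ : Fin (r + 1 + 1)) :=
        congrArg (fun s : Slot σ (r + 1) => (s.1 : ℕ)) h
      have h2 : (p.2 : ℕ) = q.2 := congrArg (fun s : Slot σ (r + 1) => (s.2 : ℕ)) h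
      rw [Fin.val_succ, Fin.val_succ] at h1
      exact congrArg Sum.inr (al_slot_ext (by omega) h2)
  · intro p
    by_cases h : (p.1 : ℕ) = 0
    · refine ⟨Sum.inl ⟨(p.2 : ℕ), p.2.isLt.trans_le
        (Nat.pow_le_pow_right (by norm_num) (Nat.sub_le _ _))⟩, ?_⟩
      exact al_slot_ext h.symm rfl
    · have h1 := p.1.isLt
      refine ⟨Sum.inr ⟨⟨(p.1 : ℕ) - 1, by omega⟩, ⟨(p.2 : ℕ), p.2.isLt.trans_eq ?_⟩⟩, ?_⟩
      · have h2 : σ - (p.1 : ℕ) = σ - 1 - ((p.1 : ℕ) - 1) := by omega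
        show 2 ^ (σ - (p.1 : ℕ)) = 2 ^ (σ - 1 - ((p.1 : ℕ) - 1))
        rw [h2]
      · refine al_slot_ext ?_ rfl
        show (p.1 : ℕ) - 1 + 1 = p.1
        omega

private noncomputable def al_e1 (σ r : ℕ) : Slot σ (r + 1) ≃ Fin (2 ^ σ) ⊕ Slot (σ - 1) r :=
  (Equiv.ofBijective (al_g σ r) (al_g_bij σ r)).symm

private theorem al_e1_g (σ r : ℕ) (y : Fin (2 ^ σ) ⊕ Slot (σ - 1) r) :
    al_e1 σ r (al_g σ r y) = y :=
  (Equiv.ofBijective (al_g σ r) (al_g_bij σ r)).symm_apply_apply y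

/-! ### The induction -/

/-- The high digits. -/
private def al_T (l r : ℕ) : Finset (Fin (l + (r + 1))) :=
  (univ : Finset (Fin (r + 1))).image (Fin.natAdd l)

private theorem al_T_card (l r : ℕ) : (al_T l r).card ≤ r + 1 :=
  Finset.card_image_le.trans (by rw [Finset.card_univ, Fintype.card_fin])

private theorem al_T_mem (l r : ℕ) (t : Fin (l + (r + 1))) : t ∈ al_T l r ↔ l ≤ (t : ℕ) := by
  unfold al_T
  rw [mem_image]
  constructor
  · rintro ⟨s, -, rfl⟩
    rw [Fin.val_natAdd]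
    omega
  · intro h
    have := t.isLt
    refine ⟨⟨(t : ℕ) - l, by omega⟩, mem_univ _, Fin.ext ?_⟩
    rw [Fin.val_natAdd]
    show l + ((t : ℕ) - l) = t
    omega

/-- OR. -/
private def al_or {ι : Type} (A : Finset ι) (x : ι → Bool) : Bool := decide (∃ a ∈ A, x a = true)

private theorem al_or_iff {ι : Type} (A : Finset ι) (x : ι → Bool) :
    al_or A x = true ↔ ∃ a ∈ A, x a = true := by
  unfold al_or
  exact decide_eq_true_iff

/-- The heavy superblocks. -/
private def al_H (σ l r : ℕ) (x : Fin (2 ^ σ) × Fin (l + (r + 1)) → Bool) (a : Fin (2 ^ σ)) : Bool :=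
  al_or (al_T l r) (fun t => x (a, t))

private theorem al_H_iff (σ l r : ℕ) (x : Fin (2 ^ σ) × Fin (l + (r + 1)) → Bool)
    (a : Fin (2 ^ σ)) : al_H σ l r x a = true ↔ 2 ^ l ≤ num (fun t => x (a, t)) := by
  unfold al_H
  rw [al_or_iff]
  constructor
  · rintro ⟨t, ht, hx⟩
    exact al_num_ge (fun t => x (a, t)) t hx ((al_T_mem l r t).1 ht)
  · intro h
    by_contra hc
    refine absurd h (not_le.2 (al_num_lt (fun t => x (a, t)) fun t ht => ?_))
    by_contra hl
    exact hc ⟨t, (al_T_mem l r t).2 (not_lt.1 hl), ht⟩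

private theorem al_H_cx (hOr : S_Or) (σ l r : ℕ) : Cx (al_H σ l r) (2 ^ σ * (r + 2)) := by
  have : Nonempty (Fin (l + (r + 1))) := ⟨⟨0, by omega⟩⟩
  have h1 := ((hOr (Fin (l + (r + 1))) (al_T l r)).blocks (α := Fin (2 ^ σ))).out
    (fun a : Fin (2 ^ σ) => (a, ()))
  refine (h1.mono ?_).congr fun x a => ?_
  · rw [Fintype.card_fin]
    exact Nat.mul_le_mul_left _ (Nat.succ_le_succ (al_T_card l r))
  · rfl

private theorem al_heavy (σ l r k : ℕ) (x : Fin (2 ^ σ) × Fin (l + (r + 1)) → Bool)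
    (h : ∑ a, num (fun t => x (a, t)) ≤ 2 ^ (k + l)) :
    (univ.filter fun a => al_H σ l r x a = true).card ≤ 2 ^ k := by
  have h1 : (univ.filter fun a => al_H σ l r x a = true).card * 2 ^ l ≤
      ∑ a ∈ univ.filter (fun a => al_H σ l r x a = true), num (fun t => x (a, t)) := by
    rw [← smul_eq_mul]
    refine Finset.card_nsmul_le_sum _ _ _ fun a ha => ?_
    exact (al_H_iff σ l r x a).1 (mem_filter.1 ha).2
  have h2 : ∑ a ∈ univ.filter (fun a => al_H σ l r x a = true), num (fun t => x (a, t)) ≤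
      ∑ a, num (fun t => x (a, t)) :=
    Finset.sum_le_sum_of_subset (Finset.filter_subset _ _)
  have h3 := (h1.trans h2).trans h
  rw [pow_add] at h3
  exact Nat.le_of_mul_le_mul_right h3 (Nat.two_pow_pos l)

theorem tAl (h1 : S_Half) (h2 : S_Or) : S_Al := by
  classical
  obtain ⟨c, hH⟩ := h1
  refine ⟨10 + 6 * c, fun r => ?_⟩
  induction r with
  | zero =>
    intro l σ _
    refine ⟨fun _ a p => a = al_e0 σ p, ?_, fun x _ => ⟨⟨fun _ _ _ => trivial, fun a _ =>
      ⟨(al_e0 σ).symm a, ((al_e0 σ).apply_symm_apply a).symm⟩, fun a p p' h h' =>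
      (al_e0 σ).injective (h.symm.trans h'), fun a a' p h h' => h.trans h'.symm⟩,
      fun a p _ => ?_⟩⟩
    · exact (Mv.refl.equiv (Equiv.refl _) (al_e0 σ)).mono (Nat.zero_le _) (Nat.zero_le _)
    · refine (al_num_lt (fun t => x (a, t)) fun t _ => ?_)
      have := t.isLt
      omega
  | succ r ih =>
    intro l σ hσ
    obtain ⟨f, hf1, hf2⟩ := hH (σ - 13) (2 ^ σ) (2 ^ (σ - 1)) (by congr 1; omega) (by congr 1; omega)
    obtain ⟨A', hA1, hA2⟩ := ih (l + 1) (σ - 1) (by omega)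
    have hHcx := al_H_cx h2 σ l r
    have hcast : l + 1 + r = l + (r + 1) := by omega
    -- the light superblocks
    have hne : Nonempty (Fin (2 ^ σ)) := ⟨⟨0, Nat.two_pow_pos σ⟩⟩
    have mL : Mv (fun (x : Fin (2 ^ σ) × Fin (l + (r + 1)) → Bool) (i j : Fin (2 ^ σ)) =>
        al_H σ l r x i = false ∧ i = j) (2 ^ σ * (r + 2) + 2 ^ σ) (4 * 2 ^ σ) := by
      have a1 := (hHcx.comp (Cx.layer (fun _ p _ => !p) (fun a : Fin (2 ^ σ) => a)
        (fun a => a))).out (fun p : Fin (2 ^ σ) × Fin 1 => p.1)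
      have a2 := Mv.base (Nat.zero_lt_one) (fun (i : Fin (2 ^ σ)) (_ : Fin 1) => i) a1
      refine (a2.mono ?_ ?_).congr fun x i j => ?_
      · rw [Fintype.card_fin]
      · rw [Fintype.card_fin]
        omega
      · constructor
        · rintro ⟨t, ht, hij⟩
          refine ⟨?_, hij⟩
          have ht' : (!al_H σ l r x i) = true := ht
          rwa [Bool.not_eq_true'] at ht'
        · rintro ⟨ht, hij⟩
          refine ⟨0, ?_, hij⟩
          show (!al_H σ l r x i) = true
          rw [ht]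
          rfl
    -- the heavy superblocks
    have m1 := hf1.pre hHcx
    obtain ⟨G, hG⟩ : ∃ G : (Fin (2 ^ σ) × Fin (l + (r + 1)) → Bool) →
        Fin (2 ^ (σ - 1)) × Fin (l + 1 + r) → Bool, G = fun x p =>
        mv (fun x => f (al_H σ l r x)) (fun q => x (Sum.elim id id q)) (p.1, Fin.cast hcast p.2) :=
      ⟨_, rfl⟩
    have hGcx : Cx G (2 ^ σ * (r + 2) + c * ((σ - 13 + 1) * 2 ^ (σ - 13)) +
        c * 2 ^ (σ - 13) * (l + (r + 1))) := by
      have a1 := ((m1.cx (Fin (l + (r + 1)))).inp (Sum.elim id id :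
        (Fin (2 ^ σ) × Fin (l + (r + 1))) ⊕ (Fin (2 ^ σ) × Fin (l + (r + 1))) →
          Fin (2 ^ σ) × Fin (l + (r + 1)))).out
        (fun p : Fin (2 ^ (σ - 1)) × Fin (l + 1 + r) => (p.1, Fin.cast hcast p.2))
      rw [Fintype.card_fin] at a1
      exact a1.congr fun x p => by rw [hG]
    have hGiff : ∀ x b t, G x (b, t) = true ↔
        ∃ i, f (al_H σ l r x) i b ∧ x (i, Fin.cast hcast t) = true := by
      intro x b t
      rw [hG]
      exact mv_iff _ _ _
    have m2 := m1.comp hGcx hA1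
    have m3 := (mL.sumY m2).equiv (Equiv.refl _) (al_e1 σ r)
    refine ⟨_, m3.mono ?_ ?_, fun x hx => ?_⟩
    · -- size of the control
      have e1 : 2 ^ σ = 2 * 2 ^ (σ - 1) := by
        rw [← pow_succ']
        congr 1
        omega
      have e2 : 2 ^ (σ - 13) ≤ 2 ^ (σ - 1) := Nat.pow_le_pow_right (by norm_num) (by omega)
      have b1 : 2 ^ σ * (r + 2) + 2 ^ σ ≤ 2 * (2 ^ (σ - 1) * (σ + l + r + 2)) := by
        have : 2 ^ σ * (r + 2) + 2 ^ σ = 2 * (2 ^ (σ - 1) * (r + 3)) := by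
          rw [e1]
          ring
        rw [this]
        exact Nat.mul_le_mul_left _ (Nat.mul_le_mul_left _ (by omega))
      have b2 : 2 ^ σ * (r + 2) ≤ 2 * (2 ^ (σ - 1) * (σ + l + r + 2)) :=
        (Nat.le_add_right _ _).trans b1
      have b3 : c * ((σ - 13 + 1) * 2 ^ (σ - 13)) ≤ c * (2 ^ (σ - 1) * (σ + l + r + 2)) := by
        rw [Nat.mul_comm (σ - 13 + 1)]
        exact Nat.mul_le_mul_left _ (Nat.mul_le_mul e2 (by omega))
      have b4 : c * 2 ^ (σ - 13) * (l + (r + 1)) ≤ c * (2 ^ (σ - 1) * (σ + l + r + 2)) := by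
        rw [Nat.mul_assoc]
        exact Nat.mul_le_mul_left _ (Nat.mul_le_mul e2 (by omega))
      have b5 : (10 + 6 * c) * ((σ - 1 + (l + 1) + r + 1) * 2 ^ (σ - 1)) ≤
          (10 + 6 * c) * (2 ^ (σ - 1) * (σ + l + r + 2)) := by
        rw [Nat.mul_comm (σ - 1 + (l + 1) + r + 1)]
        exact Nat.mul_le_mul_left _ (Nat.mul_le_mul_left _ (by omega))
      have b6 : (10 + 6 * c) * ((σ + l + (r + 1) + 1) * 2 ^ σ) =
          20 * (2 ^ (σ - 1) * (σ + l + r + 2)) + 12 * (c * (2 ^ (σ - 1) * (σ + l + r + 2))) := by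
        rw [e1]
        ring
      have b7 : (10 + 6 * c) * (2 ^ (σ - 1) * (σ + l + r + 2)) =
          10 * (2 ^ (σ - 1) * (σ + l + r + 2)) + 6 * (c * (2 ^ (σ - 1) * (σ + l + r + 2))) := by
        ring
      rw [b7] at b5
      rw [b6]
      omega
    · -- size of the network
      have e1 : 2 ^ σ = 2 * 2 ^ (σ - 1) := by
        rw [← pow_succ']
        congr 1
        omega
      have e2 : 2 ^ (σ - 13) ≤ 2 ^ (σ - 1) := Nat.pow_le_pow_right (by norm_num) (by omega)
      have b1 : c * 2 ^ (σ - 13) ≤ c * 2 ^ (σ - 1) := Nat.mul_le_mul_left _ e2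
      have b2 : (10 + 6 * c) * 2 ^ (σ - 1) = 10 * 2 ^ (σ - 1) + 6 * (c * 2 ^ (σ - 1)) := by ring
      have b3 : (10 + 6 * c) * 2 ^ σ = 20 * 2 ^ (σ - 1) + 12 * (c * 2 ^ (σ - 1)) := by
        rw [e1]
        ring
      rw [Fintype.card_fin, b2, b3, e1]
      omega
    · -- correctness
      have hk : 2 ^ (σ - 13 + l) ≤ 2 ^ (σ - 1 - 13 + (l + 1)) :=
        Nat.pow_le_pow_right (by norm_num) (by omega)
      have pf := hf2 (al_H σ l r x) (al_heavy σ l r (σ - 13) x hx)
      have hGx : ∀ i b, f (al_H σ l r x) i b → ∀ t, G x (b, t) = x (i, Fin.cast hcast t) := by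
        intro i b hib t
        rw [Bool.eq_iff_iff, hGiff]
        constructor
        · rintro ⟨i', hi', h'⟩
          rw [pf.2.2.2 i i' b hib hi']
          exact h'
        · intro h'
          exact ⟨i, hib, h'⟩
      have hGn : ∀ i b, f (al_H σ l r x) i b →
          num (fun t => G x (b, t)) = num (fun t => x (i, t)) := by
        intro i b hib
        have e : (fun t => G x (b, t)) = fun t : Fin (l + 1 + r) => x (i, Fin.cast hcast t) :=
          funext fun t => hGx i b hib t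
        rw [e]
        exact al_num_cast hcast (fun t => x (i, t))
      have hsum : ∑ b, num (fun t => G x (b, t)) ≤ 2 ^ (σ - 1 - 13 + (l + 1)) := by
        refine le_trans (al_sum_le (f (al_H σ l r x)) pf.2.2.1 (fun a => num (fun t => x (a, t)))
          (fun b => num (fun t => G x (b, t))) fun b => ?_) (hx.trans hk)
        by_cases hb : ∃ i, f (al_H σ l r x) i b
        · obtain ⟨i, hi⟩ := hb
          exact Or.inr ⟨i, hi, hGn i b hi⟩
        · refine Or.inl (al_num_zero _ fun t => ?_)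
          rw [← Bool.not_eq_true]
          intro h'
          obtain ⟨i, hi, -⟩ := (hGiff x b t).1 h'
          exact hb ⟨i, hi⟩
      obtain ⟨pA, nA⟩ := hA2 (G x) hsum
      have pL : PB (fun i => al_H σ l r x i = false)
          (fun (i j : Fin (2 ^ σ)) => al_H σ l r x i = false ∧ i = j) :=
        ⟨fun i j h => h.1, fun i h => ⟨i, h, rfl⟩, fun i j j' h h' => h.2.symm.trans h'.2,
          fun i i' j h h' => h.2.trans h'.2.symm⟩
      refine ⟨al_PB_equiv (al_PB_sum pL (al_PB_comp pf pA) (fun i => ?_) fun i h h' => ?_)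
        (al_e1 σ r), fun a p hap => ?_⟩
      · cases al_H σ l r x i
        · exact Or.inl rfl
        · exact Or.inr rfl
      · rw [h] at h'
        exact absurd h' (by decide)
      · obtain ⟨y, rfl⟩ := (al_g_bij σ r).2 p
        have hap' : Sum.elim (fun j => al_H σ l r x a = false ∧ a = j)
            (fun k => ∃ j, f (al_H σ l r x) a j ∧ A' (G x) j k) y := by
          have h5 := hap
          simp only [Equiv.refl_apply, al_e1_g] at h5
          exact h5
        rcases y with j | q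
        · have h6 : al_H σ l r x a = false := hap'.1
          show num (fun t => x (a, t)) < 2 ^ (l + 0)
          by_contra h7
          have h8 := (al_H_iff σ l r x a).2 (not_lt.1 h7)
          rw [h6] at h8
          exact absurd h8 (by decide)
        · obtain ⟨j, h6, h7⟩ := hap'
          have h8 := nA j q h7
          rw [hGn a j h6] at h8
          show num (fun t => x (a, t)) < 2 ^ (l + ((q.1 : ℕ) + 1))
          have h9 : l + ((q.1 : ℕ) + 1) = l + 1 + (q.1 : ℕ) := by omega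
          rw [h9]
          exact h8

end Pool.Agent.Lin
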