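import Pool.Agent.Lib.MP_76b24b_lcL.Or

/-!
# MP_76b24b_lc, package M: networks which move data (in both directions)

`Mv f s t`: the relation `f x` (which slot of `X` is connected with which slot of `Y`) depends on the
control input `x`; the switches are computed with `s` gates, and then data of any width are moved
with `t` gates for each bit, from `X` to `Y` and also from `Y` to `X`.
-/

set_option autoImplicit false

namespace Pool.Agent.Lin

open Finset

section Base2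

variable {ι κ ι' X Y Z X' Y' U τ : Type}

/-- The data at the slots of `X` are moved along `g` to the slots of `Y`. -/
noncomputable def mv {δ : Type} (g : (κ → Bool) → X → Y → Prop) (z : κ ⊕ (X × δ) → Bool)
    (p : Y × δ) : Bool :=
  @decide (∃ i, g (fun c => z (Sum.inl c)) i p.1 ∧ z (Sum.inr (i, p.2)) = true)
    (Classical.propDecidable _)

theorem mv_iff {δ : Type} (g : (κ → Bool) → X → Y → Prop) (z : κ ⊕ (X × δ) → Bool) (p : Y × δ) :
    mv g z p = true ↔ ∃ i, g (fun c => z (Sum.inl c)) i p.1 ∧ z (Sum.inr (i, p.2)) = true := by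
  unfold mv
  exact @decide_eq_true_iff _ (Classical.propDecidable _)

/-- The transposed relation. -/
def tr (g : (κ → Bool) → X → Y → Prop) : (κ → Bool) → Y → X → Prop := fun c j i => g c i j

/-- A network: control with `s` gates, `t` gates for each bit of the data. -/
def Mv (f : (ι → Bool) → X → Y → Prop) (s t : ℕ) : Prop :=
  ∃ (κ : Type) (ctl : (ι → Bool) → κ → Bool) (g : (κ → Bool) → X → Y → Prop),
    Cx ctl s ∧ (∀ x i j, g (ctl x) i j ↔ f x i j) ∧
    ∀ (δ : Type) [Fintype δ],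
      Cx (mv g : (κ ⊕ (X × δ) → Bool) → Y × δ → Bool) (t * Fintype.card δ) ∧
      Cx (mv (tr g) : (κ ⊕ (Y × δ) → Bool) → X × δ → Bool) (t * Fintype.card δ)

/-- `R` is a bijection of the elements of `X` with `u` and some elements of `Y`. -/
def PB (u : X → Prop) (R : X → Y → Prop) : Prop :=
  (∀ i j, R i j → u i) ∧ (∀ i, u i → ∃ j, R i j) ∧ (∀ i j j', R i j → R i j' → j = j') ∧
    ∀ i i' j, R i j → R i' j → i = i'

/-- An empty set of outputs. -/
theorem Cx.empty {κ' : Type} [IsEmpty κ'] (F : (ι → Bool) → κ' → Bool) (s : ℕ) : Cx F s :=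
  ⟨0, Nat.zero_le _, fun g => g.elim0, fun g => g.elim0, fun g => g.elim0,
    fun j => isEmptyElim j, fun g => g.elim0, fun g => g.elim0, fun _ _ _ _ j => isEmptyElim j⟩

theorem Mv.mono {f : (ι → Bool) → X → Y → Prop} {s t s' t' : ℕ} (h : Mv f s t) (hs : s ≤ s')
    (ht : t ≤ t') : Mv f s' t' := by
  obtain ⟨κ, ctl, g, h1, h2, h3⟩ := h
  exact ⟨κ, ctl, g, h1.mono hs, h2, fun δ _ => ⟨(h3 δ).1.mono (Nat.mul_le_mul_right _ ht),
    (h3 δ).2.mono (Nat.mul_le_mul_right _ ht)⟩⟩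

theorem Mv.congr {f f' : (ι → Bool) → X → Y → Prop} {s t : ℕ} (h : Mv f s t)
    (he : ∀ x i j, f x i j ↔ f' x i j) : Mv f' s t := by
  obtain ⟨κ, ctl, g, h1, h2, h3⟩ := h
  exact ⟨κ, ctl, g, h1, fun x i j => (h2 x i j).trans (he x i j), h3⟩

theorem Mv.symm {f : (ι → Bool) → X → Y → Prop} {s t : ℕ} (h : Mv f s t) : Mv (tr f) s t := by
  obtain ⟨κ, ctl, g, h1, h2, h3⟩ := h
  exact ⟨κ, ctl, tr g, h1, fun x i j => h2 x j i, fun δ _ => ⟨(h3 δ).2, (h3 δ).1⟩⟩

/-- The identity. -/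
theorem Mv.refl : Mv (fun (_ : ι → Bool) (i j : X) => i = j) 0 0 := by
  refine ⟨Empty, fun _ c => c.elim, fun _ i j => i = j, Cx.empty _ _, fun _ _ _ => Iff.rfl,
    fun δ _ => ⟨?_, ?_⟩⟩
  · refine ((Cx.proj (fun p : X × δ => (Sum.inr p : Empty ⊕ (X × δ)))).mono
      (Nat.zero_le _)).congr fun z p => ?_
    rw [Bool.eq_iff_iff, mv_iff]
    constructor
    · intro h
      exact ⟨p.1, rfl, h⟩
    · rintro ⟨i, hi, h⟩
      have : i = p.1 := hi
      rw [this] at h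
      exact h
  · refine ((Cx.proj (fun p : X × δ => (Sum.inr p : Empty ⊕ (X × δ)))).mono
      (Nat.zero_le _)).congr fun z p => ?_
    rw [Bool.eq_iff_iff, mv_iff]
    constructor
    · intro h
      exact ⟨p.1, rfl, h⟩
    · rintro ⟨i, hi, h⟩
      have : p.1 = i := hi
      rw [← this] at h
      exact h

/-- The circuit which moves the data `δ` from `X` to `Y`. -/
theorem Mv.cx {f : (ι → Bool) → X → Y → Prop} {s t : ℕ} (h : Mv f s t) (δ : Type) [Fintype δ] :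
    Cx (mv f : (ι ⊕ (X × δ) → Bool) → Y × δ → Bool) (s + t * Fintype.card δ) := by
  obtain ⟨κ, ctl, g, h1, h2, h3⟩ := h
  have a := ((h1.inp (Sum.inl : ι → ι ⊕ (X × δ))).pair
    (Cx.proj (Sum.inr : X × δ → ι ⊕ (X × δ)))).comp (h3 δ).1
  refine (a.mono (by omega)).congr fun z p => ?_
  rw [Bool.eq_iff_iff, mv_iff, mv_iff]
  refine exists_congr fun i => and_congr ?_ Iff.rfl
  exact h2 (fun c => z (Sum.inl c)) i p.1

/-- The circuit which moves the data `δ` from `Y` to `X`. -/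
theorem Mv.cxT {f : (ι → Bool) → X → Y → Prop} {s t : ℕ} (h : Mv f s t) (δ : Type) [Fintype δ] :
    Cx (mv (tr f) : (ι ⊕ (Y × δ) → Bool) → X × δ → Bool) (s + t * Fintype.card δ) :=
  h.symm.cx δ

/-- The control input is computed by a circuit. -/
theorem Mv.pre {f : (ι' → Bool) → X → Y → Prop} {G : (ι → Bool) → ι' → Bool} {s t u : ℕ}
    (hG : Cx G u) (h : Mv f s t) : Mv (fun x => f (G x)) (u + s) t := by
  obtain ⟨κ, ctl, g, h1, h2, h3⟩ := h
  exact ⟨κ, fun x => ctl (G x), g, hG.comp h1, fun x i j => h2 (G x) i j, h3⟩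

/-- Renaming of the control inputs. -/
theorem Mv.inp {f : (ι → Bool) → X → Y → Prop} {s t : ℕ} (h : Mv f s t) (ρ : ι → ι') :
    Mv (fun x : ι' → Bool => f fun i => x (ρ i)) s t := by
  have := h.pre (Cx.proj ρ)
  rwa [Nat.zero_add] at this

/-- Composition. The control input of the second network may depend on everything. -/
theorem Mv.comp {f : (ι → Bool) → X → Y → Prop} {G : (ι → Bool) → ι' → Bool}
    {f' : (ι' → Bool) → Y → Z → Prop} {s t u s' t' : ℕ} (h : Mv f s t) (hG : Cx G u)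
    (h' : Mv f' s' t') :
    Mv (fun x i k => ∃ j, f x i j ∧ f' (G x) j k) (s + (u + s')) (t + t') := by
  obtain ⟨κ, ctl, g, h1, h2, h3⟩ := h
  obtain ⟨κ', ctl', g', h1', h2', h3'⟩ := h'
  have key : ∀ (X Y Z : Type) (g : (κ → Bool) → X → Y → Prop) (g' : (κ' → Bool) → Y → Z → Prop),
      (∀ (δ : Type) [Fintype δ],
        Cx (mv g : (κ ⊕ (X × δ) → Bool) → Y × δ → Bool) (t * Fintype.card δ)) →
      (∀ (δ : Type) [Fintype δ],
        Cx (mv g' : (κ' ⊕ (Y × δ) → Bool) → Z × δ → Bool) (t' * Fintype.card δ)) →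
      ∀ (δ : Type) [Fintype δ], Cx (mv (fun (c : κ ⊕ κ' → Bool) i k => ∃ j,
        g (fun e => c (Sum.inl e)) i j ∧ g' (fun e => c (Sum.inr e)) j k) :
          ((κ ⊕ κ') ⊕ (X × δ) → Bool) → Z × δ → Bool) ((t + t') * Fintype.card δ) := by
    intro X Y Z g g' h3 h3' δ _
    have a := (h3 δ).inp (Sum.elim (fun c => Sum.inl (Sum.inl c)) (fun p => Sum.inr p) :
      κ ⊕ (X × δ) → (κ ⊕ κ') ⊕ (X × δ))
    have b := ((Cx.proj (fun c => Sum.inl (Sum.inr c) : κ' → (κ ⊕ κ') ⊕ (X × δ))).pair a).comp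
      (h3' δ)
    refine (b.mono (by rw [Nat.add_mul]; omega)).congr fun z p => ?_
    rw [Bool.eq_iff_iff, mv_iff, mv_iff]
    have e := fun j => mv_iff g (fun q => z ((Sum.elim (fun c => Sum.inl (Sum.inl c))
      (fun p => Sum.inr p) : κ ⊕ (X × δ) → (κ ⊕ κ') ⊕ (X × δ)) q)) (j, p.2)
    constructor
    · rintro ⟨j, hj, hz⟩
      obtain ⟨i, hi, hz'⟩ := (e j).1 hz
      exact ⟨i, ⟨j, hi, hj⟩, hz'⟩
    · rintro ⟨i, ⟨j, hi, hj⟩, hz⟩
      exact ⟨j, hj, (e j).2 ⟨i, hi, hz⟩⟩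
  refine ⟨κ ⊕ κ', fun x => Sum.elim (ctl x) (ctl' (G x)), fun c i k => ∃ j,
    g (fun e => c (Sum.inl e)) i j ∧ g' (fun e => c (Sum.inr e)) j k, h1.pair (hG.comp h1'),
    fun x i k => exists_congr fun j => and_congr (h2 x i j) (h2' (G x) j k), fun δ _ => ⟨?_, ?_⟩⟩
  · exact key X Y Z g g' (fun δ _ => (h3 δ).1) (fun δ _ => (h3' δ).1) δ
  · have key2 : ∀ (δ : Type) [Fintype δ], Cx (mv (fun (c : κ ⊕ κ' → Bool) i k => ∃ j,
        tr g' (fun e => c (Sum.inr e)) i j ∧ tr g (fun e => c (Sum.inl e)) j k) :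
          ((κ ⊕ κ') ⊕ (Z × δ) → Bool) → X × δ → Bool) ((t + t') * Fintype.card δ) := by
      intro δ _
      have a := (h3' δ).2.inp (Sum.elim (fun c => Sum.inl (Sum.inr c)) (fun p => Sum.inr p) :
        κ' ⊕ (Z × δ) → (κ ⊕ κ') ⊕ (Z × δ))
      have b := ((Cx.proj (fun c => Sum.inl (Sum.inl c) : κ → (κ ⊕ κ') ⊕ (Z × δ))).pair a).comp
        (h3 δ).2
      refine (b.mono (by rw [Nat.add_mul]; omega)).congr fun z p => ?_
      rw [Bool.eq_iff_iff, mv_iff, mv_iff]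
      have e := fun j => mv_iff (tr g') (fun q => z ((Sum.elim (fun c => Sum.inl (Sum.inr c))
        (fun p => Sum.inr p) : κ' ⊕ (Z × δ) → (κ ⊕ κ') ⊕ (Z × δ)) q)) (j, p.2)
      constructor
      · rintro ⟨j, hj, hz⟩
        obtain ⟨i, hi, hz'⟩ := (e j).1 hz
        exact ⟨i, ⟨j, hi, hj⟩, hz'⟩
      · rintro ⟨i, ⟨j, hi, hj⟩, hz⟩
        exact ⟨j, hj, (e j).2 ⟨i, hi, hz⟩⟩
    refine (key2 δ).congr fun z p => ?_
    rw [Bool.eq_iff_iff, mv_iff, mv_iff]
    refine exists_congr fun i => and_congr ?_ Iff.rfl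
    exact exists_congr fun j => and_comm

/-- Renaming of the slots. -/
theorem Mv.equiv {f : (ι → Bool) → X → Y → Prop} {s t : ℕ} (h : Mv f s t) (eX : X' ≃ X)
    (eY : Y' ≃ Y) : Mv (fun x i j => f x (eX i) (eY j)) s t := by
  obtain ⟨κ, ctl, g, h1, h2, h3⟩ := h
  have key : ∀ (X Y X' Y' : Type) (eX : X' ≃ X) (eY : Y' ≃ Y) (g : (κ → Bool) → X → Y → Prop),
      (∀ (δ : Type) [Fintype δ],
        Cx (mv g : (κ ⊕ (X × δ) → Bool) → Y × δ → Bool) (t * Fintype.card δ)) →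
      ∀ (δ : Type) [Fintype δ], Cx (mv (fun (c : κ → Bool) i j => g c (eX i) (eY j)) :
          (κ ⊕ (X' × δ) → Bool) → Y' × δ → Bool) (t * Fintype.card δ) := by
    intro X Y X' Y' eX eY g h3 δ _
    have a := ((h3 δ).inp (Sum.elim Sum.inl (fun p => Sum.inr (eX.symm p.1, p.2)) :
      κ ⊕ (X × δ) → κ ⊕ (X' × δ))).out (fun p : Y' × δ => (eY p.1, p.2))
    refine a.congr fun z p => ?_
    rw [Bool.eq_iff_iff, mv_iff, mv_iff]
    constructor
    · rintro ⟨i, hi, hz⟩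
      refine ⟨eX.symm i, ?_, hz⟩
      rw [Equiv.apply_symm_apply]
      exact hi
    · rintro ⟨i, hi, hz⟩
      refine ⟨eX i, hi, ?_⟩
      show z (Sum.inr (eX.symm (eX i), p.2)) = true
      rw [Equiv.symm_apply_apply]
      exact hz
  exact ⟨κ, ctl, fun c i j => g c (eX i) (eY j), h1, fun x i j => h2 x (eX i) (eY j),
    fun δ _ => ⟨key X Y X' Y' eX eY g (fun δ _ => (h3 δ).1) δ,
      key Y X Y' X' eY eX (tr g) (fun δ _ => (h3 δ).2) δ⟩⟩

/-- Every slot is replaced by a block `U` of slots which move together. -/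
theorem Mv.lift {f : (ι → Bool) → X → Y → Prop} {s t : ℕ} (h : Mv f s t) (U : Type) [Fintype U] :
    Mv (fun x (i : X × U) (j : Y × U) => f x i.1 j.1 ∧ i.2 = j.2) s (t * Fintype.card U) := by
  obtain ⟨κ, ctl, g, h1, h2, h3⟩ := h
  have key : ∀ (X Y : Type) (g : (κ → Bool) → X → Y → Prop),
      (∀ (δ : Type) [Fintype δ],
        Cx (mv g : (κ ⊕ (X × δ) → Bool) → Y × δ → Bool) (t * Fintype.card δ)) →
      ∀ (δ : Type) [Fintype δ], Cx (mv (fun (c : κ → Bool) (i : X × U) (j : Y × U) =>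
        g c i.1 j.1 ∧ i.2 = j.2) : (κ ⊕ ((X × U) × δ) → Bool) → (Y × U) × δ → Bool)
          (t * Fintype.card U * Fintype.card δ) := by
    intro X Y g h3 δ _
    have a := ((h3 (U × δ)).inp (Sum.elim Sum.inl (fun p => Sum.inr ((p.1, p.2.1), p.2.2)) :
      κ ⊕ (X × (U × δ)) → κ ⊕ ((X × U) × δ))).out
      (fun p : (Y × U) × δ => (p.1.1, (p.1.2, p.2)))
    rw [Fintype.card_prod, ← Nat.mul_assoc] at a
    refine a.congr fun z p => ?_
    rw [Bool.eq_iff_iff, mv_iff, mv_iff]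
    constructor
    · rintro ⟨i, hi, hz⟩
      exact ⟨(i, p.1.2), ⟨hi, rfl⟩, hz⟩
    · rintro ⟨⟨i, u⟩, ⟨hi, rfl⟩, hz⟩
      exact ⟨i, hi, hz⟩
  refine ⟨κ, ctl, fun c i j => g c i.1 j.1 ∧ i.2 = j.2, h1,
    fun x i j => and_congr (h2 x i.1 j.1) Iff.rfl, fun δ _ => ⟨key X Y g (fun δ _ => (h3 δ).1) δ,
      (key Y X (tr g) (fun δ _ => (h3 δ).2) δ).congr fun z p => ?_⟩⟩
  rw [Bool.eq_iff_iff, mv_iff, mv_iff]
  refine exists_congr fun i => and_congr (and_congr Iff.rfl eq_comm) Iff.rfl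

/-- Independent copies. -/
theorem Mv.blocks {f : (ι → Bool) → X → Y → Prop} {s t : ℕ} (h : Mv f s t) (α : Type)
    [Fintype α] : Mv (fun (x : α × ι → Bool) (i : α × X) (j : α × Y) =>
      i.1 = j.1 ∧ f (fun e => x (i.1, e)) i.2 j.2) (Fintype.card α * s) (Fintype.card α * t) := by
  obtain ⟨κ, ctl, g, h1, h2, h3⟩ := h
  have key : ∀ (X Y : Type) (g : (κ → Bool) → X → Y → Prop),
      (∀ (δ : Type) [Fintype δ],
        Cx (mv g : (κ ⊕ (X × δ) → Bool) → Y × δ → Bool) (t * Fintype.card δ)) →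
      ∀ (δ : Type) [Fintype δ], Cx (mv (fun (c : α × κ → Bool) (i : α × X) (j : α × Y) =>
        i.1 = j.1 ∧ g (fun e => c (i.1, e)) i.2 j.2) :
          ((α × κ) ⊕ ((α × X) × δ) → Bool) → (α × Y) × δ → Bool)
          (Fintype.card α * t * Fintype.card δ) := by
    intro X Y g h3 δ _
    have a := (Cx.fam (fun (a : α) (z : (α × κ) ⊕ ((α × X) × δ) → Bool) =>
        mv g (fun q => z (Sum.elim (fun c => Sum.inl (a, c)) (fun p => Sum.inr ((a, p.1), p.2)) q)))
      (fun _ => t * Fintype.card δ) (fun a => (h3 δ).inp _)).out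
      (fun p : (α × Y) × δ => (p.1.1, (p.1.2, p.2)))
    rw [Finset.sum_const, smul_eq_mul, Finset.card_univ, ← Nat.mul_assoc] at a
    refine a.congr fun z p => ?_
    rw [Bool.eq_iff_iff, mv_iff, mv_iff]
    constructor
    · rintro ⟨i, hi, hz⟩
      exact ⟨(p.1.1, i), ⟨rfl, hi⟩, hz⟩
    · rintro ⟨⟨a, i⟩, ⟨ha, hi⟩, hz⟩
      have ha' : a = p.1.1 := ha
      subst ha'
      exact ⟨i, hi, hz⟩
  refine ⟨α × κ, fun x p => ctl (fun e => x (p.1, e)) p.2, fun c i j =>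
    i.1 = j.1 ∧ g (fun e => c (i.1, e)) i.2 j.2, h1.blocks, fun x i j =>
      and_congr Iff.rfl (h2 (fun e => x (i.1, e)) i.2 j.2),
    fun δ _ => ⟨key X Y g (fun δ _ => (h3 δ).1) δ,
      (key Y X (tr g) (fun δ _ => (h3 δ).2) δ).congr fun z p => ?_⟩⟩
  rw [Bool.eq_iff_iff, mv_iff, mv_iff]
  refine exists_congr fun i => and_congr ⟨?_, ?_⟩ Iff.rfl
  · rintro ⟨h, h'⟩
    refine ⟨h.symm, ?_⟩
    rw [← h]
    exact h'
  · rintro ⟨h, h'⟩
    refine ⟨h.symm, ?_⟩
    show g _ _ _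
    rw [← h]
    exact h'

/-- Two networks with the same sources. -/
theorem Mv.sumY [Fintype X] {f : (ι → Bool) → X → Y → Prop} {f' : (ι → Bool) → X → Y' → Prop}
    {s t s' t' : ℕ} (h : Mv f s t) (h' : Mv f' s' t') :
    Mv (fun x (i : X) (j : Y ⊕ Y') => Sum.elim (fun j => f x i j) (fun j => f' x i j) j)
      (s + s') (t + t' + Fintype.card X) := by
  obtain ⟨κ, ctl, g, h1, h2, h3⟩ := h
  obtain ⟨κ', ctl', g', h1', h2', h3'⟩ := h'
  refine ⟨κ ⊕ κ', fun x => Sum.elim (ctl x) (ctl' x), fun c i j =>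
    Sum.elim (fun j => g (fun e => c (Sum.inl e)) i j) (fun j => g' (fun e => c (Sum.inr e)) i j) j,
    h1.pair h1', fun x i j => ?_, fun δ _ => ⟨?_, ?_⟩⟩
  · rcases j with j | j
    · exact h2 x i j
    · exact h2' x i j
  · have a := (h3 δ).1.inp (Sum.elim (fun c => Sum.inl (Sum.inl c)) (fun p => Sum.inr p) :
      κ ⊕ (X × δ) → (κ ⊕ κ') ⊕ (X × δ))
    have b := (h3' δ).1.inp (Sum.elim (fun c => Sum.inl (Sum.inr c)) (fun p => Sum.inr p) :
      κ' ⊕ (X × δ) → (κ ⊕ κ') ⊕ (X × δ))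
    have c := (a.pair b).out (fun p : (Y ⊕ Y') × δ =>
      Sum.elim (fun j => Sum.inl (j, p.2)) (fun j => Sum.inr (j, p.2)) p.1)
    refine (c.mono ?_).congr fun z p => ?_
    · rw [Nat.add_mul, Nat.add_mul]
      omega
    · obtain ⟨j | j, e⟩ := p
      · rfl
      · rfl
  · have a := (h3 δ).2.inp (Sum.elim (fun c => Sum.inl (Sum.inl c))
      (fun p => Sum.inr (Sum.inl p.1, p.2)) : κ ⊕ (Y × δ) → (κ ⊕ κ') ⊕ ((Y ⊕ Y') × δ))
    have b := (h3' δ).2.inp (Sum.elim (fun c => Sum.inl (Sum.inr c))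
      (fun p => Sum.inr (Sum.inr p.1, p.2)) : κ' ⊕ (Y' × δ) → (κ ⊕ κ') ⊕ ((Y ⊕ Y') × δ))
    have c := (a.pair b).comp (Cx.layer (fun _ => or) (fun p : X × δ => Sum.inl p)
      (fun p => Sum.inr p))
    refine (c.mono ?_).congr fun z p => ?_
    · rw [Nat.add_mul, Nat.add_mul, Fintype.card_prod]
    · have e := mv_iff (tr g) (fun q => z ((Sum.elim (fun c => Sum.inl (Sum.inl c))
        (fun p => Sum.inr (Sum.inl p.1, p.2)) : κ ⊕ (Y × δ) → (κ ⊕ κ') ⊕ ((Y ⊕ Y') × δ)) q)) p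
      have e' := mv_iff (tr g') (fun q => z ((Sum.elim (fun c => Sum.inl (Sum.inr c))
        (fun p => Sum.inr (Sum.inr p.1, p.2)) : κ' ⊕ (Y' × δ) → (κ ⊕ κ') ⊕ ((Y ⊕ Y') × δ)) q)) p
      rw [Bool.eq_iff_iff, Bool.or_eq_true, mv_iff]
      constructor
      · rintro (hh | hh)
        · obtain ⟨j, hj, hz⟩ := e.1 hh
          exact ⟨Sum.inl j, hj, hz⟩
        · obtain ⟨j, hj, hz⟩ := e'.1 hh
          exact ⟨Sum.inr j, hj, hz⟩
      · rintro ⟨j | j, hj, hz⟩
        · exact Or.inl (e.2 ⟨j, hj, hz⟩)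
        · exact Or.inr (e'.2 ⟨j, hj, hz⟩)

/-- OR of the signals in the fibres of a function. -/
theorem Cx.orFib {E : Type} [Fintype E] [Nonempty E] [Fintype Y] (q : E → Y) :
    Cx (mv (fun (_ : E → Bool) (i : E) (j : Y) => q i = j) ∘
      (fun (x : E → Bool) => (Sum.elim x fun p => x p.1 : E ⊕ (E × Unit) → Bool)))
      (Fintype.card E + Fintype.card Y) := by
  classical
  have h1 : ∀ j : Y, Cx (fun (x : E → Bool) (_ : Unit) =>
      mv (fun (_ : E → Bool) (i : E) (j : Y) => q i = j)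
        (Sum.elim x fun p => x p.1 : E ⊕ (E × Unit) → Bool) (j, ()))
      ((univ.filter (fun i => q i = j)).card + 1) := fun j =>
    (tOr E (univ.filter fun i => q i = j)).congr fun x _ => by
      rw [Bool.eq_iff_iff, mv_iff]
      simp
  have a := Cx.fam _ _ h1
  rw [Finset.sum_add_distrib, ← Finset.card_eq_sum_card_fiberwise
    (fun i _ => Finset.mem_coe.2 (mem_univ (q i))), Finset.card_univ, Finset.sum_const,
    Finset.card_univ, smul_eq_mul, mul_one] at a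
  exact (a.out (fun p : Y × Unit => (p.1, ()))).congr fun x p => rfl

/-- The basic network: the element `i` has `d` edges to `h i 0, …`, the switches are computed. -/
theorem Mv.base [Fintype X] [Nonempty X] [Fintype Y] {d s : ℕ} (hd : 0 < d) (h : X → Fin d → Y)
    {ctl : (ι → Bool) → X × Fin d → Bool} (hc : Cx ctl s) :
    Mv (fun x i j => ∃ t, ctl x (i, t) = true ∧ h i t = j) s
      (2 * (d * Fintype.card X) + Fintype.card X + Fintype.card Y) := by
  classical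
  refine ⟨X × Fin d, ctl, fun c i j => ∃ t, c (i, t) = true ∧ h i t = j, hc, fun _ _ _ => Iff.rfl,
    fun δ _ => ?_⟩
  rcases isEmpty_or_nonempty δ with hδ | hδ
  · exact ⟨Cx.empty _ _, Cx.empty _ _⟩
  have : Nonempty (Fin d) := ⟨⟨0, hd⟩⟩
  constructor
  · have a := Cx.layer (ι := (X × Fin d) ⊕ (X × δ)) (κ := (X × Fin d) × δ) (fun _ => and)
      (fun a => Sum.inl a.1) (fun a => Sum.inr (a.1.1, a.2))
    have b := (a.comp (Cx.orFib (fun a : (X × Fin d) × δ => (h a.1.1 a.1.2, a.2)))).out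
      (fun p : Y × δ => (p, ()))
    refine (b.mono ?_).congr fun z p => ?_
    · rw [Fintype.card_prod, Fintype.card_prod, Fintype.card_prod, Fintype.card_fin]
      have : Fintype.card X * d = d * Fintype.card X := Nat.mul_comm _ _
      rw [this]
      nlinarith [Nat.zero_le (Fintype.card X * Fintype.card δ)]
    · rw [Bool.eq_iff_iff, mv_iff]
      show mv _ _ _ = true ↔ _
      rw [mv_iff]
      constructor
      · rintro ⟨⟨⟨i, t⟩, e⟩, he, hx⟩
        have hx' := Bool.and_eq_true_iff.1 hx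
        have he1 : h i t = p.1 := congrArg Prod.fst he
        have he2 : e = p.2 := congrArg Prod.snd he
        refine ⟨i, ⟨t, hx'.1, he1⟩, ?_⟩
        rw [← he2]
        exact hx'.2
      · rintro ⟨i, ⟨t, h1, h2⟩, h3⟩
        exact ⟨((i, t), p.2), Prod.ext h2 rfl, Bool.and_eq_true_iff.2 ⟨h1, h3⟩⟩
  · rcases isEmpty_or_nonempty Y with hY | hY
    · obtain ⟨i⟩ := ‹Nonempty X›
      exact isEmptyElim (h i ⟨0, hd⟩)
    have a := Cx.layer (ι := (X × Fin d) ⊕ (Y × δ)) (κ := (X × Fin d) × δ) (fun _ => and)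
      (fun a => Sum.inl a.1) (fun a => Sum.inr (h a.1.1 a.1.2, a.2))
    have b := (a.comp (Cx.orFib (fun a : (X × Fin d) × δ => (a.1.1, a.2)))).out
      (fun p : X × δ => (p, ()))
    refine (b.mono ?_).congr fun z p => ?_
    · rw [Fintype.card_prod, Fintype.card_prod, Fintype.card_prod, Fintype.card_fin]
      have : Fintype.card X * d = d * Fintype.card X := Nat.mul_comm _ _
      rw [this]
      nlinarith [Nat.zero_le (Fintype.card Y * Fintype.card δ)]
    · rw [Bool.eq_iff_iff, mv_iff]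
      show mv _ _ _ = true ↔ _
      rw [mv_iff]
      constructor
      · rintro ⟨⟨⟨i, t⟩, e⟩, he, hx⟩
        have hx' := Bool.and_eq_true_iff.1 hx
        have he1 : i = p.1 := congrArg Prod.fst he
        have he2 : e = p.2 := congrArg Prod.snd he
        subst he1
        subst he2
        exact ⟨h p.1 t, ⟨t, hx'.1, rfl⟩, hx'.2⟩
      · rintro ⟨j, ⟨t, h1, h2⟩, h3⟩
        refine ⟨((p.1, t), p.2), rfl, Bool.and_eq_true_iff.2 ⟨h1, ?_⟩⟩
        show z (Sum.inr (h p.1 t, p.2)) = true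
        rw [h2]
        exact h3

/-- A finite family of circuits with the same inputs and different sets of outputs. -/
theorem Cx.sig {α : Type} [Fintype α] {κ : α → Type} (F : ∀ a, (ι → Bool) → κ a → Bool)
    (s : α → ℕ) (h : ∀ a, Cx (F a) (s a)) :
    Cx (fun x (p : (a : α) × κ a) => F p.1 x p.2) (∑ a, s a) := by
  classical
  have key : ∀ A : Finset α, Cx (fun x (p : (a : {a // a ∈ A}) × κ a) => F p.1 x p.2)
      (∑ a ∈ A, s a) := by
    intro A
    induction A using Finset.induction_on with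
    | empty =>
      have : IsEmpty ((a : {a // a ∈ (∅ : Finset α)}) × κ a) :=
        ⟨fun p => absurd p.1.2 (Finset.notMem_empty _)⟩
      exact Cx.empty _ _
    | insert a A ha ih =>
      rw [Finset.sum_insert ha]
      have h1 := (h a).pair ih
      have h2 := h1.out (fun p : (a' : {a' // a' ∈ insert a A}) × κ a' =>
        if hp : p.1.1 = a then (Sum.inl (hp ▸ p.2) : κ a ⊕ ((a : {a // a ∈ A}) × κ a))
        else Sum.inr ⟨⟨p.1.1, (Finset.mem_insert.1 p.1.2).resolve_left hp⟩, p.2⟩)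
      refine h2.congr fun x p => ?_
      obtain ⟨⟨a', ha'⟩, e⟩ := p
      by_cases hp : a' = a
      · subst hp
        simp only [dif_pos, Sum.elim_inl]
      · simp only [hp, dif_neg, not_false_eq_true, Sum.elim_inr]
  exact (key Finset.univ).out (fun p : (a : α) × κ a =>
    (⟨⟨p.1, Finset.mem_univ _⟩, p.2⟩ : (a : {a // a ∈ (Finset.univ : Finset α)}) × κ a))

end Base2

end Pool.Agent.Lin
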