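import Pool.Agent.Lib.MP_76b24b_lcM.Spec2

/-!
# MP_76b24b_lc, package M: the data of the active blocks, in order, in bins
-/

set_option autoImplicit false

namespace Pool.Agent.Lin

open Finset

private theorem bins_num_mod : ∀ (k m : ℕ), num (fun t : Fin k => m.testBit t) = m % 2 ^ k
  | 0, m => by simp [num, Nat.mod_one]
  | k + 1, m => by
    have ih := bins_num_mod k (m / 2)
    unfold num at ih ⊢
    rw [Fin.sum_univ_succ]
    have h1 : (if m.testBit ((0 : Fin (k + 1)) : ℕ) = true then 2 ^ ((0 : Fin (k + 1)) : ℕ) else 0) =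
        m % 2 := by
      simp only [Fin.val_zero, pow_zero, Nat.testBit_zero, decide_eq_true_eq]
      rcases Nat.mod_two_eq_zero_or_one m with h | h <;> simp [h]
    have h2 : (∑ i : Fin k, if m.testBit (i.succ : ℕ) = true then 2 ^ (i.succ : ℕ) else 0) =
        2 * ((m / 2) % 2 ^ k) := by
      rw [← ih, Finset.mul_sum]
      refine Finset.sum_congr rfl fun i _ => ?_
      rw [Fin.val_succ, Nat.testBit_succ, mul_ite, mul_zero, pow_succ, mul_comm]
    rw [h1, h2, pow_succ, mul_comm (2 ^ k) 2, Nat.mod_mul]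

private theorem bins_le_two_pow (β : ℕ) : β ≤ 2 ^ β := (Nat.lt_two_pow_self).le

private theorem bins_rk_le {β η : ℕ} (P : Fin (2 ^ η) × Fin (2 ^ β) → Bool) (q : ℕ) :
    rk (bpos (2 ^ β)) P q < 2 ^ (η + β + 1) := by
  have h1 : rk (bpos (2 ^ β)) P q ≤ 2 ^ η * 2 ^ β := by
    unfold rk
    refine (Finset.card_le_univ _).trans ?_
    rw [Fintype.card_prod, Fintype.card_fin, Fintype.card_fin]
  rw [pow_succ, pow_add]
  have : 0 < 2 ^ η * 2 ^ β := Nat.mul_pos (Nat.two_pow_pos _) (Nat.two_pow_pos _)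
  omega

private theorem bins_rk_lt {b N : ℕ} (P : Fin N × Fin b → Bool) {i i' : Fin N} (h : i < i')
    {ρ : Fin b} (hP : P (i, ρ) = true) :
    rk (bpos b) P (i * b) < rk (bpos b) P (i' * b) := by
  have h0 : ((i : ℕ) + 1) * b ≤ i' * b := Nat.mul_le_mul_right _ h
  have h1 : ((i : ℕ) + 1) * b = i * b + b := by ring
  have h2 := ρ.isLt
  unfold rk
  refine Finset.card_lt_card ?_
  rw [Finset.ssubset_iff_of_subset]
  · refine ⟨(i, ρ), ?_, ?_⟩
    · rw [Finset.mem_filter]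
      refine ⟨Finset.mem_univ _, ?_, hP⟩
      show (i : ℕ) * b + ρ < i' * b
      omega
    · rw [Finset.mem_filter]
      rintro ⟨-, hh, -⟩
      have : (i : ℕ) * b + ρ < i * b := hh
      omega
  · intro p hp
    rw [Finset.mem_filter] at hp ⊢
    exact ⟨hp.1, by omega, hp.2.2⟩

/-- one block is active -/
private theorem bins_actCx (h1 : S_Or) (b : ℕ) (hb : 0 < b) :
    Cx (fun (x : Fin b ⊕ Fin b → Bool) (_ : Unit) =>
      decide (∃ ρ, x (Sum.inl ρ) = true ∧ x (Sum.inr ρ) = true)) (2 * b + 1) := by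
  have : Nonempty (Fin b) := ⟨⟨0, hb⟩⟩
  have hA := Cx.layer (ι := Fin b ⊕ Fin b) (κ := Fin b) (fun _ p q => p && q)
    (fun ρ => Sum.inl ρ) (fun ρ => Sum.inr ρ)
  have hO := h1 (Fin b) Finset.univ
  have hC := hA.comp hO
  refine (hC.mono ?_).congr fun x j => ?_
  · rw [Finset.card_univ, Fintype.card_fin]
    omega
  · refine decide_eq_decide.2 ?_
    simp

theorem tBins (h1 : S_Or) (h2 : S_Pre) (h3 : S_Con) (h4 : S_Sort) : S_Bins := by
  classical
  obtain ⟨c2, hc2⟩ := h2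
  obtain ⟨c3, hc3⟩ := h3
  refine ⟨c2 + 4 * c3 + 100, fun β η μ K h hM hg => ?_⟩
  have hN : 0 < 2 ^ η := Nat.two_pow_pos η
  have hb : 0 < 2 ^ β := Nat.two_pow_pos β
  obtain ⟨f, hf, hfu⟩ := hc3 (2 ^ η) (2 ^ μ) K h hN (Nat.pow_le_pow_right (by norm_num) hM) hg
  -- the inputs and the data
  let ι := (Fin (2 ^ η) × Fin (2 ^ β)) ⊕ (Fin (2 ^ η) × Fin (2 ^ β))
  let δ := Fin (η + β + 1) ⊕ (Fin (2 ^ β) ⊕ Fin (2 ^ β))
  let w := (η + β + 1) + (2 ^ β + 2 ^ β)
  have hδ : Fintype.card δ = w := by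
    show Fintype.card (Fin (η + β + 1) ⊕ (Fin (2 ^ β) ⊕ Fin (2 ^ β))) = _
    rw [Fintype.card_sum, Fintype.card_sum, Fintype.card_fin, Fintype.card_fin]
  let v : (ι → Bool) → Fin (2 ^ η) → Bool := fun x i =>
    decide (∃ ρ, x (Sum.inl (i, ρ)) = true ∧ x (Sum.inr (i, ρ)) = true)
  -- the ranks
  have hR := (hc2 β η).inp (Sum.inl : Fin (2 ^ η) × Fin (2 ^ β) → ι)
  -- the active blocks
  have hV := ((Cx.blocks (α := Fin (2 ^ η)) (bins_actCx h1 (2 ^ β) hb)).inp
    (fun p => Sum.elim (fun ρ => Sum.inl (p.1, ρ)) (fun ρ => Sum.inr (p.1, ρ)) p.2 :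
      Fin (2 ^ η) × (Fin (2 ^ β) ⊕ Fin (2 ^ β)) → ι)).out (fun i : Fin (2 ^ η) => (i, ()))
  -- control and data
  let ρ0 : Fin (2 ^ η) ⊕ (Fin (2 ^ η) × δ) →
      ι ⊕ ((Fin (2 ^ η + 1) × Fin (η + β + 1)) ⊕ Fin (2 ^ η)) :=
    Sum.elim (fun i => Sum.inr (Sum.inr i)) (fun p => Sum.elim
      (fun t => Sum.inr (Sum.inl (p.1.castSucc, t)))
      (Sum.elim (fun ρ => Sum.inl (Sum.inl (p.1, ρ))) (fun ρ => Sum.inl (Sum.inr (p.1, ρ)))) p.2)
  have hD : Cx (fun (x : ι → Bool) => (Sum.elim (v x) (fun p => dat x p.1 p.2) :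
      Fin (2 ^ η) ⊕ (Fin (2 ^ η) × δ) → Bool))
      (c2 * (2 ^ η * (2 ^ β + η + 1)) + Fintype.card (Fin (2 ^ η)) * (2 * 2 ^ β + 1)) := by
    refine ((hR.pair hV).keep.out ρ0).congr fun x p => ?_
    rcases p with i | ⟨i, t | ρ | ρ⟩ <;> rfl
  -- the bins
  let E : Fin w ≃ δ :=
    finSumFinEquiv.symm.trans (Equiv.sumCongr (Equiv.refl _) finSumFinEquiv.symm)
  let Y : (ι → Bool) → Fin (2 ^ μ) × δ → Bool := fun x =>
    mv f (Sum.elim (v x) (fun p => dat x p.1 p.2) : Fin (2 ^ η) ⊕ (Fin (2 ^ η) × δ) → Bool)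
  have hY : Cx Y (c2 * (2 ^ η * (2 ^ β + η + 1)) + Fintype.card (Fin (2 ^ η)) * (2 * 2 ^ β + 1) +
      (c3 * (2 ^ η * (Nat.log 2 K + 1)) + c3 * 2 ^ η * w)) := by
    have a := hD.comp (hf.cx δ)
    rw [hδ] at a
    exact a
  have hYiff : ∀ x q e, Y x (q, e) = true ↔ ∃ i, f (v x) i q ∧ dat x i e = true := by
    intro x q e
    exact mv_iff f _ (q, e)
  -- the sort
  let ℓ : Fin (η + β + 1) → Fin w := fun t => E.symm (Sum.inl t)
  have hS := h4 μ w (η + β + 1) ℓ
  have hT := ((hY.out (fun p : Fin (2 ^ μ) × Fin w => (p.1, E p.2))).comp hS).out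
    (fun p : Fin (2 ^ μ) × δ => (p.1, E.symm p.2))
  let key : (ι → Bool) → Fin (2 ^ μ) → ℕ := fun x q =>
    num fun t : Fin (η + β + 1) => Y x (q, Sum.inl t)
  have hkey : ∀ x, (fun i : Fin (2 ^ μ) => num fun t : Fin (η + β + 1) => Y x (i, E (ℓ t))) =
      key x := by
    intro x
    funext i
    show (num fun t => Y x (i, E (E.symm (Sum.inl t)))) = num fun t => Y x (i, Sum.inl t)
    refine congrArg num (funext fun t => ?_)
    rw [Equiv.apply_symm_apply]
  refine ⟨fun x p => Y x (Tuple.sort (key x) p.1, p.2), (hT.mono ?_).congr fun x p => ?_,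
    fun x hx => ?_⟩
  · -- the size
    have e1 : c3 * 2 ^ η * w ≤ 3 * c3 * (2 ^ η * (2 ^ β + η + Nat.log 2 K + 1)) := by
      have hw : w ≤ 3 * (2 ^ β + η + Nat.log 2 K + 1) := by
        have := bins_le_two_pow β
        show (η + β + 1) + (2 ^ β + 2 ^ β) ≤ _
        omega
      calc c3 * 2 ^ η * w ≤ c3 * 2 ^ η * (3 * (2 ^ β + η + Nat.log 2 K + 1)) :=
            Nat.mul_le_mul_left _ hw
        _ = 3 * c3 * (2 ^ η * (2 ^ β + η + Nat.log 2 K + 1)) := by ring
    have e2 : c2 * (2 ^ η * (2 ^ β + η + 1)) ≤ c2 * (2 ^ η * (2 ^ β + η + Nat.log 2 K + 1)) :=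
      Nat.mul_le_mul_left _ (Nat.mul_le_mul_left _ (by omega))
    have e3 : c3 * (2 ^ η * (Nat.log 2 K + 1)) ≤ c3 * (2 ^ η * (2 ^ β + η + Nat.log 2 K + 1)) :=
      Nat.mul_le_mul_left _ (Nat.mul_le_mul_left _ (by omega))
    have e4 : Fintype.card (Fin (2 ^ η)) * (2 * 2 ^ β + 1) ≤
        2 * (2 ^ η * (2 ^ β + η + Nat.log 2 K + 1)) := by
      rw [Fintype.card_fin]
      calc 2 ^ η * (2 * 2 ^ β + 1) ≤ 2 ^ η * (2 * (2 ^ β + η + Nat.log 2 K + 1)) :=
            Nat.mul_le_mul_left _ (by omega)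
        _ = 2 * (2 ^ η * (2 ^ β + η + Nat.log 2 K + 1)) := by ring
    have e5 : 20 * (η + β + 1) * w * (μ + 1) * 2 ^ μ ≤
        40 * ((η + β + 1) * (η + β + 1 + 2 ^ β) * (μ + 1) * 2 ^ μ) := by
      have hw : w ≤ 2 * (η + β + 1 + 2 ^ β) := by
        show (η + β + 1) + (2 ^ β + 2 ^ β) ≤ _
        omega
      calc 20 * (η + β + 1) * w * (μ + 1) * 2 ^ μ
          ≤ 20 * (η + β + 1) * (2 * (η + β + 1 + 2 ^ β)) * (μ + 1) * 2 ^ μ :=
            Nat.mul_le_mul_right _ (Nat.mul_le_mul_right _ (Nat.mul_le_mul_left _ hw))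
        _ = 40 * ((η + β + 1) * (η + β + 1 + 2 ^ β) * (μ + 1) * 2 ^ μ) := by ring
    have e6 : c2 * (2 ^ η * (2 ^ β + η + 1)) + Fintype.card (Fin (2 ^ η)) * (2 * 2 ^ β + 1) +
        (c3 * (2 ^ η * (Nat.log 2 K + 1)) + c3 * 2 ^ η * w) +
        20 * (η + β + 1) * w * (μ + 1) * 2 ^ μ ≤
        (c2 + 4 * c3 + 2) * (2 ^ η * (2 ^ β + η + Nat.log 2 K + 1)) +
        40 * ((η + β + 1) * (η + β + 1 + 2 ^ β) * (μ + 1) * 2 ^ μ) := by
      have e7 : (c2 + 4 * c3 + 2) * (2 ^ η * (2 ^ β + η + Nat.log 2 K + 1)) =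
          c2 * (2 ^ η * (2 ^ β + η + Nat.log 2 K + 1)) +
          (3 * c3 * (2 ^ η * (2 ^ β + η + Nat.log 2 K + 1)) +
          c3 * (2 ^ η * (2 ^ β + η + Nat.log 2 K + 1))) +
          2 * (2 ^ η * (2 ^ β + η + Nat.log 2 K + 1)) := by ring
      rw [e7]
      omega
    refine e6.trans (le_of_le_of_eq (Nat.add_le_add (Nat.mul_le_mul_right _
      (by omega : c2 + 4 * c3 + 2 ≤ c2 + 4 * c3 + 100)) (Nat.mul_le_mul_right _
      (by omega : 40 ≤ c2 + 4 * c3 + 100))) (Nat.mul_add _ _ _).symm)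
  · -- the function
    obtain ⟨q, e⟩ := p
    show Y x (Tuple.sort (fun i => num fun t => Y x (i, E (ℓ t))) q, E (E.symm e)) = _
    rw [hkey, Equiv.apply_symm_apply]
  · -- correctness
    have hv : ∀ i, v x i = true ↔ i ∈ act x := by
      intro i
      unfold act
      rw [Finset.mem_filter]
      show decide _ = true ↔ _
      rw [decide_eq_true_iff]
      exact ⟨fun h => ⟨Finset.mem_univ _, h⟩, fun h => h.2⟩
    have hcard : (univ.filter fun i => v x i = true).card ≤ K := by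
      have : (univ.filter fun i => v x i = true) = act x := by
        ext i
        rw [Finset.mem_filter]
        exact ⟨fun h => (hv i).1 h.2, fun h => ⟨Finset.mem_univ _, (hv i).2 h⟩⟩
      rw [this]
      exact hx
    obtain ⟨g1, g2, g3, g4⟩ := hfu (v x) hcard
    have hex : ∀ i, ∃ j : Fin (2 ^ μ), i ∈ act x → f (v x) i j := by
      intro i
      by_cases hi : i ∈ act x
      · obtain ⟨j, hj⟩ := g2 i ((hv i).2 hi)
        exact ⟨j, fun _ => hj⟩
      · exact ⟨⟨0, Nat.two_pow_pos _⟩, fun h => absurd h hi⟩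
    choose bin hbin using hex
    have hYbin : ∀ i ∈ act x, ∀ e, Y x (bin i, e) = dat x i e := by
      intro i hi e
      rw [Bool.eq_iff_iff, hYiff]
      constructor
      · rintro ⟨i', h5, h6⟩
        rwa [g4 i i' (bin i) (hbin i hi) h5]
      · intro h5
        exact ⟨i, hbin i hi, h5⟩
    have hkb : ∀ i ∈ act x, key x (bin i) =
        rk (bpos (2 ^ β)) (fun p => x (Sum.inl p)) (i * 2 ^ β) := by
      intro i hi
      have h5 : key x (bin i) = num fun t : Fin (η + β + 1) =>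
          (rk (bpos (2 ^ β)) (fun p => x (Sum.inl p)) (i * 2 ^ β)).testBit t := by
        refine congrArg num (funext fun t => ?_)
        exact hYbin i hi (Sum.inl t)
      rw [h5, bins_num_mod, Nat.mod_eq_of_lt (bins_rk_le _ _)]
    have hmono : Monotone (key x ∘ Tuple.sort (key x)) := Tuple.monotone_sort (key x)
    refine ⟨fun i => (Tuple.sort (key x)).symm (bin i), ?_, ?_, ?_⟩
    · intro i hi i' hi' hlt
      by_contra hcon
      have h5 := hmono (not_lt.1 hcon)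
      have h6 : ∀ j, (key x ∘ Tuple.sort (key x)) ((Tuple.sort (key x)).symm (bin j)) =
          key x (bin j) := by
        intro j
        show key x (Tuple.sort (key x) ((Tuple.sort (key x)).symm (bin j))) = _
        rw [Equiv.apply_symm_apply]
      rw [h6, h6, hkb i hi, hkb i' hi'] at h5
      have hi2 := hi
      unfold act at hi2
      obtain ⟨-, ρ, h7, -⟩ := Finset.mem_filter.1 hi2
      have h8 := bins_rk_lt (fun p => x (Sum.inl p)) hlt h7
      omega
    · intro i hi e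
      show Y x (Tuple.sort (key x) ((Tuple.sort (key x)).symm (bin i)), e) = _
      rw [Equiv.apply_symm_apply]
      exact hYbin i hi e
    · intro q hq e
      rw [← Bool.not_eq_true]
      intro h5
      have h6 : Y x (Tuple.sort (key x) q, e) = true := h5
      rw [hYiff] at h6
      obtain ⟨i, h7, -⟩ := h6
      have hi : i ∈ act x := (hv i).1 (g1 i _ h7)
      refine hq i hi ?_
      show (Tuple.sort (key x)).symm (bin i) = q
      rw [g3 i _ _ (hbin i hi) h7, Equiv.symm_apply_apply]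

end Pool.Agent.Lin
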