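import Pool.Agent.Lib.MP_76b24b_lcM.Spec2

/-!
# MP_76b24b_lc, package M, module CR: routing of the chunks
-/

set_option autoImplicit false

namespace Pool.Agent.Lin

open Finset

private theorem cr_core {X δ : Type} [Fintype X] [Nonempty X] [Fintype δ] {N M K : ℕ}
    (emb : X → Fin N) (hemb : Function.Injective emb)
    (fC : (Fin N → Bool) → Fin N → Fin M → Prop) {sC tC : ℕ} (hC : Mv fC sC tC)
    (hCp : ∀ u : Fin N → Bool, (univ.filter fun i => u i = true).card ≤ 2 ^ K →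
      PB (fun i => u i = true) (fC u))
    (fR : (Fin M × (Unit ⊕ δ) → Bool) → Fin M → Fin (2 ^ K) → Prop) {sR tR : ℕ}
    (hR : Mv fR sR tR) :
    ∃ (f : (X × (Unit ⊕ δ) → Bool) → X → Fin (2 ^ K) → Prop),
      Mv f (2 * (3 * Fintype.card X + N + sC) + (3 * Fintype.card X + N + tC) *
        (Fintype.card δ + 1) + sR) (3 * Fintype.card X + N + tC + tR) ∧
      ∀ x : X × (Unit ⊕ δ) → Bool,
        (univ.filter fun i => x (i, Sum.inl ()) = true).card ≤ 2 ^ K →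
        ∃ (y : Fin M × (Unit ⊕ δ) → Bool) (g : X → Fin M → Prop),
          PB (fun i => x (i, Sum.inl ()) = true) g ∧
          (∀ m, y (m, Sum.inl ()) = true → ∃ i, g i m) ∧
          (∀ i m, g i m → ∀ a, y (m, a) = x (i, a)) ∧
          ∀ i j, f x i j ↔ ∃ m, g i m ∧ fR y m j := by
  classical
  -- the first network
  have hc1 : Cx (fun (x : X × (Unit ⊕ δ) → Bool) (p : X × Fin 1) => x (p.1, Sum.inl ())) 0 :=
    Cx.proj (fun p : X × Fin 1 => (p.1, Sum.inl ()))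
  have m1 := (Mv.base one_pos (fun (i : X) (_ : Fin 1) => emb i) hc1).congr
    (f' := fun x i j => x (i, Sum.inl ()) = true ∧ emb i = j) (fun x i j => by
      constructor
      · rintro ⟨_, h⟩; exact h
      · intro h; exact ⟨0, h⟩)
  rw [Fintype.card_fin] at m1
  have m1' := m1.mono (le_refl 0) (show 2 * (1 * Fintype.card X) + Fintype.card X + N ≤
    3 * Fintype.card X + N by omega)
  obtain ⟨t1, ht1⟩ : ∃ t1, t1 = 3 * Fintype.card X + N := ⟨_, rfl⟩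
  rw [← ht1] at m1' ⊢
  -- the moved valid bits
  have g1 := ((m1'.cx Unit).inp (Sum.elim id (fun p => (p.1, Sum.inl ())) :
    (X × (Unit ⊕ δ)) ⊕ (X × Unit) → X × (Unit ⊕ δ))).out (fun j : Fin N => (j, ()))
  have g1' := g1.mono (show 0 + t1 * Fintype.card Unit ≤ t1 by simp)
  obtain ⟨G1, hG1⟩ : ∃ G1 : (X × (Unit ⊕ δ) → Bool) → Fin N → Bool, G1 = fun x j =>
    mv (fun (x : X × (Unit ⊕ δ) → Bool) i j => x (i, Sum.inl ()) = true ∧ emb i = j)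
      (fun q => x ((Sum.elim id (fun p => (p.1, Sum.inl ())) :
        (X × (Unit ⊕ δ)) ⊕ (X × Unit) → X × (Unit ⊕ δ)) q)) (j, ()) := ⟨_, rfl⟩
  rw [← hG1] at g1'
  have hG1' : ∀ x j, G1 x j = true ↔ ∃ i, x (i, Sum.inl ()) = true ∧ emb i = j := by
    intro x j
    rw [hG1]
    beta_reduce
    rw [mv_iff]
    constructor
    · rintro ⟨i, h, -⟩; exact ⟨i, h⟩
    · rintro ⟨i, h⟩; exact ⟨i, h, h.1⟩
  -- the second network
  have m2 := m1'.comp g1' hC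
  obtain ⟨f2, hf2⟩ : ∃ f2 : (X × (Unit ⊕ δ) → Bool) → X → Fin M → Prop, f2 = fun x i m =>
    ∃ j, (x (i, Sum.inl ()) = true ∧ emb i = j) ∧ fC (G1 x) j m := ⟨_, rfl⟩
  rw [← hf2] at m2
  have hf2' : ∀ x i m, f2 x i m ↔ x (i, Sum.inl ()) = true ∧ fC (G1 x) (emb i) m := by
    intro x i m
    rw [hf2]
    constructor
    · rintro ⟨j, ⟨h, rfl⟩, h'⟩; exact ⟨h, h'⟩
    · rintro ⟨h, h'⟩; exact ⟨_, ⟨h, rfl⟩, h'⟩
  -- the moved data
  have g2 := (m2.cx (Unit ⊕ δ)).inp (Sum.elim id id :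
    (X × (Unit ⊕ δ)) ⊕ (X × (Unit ⊕ δ)) → X × (Unit ⊕ δ))
  obtain ⟨G2, hG2⟩ : ∃ G2 : (X × (Unit ⊕ δ) → Bool) → Fin M × (Unit ⊕ δ) → Bool, G2 = fun x =>
    mv f2 (fun q => x ((Sum.elim id id :
      (X × (Unit ⊕ δ)) ⊕ (X × (Unit ⊕ δ)) → X × (Unit ⊕ δ)) q)) := ⟨_, rfl⟩
  rw [← hG2] at g2
  have hG2' : ∀ x p, G2 x p = true ↔ ∃ i, f2 x i p.1 ∧ x (i, p.2) = true := by
    intro x p
    rw [hG2]
    beta_reduce
    rw [mv_iff]
    rfl
  have m3 := m2.comp g2 hR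
  refine ⟨_, m3.mono ?_ ?_, ?_⟩
  · rw [Fintype.card_sum, Fintype.card_unit, Nat.add_comm 1 (Fintype.card δ)]
    omega
  · omega
  intro x hx
  -- the number of the occupied slots
  have hcard : (univ.filter fun j => G1 x j = true).card ≤ 2 ^ K := by
    refine le_trans (le_of_eq ?_) hx
    have : (univ.filter fun j => G1 x j = true) =
        (univ.filter fun i => x (i, Sum.inl ()) = true).image emb := by
      ext j
      rw [mem_filter, mem_image, hG1']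
      simp
    rw [this, card_image_of_injective _ hemb]
  obtain ⟨p1, p2, p3, p4⟩ := hCp (G1 x) hcard
  have hPB : PB (fun i => x (i, Sum.inl ()) = true) (f2 x) := by
    refine ⟨fun i m h => ((hf2' x i m).1 h).1, fun i hi => ?_, fun i m m' h h' => ?_,
      fun i i' m h h' => ?_⟩
    · obtain ⟨m, hm⟩ := p2 (emb i) ((hG1' x _).2 ⟨i, hi, rfl⟩)
      exact ⟨m, (hf2' x i m).2 ⟨hi, hm⟩⟩
    · exact p3 _ _ _ ((hf2' x i m).1 h).2 ((hf2' x i m').1 h').2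
    · exact hemb (p4 _ _ _ ((hf2' x i m).1 h).2 ((hf2' x i' m).1 h').2)
  refine ⟨G2 x, f2 x, hPB, ?_, ?_, fun i j => Iff.rfl⟩
  · intro m hm
    obtain ⟨i, hi, -⟩ := (hG2' x _).1 hm
    exact ⟨i, hi⟩
  · intro i m him a
    rw [Bool.eq_iff_iff, hG2']
    constructor
    · rintro ⟨i', hi', h⟩
      rw [hPB.2.2.2 i i' m him hi']
      exact h
    · intro h
      exact ⟨i, him, h⟩

theorem tCR (h1 : S_Coll) (h2 : S_Rt) : S_CR := by
  classical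
  obtain ⟨c, hc⟩ := h1
  obtain ⟨c', hc'⟩ := h2
  refine ⟨65548 + 12 * c + 8 * c', fun σ r => ?_⟩
  obtain ⟨e, he⟩ : ∃ e, e = Nat.log 2 (r + 1) := ⟨_, rfl⟩
  have he1 : 2 ^ e ≤ r + 1 := by rw [he]; exact Nat.pow_log_le_self 2 (by omega)
  have he2 : r + 1 < 2 ^ (e + 1) := by rw [he]; exact Nat.lt_pow_succ_log_self (by omega) _
  have he3 : e ≤ r := by
    have := Nat.lt_two_pow_self (n := e)
    omega
  obtain ⟨fC, hCm, hCp⟩ := hc (σ + 1) e _ _ rfl rfl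
  obtain ⟨fR, hRm, hRp⟩ := hc' (σ + 1) _ rfl
  have hcardX : Fintype.card (Fin (r + 1) × Fin (2 ^ σ)) = (r + 1) * 2 ^ σ := by
    rw [Fintype.card_prod, Fintype.card_fin, Fintype.card_fin]
  have hle : Fintype.card (Fin (r + 1) × Fin (2 ^ σ)) ≤
      Fintype.card (Fin (2 ^ (σ + 1 + 13 + e))) := by
    rw [hcardX, Fintype.card_fin]
    calc (r + 1) * 2 ^ σ ≤ 2 ^ (e + 1) * 2 ^ σ := Nat.mul_le_mul_right _ he2.le
      _ = 2 ^ (e + 1 + σ) := (pow_add _ _ _).symm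
      _ ≤ 2 ^ (σ + 1 + 13 + e) := Nat.pow_le_pow_right (by norm_num) (by omega)
  obtain ⟨emb⟩ := Function.Embedding.nonempty_of_card_le hle
  obtain ⟨f, hfm, hf⟩ := cr_core (δ := Fin (σ + 1)) (K := σ + 1) emb emb.injective fC hCm hCp fR hRm
  -- the bounds
  have hP : 2 ^ (σ + 1) = 2 * 2 ^ σ := by rw [pow_succ]; ring
  have b1 : 2 ^ (σ + 1 + 13 + e) = 16384 * (2 ^ e * 2 ^ σ) := by
    rw [pow_add, pow_add, pow_add]; ring
  have b2 : 2 ^ (σ + 1 + e) = 2 * (2 ^ e * 2 ^ σ) := by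
    rw [pow_add, pow_add]; ring
  obtain ⟨A, hA⟩ : ∃ A, A = σ + r + 1 := ⟨_, rfl⟩
  have b3 : 2 ^ e * 2 ^ σ ≤ A * 2 ^ σ := Nat.mul_le_mul_right _ (by omega)
  have b4 : (r + 1) * 2 ^ σ ≤ A * 2 ^ σ := Nat.mul_le_mul_right _ (by omega)
  have b5 : 3 * Fintype.card (Fin (r + 1) × Fin (2 ^ σ)) + 2 ^ (σ + 1 + 13 + e) ≤
      16387 * (A * 2 ^ σ) := by
    rw [hcardX, b1]
    omega
  have b6 : c * 2 ^ (σ + 1 + e) ≤ 2 * c * (A * 2 ^ σ) := by
    rw [b2]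
    calc c * (2 * (2 ^ e * 2 ^ σ)) ≤ c * (2 * (A * 2 ^ σ)) :=
          Nat.mul_le_mul_left _ (Nat.mul_le_mul_left _ b3)
      _ = 2 * c * (A * 2 ^ σ) := by ring
  have b7 : c * ((σ + 1 + e + 1) * 2 ^ (σ + 1 + e)) ≤ 4 * c * (A ^ 2 * 2 ^ σ) := by
    rw [b2]
    calc c * ((σ + 1 + e + 1) * (2 * (2 ^ e * 2 ^ σ)))
        ≤ c * ((2 * A) * (2 * (A * 2 ^ σ))) :=
          Nat.mul_le_mul_left _ (Nat.mul_le_mul (by omega) (Nat.mul_le_mul_left _ b3))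
      _ = 4 * c * (A ^ 2 * 2 ^ σ) := by ring
  have b8 : c' * ((σ + 1 + 1) ^ 2 * 2 ^ (σ + 1)) ≤ 8 * c' * (A ^ 2 * 2 ^ σ) := by
    rw [hP]
    calc c' * ((σ + 1 + 1) ^ 2 * (2 * 2 ^ σ))
        ≤ c' * ((2 * A) ^ 2 * (2 * 2 ^ σ)) :=
          Nat.mul_le_mul_left _ (Nat.mul_le_mul_right _ (Nat.pow_le_pow_left (by omega) 2))
      _ = 8 * c' * (A ^ 2 * 2 ^ σ) := by ring
  have b9 : c' * ((σ + 1 + 1) * 2 ^ (σ + 1)) ≤ 4 * c' * (A * 2 ^ σ) := by
    rw [hP]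
    calc c' * ((σ + 1 + 1) * (2 * 2 ^ σ))
        ≤ c' * ((2 * A) * (2 * 2 ^ σ)) :=
          Nat.mul_le_mul_left _ (Nat.mul_le_mul_right _ (by omega))
      _ = 4 * c' * (A * 2 ^ σ) := by ring
  have b10 : A * 2 ^ σ ≤ A ^ 2 * 2 ^ σ := by
    apply Nat.mul_le_mul_right
    calc A = A * 1 := (mul_one A).symm
      _ ≤ A * A := Nat.mul_le_mul_left _ (by omega)
      _ = A ^ 2 := (pow_two A).symm
  refine ⟨f, hfm.mono ?_ ?_, ?_⟩
  · rw [← hA, Fintype.card_fin]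
    have b11 : (3 * Fintype.card (Fin (r + 1) × Fin (2 ^ σ)) + 2 ^ (σ + 1 + 13 + e) +
        c * 2 ^ (σ + 1 + e)) * (σ + 1 + 1) ≤ (32774 + 4 * c) * (A ^ 2 * 2 ^ σ) := by
      calc (3 * Fintype.card (Fin (r + 1) × Fin (2 ^ σ)) + 2 ^ (σ + 1 + 13 + e) +
          c * 2 ^ (σ + 1 + e)) * (σ + 1 + 1)
          ≤ (16387 * (A * 2 ^ σ) + 2 * c * (A * 2 ^ σ)) * (2 * A) :=
            Nat.mul_le_mul (Nat.add_le_add b5 b6) (by omega)
        _ = (32774 + 4 * c) * (A ^ 2 * 2 ^ σ) := by ring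
    have b12 : (65548 + 12 * c + 8 * c') * (A ^ 2 * 2 ^ σ) =
        2 * (16387 * (A ^ 2 * 2 ^ σ) + 4 * c * (A ^ 2 * 2 ^ σ)) +
        (32774 + 4 * c) * (A ^ 2 * 2 ^ σ) + 8 * c' * (A ^ 2 * 2 ^ σ) := by ring
    rw [b12]
    refine Nat.add_le_add (Nat.add_le_add (Nat.mul_le_mul_left _ (Nat.add_le_add ?_ b7)) b11) b8
    exact b5.trans (Nat.mul_le_mul_left _ b10)
  · rw [← hA]
    have b13 : (16387 + 2 * c + 4 * c') * (A * 2 ^ σ) =
        16387 * (A * 2 ^ σ) + 2 * c * (A * 2 ^ σ) + 4 * c' * (A * 2 ^ σ) := by ring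
    calc 3 * Fintype.card (Fin (r + 1) × Fin (2 ^ σ)) + 2 ^ (σ + 1 + 13 + e) +
          c * 2 ^ (σ + 1 + e) + c' * ((σ + 1 + 1) * 2 ^ (σ + 1))
        ≤ (16387 + 2 * c + 4 * c') * (A * 2 ^ σ) := by
          rw [b13]
          exact Nat.add_le_add (Nat.add_le_add b5 b6) b9
      _ ≤ (65548 + 12 * c + 8 * c') * (A * 2 ^ σ) := Nat.mul_le_mul_right _ (by omega)
  intro x hx i j
  have hnum : (univ.filter fun i => x (i, Sum.inl ()) = true).card ≤ 2 ^ (σ + 1) := by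
    have h3 : (univ.filter fun i => x (i, Sum.inl ()) = true).card ≤
        (univ : Finset (Fin (σ + 1) → Bool)).card := by
      apply card_le_card_of_injOn (fun i t => x (i, Sum.inr t)) (fun i _ => mem_coe.2 (mem_univ _))
      intro i hi i' hi' h
      rw [mem_coe, mem_filter] at hi hi'
      exact hx i i' hi.2 hi'.2 (fun t => congrFun h t)
    rwa [card_univ, Fintype.card_fun, Fintype.card_bool, Fintype.card_fin] at h3
  obtain ⟨y, g, ⟨q1, q2, q3, q4⟩, hy1, hy2, hy3⟩ := hf x hnum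
  rw [hy3]
  have hy : ∀ i i', y (i, Sum.inl ()) = true → y (i', Sum.inl ()) = true →
      (∀ t, y (i, Sum.inr t) = y (i', Sum.inr t)) → i = i' := by
    intro m m' hm hm' hmm
    obtain ⟨i, hi⟩ := hy1 m hm
    obtain ⟨i', hi'⟩ := hy1 m' hm'
    have : i = i' := by
      apply hx i i' (q1 _ _ hi) (q1 _ _ hi')
      intro t
      rw [← hy2 i m hi, ← hy2 i' m' hi']
      exact hmm t
    subst this
    exact q3 _ _ _ hi hi'
  constructor
  · rintro ⟨m, him, hm⟩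
    rw [hRp y hy] at hm
    refine ⟨q1 _ _ him, ?_⟩
    rw [← hm.2]
    congr 1
    funext t
    exact (hy2 i m him _).symm
  · rintro ⟨hi, hj⟩
    obtain ⟨m, hm⟩ := q2 i hi
    refine ⟨m, hm, ?_⟩
    rw [hRp y hy]
    refine ⟨?_, ?_⟩
    · rw [hy2 i m hm]; exact hi
    · rw [← hj]
      congr 1
      funext t
      exact hy2 i m hm _

end Pool.Agent.Lin
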