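import Pool.Agent.Lib.MP_76b24b_lcM.Spec2

/-!
# MP_76b24b_lc, package M: at most `2 ^ k` elements are collected in `2 ^ (k + 13)` slots
-/

set_option autoImplicit false

namespace Pool.Agent.Lin

open Finset

/-- The occupied slots after a movement. -/
private noncomputable def occ {X Y : Type} (f : (X → Bool) → X → Y → Prop) (u : X → Bool) (j : Y) :
    Bool :=
  mv f (Sum.elim u (fun p : X × Unit => u p.1)) (j, ())

private theorem occ_iff {X Y : Type} (f : (X → Bool) → X → Y → Prop) (u : X → Bool) (j : Y) :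
    occ f u j = true ↔ ∃ i, f u i j ∧ u i = true := by
  unfold occ
  rw [mv_iff]
  rfl

private theorem occ_cx {X Y : Type} {f : (X → Bool) → X → Y → Prop} {s t : ℕ} (h : Mv f s t) :
    Cx (occ f) (s + t) := by
  have a := ((Cx.proj (Sum.elim id (fun p => p.1) : X ⊕ (X × Unit) → X)).comp (h.cx Unit)).out
    (fun j : Y => (j, ()))
  refine (a.mono ?_).congr fun u j => ?_
  · rw [Fintype.card_unit, Nat.mul_one, Nat.zero_add]
  · rw [Bool.eq_iff_iff, occ_iff, mv_iff]
    rfl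

private theorem step {X Y Z : Type} [Fintype X] [Fintype Y] {f : (X → Bool) → X → Y → Prop}
    {g : (Y → Bool) → Y → Z → Prop} {K : ℕ}
    (hf : ∀ u : X → Bool, (univ.filter fun i => u i = true).card ≤ K →
      PB (fun i => u i = true) (f u))
    (hg : ∀ u : Y → Bool, (univ.filter fun i => u i = true).card ≤ K →
      PB (fun i => u i = true) (g u))
    (u : X → Bool) (hu : (univ.filter fun i => u i = true).card ≤ K) :
    PB (fun i => u i = true) (fun i k => ∃ j, f u i j ∧ g (occ f u) j k) := by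
  classical
  obtain ⟨a1, a2, a3, a4⟩ := hf u hu
  have hc : (univ.filter fun j => occ f u j = true).card ≤ K := by
    refine le_trans ?_ hu
    refine Finset.card_le_card_of_forall_subsingleton (fun j i => f u i j) (fun j hj => ?_)
      (fun i _ => ?_)
    · obtain ⟨i, h1, h2⟩ := (occ_iff f u j).1 (mem_filter.1 hj).2
      exact ⟨i, mem_filter.2 ⟨mem_univ _, h2⟩, h1⟩
    · rintro j ⟨_, hj⟩ j' ⟨_, hj'⟩
      exact a3 i j j' hj hj'
  obtain ⟨b1, b2, b3, b4⟩ := hg (occ f u) hc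
  refine ⟨?_, ?_, ?_, ?_⟩
  · rintro i k ⟨j, hj, _⟩
    exact a1 i j hj
  · intro i hi
    obtain ⟨j, hj⟩ := a2 i hi
    obtain ⟨k, hk⟩ := b2 j ((occ_iff f u j).2 ⟨i, hj, hi⟩)
    exact ⟨k, j, hj, hk⟩
  · rintro i k k' ⟨j, hj, hk⟩ ⟨j', hj', hk'⟩
    have e := a3 i j j' hj hj'
    subst e
    exact b3 j k k' hk hk'
  · rintro i i' k ⟨j, hj, hk⟩ ⟨j', hj', hk'⟩
    have e := b4 j j' k hk hk'
    subst e
    exact a4 i i' j hj hj'

theorem tColl (h : S_Half) : S_Coll := by
  obtain ⟨c, hc⟩ := h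
  refine ⟨6 * c + 32768, fun k e => ?_⟩
  induction e with
  | zero =>
    intro N M hN hM
    rw [Nat.add_zero] at hN
    subst hN
    subst hM
    have : Nonempty (Fin (2 ^ (k + 13))) := ⟨⟨0, Nat.two_pow_pos _⟩⟩
    refine ⟨fun u i j => ∃ t : Fin 1, u i = true ∧ (fun (i : Fin (2 ^ (k + 13))) (_ : Fin 1) => i)
      i t = j, (Mv.base (by norm_num : 0 < 1) (fun (i : Fin (2 ^ (k + 13))) (_ : Fin 1) => i)
        (Cx.proj (fun p : Fin (2 ^ (k + 13)) × Fin 1 => p.1))).mono (Nat.zero_le _) ?_,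
      fun u hu => ?_⟩
    · have e0 : k + 0 = k := rfl
      rw [Fintype.card_fin, e0, pow_add 2 k 13]
      have e1 : (6 * c + 32768) * 2 ^ k = 6 * (c * 2 ^ k) + 32768 * 2 ^ k := by ring
      rw [e1]
      norm_num
      omega
    · refine ⟨?_, ?_, ?_, ?_⟩
      · rintro i j ⟨_, hi, _⟩
        exact hi
      · intro i hi
        exact ⟨i, 0, hi, rfl⟩
      · rintro i j j' ⟨_, _, rfl⟩ ⟨_, _, rfl⟩
        rfl
      · rintro i i' j ⟨_, _, h1⟩ ⟨_, _, h2⟩
        have h1' : i = j := h1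
        have h2' : i' = j := h2
        rw [h1', h2']
  | succ e ih =>
    intro N M hN hM
    obtain ⟨f, hf, hfP⟩ := hc (k + e + 1) N (2 ^ (k + 13 + e)) (by rw [hN]; congr 1; omega)
      (by congr 1; omega)
    obtain ⟨g, hg, hgP⟩ := ih (2 ^ (k + 13 + e)) M rfl hM
    have hle : 2 ^ k ≤ 2 ^ (k + e + 1) := Nat.pow_le_pow_right (by norm_num) (by omega)
    refine ⟨fun u i l => ∃ j, f u i j ∧ g (occ f u) j l,
      (hf.comp (occ_cx hf) hg).mono ?_ ?_,
      fun u hu => step (K := 2 ^ k) (fun u hu => hfP u (hu.trans hle)) hgP u hu⟩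
    · have e1 : k + (e + 1) = k + e + 1 := by omega
      rw [e1, pow_succ 2 (k + e)]
      have e2 : k + e + 1 + 1 = k + e + 2 := by omega
      rw [e2]
      have h1 : (1 : ℕ) ≤ k + e + 2 := by omega
      have h2 : c * (2 ^ (k + e) * 2) ≤ c * ((k + e + 2) * (2 ^ (k + e) * 2)) :=
        Nat.mul_le_mul_left _ (Nat.le_mul_of_pos_left _ h1)
      have h3 : (6 * c + 32768) * ((k + e + 1) * 2 ^ (k + e)) ≤
          (6 * c + 32768) * ((k + e + 2) * 2 ^ (k + e)) :=
        Nat.mul_le_mul_left _ (Nat.mul_le_mul_right _ (by omega))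
      have e3 : c * ((k + e + 2) * (2 ^ (k + e) * 2)) = 2 * (c * ((k + e + 2) * 2 ^ (k + e))) := by
        ring
      have e4 : (6 * c + 32768) * ((k + e + 2) * (2 ^ (k + e) * 2)) =
          (6 * c + 32768) * ((k + e + 2) * 2 ^ (k + e)) +
            (6 * (c * ((k + e + 2) * 2 ^ (k + e))) + 32768 * ((k + e + 2) * 2 ^ (k + e))) := by
        ring
      rw [e3] at h2
      rw [e3, e4]
      omega
    · have e1 : k + (e + 1) = k + e + 1 := by omega
      rw [e1, pow_succ 2 (k + e)]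
      have e4 : (6 * c + 32768) * (2 ^ (k + e) * 2) =
          (6 * c + 32768) * 2 ^ (k + e) + (6 * (c * 2 ^ (k + e)) + 32768 * 2 ^ (k + e)) := by
        ring
      have e5 : c * (2 ^ (k + e) * 2) = 2 * (c * 2 ^ (k + e)) := by ring
      rw [e4, e5]
      omega

end Pool.Agent.Lin
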