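import Pool.Agent.Lib.MP_76b24b_lcM.Spec2

/-!
# MP_76b24b_lc, package M: compression for any number of marks
-/

set_option autoImplicit false

namespace Pool.Agent.Lin

private theorem lcom_mono {γ j w s s' : ℕ} {zz zz' : Prop} (h : LCom γ j w s zz) (hs : s ≤ s')
    (hz : zz → zz') : LCom γ j w s' zz' := by
  obtain ⟨F, hF, hP⟩ := h
  exact ⟨F, hF.mono hs, fun x hx => hP x fun h => hx (hz h)⟩

theorem tCom (h1 : S_ComN) (h2 : S_ComS) : S_Com := by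
  obtain ⟨c1, h1⟩ := h1
  obtain ⟨c2, h2⟩ := h2
  refine ⟨c1 * (2 ^ 16 + 1) + c2 + 6, fun γ j hγ => ?_⟩
  by_cases hs : j + 4 * (Nat.log 2 γ + 1) + 12 ≤ γ
  · refine lcom_mono (h2 γ j hs) ?_ id
    calc c2 * 2 ^ γ ≤ (c1 * (2 ^ 16 + 1) + c2 + 6) * 2 ^ γ := Nat.mul_le_mul_right _ (by omega)
      _ ≤ _ := Nat.mul_le_mul_left _ (Nat.le_add_right _ _)
  · refine lcom_mono (h1 γ j γ hγ le_rfl) ?_ False.elim
    have hL : 2 ^ (Nat.log 2 γ) ≤ γ := Nat.pow_log_le_self 2 hγ.ne'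
    have e1 : 2 ^ γ ≤ 2 ^ 16 * (2 ^ j * (γ + 1) ^ 4) := by
      calc 2 ^ γ ≤ 2 ^ (j + 4 * (Nat.log 2 γ + 1) + 12) :=
            Nat.pow_le_pow_right (by norm_num) (by omega)
        _ = 2 ^ 16 * (2 ^ j * (2 ^ (Nat.log 2 γ)) ^ 4) := by
            rw [← Nat.pow_mul, ← Nat.pow_add, ← Nat.pow_add]
            congr 1
            omega
        _ ≤ 2 ^ 16 * (2 ^ j * (γ + 1) ^ 4) := Nat.mul_le_mul_left _
            (Nat.mul_le_mul_left _ (Nat.pow_le_pow_left (by omega) 4))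
    have e2 : (γ + 1) ^ 2 * 2 ^ γ + 2 ^ j * (γ + 1) ≤ (2 ^ 16 + 1) * (2 ^ j * (γ + 1) ^ 6) := by
      have a1 : (γ + 1) ^ 2 * 2 ^ γ ≤ 2 ^ 16 * (2 ^ j * (γ + 1) ^ 6) := by
        calc (γ + 1) ^ 2 * 2 ^ γ ≤ (γ + 1) ^ 2 * (2 ^ 16 * (2 ^ j * (γ + 1) ^ 4)) :=
              Nat.mul_le_mul_left _ e1
          _ = 2 ^ 16 * (2 ^ j * (γ + 1) ^ 6) := by ring
      have a2 : 2 ^ j * (γ + 1) ≤ 2 ^ j * (γ + 1) ^ 6 := Nat.mul_le_mul_left _ (by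
        calc γ + 1 = (γ + 1) ^ 1 := (pow_one _).symm
          _ ≤ (γ + 1) ^ 6 := Nat.pow_le_pow_right (by omega) (by norm_num))
      rw [Nat.add_mul, Nat.one_mul]
      exact Nat.add_le_add a1 a2
    have e3 : (γ + 1) ^ 6 ≤ (γ + 1) ^ (c1 * (2 ^ 16 + 1) + c2 + 6) :=
      Nat.pow_le_pow_right (by omega) (by omega)
    calc c1 * ((γ + 1) ^ 2 * 2 ^ γ + 2 ^ j * (γ + 1))
        ≤ c1 * ((2 ^ 16 + 1) * (2 ^ j * (γ + 1) ^ 6)) := Nat.mul_le_mul_left _ e2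
      _ = c1 * (2 ^ 16 + 1) * (2 ^ j * (γ + 1) ^ 6) := (Nat.mul_assoc _ _ _).symm
      _ ≤ (c1 * (2 ^ 16 + 1) + c2 + 6) *
          (2 ^ γ + 2 ^ j * (γ + 1) ^ (c1 * (2 ^ 16 + 1) + c2 + 6)) :=
        Nat.mul_le_mul (by omega) ((Nat.mul_le_mul_left _ e3).trans (Nat.le_add_left _ _))

end Pool.Agent.Lin
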