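import Pool.Agent.Lib.MP_76b24b_lcM.Spec2

/-!
# MP_76b24b_lc, package M, module ComN

Compression of the marks of a superblock, the simple way.
-/

set_option autoImplicit false

namespace Pool.Agent.Lin

open Finset

/-- `num` of the lowest digits. -/
private theorem num_testBit (k s : ℕ) : num (fun t : Fin k => s.testBit t) = s % 2 ^ k := by
  induction k with
  | zero => simp [num, Nat.mod_one]
  | succ k ih =>
    have h1 : num (fun t : Fin (k + 1) => s.testBit t)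
        = num (fun t : Fin k => s.testBit t) + (if s.testBit k = true then 2 ^ k else 0) := by
      unfold num
      rw [Fin.sum_univ_castSucc]
      simp only [Fin.val_castSucc, Fin.val_last]
    rw [h1, ih, Nat.mod_pow_succ, Nat.testBit_eq_decide_div_mod_eq]
    rcases Nat.mod_two_eq_zero_or_one (s / 2 ^ k) with h | h
    · rw [h]
      simp
    · rw [h]
      simp

private theorem add_mod_testBit (k a b i : ℕ) (hi : i < k) :
    (a + b % 2 ^ k).testBit i = (a + b).testBit i := by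
  have h1 : ((a + b % 2 ^ k) % 2 ^ k).testBit i = (a + b % 2 ^ k).testBit i := by
    rw [Nat.testBit_mod_two_pow]
    simp [hi]
  have h2 : ((a + b) % 2 ^ k).testBit i = (a + b).testBit i := by
    rw [Nat.testBit_mod_two_pow]
    simp [hi]
  rw [← h1, ← h2, Nat.add_mod_mod]

/-- Blocks of length one. -/
private theorem rk_one {n : ℕ} (P : Fin n → Bool) (q : ℕ) :
    rk (bpos (2 ^ 0)) (fun p : Fin n × Fin (2 ^ 0) => P p.1) (q * 2 ^ 0) = rk Fin.val P q := by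
  unfold rk
  refine Finset.card_bij (fun p _ => p.1) ?_ ?_ ?_
  · intro p hp
    rw [Finset.mem_filter] at hp ⊢
    refine ⟨Finset.mem_univ _, ?_, hp.2.2⟩
    have h2 : (p.1 : ℕ) * 1 + p.2 < q * 1 := hp.2.1
    omega
  · intro p _ p' _ h
    refine Prod.ext h ?_
    apply Fin.ext
    have h3 : (p.2 : ℕ) < 1 := p.2.isLt
    have h4 : (p'.2 : ℕ) < 1 := p'.2.isLt
    omega
  · intro ρ hρ
    rw [Finset.mem_filter] at hρ
    refine ⟨(ρ, ⟨0, by norm_num⟩), ?_, rfl⟩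
    rw [Finset.mem_filter]
    refine ⟨Finset.mem_univ _, ?_, hρ.2.2⟩
    have h2 := hρ.2.1
    show (ρ : ℕ) * 1 + 0 < q * 1
    omega

private theorem rk_lt {n : ℕ} (P : Fin n → Bool) (a b : Fin n) (ha : P a = true) (h : a < b) :
    rk Fin.val P a < rk Fin.val P b := by
  unfold rk
  apply Finset.card_lt_card
  rw [Finset.ssubset_iff_of_subset]
  · refine ⟨a, ?_, ?_⟩
    · simp only [Finset.mem_filter, Finset.mem_univ, true_and]
      exact ⟨h, ha⟩
    · simp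
  · intro c hc
    simp only [Finset.mem_filter, Finset.mem_univ, true_and] at hc ⊢
    exact ⟨lt_trans hc.1 h, hc.2⟩

private theorem rk_inj {n : ℕ} (P : Fin n → Bool) (a b : Fin n) (ha : P a = true)
    (hb : P b = true) (h : rk Fin.val P a = rk Fin.val P b) : a = b := by
  rcases lt_trichotomy a b with h1 | h1 | h1
  · have := rk_lt P a b ha h1
    omega
  · exact h1
  · have := rk_lt P b a hb h1
    omega

private theorem rk_bound {n : ℕ} (P : Fin n → Bool) (a : Fin n) : rk Fin.val P a < n := by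
  unfold rk
  have h1 : (univ.filter fun c : Fin n => (c : ℕ) < a ∧ P c = true).card <
      (univ : Finset (Fin n)).card := by
    apply Finset.card_lt_card
    rw [Finset.ssubset_iff_of_subset (Finset.subset_univ _)]
    exact ⟨a, Finset.mem_univ _, by simp⟩
  simpa using h1

private theorem cmp_iff {α : Type} [Fintype α] (pos : α → ℕ) (P Q : α → Bool) (j : ℕ) :
    cmp pos P Q j = true ↔ ∃ a, P a = true ∧ Q a = true ∧ rk pos P (pos a) = j := by
  unfold cmp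
  exact decide_eq_true_iff

private theorem cmp_at {n : ℕ} (P Q : Fin n → Bool) (a : Fin n) (ha : P a = true) :
    cmp Fin.val P Q (rk Fin.val P a) = Q a := by
  rw [Bool.eq_iff_iff, cmp_iff]
  constructor
  · rintro ⟨b, hb, hq, he⟩
    have := rk_inj P b a hb ha he
    rw [← this]
    exact hq
  · intro h
    exact ⟨a, ha, h, rfl⟩

/-- The digits of `o +` the rank of each cell, and the marks. -/
private theorem stage (h1 : S_Pre) (h2 : S_Add) : ∃ c : ℕ, ∀ γ : ℕ,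
    Cx (fun (x : Raw γ → Bool) (p : (Fin (2 ^ γ) × Fin γ) ⊕ Fin (2 ^ γ)) =>
      Sum.elim (fun q : Fin (2 ^ γ) × Fin γ => (num (fun t => x (Sum.inl t)) +
          rk Fin.val (fun ρ : Fin (2 ^ γ) => x (Sum.inr (0, ρ))) q.1).testBit q.2)
        (fun ρ : Fin (2 ^ γ) => x (Sum.inr (0, ρ)) && x (Sum.inr (1, ρ))) p)
      (c * ((γ + 1) * 2 ^ γ)) := by
  obtain ⟨c, hc⟩ := h1
  refine ⟨2 * c + 6, fun γ => ?_⟩
  have a1 := ((hc 0 γ).inp (fun p : Fin (2 ^ γ) × Fin (2 ^ 0) =>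
    (Sum.inr (0, p.1) : Raw γ))).out
    (fun q : Fin (2 ^ γ) × Fin γ => (q.1.castSucc, (⟨q.2, by omega⟩ : Fin (γ + 0 + 1))))
  have a2 : Cx (fun (x : Raw γ → Bool) (q : Fin (2 ^ γ) × Fin γ) =>
      (rk Fin.val (fun ρ : Fin (2 ^ γ) => x (Sum.inr (0, ρ))) q.1).testBit q.2)
      (c * (2 ^ γ * (2 ^ 0 + γ + 1))) := by
    refine a1.congr fun x q => ?_
    show (rk (bpos (2 ^ 0)) (fun p : Fin (2 ^ γ) × Fin (2 ^ 0) => x (Sum.inr (0, p.1)))
      (((q.1.castSucc : Fin (2 ^ γ + 1)) : ℕ) * 2 ^ 0)).testBit q.2 = _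
    rw [rk_one (fun ρ : Fin (2 ^ γ) => x (Sum.inr (0, ρ))), Fin.val_castSucc]
  have a3 := Cx.fam (fun (ρ : Fin (2 ^ γ)) (y : Raw γ ⊕ (Fin (2 ^ γ) × Fin γ) → Bool)
      (i : Fin γ) =>
        (num (fun t => y (Sum.inl (Sum.inl t))) + num (fun t => y (Sum.inr (ρ, t)))).testBit i)
    (fun _ => 5 * γ) (fun ρ => (h2 γ).inp
      (Sum.elim (fun t => Sum.inl (Sum.inl t)) (fun t => Sum.inr (ρ, t)) :
        Fin γ ⊕ Fin γ → Raw γ ⊕ (Fin (2 ^ γ) × Fin γ)))
  have a4 := a2.ext a3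
  have a5 := Cx.layer (ι := Raw γ) (fun _ : Fin (2 ^ γ) => and) (fun ρ => Sum.inr (0, ρ))
    (fun ρ => Sum.inr (1, ρ))
  refine ((a4.pair a5).mono ?_).congr fun x p => ?_
  · rw [Finset.sum_const, smul_eq_mul, Finset.card_univ, Fintype.card_fin, pow_zero]
    have h : 1 ≤ 2 ^ γ := Nat.one_le_two_pow
    generalize 2 ^ γ = N at h ⊢
    have e1 : c * (N * (1 + γ + 1)) ≤ 2 * c * ((γ + 1) * N) := by
      have : N * (1 + γ + 1) ≤ 2 * ((γ + 1) * N) := by nlinarith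
      calc c * (N * (1 + γ + 1)) ≤ c * (2 * ((γ + 1) * N)) := Nat.mul_le_mul_left _ this
        _ = 2 * c * ((γ + 1) * N) := by ring
    have e2 : N * (5 * γ) + N ≤ 6 * ((γ + 1) * N) := by nlinarith
    calc c * (N * (1 + γ + 1)) + N * (5 * γ) + N
        ≤ 2 * c * ((γ + 1) * N) + 6 * ((γ + 1) * N) := by omega
      _ = (2 * c + 6) * ((γ + 1) * N) := by ring
  · rcases p with q | ρ
    · show (num (fun t => x (Sum.inl t)) + num (fun t : Fin γ =>
        (rk Fin.val (fun ρ : Fin (2 ^ γ) => x (Sum.inr (0, ρ))) q.1).testBit t)).testBit q.2 = _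
      rw [num_testBit, add_mod_testBit _ _ _ _ q.2.isLt]
      rfl
    · rfl

/-- The inputs of the compaction of the bit `e`. -/
private def wir (γ w : ℕ) (hw : w ≤ γ) (e : Fin w ⊕ Unit) (ρ : Fin (2 ^ γ)) :
    Raw γ ⊕ ((Fin (2 ^ γ) × Fin γ) ⊕ Fin (2 ^ γ)) :=
  Sum.elim (fun t : Fin w => Sum.inr (Sum.inl (ρ, ⟨t, lt_of_lt_of_le t.isLt hw⟩)))
    (fun _ => Sum.inl (Sum.inr (2, ρ))) e

theorem tComN (h1 : S_Pre) (h2 : S_Add) (h3 : S_Naive) : S_ComN := by
  obtain ⟨c, hc⟩ := stage h1 h2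
  refine ⟨c + 9, fun γ j w hγ hw => ?_⟩
  have b1 := hc γ
  -- for each bit a stable compaction
  have b2 := Cx.fam (fun (e : Fin w ⊕ Unit)
      (y : Raw γ ⊕ ((Fin (2 ^ γ) × Fin γ) ⊕ Fin (2 ^ γ)) → Bool) (v : Fin (2 ^ γ)) =>
        cmp Fin.val (fun ρ => y (Sum.inr (Sum.inr ρ))) (fun ρ => y (wir γ w hw e ρ)) v)
    (fun _ => 8 * (γ + 1) * 2 ^ γ) (fun e => (h3 γ).inp
      (Sum.elim (fun ρ => Sum.inr (Sum.inr ρ)) (fun ρ => wir γ w hw e ρ) :
        Fin (2 ^ γ) ⊕ Fin (2 ^ γ) → Raw γ ⊕ ((Fin (2 ^ γ) × Fin γ) ⊕ Fin (2 ^ γ))))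
  have b3 := b1.ext b2
  have hne : Nonempty (Raw γ) := ⟨Sum.inr (0, ⟨0, Nat.two_pow_pos _⟩)⟩
  have b4 := (b3.pair (Cx.const (ι := Raw γ) false)).out
    (fun p : Fin (2 ^ j) × (Fin w ⊕ Unit) =>
      if h : (p.1 : ℕ) < 2 ^ γ then (Sum.inl (p.2, ⟨p.1, h⟩) :
        ((Fin w ⊕ Unit) × Fin (2 ^ γ)) ⊕ Unit) else Sum.inr ())
  refine ⟨_, b4.mono ?_, ?_⟩
  · rw [Finset.sum_const, smul_eq_mul, Finset.card_univ, Fintype.card_sum, Fintype.card_fin,
      Fintype.card_unit]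
    have h : 1 ≤ 2 ^ γ := Nat.one_le_two_pow
    have h' : 0 ≤ 2 ^ j * (w + 1) := Nat.zero_le _
    generalize 2 ^ γ = N at h ⊢
    generalize 2 ^ j * (w + 1) = M at h' ⊢
    have e0 : (γ + 1) * N ≤ (γ + 1) ^ 2 * N := by
      apply Nat.mul_le_mul_right
      nlinarith
    have e1 : c * ((γ + 1) * N) ≤ c * ((γ + 1) ^ 2 * N) := Nat.mul_le_mul_left _ e0
    have e2 : (w + 1) * (8 * (γ + 1) * N) ≤ 8 * ((γ + 1) ^ 2 * N) := by
      calc (w + 1) * (8 * (γ + 1) * N) ≤ (γ + 1) * (8 * (γ + 1) * N) :=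
            Nat.mul_le_mul_right _ (by omega)
        _ = 8 * ((γ + 1) ^ 2 * N) := by ring
    have e3 : 1 ≤ (γ + 1) ^ 2 * N := Nat.succ_le_of_lt (Nat.mul_pos (by positivity) h)
    calc c * ((γ + 1) * N) + (w + 1) * (8 * (γ + 1) * N) + 1
        ≤ c * ((γ + 1) ^ 2 * N) + 8 * ((γ + 1) ^ 2 * N) + (γ + 1) ^ 2 * N := by omega
      _ = (c + 9) * ((γ + 1) ^ 2 * N) := by ring
      _ ≤ (c + 9) * ((γ + 1) ^ 2 * N + M) := Nat.mul_le_mul_left _ (by omega)
  · intro x _ _ ρ v hP hQ hv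
    have hPQ : (x (Sum.inr (0, ρ)) && x (Sum.inr (1, ρ))) = true := by rw [hP, hQ]; rfl
    have hv2 : (v : ℕ) < 2 ^ γ := by
      rw [← hv]
      exact rk_bound (fun ρ : Fin (2 ^ γ) => x (Sum.inr (0, ρ)) && x (Sum.inr (1, ρ))) ρ
    constructor
    · intro e
      simp only [hv2, dif_pos, Sum.elim_inl]
      have key := cmp_at (fun ρ : Fin (2 ^ γ) => x (Sum.inr (0, ρ)) && x (Sum.inr (1, ρ)))
        (fun ρ' => (num (fun t => x (Sum.inl t)) +
          rk Fin.val (fun ρ : Fin (2 ^ γ) => x (Sum.inr (0, ρ))) ρ').testBit e) ρ hPQ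
      rw [hv] at key
      exact key
    · simp only [hv2, dif_pos, Sum.elim_inl]
      have key := cmp_at (fun ρ : Fin (2 ^ γ) => x (Sum.inr (0, ρ)) && x (Sum.inr (1, ρ)))
        (fun ρ' => x (Sum.inr (2, ρ'))) ρ hPQ
      rw [hv] at key
      exact key

end Pool.Agent.Lin
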