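import Pool.Agent.Lib.MP_76b24b_lcM.Spec2

/-!
# MP_76b24b_lc, package M: compression in linear size, for few marks
-/

set_option autoImplicit false

namespace Pool.Agent.Lin

open Finset

/-! ### Numbers -/

private theorem num_succ {k : ℕ} (u : Fin (k + 1) → Bool) :
    num u = num (fun t : Fin k => u t.castSucc) + 2 ^ k * (if u (Fin.last k) = true then 1 else 0) := by
  unfold num
  rw [Fin.sum_univ_castSucc]
  congr 1
  rw [Fin.val_last]
  split_ifs <;> simp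

private theorem num_lt {k : ℕ} (u : Fin k → Bool) : num u < 2 ^ k := by
  induction k with
  | zero => simp [num]
  | succ k ih =>
    rw [num_succ, pow_succ]
    have h1 := ih (fun t : Fin k => u t.castSucc)
    split_ifs <;> omega

private theorem num_bit {k : ℕ} (u : Fin k → Bool) (t : ℕ) :
    (num u).testBit t = if h : t < k then u ⟨t, h⟩ else false := by
  induction k generalizing t with
  | zero => simp [num]
  | succ k ih =>
    rw [num_succ, add_comm, Nat.testBit_two_pow_mul_add _ (num_lt _)]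
    rcases lt_trichotomy t k with h | h | h
    · rw [if_pos h, ih, dif_pos h, dif_pos (by omega)]
      rfl
    · subst h
      rw [if_neg (lt_irrefl _), Nat.sub_self, dif_pos (Nat.lt_succ_self _)]
      change _ = u (Fin.last t)
      cases u (Fin.last t) <;> simp
    · rw [if_neg (by omega), dif_neg (by omega)]
      have h1 : t - k ≠ 0 := by omega
      split_ifs
      · exact Nat.testBit_lt_two_pow (Nat.one_lt_two_pow h1)
      · exact Nat.zero_testBit _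

private theorem num_tb (k s : ℕ) : num (fun t : Fin k => s.testBit t) = s % 2 ^ k := by
  refine Nat.eq_of_testBit_eq fun t => ?_
  rw [Nat.testBit_mod_two_pow, num_bit]
  by_cases h : t < k
  · rw [dif_pos h, decide_eq_true h, Bool.true_and]
  · rw [dif_neg h, decide_eq_false h, Bool.false_and]

private theorem num_mod (k : ℕ) (u : Fin (k + 1) → Bool) :
    num (fun t : Fin k => u t.castSucc) = num u % 2 ^ k := by
  refine Nat.eq_of_testBit_eq fun t => ?_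
  rw [Nat.testBit_mod_two_pow, num_bit, num_bit]
  by_cases h : t < k
  · rw [dif_pos h, dif_pos (by omega), decide_eq_true h, Bool.true_and]
    rfl
  · rw [dif_neg h, decide_eq_false h, Bool.false_and]

private theorem num_ext {b k : ℕ} (hb : b ≤ k) (u : Fin b → Bool) :
    num (fun t : Fin k => if h : (t : ℕ) < b then u ⟨t, h⟩ else false) = num u := by
  refine Nat.eq_of_testBit_eq fun t => ?_
  rw [num_bit, num_bit]
  by_cases h : t < b
  · rw [dif_pos h, dif_pos (by omega), dif_pos h]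
  · rw [dif_neg h]
    split_ifs <;> rfl

private theorem bit_mod (k a b : ℕ) (h : a % 2 ^ k = b % 2 ^ k) (t : ℕ) (ht : t < k) :
    a.testBit t = b.testBit t := by
  have h1 := Nat.testBit_mod_two_pow a k t
  have h2 := Nat.testBit_mod_two_pow b k t
  rw [decide_eq_true ht, Bool.true_and] at h1 h2
  rw [← h1, ← h2, h]

/-- The sum of three numbers modulo `2 ^ k`. -/
private theorem add3 (hA : S_Add) (k b : ℕ) (hk : 0 < k) (hb : b ≤ k) :
    Cx (fun (x : Fin k ⊕ (Fin (k + 1) ⊕ Fin b) → Bool) (e : Fin k) =>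
      (num (fun t => x (Sum.inl t)) + num (fun t => x (Sum.inr (Sum.inl t))) +
        num (fun t => x (Sum.inr (Sum.inr t)))).testBit e) (10 * k + 1) := by
  let ι := Fin k ⊕ (Fin (k + 1) ⊕ Fin b)
  have : Nonempty ι := ⟨Sum.inl ⟨0, hk⟩⟩
  have ha := (hA k).inp (Sum.elim (fun t => Sum.inl t)
    (fun t => Sum.inr (Sum.inl t.castSucc)) : Fin k ⊕ Fin k → ι)
  have hK := (ha.pair (Cx.const (ι := ι) false)).keep
  have h2 := (hK.comp ((hA k).inp (Sum.elim (fun t => Sum.inr (Sum.inl t))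
    (fun t => if h : (t : ℕ) < b then Sum.inl (Sum.inr (Sum.inr ⟨t, h⟩)) else
      Sum.inr (Sum.inr ())) : Fin k ⊕ Fin k → ι ⊕ (Fin k ⊕ Unit))))
  refine (h2.mono (by omega)).congr fun x e => ?_
  show (num (fun t : Fin k => (num (fun t => x (Sum.inl t)) +
      num (fun t : Fin k => x (Sum.inr (Sum.inl t.castSucc)))).testBit t) +
    num (fun t : Fin k => Sum.elim x (Sum.elim _ (fun _ : Unit => false))
      (if h : (t : ℕ) < b then Sum.inl (Sum.inr (Sum.inr ⟨t, h⟩)) else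
      Sum.inr (Sum.inr ())))).testBit e = _
  have e1 : (fun t : Fin k => Sum.elim x (Sum.elim (fun e : Fin k =>
      (num (fun t => x (Sum.inl t)) +
      num (fun t : Fin k => x (Sum.inr (Sum.inl t.castSucc)))).testBit e) (fun _ : Unit => false))
      (if h : (t : ℕ) < b then Sum.inl (Sum.inr (Sum.inr ⟨t, h⟩)) else
      Sum.inr (Sum.inr ()))) = fun t : Fin k => if h : (t : ℕ) < b then
        (fun t => x (Sum.inr (Sum.inr t))) ⟨t, h⟩ else false := by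
    funext t
    split_ifs <;> rfl
  have e2 : num (fun t : Fin k => if h : (t : ℕ) < b then
        (fun t => x (Sum.inr (Sum.inr t))) ⟨t, h⟩ else false) =
      num (fun t => x (Sum.inr (Sum.inr t))) := num_ext hb (fun t => x (Sum.inr (Sum.inr t)))
  refine bit_mod k _ _ ?_ e e.isLt
  have e3 := num_mod k (fun t => x (Sum.inr (Sum.inl t)))
  have e4 := num_tb k (num (fun t => x (Sum.inl t)) +
      num (fun t : Fin k => x (Sum.inr (Sum.inl t.castSucc))))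
  calc (num (fun t : Fin k => (num (fun t => x (Sum.inl t)) +
      num (fun t : Fin k => x (Sum.inr (Sum.inl t.castSucc)))).testBit t) +
    num (fun t : Fin k => Sum.elim x (Sum.elim (fun e : Fin k =>
      (num (fun t => x (Sum.inl t)) +
      num (fun t : Fin k => x (Sum.inr (Sum.inl t.castSucc)))).testBit e) (fun _ : Unit => false))
      (if h : (t : ℕ) < b then Sum.inl (Sum.inr (Sum.inr ⟨t, h⟩)) else
      Sum.inr (Sum.inr ())))) % 2 ^ k = ((num (fun t => x (Sum.inl t)) +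
      num (fun t => x (Sum.inr (Sum.inl t))) % 2 ^ k) % 2 ^ k +
        num (fun t => x (Sum.inr (Sum.inr t)))) % 2 ^ k := by rw [e1, e2, e4, e3]
    _ = (num (fun t => x (Sum.inl t)) + num (fun t => x (Sum.inr (Sum.inl t))) +
        num (fun t => x (Sum.inr (Sum.inr t)))) % 2 ^ k := by
      rw [Nat.mod_add_mod, add_assoc, add_assoc, Nat.add_mod,
        Nat.add_mod (num fun t => x (Sum.inl t)) (num _ + num _)]
      congr 2
      rw [Nat.mod_add_mod]

/-! ### Ranks -/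

private theorem rk_trans {α α' : Type} [Fintype α] [Fintype α'] (pos : α → ℕ) (pos' : α' → ℕ)
    (P : α → Bool) (P' : α' → Bool) (f : α → α')
    (hinj : ∀ a b, P a = true → P b = true → f a = f b → a = b)
    (hord : ∀ a b, P a = true → P b = true → (pos a < pos b ↔ pos' (f a) < pos' (f b)))
    (hP : ∀ a, P a = true → P' (f a) = true)
    (hR : ∀ b, P' b = true → ∃ a, P a = true ∧ f a = b) (a : α) (ha : P a = true) :
    rk pos' P' (pos' (f a)) = rk pos P (pos a) := by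
  classical
  unfold rk
  symm
  refine Finset.card_bij (fun a _ => f a) ?_ ?_ ?_
  · intro b hb
    rw [mem_filter] at hb ⊢
    exact ⟨mem_univ _, (hord b a hb.2.2 ha).1 hb.2.1, hP b hb.2.2⟩
  · intro b hb b' hb' h
    rw [mem_filter] at hb hb'
    exact hinj b b' hb.2.2 hb'.2.2 h
  · intro b hb
    rw [mem_filter] at hb
    obtain ⟨c, h1, rfl⟩ := hR b hb.2.2
    exact ⟨c, mem_filter.2 ⟨mem_univ _, (hord c a h1 ha).2 hb.2.1, h1⟩, rfl⟩

private theorem rk_map {α α' : Type} [Fintype α] [Fintype α'] (pos : α → ℕ) (pos' : α' → ℕ)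
    (P : α → Bool) (P' : α' → Bool) (f : α → α') (hf : Function.Injective f)
    (hpos : ∀ a, pos' (f a) = pos a) (hP : ∀ a, P' (f a) = P a)
    (hR : ∀ b, P' b = true → ∃ a, f a = b) (q : ℕ) : rk pos' P' q = rk pos P q := by
  classical
  unfold rk
  symm
  refine Finset.card_bij (fun a _ => f a) ?_ ?_ ?_
  · intro a ha
    rw [mem_filter] at ha ⊢
    refine ⟨mem_univ _, ?_, ?_⟩
    · rw [hpos]
      exact ha.2.1
    · rw [hP]
      exact ha.2.2
  · intro a _ b _ h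
    exact hf h
  · intro b hb
    rw [mem_filter] at hb
    obtain ⟨a, rfl⟩ := hR b hb.2.2
    refine ⟨a, ?_, rfl⟩
    rw [mem_filter]
    refine ⟨mem_univ _, ?_, ?_⟩
    · rw [← hpos]
      exact hb.2.1
    · rw [← hP]
      exact hb.2.2

private theorem cmp_iff {α : Type} [Fintype α] (pos : α → ℕ) (P Q : α → Bool) (j : ℕ) :
    cmp pos P Q j = true ↔ ∃ a, P a = true ∧ Q a = true ∧ rk pos P (pos a) = j :=
  decide_eq_true_iff

private theorem rk_inj {n : ℕ} (P : Fin n → Bool) (a b : Fin n) (ha : P a = true)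
    (hb : P b = true) (h : rk Fin.val P a = rk Fin.val P b) : a = b := by
  have key : ∀ a b : Fin n, P a = true → a < b → rk Fin.val P a < rk Fin.val P b := by
    intro a b ha hab
    unfold rk
    refine Finset.card_lt_card ⟨fun x hx => ?_, fun hh => ?_⟩
    · rw [mem_filter] at hx ⊢
      exact ⟨hx.1, hx.2.1.trans hab, hx.2.2⟩
    · have := hh (mem_filter.2 ⟨mem_univ a, hab, ha⟩)
      rw [mem_filter] at this
      exact lt_irrefl _ this.2.1
  rcases lt_trichotomy a b with h1 | h1 | h1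
  · exact absurd h (key a b ha h1).ne
  · exact h1
  · exact absurd h (key b a hb h1).ne'

/-- The rank inside of a block. -/
private theorem rk_block {b N : ℕ} (P : Fin N × Fin b → Bool) (i : Fin N) (ρ : ℕ) (hρ : ρ ≤ b) :
    rk (bpos b) P (i * b + ρ) = rk (bpos b) P (i * b) + rk Fin.val (fun ρ => P (i, ρ)) ρ := by
  classical
  unfold rk
  have e1 : (univ.filter fun ρ' : Fin b => (ρ' : ℕ) < ρ ∧ P (i, ρ') = true).card =
      ((univ.filter fun ρ' : Fin b => (ρ' : ℕ) < ρ ∧ P (i, ρ') = true).image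
        fun ρ' => (i, ρ')).card := by
    rw [Finset.card_image_of_injective]
    intro r r' h
    exact (Prod.mk.injEq _ _ _ _ ▸ h).2
  rw [e1, ← Finset.card_union_of_disjoint]
  · congr 1
    ext ⟨i', ρ'⟩
    have hρ' := ρ'.isLt
    simp only [Finset.mem_union, Finset.mem_filter, Finset.mem_univ, true_and, Finset.mem_image,
      Prod.mk.injEq]
    simp only [bpos]
    constructor
    · rintro ⟨h1, h2⟩
      by_cases h3 : (i' : ℕ) * b + ρ' < i * b
      · exact Or.inl ⟨h3, h2⟩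
      · right
        have h4 : (i' : ℕ) = i := by
          have h5 : (i' : ℕ) * b < (i + 1) * b := by nlinarith
          have h6 : (i' : ℕ) < i + 1 := lt_of_mul_lt_mul_right h5 (Nat.zero_le b)
          have h7 : (i : ℕ) * b < (i' + 1) * b := by nlinarith
          have h8 : (i : ℕ) < i' + 1 := lt_of_mul_lt_mul_right h7 (Nat.zero_le b)
          omega
        have h5 : i' = i := Fin.ext h4
        subst h5
        exact ⟨ρ', ⟨by omega, h2⟩, rfl, rfl⟩
    · rintro (⟨h1, h2⟩ | ⟨r, ⟨h1, h2⟩, rfl, rfl⟩)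
      · exact ⟨by omega, h2⟩
      · exact ⟨by omega, h2⟩
  · rw [Finset.disjoint_left]
    rintro ⟨i', ρ'⟩ h1 h2
    simp only [Finset.mem_filter, Finset.mem_univ, true_and, Finset.mem_image,
      Prod.mk.injEq] at h1 h2
    simp only [bpos] at h1
    obtain ⟨r, -, rfl, rfl⟩ := h2
    omega

/-! ### Cells and blocks -/

private def mk {η β : ℕ} (p : Fin (2 ^ η) × Fin (2 ^ β)) : Fin (2 ^ (η + β)) :=
  ⟨p.1 * 2 ^ β + p.2, by
    have h1 := p.1.isLt
    have h2 := p.2.isLt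
    have h3 : ((p.1 : ℕ) + 1) * 2 ^ β ≤ 2 ^ η * 2 ^ β := Nat.mul_le_mul_right _ h1
    rw [pow_add]
    have h4 : ((p.1 : ℕ) + 1) * 2 ^ β = p.1 * 2 ^ β + 2 ^ β := by ring
    omega⟩

private def dv {η β : ℕ} (a : Fin (2 ^ (η + β))) : Fin (2 ^ η) :=
  ⟨a / 2 ^ β, by
    rw [Nat.div_lt_iff_lt_mul (Nat.two_pow_pos β), ← pow_add]
    exact a.isLt⟩

private def md {η β : ℕ} (a : Fin (2 ^ (η + β))) : Fin (2 ^ β) :=
  ⟨a % 2 ^ β, Nat.mod_lt _ (Nat.two_pow_pos β)⟩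

private theorem mk_dv {η β : ℕ} (a : Fin (2 ^ (η + β))) : mk (η := η) (dv a, md a) = a := by
  refine Fin.ext ?_
  show (a : ℕ) / 2 ^ β * 2 ^ β + (a : ℕ) % 2 ^ β = a
  rw [mul_comm]
  exact Nat.div_add_mod _ _

private theorem dv_mk {η β : ℕ} (p : Fin (2 ^ η) × Fin (2 ^ β)) : dv (mk p) = p.1 := by
  refine Fin.ext ?_
  show ((p.1 : ℕ) * 2 ^ β + p.2) / 2 ^ β = p.1
  rw [mul_comm, Nat.mul_add_div (Nat.two_pow_pos β), Nat.div_eq_of_lt p.2.isLt, add_zero]

private theorem md_mk {η β : ℕ} (p : Fin (2 ^ η) × Fin (2 ^ β)) : md (mk p) = p.2 := by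
  refine Fin.ext ?_
  show ((p.1 : ℕ) * 2 ^ β + p.2) % 2 ^ β = p.2
  rw [mul_comm, Nat.mul_add_mod, Nat.mod_eq_of_lt p.2.isLt]

private theorem mk_inj {η β : ℕ} {p q : Fin (2 ^ η) × Fin (2 ^ β)} (h : mk p = mk q) : p = q := by
  have h1 := dv_mk p
  have h2 := md_mk p
  rw [h, dv_mk] at h1
  rw [h, md_mk] at h2
  exact Prod.ext h1.symm h2.symm

private theorem mk_lt {η β : ℕ} (p q : Fin (2 ^ η) × Fin (2 ^ β)) :
    mk p < mk q ↔ p.1 < q.1 ∨ (p.1 = q.1 ∧ p.2 < q.2) := by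
  have h2 := p.2.isLt
  have h3 := q.2.isLt
  rw [Fin.lt_def]
  show (p.1 : ℕ) * 2 ^ β + p.2 < q.1 * 2 ^ β + q.2 ↔ _
  rcases lt_trichotomy p.1 q.1 with h | h | h
  · refine ⟨fun _ => Or.inl h, fun _ => ?_⟩
    have h4 : ((p.1 : ℕ) + 1) * 2 ^ β ≤ q.1 * 2 ^ β := Nat.mul_le_mul_right _ h
    have h5 : ((p.1 : ℕ) + 1) * 2 ^ β = p.1 * 2 ^ β + 2 ^ β := by ring
    omega
  · rw [h]
    refine ⟨fun h4 => Or.inr ⟨rfl, ?_⟩, fun h4 => ?_⟩
    · rw [Fin.lt_def]
      omega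
    · rcases h4 with h4 | ⟨-, h4⟩
      · exact absurd h4 (lt_irrefl _)
      · rw [Fin.lt_def] at h4
        omega
  · have h4 : ((q.1 : ℕ) + 1) * 2 ^ β ≤ p.1 * 2 ^ β := Nat.mul_le_mul_right _ h
    have h5 : ((q.1 : ℕ) + 1) * 2 ^ β = q.1 * 2 ^ β + 2 ^ β := by ring
    refine ⟨fun h6 => by omega, fun h6 => ?_⟩
    rcases h6 with h6 | ⟨h6, -⟩
    · exact absurd h6 (not_lt.2 h.le)
    · exact absurd h6 h.ne'

/-- Ranks of the cells and of the cells of the blocks. -/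
private theorem rk_mk {η β : ℕ} (P : Fin (2 ^ (η + β)) → Bool) (q : ℕ) :
    rk (bpos (2 ^ β)) (fun p : Fin (2 ^ η) × Fin (2 ^ β) => P (mk p)) q = rk Fin.val P q :=
  (rk_map (bpos (2 ^ β)) Fin.val (fun p : Fin (2 ^ η) × Fin (2 ^ β) => P (mk p)) P mk
    (fun _ _ h => mk_inj h) (fun _ => rfl) (fun _ => rfl)
    (fun b _ => ⟨(dv b, md b), mk_dv b⟩) q).symm

/-- The marked cells and their images in the bins have the same ranks. -/
private theorem rk_bins {η β μ : ℕ} (P : Fin (2 ^ (η + β)) → Bool)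
    (P' : Fin (2 ^ (μ + β)) → Bool) (φ : Fin (2 ^ η) → Fin (2 ^ μ))
    (hφ : ∀ a b, P a = true → P b = true → dv a < dv b → φ (dv a) < φ (dv b))
    (h1 : ∀ a, P a = true → P' (mk (φ (dv a), md a)) = true)
    (h2 : ∀ b, P' b = true → ∃ a, P a = true ∧ mk (φ (dv a), md a) = b)
    (a : Fin (2 ^ (η + β))) (ha : P a = true) :
    rk Fin.val P' (mk (η := μ) (φ (dv a), md a)) = rk Fin.val P a := by
  have hlt : ∀ a b, P a = true → P b = true → (dv a < dv b ↔ φ (dv a) < φ (dv b)) := by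
    intro a b ha hb
    refine ⟨hφ a b ha hb, fun h => ?_⟩
    rcases lt_trichotomy (dv a) (dv b) with h' | h' | h'
    · exact h'
    · rw [h'] at h
      exact absurd h (lt_irrefl _)
    · exact absurd (h.trans (hφ b a hb ha h')) (lt_irrefl _)
  have heq : ∀ a b, P a = true → P b = true → φ (dv a) = φ (dv b) → dv a = dv b := by
    intro a b ha hb h
    rcases lt_trichotomy (dv a) (dv b) with h' | h' | h'
    · exact absurd h (hφ a b ha hb h').ne
    · exact h'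
    · exact absurd h (hφ b a hb ha h').ne'
  refine rk_trans Fin.val Fin.val P P' (fun a => mk (η := μ) (φ (dv a), md a)) ?_ ?_ h1 h2 a ha
  · intro a b ha hb h
    have h3 := mk_inj h
    have h4 := heq a b ha hb (congrArg Prod.fst h3)
    have h5 : md a = md b := congrArg Prod.snd h3
    rw [← mk_dv a, ← mk_dv b, h4, h5]
  · intro a b ha hb
    have h3 := mk_lt (φ (dv a), md a) (φ (dv b), md b)
    have h4 := mk_lt (dv a, md a) (dv b, md b)
    rw [mk_dv, mk_dv] at h4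
    show a < b ↔ mk (η := μ) (φ (dv a), md a) < mk (η := μ) (φ (dv b), md b)
    rw [h3, h4]
    simp only
    refine or_congr (hlt a b ha hb) (and_congr_left fun _ => ⟨fun h => by rw [h], heq a b ha hb⟩)


/-! ### The circuit -/

private theorem rk_le {b : ℕ} (P : Fin b → Bool) (q : ℕ) : rk Fin.val P q ≤ b := by
  unfold rk
  refine (Finset.card_filter_le _ _).trans ?_
  rw [Finset.card_univ, Fintype.card_fin]

private theorem cx_rk {c β : ℕ} (h : Cx (fun (P : Fin (2 ^ β) × Fin (2 ^ 0) → Bool)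
    (p : Fin (2 ^ β + 1) × Fin (β + 0 + 1)) =>
      (rk (bpos (2 ^ 0)) P (p.1 * 2 ^ 0)).testBit p.2) (c * (2 ^ β * (2 ^ 0 + β + 1)))) :
    Cx (fun (P : Fin (2 ^ β) → Bool) (p : Fin (2 ^ β) × Fin (β + 1)) =>
      (rk Fin.val P p.1).testBit p.2) (c * (2 ^ β * (β + 2))) := by
  have h1 := (h.inp (fun p : Fin (2 ^ β) × Fin (2 ^ 0) => p.1)).out
    (fun p : Fin (2 ^ β) × Fin (β + 1) => ((p.1.castSucc, p.2) :
      Fin (2 ^ β + 1) × Fin (β + 0 + 1)))
  refine (h1.mono (Nat.mul_le_mul_left _ (Nat.mul_le_mul_left _ (by omega)))).congr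
    fun P p => ?_
  have h2 : rk (bpos (2 ^ 0)) (fun p : Fin (2 ^ β) × Fin (2 ^ 0) => P p.1) p.1 =
      rk Fin.val P p.1 := by
    refine rk_map Fin.val (bpos (2 ^ 0)) P (fun p : Fin (2 ^ β) × Fin (2 ^ 0) => P p.1)
      (fun a => (a, ⟨0, by norm_num⟩)) ?_ ?_ (fun _ => rfl) ?_ _
    · intro a b hab
      exact congrArg Prod.fst hab
    · intro a
      simp [bpos]
    · rintro ⟨a, b⟩ -
      refine ⟨a, Prod.ext rfl (Fin.ext ?_)⟩
      have := b.isLt
      simp only [pow_zero] at this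
      show 0 = (b : ℕ)
      omega
  show (rk (bpos (2 ^ 0)) (fun p : Fin (2 ^ β) × Fin (2 ^ 0) => P p.1)
    ((p.1 : ℕ) * 2 ^ 0)).testBit p.2 = _
  rw [pow_zero, mul_one]
  rw [pow_zero] at h2
  rw [h2]

/-- The numbers of the cells of one bin. -/
private theorem cx_bin (hA : S_Add) {c β k : ℕ} (h : Cx (fun (P : Fin (2 ^ β) × Fin (2 ^ 0) → Bool)
    (p : Fin (2 ^ β + 1) × Fin (β + 0 + 1)) =>
      (rk (bpos (2 ^ 0)) P (p.1 * 2 ^ 0)).testBit p.2) (c * (2 ^ β * (2 ^ 0 + β + 1))))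
    (hk : β + 1 ≤ k) :
    Cx (fun (x : Fin k ⊕ (Fin (k + 1) ⊕ (Fin (2 ^ β) ⊕ Fin (2 ^ β))) → Bool)
      (p : Fin (2 ^ β) × Fin k) => (num (fun t => x (Sum.inl t)) +
        num (fun t => x (Sum.inr (Sum.inl t))) +
        rk Fin.val (fun ρ => x (Sum.inr (Sum.inr (Sum.inl ρ)))) p.1).testBit p.2)
      (c * (2 ^ β * (β + 2)) + 2 ^ β * (10 * k + 1)) := by
  let ι := Fin k ⊕ (Fin (k + 1) ⊕ (Fin (2 ^ β) ⊕ Fin (2 ^ β)))
  have hR := (cx_rk h).inp (fun ρ => Sum.inr (Sum.inr (Sum.inl ρ)) : Fin (2 ^ β) → ι)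
  have hG := Cx.fam (fun (ρ : Fin (2 ^ β)) (y : ι ⊕ (Fin (2 ^ β) × Fin (β + 1)) → Bool)
      (e : Fin k) => (num (fun t => y (Sum.inl (Sum.inl t))) +
        num (fun t => y (Sum.inl (Sum.inr (Sum.inl t)))) +
        num (fun t => y (Sum.inr (ρ, t)))).testBit e) (fun _ => 10 * k + 1) fun ρ =>
    (add3 hA k (β + 1) (by omega) hk).inp (Sum.elim (fun t => Sum.inl (Sum.inl t))
      (Sum.elim (fun t => Sum.inl (Sum.inr (Sum.inl t))) (fun t => Sum.inr (ρ, t))) :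
      Fin k ⊕ (Fin (k + 1) ⊕ Fin (β + 1)) → ι ⊕ (Fin (2 ^ β) × Fin (β + 1)))
  rw [Finset.sum_const, smul_eq_mul, Finset.card_univ, Fintype.card_fin] at hG
  refine (hR.ext hG).congr fun x p => ?_
  have h1 : num (fun t : Fin (β + 1) =>
      (rk Fin.val (fun ρ => x (Sum.inr (Sum.inr (Sum.inl ρ)))) (p.1 : ℕ)).testBit t) =
      rk Fin.val (fun ρ => x (Sum.inr (Sum.inr (Sum.inl ρ)))) (p.1 : ℕ) := by
    rw [num_tb]
    refine Nat.mod_eq_of_lt ?_
    have h2 := rk_le (fun ρ => x (Sum.inr (Sum.inr (Sum.inl ρ)))) (p.1 : ℕ)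
    have h3 : 2 ^ β < 2 ^ (β + 1) := by
      rw [pow_succ]
      have := Nat.two_pow_pos β
      omega
    exact h2.trans_lt h3
  show (num (fun t => x (Sum.inl t)) + num (fun t => x (Sum.inr (Sum.inl t))) +
    num (fun t : Fin (β + 1) =>
      (rk Fin.val (fun ρ => x (Sum.inr (Sum.inr (Sum.inl ρ)))) (p.1 : ℕ)).testBit t)).testBit
        p.2 = _
  rw [h1]

/-- The cell `q` of the bins is marked. -/
private def mrk {D μ β : ℕ} (Y : Fin (2 ^ μ) × (Fin D ⊕ (Fin (2 ^ β) ⊕ Fin (2 ^ β))) → Bool)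
    (a : Fin (2 ^ (μ + β))) : Bool :=
  Y (dv a, Sum.inr (Sum.inl (md a))) && Y (dv a, Sum.inr (Sum.inr (md a)))

/-- The number of the cell `q` of the bins. -/
private def vl {k μ β : ℕ} (o : Fin k → Bool)
    (Y : Fin (2 ^ μ) × (Fin (k + 1) ⊕ (Fin (2 ^ β) ⊕ Fin (2 ^ β))) → Bool)
    (a : Fin (2 ^ (μ + β))) : ℕ :=
  num o + num (fun t => Y (dv a, Sum.inl t)) +
    rk Fin.val (fun ρ => Y (dv a, Sum.inr (Sum.inl ρ))) (md a)

private theorem cx_all (hA : S_Add) (hN : S_Naive) {c β k μ j s : ℕ}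
    (h : Cx (fun (P : Fin (2 ^ β) × Fin (2 ^ 0) → Bool)
    (p : Fin (2 ^ β + 1) × Fin (β + 0 + 1)) =>
      (rk (bpos (2 ^ 0)) P (p.1 * 2 ^ 0)).testBit p.2) (c * (2 ^ β * (2 ^ 0 + β + 1))))
    (hk : β + 1 ≤ k) (hj : j ≤ μ + β)
    (Y : (Raw k → Bool) → Fin (2 ^ μ) × (Fin (k + 1) ⊕ (Fin (2 ^ β) ⊕ Fin (2 ^ β))) → Bool)
    (hY : Cx Y s) :
    Cx (fun (x : Raw k → Bool) (p : Fin (2 ^ j) × (Fin k ⊕ Unit)) =>
      Sum.elim (fun e : Fin k => cmp Fin.val (mrk (Y x))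
        (fun a => (vl (fun t => x (Sum.inl t)) (Y x) a).testBit e) p.1) (fun _ => true) p.2)
      (s + (2 ^ μ * (c * (2 ^ β * (β + 2)) + 2 ^ β * (10 * k + 1)) + 2 ^ μ * 2 ^ β +
        k * (8 * (μ + β + 1) * 2 ^ (μ + β))) + 1) := by
  let δ := Fin (k + 1) ⊕ (Fin (2 ^ β) ⊕ Fin (2 ^ β))
  have hB := Cx.fam (fun (q : Fin (2 ^ μ)) (y : Raw k ⊕ (Fin (2 ^ μ) × δ) → Bool)
      (p : Fin (2 ^ β) × Fin k) => (num (fun t => y (Sum.inl (Sum.inl t))) +
        num (fun t => y (Sum.inr (q, Sum.inl t))) +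
        rk Fin.val (fun ρ => y (Sum.inr (q, Sum.inr (Sum.inl ρ)))) p.1).testBit p.2)
      (fun _ => c * (2 ^ β * (β + 2)) + 2 ^ β * (10 * k + 1)) fun q =>
    (cx_bin hA h hk).inp (Sum.elim (fun t => Sum.inl (Sum.inl t)) (fun d => Sum.inr (q, d)) :
      Fin k ⊕ δ → Raw k ⊕ (Fin (2 ^ μ) × δ))
  rw [Finset.sum_const, smul_eq_mul, Finset.card_univ, Fintype.card_fin] at hB
  have hM := Cx.layer (ι := Raw k ⊕ (Fin (2 ^ μ) × δ)) (κ := Fin (2 ^ μ) × Fin (2 ^ β))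
    (fun _ a b => a && b) (fun p => Sum.inr (p.1, Sum.inr (Sum.inl p.2)))
    (fun p => Sum.inr (p.1, Sum.inr (Sum.inr p.2)))
  rw [Fintype.card_prod, Fintype.card_fin, Fintype.card_fin] at hM
  have hC := Cx.fam (fun (e : Fin k) (y : (Fin (2 ^ μ) × Fin (2 ^ β)) ⊕
      (Fin (2 ^ μ) × (Fin (2 ^ β) × Fin k)) → Bool) (j : Fin (2 ^ (μ + β))) =>
        cmp Fin.val (fun a : Fin (2 ^ (μ + β)) => y (Sum.inl (dv a, md a)))
          (fun a : Fin (2 ^ (μ + β)) => y (Sum.inr (dv a, (md a, e)))) j)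
      (fun _ => 8 * (μ + β + 1) * 2 ^ (μ + β)) fun e =>
    (hN (μ + β)).inp (Sum.elim (fun a => Sum.inl (dv a, md a))
      (fun a => Sum.inr (dv a, (md a, e))) : Fin (2 ^ (μ + β)) ⊕ Fin (2 ^ (μ + β)) →
        (Fin (2 ^ μ) × Fin (2 ^ β)) ⊕ (Fin (2 ^ μ) × (Fin (2 ^ β) × Fin k)))
  rw [Finset.sum_const, smul_eq_mul, Finset.card_univ, Fintype.card_fin] at hC
  have : Nonempty (Raw k) := ⟨Sum.inr (0, ⟨0, Nat.two_pow_pos k⟩)⟩
  have hD := (hY.ext ((hM.pair hB).comp hC)).pair (Cx.const (ι := Raw k) true)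
  have hjj : 2 ^ j ≤ 2 ^ (μ + β) := Nat.pow_le_pow_right (by norm_num) hj
  have hE := hD.out (fun p : Fin (2 ^ j) × (Fin k ⊕ Unit) =>
    Sum.elim (fun e : Fin k => (Sum.inl (e, Fin.castLE hjj p.1) :
      (Fin k × Fin (2 ^ (μ + β))) ⊕ Unit)) (fun _ => Sum.inr ()) p.2)
  refine (hE.mono (by omega)).congr fun x p => ?_
  obtain ⟨v, e | e⟩ := p
  · rfl
  · rfl


/-! ### Correctness -/

private def src {η β : ℕ} (p : (Fin (2 ^ η) × Fin (2 ^ β)) ⊕ (Fin (2 ^ η) × Fin (2 ^ β))) :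
    Raw (η + β) :=
  Sum.elim (fun p => Sum.inr (0, mk p)) (fun p => Sum.inr (1, mk p)) p

private theorem aux (hA : S_Add) (hN : S_Naive) {c η β μ j s : ℕ}
    (h : Cx (fun (P : Fin (2 ^ β) × Fin (2 ^ 0) → Bool)
    (p : Fin (2 ^ β + 1) × Fin (β + 0 + 1)) =>
      (rk (bpos (2 ^ 0)) P (p.1 * 2 ^ 0)).testBit p.2) (c * (2 ^ β * (2 ^ 0 + β + 1))))
    (hk : β + 1 ≤ η + β) (hj : j ≤ μ + β)
    (F : ((Fin (2 ^ η) × Fin (2 ^ β)) ⊕ (Fin (2 ^ η) × Fin (2 ^ β)) → Bool) →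
      Fin (2 ^ μ) × (Fin (η + β + 1) ⊕ (Fin (2 ^ β) ⊕ Fin (2 ^ β))) → Bool)
    (hF : Cx F s) (sF : ∀ x, (act x).card ≤ 2 ^ j → ∃ φ : Fin (2 ^ η) → Fin (2 ^ μ),
        (∀ i ∈ act x, ∀ i' ∈ act x, i < i' → φ i < φ i') ∧
        (∀ i ∈ act x, ∀ e, F x (φ i, e) = dat x i e) ∧
        ∀ q, (∀ i ∈ act x, φ i ≠ q) → ∀ e, F x (q, e) = false) :
    LCom (η + β) j (η + β) (s + (2 ^ μ * (c * (2 ^ β * (β + 2)) +
      2 ^ β * (10 * (η + β) + 1)) + 2 ^ μ * 2 ^ β +
        (η + β) * (8 * (μ + β + 1) * 2 ^ (μ + β))) + 1) True := by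
  refine ⟨_, cx_all hA hN h hk hj (fun x => F fun p => x (src p)) (hF.inp src),
    fun x hZ hc ρ v hP hQ hr => ?_⟩
  have hx1 : ∀ a : Fin (2 ^ (η + β)), mk (η := η) (dv a, md a) = a := mk_dv
  set P : Fin (2 ^ (η + β)) → Bool := fun a => x (Sum.inr (0, a)) && x (Sum.inr (1, a)) with hPdef
  set X : (Fin (2 ^ η) × Fin (2 ^ β)) ⊕ (Fin (2 ^ η) × Fin (2 ^ β)) → Bool :=
    fun p => x (src p) with hX
  have hPiff : ∀ a, P a = true ↔ (x (Sum.inr (0, a)) = true ∧ x (Sum.inr (1, a)) = true) :=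
    fun a => by rw [hPdef]; exact Bool.and_eq_true_iff
  have hactmem : ∀ a, P a = true → dv a ∈ act X := by
    intro a ha
    unfold act
    rw [mem_filter]
    refine ⟨mem_univ _, md a, ?_, ?_⟩
    · show x (Sum.inr (0, mk (dv a, md a))) = true
      rw [mk_dv]
      exact ((hPiff a).1 ha).1
    · show x (Sum.inr (1, mk (dv a, md a))) = true
      rw [mk_dv]
      exact ((hPiff a).1 ha).2
  have hact : (act X).card ≤ 2 ^ j := by
    refine le_trans ?_ hc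
    have h1 : act X ⊆ (univ.filter fun ρ : Fin (2 ^ (η + β)) =>
        x (Sum.inr (0, ρ)) = true ∧ x (Sum.inr (1, ρ)) = true).image dv := by
      intro i hi
      unfold act at hi
      rw [mem_filter] at hi
      obtain ⟨-, r, h1, h2⟩ := hi
      exact mem_image.2 ⟨mk (i, r), mem_filter.2 ⟨mem_univ _, h1, h2⟩, dv_mk _⟩
    exact (card_le_card h1).trans card_image_le
  obtain ⟨φ, h1, h2, h3⟩ := sF X hact
  have hρ : P ρ = true := (hPiff ρ).2 ⟨hP, hQ⟩
  have hd : ∀ i ∈ act X, ∀ r, F X (φ i, Sum.inr (Sum.inl r)) = x (Sum.inr (0, mk (i, r))) :=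
    fun i hi r => h2 i hi _
  have hd' : ∀ i ∈ act X, ∀ r, F X (φ i, Sum.inr (Sum.inr r)) = x (Sum.inr (1, mk (i, r))) :=
    fun i hi r => h2 i hi _
  have hm : ∀ i ∈ act X, ∀ r, mrk (F X) (mk (φ i, r)) = P (mk (i, r)) := by
    intro i hi r
    unfold mrk
    rw [dv_mk, md_mk, hd i hi, hd' i hi]
  have hrank := rk_bins P (mrk (F X)) φ
    (fun a b ha hb hab => h1 _ (hactmem a ha) _ (hactmem b hb) hab)
    (fun a ha => by
      rw [hm _ (hactmem a ha), mk_dv]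
      exact ha)
    (fun b hb => by
      by_cases hh : ∃ i ∈ act X, φ i = dv b
      · obtain ⟨i, hi, he⟩ := hh
        refine ⟨mk (i, md b), ?_, ?_⟩
        · rw [← hm i hi, he, mk_dv]
          exact hb
        · rw [dv_mk, md_mk]
          simp only
          rw [he, mk_dv]
      · exfalso
        have h4 := h3 (dv b) (fun i hi he => hh ⟨i, hi, he⟩)
        unfold mrk at hb
        rw [h4] at hb
        simp at hb) ρ hρ
  have hrv : rk Fin.val (mrk (F X)) (mk (η := μ) (φ (dv ρ), md ρ)) = v := by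
    rw [hrank]
    exact hr
  have hcmp : ∀ Q' : Fin (2 ^ (μ + β)) → Bool,
      cmp Fin.val (mrk (F X)) Q' v = Q' (mk (φ (dv ρ), md ρ)) := by
    intro Q'
    have h5 : mrk (F X) (mk (φ (dv ρ), md ρ)) = true := by
      rw [hm _ (hactmem ρ hρ), mk_dv]
      exact hρ
    rw [Bool.eq_iff_iff, cmp_iff]
    constructor
    · rintro ⟨a, ha, hq, hv⟩
      have : a = mk (φ (dv ρ), md ρ) := rk_inj _ _ _ ha h5 (hv.trans hrv.symm)
      rw [← this]
      exact hq
    · intro hq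
      exact ⟨_, h5, hq, hrv⟩
  have hi := hactmem ρ hρ
  have hs : num (fun t : Fin (η + β + 1) => F X (φ (dv ρ), Sum.inl t)) =
      rk (bpos (2 ^ β)) (fun p => X (Sum.inl p)) ((dv ρ : Fin (2 ^ η)) * 2 ^ β) := by
    have h4 : (fun t : Fin (η + β + 1) => F X (φ (dv ρ), Sum.inl t)) =
        fun t : Fin (η + β + 1) => (rk (bpos (2 ^ β)) (fun p => X (Sum.inl p))
          ((dv ρ : Fin (2 ^ η)) * 2 ^ β)).testBit t := funext fun t => h2 _ hi _
    rw [h4, num_tb]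
    refine Nat.mod_eq_of_lt ?_
    have h5 : rk (bpos (2 ^ β)) (fun p => X (Sum.inl p)) ((dv ρ : Fin (2 ^ η)) * 2 ^ β) ≤
        2 ^ (η + β) := by
      unfold rk
      refine (Finset.card_filter_le _ _).trans ?_
      rw [Finset.card_univ, Fintype.card_prod, Fintype.card_fin, Fintype.card_fin, pow_add]
    have h6 : 2 ^ (η + β) < 2 ^ (η + β + 1) := by
      rw [pow_succ]
      have := Nat.two_pow_pos (η + β)
      omega
    exact h5.trans_lt h6
  have hv : vl (fun t => x (Sum.inl t)) (F X) (mk (φ (dv ρ), md ρ)) =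
      num (fun t => x (Sum.inl t)) +
        rk Fin.val (fun ρ : Fin (2 ^ (η + β)) => x (Sum.inr (0, ρ))) ρ := by
    unfold vl
    rw [dv_mk, md_mk]
    simp only
    rw [hs, add_assoc]
    congr 1
    have h4 : (fun r => F X (φ (dv ρ), Sum.inr (Sum.inl r))) =
        fun r => X (Sum.inl (dv ρ, r)) := funext fun r => hd _ hi r
    rw [h4]
    have h5 := rk_block (fun p => X (Sum.inl p)) (dv ρ) (md ρ) (md ρ).isLt.le
    rw [← h5]
    have h6 : ((dv ρ : Fin (2 ^ η)) : ℕ) * 2 ^ β + (md ρ : Fin (2 ^ β)) = ρ :=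
      congrArg Fin.val (mk_dv (η := η) ρ)
    rw [h6]
    exact rk_mk (fun a => x (Sum.inr (0, a))) ρ
  refine ⟨fun e => ?_, (hZ trivial ρ).symm⟩
  show cmp Fin.val (mrk (F X)) (fun a => (vl (fun t => x (Sum.inl t)) (F X) a).testBit e) v = _
  rw [hcmp, hv]

private theorem size_le (cB cP M L η β μ j T : ℕ) (hL : η + β + 1 ≤ L) (h1 : β + 2 ≤ L)
    (h2 : μ + β + 1 ≤ L) (hj : j ≤ η + β) (hM : 1 ≤ M) (hT : T = M * L * L * L) :
    cB * (M * L * L * (L + η + j + 1) + (η + β + 1) * (η + β + 1 + L) * (μ + 1) * M) +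
      (M * (cP * (L * (β + 2)) + L * (10 * (η + β) + 1)) + M * L +
        (η + β) * (8 * (μ + β + 1) * (M * L))) + 1 ≤ (5 * cB + cP + 20) * T := by
  have hL1 : 1 ≤ L := by omega
  have e1 : M * L * L * (L + η + j + 1) ≤ 3 * T := by
    rw [hT]
    calc M * L * L * (L + η + j + 1) ≤ M * L * L * (3 * L) := Nat.mul_le_mul_left _ (by omega)
      _ = 3 * (M * L * L * L) := by ring
  have e2 : (η + β + 1) * (η + β + 1 + L) * (μ + 1) * M ≤ 2 * T := by
    rw [hT]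
    calc (η + β + 1) * (η + β + 1 + L) * (μ + 1) * M ≤ L * (L + L) * L * M :=
          Nat.mul_le_mul_right _ (Nat.mul_le_mul (Nat.mul_le_mul hL (by omega)) (by omega))
      _ = 2 * (M * L * L * L) := by ring
  have e0 : cB * (M * L * L * (L + η + j + 1) + (η + β + 1) * (η + β + 1 + L) * (μ + 1) * M) ≤
      cB * (5 * T) := Nat.mul_le_mul_left _ (by omega)
  have e3 : M * L * L ≤ T := by
    rw [hT]
    exact Nat.le_mul_of_pos_right _ hL1
  have e4 : M * L ≤ T := (Nat.le_mul_of_pos_right _ hL1).trans e3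
  have e5 : M ≤ T := (Nat.le_mul_of_pos_right _ hL1).trans e4
  have e6 : M * (cP * (L * (β + 2)) + L * (10 * (η + β) + 1)) ≤ (cP + 10) * T := by
    calc M * (cP * (L * (β + 2)) + L * (10 * (η + β) + 1)) ≤ M * (cP * (L * L) + L * (10 * L)) :=
          Nat.mul_le_mul_left _ (Nat.add_le_add (Nat.mul_le_mul_left _
            (Nat.mul_le_mul_left _ h1)) (Nat.mul_le_mul_left _ (by omega)))
      _ = (cP + 10) * (M * L * L) := by ring
      _ ≤ _ := Nat.mul_le_mul_left _ e3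
  have e7 : (η + β) * (8 * (μ + β + 1) * (M * L)) ≤ 8 * T := by
    rw [hT]
    calc (η + β) * (8 * (μ + β + 1) * (M * L)) ≤ L * (8 * L * (M * L)) :=
          Nat.mul_le_mul (by omega) (Nat.mul_le_mul_right _ (Nat.mul_le_mul_left _ h2))
      _ = 8 * (M * L * L * L) := by ring
  have e8 : (5 * cB + cP + 20) * T = cB * (5 * T) + (cP + 10) * T + 8 * T + T + T := by ring
  rw [e8]
  omega

theorem tComS (h1 : S_Bins) (h2 : S_Exp) (h3 : S_Pre) (h4 : S_Add) (h5 : S_Naive) : S_ComS := by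
  obtain ⟨cB, hB⟩ := h1
  obtain ⟨cP, hP⟩ := h3
  refine ⟨5 * cB + cP + 20, fun γ j hj => ?_⟩
  have hγ : γ < 2 ^ (Nat.log 2 γ + 1) := Nat.lt_pow_succ_log_self (by norm_num) γ
  obtain ⟨Λ, hΛ⟩ : ∃ Λ, Λ = Nat.log 2 γ + 1 := ⟨_, rfl⟩
  rw [← hΛ] at hγ hj
  obtain ⟨μ, hμ⟩ : ∃ μ, γ = (μ + 2 * Λ) + Λ := ⟨γ - 3 * Λ, by omega⟩
  clear hΛ
  subst hμ
  obtain ⟨h, hh⟩ := h2 (2 ^ (μ + 2 * Λ)) (2 ^ μ) (2 ^ j) (Nat.two_pow_pos μ) (by
    calc 6 * 256 ^ 4 * 2 ^ (μ + 2 * Λ) * (2 ^ j) ^ 3 ≤ 2 ^ 35 * 2 ^ (μ + 2 * Λ) * (2 ^ j) ^ 3 :=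
          Nat.mul_le_mul_right _ (Nat.mul_le_mul_right _ (by norm_num))
      _ = 2 ^ (35 + (μ + 2 * Λ) + j * 3) := by rw [← pow_mul, ← pow_add, ← pow_add]
      _ ≤ 2 ^ (μ * 4) := Nat.pow_le_pow_right (by norm_num) (by omega)
      _ = (2 ^ μ) ^ 4 := by rw [← pow_mul])
  obtain ⟨F, hF, sF⟩ := hB Λ (μ + 2 * Λ) μ (2 ^ j) h (by omega) hh
  have hA := aux h4 h5 (c := cP) (η := μ + 2 * Λ) (β := Λ) (μ := μ) (j := j) (hP 0 Λ) (by omega)
    (by omega) F hF sF
  obtain ⟨G, hG, hG'⟩ := hA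
  refine ⟨G, hG.mono ?_, hG'⟩
  rw [Nat.log_pow (by norm_num)]
  have hM : 1 ≤ 2 ^ μ := Nat.two_pow_pos μ
  have e1 : 2 ^ (μ + 2 * Λ) = 2 ^ μ * 2 ^ Λ * 2 ^ Λ := by rw [← pow_add, ← pow_add]; congr 1; ring
  have e2 : 2 ^ (μ + Λ) = 2 ^ μ * 2 ^ Λ := pow_add _ _ _
  have e3 : 2 ^ (μ + 2 * Λ + Λ) = 2 ^ μ * 2 ^ Λ * 2 ^ Λ * 2 ^ Λ := by rw [pow_add, e1]
  rw [e1, e2]
  exact size_le cB cP (2 ^ μ) (2 ^ Λ) (μ + 2 * Λ) Λ μ j _ (by omega) (by omega) (by omega)
    (by omega) hM e3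

end Pool.Agent.Lin
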