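import Pool.Agent.Lib.MP_76b24b_lcM.Spec2

/-!
# MP_76b24b_lc, package M: the concentrator
-/

set_option autoImplicit false

namespace Pool.Agent.Lin

open Finset

/-- The edges of the same element before `p`. -/
private def prv {N : ℕ} (p : Fin N × Fin 16) : Finset (Fin N × Fin 16) :=
  univ.filter (fun q : Fin N × Fin 16 => q.1 = p.1 ∧ q.2 < p.2)

/-- The first matched edge of an element. -/
private def fst1 {N : ℕ} (m : Fin N × Fin 16 → Bool) (p : Fin N × Fin 16) : Bool :=
  m p && !decide (∃ q ∈ prv p, m q = true)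

private theorem fst1_iff {N : ℕ} (m : Fin N × Fin 16 → Bool) (i : Fin N) (t : Fin 16) :
    fst1 m (i, t) = true ↔ m (i, t) = true ∧ ∀ t' < t, m (i, t') = false := by
  unfold fst1
  rw [Bool.and_eq_true_iff, Bool.not_eq_true', decide_eq_false_iff_not]
  refine and_congr Iff.rfl ?_
  constructor
  · intro h t' ht'
    by_contra hne
    exact h ⟨(i, t'), mem_filter.2 ⟨mem_univ _, rfl, ht'⟩, by simpa using hne⟩
  · rintro h ⟨⟨i', t'⟩, hq, hm⟩
    obtain ⟨_, h1, h2⟩ := mem_filter.1 hq
    have h1' : i' = i := h1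
    subst h1'
    rw [h t' h2] at hm
    exact Bool.noConfusion hm

private theorem cx_fst1 {N : ℕ} (hN : 0 < N) :
    Cx (fst1 (N := N)) (300 * N) := by
  have : Nonempty (Fin N × Fin 16) := ⟨(⟨0, hN⟩, 0)⟩
  have a := Cx.fam (fun (p : Fin N × Fin 16) (x : Fin N × Fin 16 → Bool) (_ : Unit) =>
      decide (∃ q ∈ prv p, x q = true))
    (fun p => (prv p).card + 1)
    (fun p => tOr (Fin N × Fin 16) (prv p))
  have b := (a.out (fun p : Fin N × Fin 16 => (p, ()))).keep.comp
    (Cx.layer (fun _ u w => u && !w) (fun p : Fin N × Fin 16 => Sum.inl p) (fun p => Sum.inr p))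
  refine (b.mono ?_).congr fun x p => rfl
  have hc : ∀ p : Fin N × Fin 16, (prv p).card ≤ 16 := by
    intro p
    calc _ ≤ ((univ : Finset (Fin 16)).image (fun t => (p.1, t))).card := by
          refine card_le_card fun q hq => ?_
          obtain ⟨_, h1, _⟩ := mem_filter.1 hq
          exact mem_image.2 ⟨q.2, mem_univ _, by rw [← h1]⟩
      _ ≤ (univ : Finset (Fin 16)).card := card_image_le
      _ = 16 := by simp
  have hs : ∑ p : Fin N × Fin 16, ((prv p).card + 1) ≤
      ∑ _p : Fin N × Fin 16, 17 := sum_le_sum fun p _ => by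
    have := hc p
    omega
  rw [sum_const, card_univ, Fintype.card_prod, Fintype.card_fin, Fintype.card_fin,
    smul_eq_mul] at hs
  rw [Fintype.card_prod, Fintype.card_fin, Fintype.card_fin]
  omega

theorem tCon (h : S_Mat) : S_Con := by
  obtain ⟨c, hc⟩ := h
  refine ⟨16 * c + 400, fun N M K h hN hM hG => ?_⟩
  obtain ⟨F, hF, hP⟩ := hc N 16 M K h hN (by norm_num) hM hG
  have : Nonempty (Fin N) := ⟨⟨0, hN⟩⟩
  have hcx : Cx (fun u => fst1 (F u)) (c * (16 * N * (Nat.log 2 K + 1)) + 300 * N) :=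
    hF.comp (cx_fst1 hN)
  refine ⟨fun u i j => ∃ t, fst1 (F u) (i, t) = true ∧ h i t = j,
    (Mv.base (by norm_num : 0 < 16) h hcx).mono ?_ ?_, fun u hu => ?_⟩
  · have e : (16 * c + 400) * (N * (Nat.log 2 K + 1)) =
        c * (16 * N * (Nat.log 2 K + 1)) + 400 * (N * (Nat.log 2 K + 1)) := by ring
    rw [e]
    have : N ≤ N * (Nat.log 2 K + 1) := Nat.le_mul_of_pos_right _ (Nat.succ_pos _)
    omega
  · rw [Fintype.card_fin, Fintype.card_fin]
    have : 400 * N ≤ (16 * c + 400) * N := Nat.mul_le_mul_right _ (by omega)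
    omega
  · obtain ⟨p1, p2, p3⟩ := hP u hu
    refine ⟨?_, ?_, ?_, ?_⟩
    · rintro i j ⟨t, ht, _⟩
      exact p1 i t ((fst1_iff _ _ _).1 ht).1
    · intro i hi
      obtain ⟨t, ht⟩ := p2 i hi
      classical
      have hne : (univ.filter fun t => F u (i, t) = true).Nonempty :=
        ⟨t, mem_filter.2 ⟨mem_univ _, ht⟩⟩
      refine ⟨h i ((univ.filter fun t => F u (i, t) = true).min' hne),
        (univ.filter fun t => F u (i, t) = true).min' hne, (fst1_iff _ _ _).2 ⟨?_, ?_⟩, rfl⟩
      · exact (mem_filter.1 (min'_mem _ hne)).2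
      · intro t' ht'
        by_contra hcon
        have : t' ∈ univ.filter fun t => F u (i, t) = true :=
          mem_filter.2 ⟨mem_univ _, by simpa using hcon⟩
        exact absurd (min'_le _ _ this) (not_le.2 ht')
    · rintro i j j' ⟨t, ht, rfl⟩ ⟨t', ht', rfl⟩
      obtain ⟨a1, a2⟩ := (fst1_iff _ _ _).1 ht
      obtain ⟨b1, b2⟩ := (fst1_iff _ _ _).1 ht'
      rcases lt_trichotomy t t' with hlt | heq | hgt
      · rw [b2 t hlt] at a1
        exact Bool.noConfusion a1
      · rw [heq]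
      · rw [a2 t' hgt] at b1
        exact Bool.noConfusion b1
    · rintro i i' j ⟨t, ht, e⟩ ⟨t', ht', e'⟩
      exact p3 i i' t t' ((fst1_iff _ _ _).1 ht).1 ((fst1_iff _ _ _).1 ht').1 (e.trans e'.symm)

end Pool.Agent.Lin
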