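import Pool.Agent.Lib.MP_76b24b_lcM.Spec2

/-!
# MP_76b24b_lc, package M: decompression for any number of tokens
-/

set_option autoImplicit false

namespace Pool.Agent.Lin

open Finset

private theorem dnum_mod : ∀ (k m : ℕ), num (fun t : Fin k => m.testBit t) = m % 2 ^ k
  | 0, m => by simp [num, Nat.mod_one]
  | k + 1, m => by
    have ih := dnum_mod k (m / 2)
    unfold num at ih ⊢
    rw [Fin.sum_univ_succ]
    have h1 : (if m.testBit ((0 : Fin (k + 1)) : ℕ) = true then 2 ^ ((0 : Fin (k + 1)) : ℕ) else 0) =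
        m % 2 := by
      simp only [Fin.val_zero, pow_zero, Nat.testBit_zero, decide_eq_true_eq]
      rcases Nat.mod_two_eq_zero_or_one m with h | h <;> simp [h]
    have h2 : (∑ i : Fin k, if m.testBit (i.succ : ℕ) = true then 2 ^ (i.succ : ℕ) else 0) =
        2 * ((m / 2) % 2 ^ k) := by
      rw [← ih, Finset.mul_sum]
      refine Finset.sum_congr rfl fun i _ => ?_
      rw [Fin.val_succ, Nat.testBit_succ, mul_ite, mul_zero, pow_succ, mul_comm]
    rw [h1, h2, pow_succ, mul_comm (2 ^ k) 2, Nat.mod_mul]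

private theorem dnum_succ {k : ℕ} (u : Fin (k + 1) → Bool) :
    num u = num (fun t : Fin k => u t.castSucc) + 2 ^ k * (if u (Fin.last k) = true then 1 else 0) := by
  unfold num
  rw [Fin.sum_univ_castSucc]
  congr 1
  rw [Fin.val_last]
  split_ifs <;> simp

private theorem dnum_lt {k : ℕ} (u : Fin k → Bool) : num u < 2 ^ k := by
  induction k with
  | zero => simp [num]
  | succ k ih =>
    rw [dnum_succ, pow_succ]
    have h1 := ih (fun t : Fin k => u t.castSucc)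
    split_ifs <;> omega

private theorem dnum_bit {k : ℕ} (u : Fin k → Bool) (t : ℕ) :
    (num u).testBit t = if h : t < k then u ⟨t, h⟩ else false := by
  induction k generalizing t with
  | zero => simp [num]
  | succ k ih =>
    rw [dnum_succ, add_comm, Nat.testBit_two_pow_mul_add _ (dnum_lt _)]
    rcases lt_trichotomy t k with h | h | h
    · rw [if_pos h, ih, dif_pos h, dif_pos (by omega)]
      rfl
    · subst h
      rw [if_neg (lt_irrefl _), Nat.sub_self, dif_pos (Nat.lt_succ_self _)]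
      change _ = u (Fin.last t)
      cases u (Fin.last t) <;> simp
    · rw [if_neg (by omega), dif_neg (by omega)]
      have h1 : t - k ≠ 0 := by omega
      split_ifs
      · exact Nat.testBit_lt_two_pow (Nat.one_lt_two_pow h1)
      · exact Nat.zero_testBit _

/-- The decompression of tokens with all their digits, for any number of tokens. -/
private theorem decF (h1 : S_DecN) (h2 : S_DecS) : ∃ c : ℕ, ∀ γ j : ℕ, j ≤ γ + 1 →
    Cx (DecF γ j) (c * (2 ^ γ + 2 ^ j * (γ + 1) ^ c)) := by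
  obtain ⟨c1, h1⟩ := h1
  obtain ⟨c2, h2⟩ := h2
  refine ⟨c1 * 2 ^ 39 + c2 + 19, fun γ j hj => ?_⟩
  by_cases hs : j + 16 * (Nat.log 2 (γ + 1) + 1) + 20 ≤ γ
  · refine (h2 γ j hs).mono ?_
    calc c2 * 2 ^ γ ≤ (c1 * 2 ^ 39 + c2 + 19) * 2 ^ γ := Nat.mul_le_mul_right _ (by omega)
      _ ≤ _ := Nat.mul_le_mul_left _ (Nat.le_add_right _ _)
  · refine (h1 γ j).mono ?_
    have hL : 2 ^ (Nat.log 2 (γ + 1)) ≤ γ + 1 := Nat.pow_log_le_self 2 (by omega)
    have e1 : 2 ^ γ ≤ 2 ^ 35 * (2 ^ j * (γ + 1) ^ 16) := by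
      calc 2 ^ γ ≤ 2 ^ (j + 16 * (Nat.log 2 (γ + 1) + 1) + 19) :=
            Nat.pow_le_pow_right (by norm_num) (by omega)
        _ = 2 ^ 35 * (2 ^ j * (2 ^ (Nat.log 2 (γ + 1))) ^ 16) := by
            rw [← Nat.pow_mul, ← Nat.pow_add, ← Nat.pow_add]
            congr 1
            omega
        _ ≤ 2 ^ 35 * (2 ^ j * (γ + 1) ^ 16) := Nat.mul_le_mul_left _
            (Nat.mul_le_mul_left _ (Nat.pow_le_pow_left hL 16))
    have e2 : (γ + j + 1) ^ 3 ≤ 8 * (γ + 1) ^ 3 := by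
      calc (γ + j + 1) ^ 3 ≤ (2 * (γ + 1)) ^ 3 := Nat.pow_le_pow_left (by omega) 3
        _ = 8 * (γ + 1) ^ 3 := by ring
    have e3 : 2 ^ γ + 2 ^ j ≤ 2 ^ 36 * (2 ^ j * (γ + 1) ^ 16) := by
      have a1 : 2 ^ j ≤ 2 ^ j * (γ + 1) ^ 16 := Nat.le_mul_of_pos_right _ (by positivity)
      omega
    have e4 : (γ + 1) ^ 19 ≤ (γ + 1) ^ (c1 * 2 ^ 39 + c2 + 19) :=
      Nat.pow_le_pow_right (by omega) (by omega)
    calc c1 * ((γ + j + 1) ^ 3 * (2 ^ γ + 2 ^ j))
        ≤ c1 * (8 * (γ + 1) ^ 3 * (2 ^ 36 * (2 ^ j * (γ + 1) ^ 16))) :=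
          Nat.mul_le_mul_left _ (Nat.mul_le_mul e2 e3)
      _ = c1 * 2 ^ 39 * (2 ^ j * (γ + 1) ^ 19) := by ring
      _ ≤ (c1 * 2 ^ 39 + c2 + 19) * (2 ^ γ + 2 ^ j * (γ + 1) ^ (c1 * 2 ^ 39 + c2 + 19)) :=
        Nat.mul_le_mul (by omega) ((Nat.mul_le_mul_left _ e4).trans (Nat.le_add_left _ _))

/-- The marks of the valid tokens with digits `0`. -/
private def zet {j w : ℕ} (x : Fin (2 ^ j) × (Fin w ⊕ (Unit ⊕ Unit)) → Bool) (v : Fin (2 ^ j)) :
    Bool :=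
  decide (x (v, Sum.inr (Sum.inr ())) = true ∧ ∀ t, x (v, Sum.inl t) = false)

private theorem cx_zet (j w : ℕ) :
    Cx (fun (x : Fin (2 ^ j) × (Fin w ⊕ (Unit ⊕ Unit)) → Bool) (v : Fin (2 ^ j)) => zet x v)
      (2 ^ j * (w + 2)) := by
  classical
  have h1 := tOr (Fin w ⊕ (Unit ⊕ Unit)) (univ.map ⟨Sum.inl, Sum.inl_injective⟩)
  rw [card_map, card_univ, Fintype.card_fin] at h1
  have h2 := h1.ext (Cx.gate (fun p q => q && !p) (Sum.inr () : (Fin w ⊕ (Unit ⊕ Unit)) ⊕ Unit)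
    (Sum.inl (Sum.inr (Sum.inr ()))))
  have h3 := (h2.blocks (α := Fin (2 ^ j))).out (fun v : Fin (2 ^ j) => (v, ()))
  rw [Fintype.card_fin] at h3
  refine h3.congr fun x v => ?_
  rw [Bool.eq_iff_iff]
  simp [zet]

/-- The number of the marks up to the place `v`. -/
private def cnt {j : ℕ} (z : Fin (2 ^ j) → Bool) (v : Fin (2 ^ j)) : ℕ :=
  (univ.filter fun v' : Fin (2 ^ j) => v' ≤ v ∧ z v' = true).card

private theorem cnt_le {j : ℕ} (z : Fin (2 ^ j) → Bool) (v : Fin (2 ^ j)) : cnt z v ≤ 2 ^ j := by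
  unfold cnt
  refine (card_le_univ _).trans ?_
  rw [Fintype.card_fin]

private theorem cx_cnt {c : ℕ} (h : ∀ β η : ℕ, Cx (fun (P : Fin (2 ^ η) × Fin (2 ^ β) → Bool)
    (p : Fin (2 ^ η + 1) × Fin (η + β + 1)) =>
      (rk (bpos (2 ^ β)) P (p.1 * 2 ^ β)).testBit p.2) (c * (2 ^ η * (2 ^ β + η + 1)))) (j : ℕ) :
    Cx (fun (z : Fin (2 ^ j) → Bool) (p : Fin (2 ^ j) × Fin (j + 1)) => (cnt z p.1).testBit p.2)
      (c * (2 ^ j * (j + 2))) := by
  have h1 := ((h 0 j).inp (fun p : Fin (2 ^ j) × Fin (2 ^ 0) => p.1)).out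
    (fun p : Fin (2 ^ j) × Fin (j + 1) =>
      ((⟨p.1 + 1, by omega⟩ : Fin (2 ^ j + 1)), (⟨p.2, by omega⟩ : Fin (j + 0 + 1))))
  refine (h1.mono (Nat.mul_le_mul_left _ (Nat.mul_le_mul_left _ (by omega)))).congr fun z p => ?_
  have key : rk (bpos (2 ^ 0)) (fun i : Fin (2 ^ j) × Fin (2 ^ 0) => z i.1)
      (((p.1 : ℕ) + 1) * 2 ^ 0) = cnt z p.1 := by
    unfold rk cnt
    refine card_bij (fun a _ => a.1) (fun a ha => ?_) (fun a _ b _ hab => ?_) (fun v hv => ?_)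
    · have ha' := (mem_filter.1 ha).2
      have h2 : bpos (2 ^ 0) a = a.1 := by
        have := a.2.isLt
        unfold bpos
        omega
      rw [h2] at ha'
      refine mem_filter.2 ⟨mem_univ _, Fin.le_def.2 ?_, ha'.2⟩
      have := ha'.1
      omega
    · refine Prod.ext hab (Fin.ext ?_)
      have h2 := a.2.isLt
      have h3 := b.2.isLt
      omega
    · have hv' := (mem_filter.1 hv).2
      refine ⟨(v, ⟨0, by norm_num⟩), mem_filter.2 ⟨mem_univ _, ?_, hv'.2⟩, rfl⟩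
      have h2 := Fin.le_def.1 hv'.1
      show (v : ℕ) * 2 ^ 0 + 0 < _
      omega
  show (rk (bpos (2 ^ 0)) (fun i : Fin (2 ^ j) × Fin (2 ^ 0) => z i.1)
      (((p.1 : ℕ) + 1) * 2 ^ 0)).testBit p.2 = _
  rw [key]

/-- Minus one, at all places. -/
private theorem cx_pred {c : ℕ} (h : ∀ k : ℕ, 0 < k → Cx (fun (x : Fin k ⊕ Fin k → Bool)
      (p : Unit ⊕ Fin k) => Sum.elim (fun _ : Unit =>
        decide (num (fun t => x (Sum.inr t)) ≤ num (fun t => x (Sum.inl t))))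
      (fun t : Fin k =>
        (num (fun t => x (Sum.inl t)) - num (fun t => x (Sum.inr t))).testBit t) p) (c * k))
    (j : ℕ) :
    Cx (fun (y : Fin (2 ^ j) × Fin (j + 1) → Bool) (p : Fin (2 ^ j) × Fin (j + 1)) =>
      (num (fun t => y (p.1, t)) - 1).testBit p.2) (2 ^ j * ((c + 1) * (j + 1))) := by
  have h1 := ((Cx.proj (fun t : Fin (j + 1) => t)).pair
    (Cx.consts (ι := Fin (j + 1)) (fun t : Fin (j + 1) => (1 : ℕ).testBit t))).comp
      (h (j + 1) (Nat.succ_pos _))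
  rw [Fintype.card_fin] at h1
  have h2 := (h1.out (fun t : Fin (j + 1) => (Sum.inr t : Unit ⊕ Fin (j + 1)))).blocks
    (α := Fin (2 ^ j))
  rw [Fintype.card_fin] at h2
  refine (h2.mono (Nat.mul_le_mul_left _ ?_)).congr fun y p => ?_
  · rw [Nat.add_mul]
    omega
  · have e : num (fun t : Fin (j + 1) => (1 : ℕ).testBit t) = 1 := by
      rw [dnum_mod]
      exact Nat.mod_eq_of_lt (Nat.one_lt_two_pow (Nat.succ_ne_zero _))
    show (num (fun t => y (p.1, t)) - num (fun t : Fin (j + 1) => (1 : ℕ).testBit t)).testBit p.2 = _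
    rw [e]

/-- The places of the digits of the tokens. -/
private def tka {j w γ : ℕ} : Fin (2 ^ j) × (Unit ⊕ Fin γ) →
    (Fin (2 ^ j) × (Fin w ⊕ (Unit ⊕ Unit))) ⊕ (Fin (2 ^ j) × Fin (j + 1))
  | (v, Sum.inl _) => Sum.inl (v, Sum.inr (Sum.inl ()))
  | (v, Sum.inr t) => if h : (t : ℕ) < w then Sum.inl (v, Sum.inl ⟨t, h⟩) else
      if h' : (t : ℕ) - w < j + 1 then Sum.inr (v, ⟨(t : ℕ) - w, h'⟩) else
        Sum.inl (v, Sum.inr (Sum.inl ()))

private def tko {j w γ : ℕ} : Fin (2 ^ j) × (Unit ⊕ Fin γ) → Bool → Bool → Bool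
  | (_, Sum.inl _) => fun a b => a && b
  | (_, Sum.inr t) => fun a _ => if (t : ℕ) < w + (j + 1) then a else false

/-- The tokens with all their digits. -/
private def tok {j w γ : ℕ}
    (y : (Fin (2 ^ j) × (Fin w ⊕ (Unit ⊕ Unit))) ⊕ (Fin (2 ^ j) × Fin (j + 1)) → Bool)
    (p : Fin (2 ^ j) × (Unit ⊕ Fin γ)) : Bool :=
  tko (w := w) p (y (tka p)) (y (Sum.inl (p.1, Sum.inr (Sum.inr ()))))

private theorem cx_tok (j w γ : ℕ) :
    Cx (fun (y : (Fin (2 ^ j) × (Fin w ⊕ (Unit ⊕ Unit))) ⊕ (Fin (2 ^ j) × Fin (j + 1)) → Bool)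
      (p : Fin (2 ^ j) × (Unit ⊕ Fin γ)) => tok y p) (2 ^ j * (γ + 1)) := by
  have h := Cx.layer (ι := (Fin (2 ^ j) × (Fin w ⊕ (Unit ⊕ Unit))) ⊕ (Fin (2 ^ j) × Fin (j + 1)))
    (κ := Fin (2 ^ j) × (Unit ⊕ Fin γ)) (tko (w := w)) tka
    (fun p => Sum.inl (p.1, Sum.inr (Sum.inr ())))
  rw [Fintype.card_prod, Fintype.card_fin, Fintype.card_sum, Fintype.card_unit, Fintype.card_fin,
    Nat.add_comm 1 γ] at h
  exact h

private theorem num_tok {j w γ : ℕ} (x : Fin (2 ^ j) × (Fin w ⊕ (Unit ⊕ Unit)) → Bool)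
    (d : Fin (2 ^ j) × Fin (j + 1) → Bool) (v : Fin (2 ^ j)) (m : ℕ) (hm : m < 2 ^ (j + 1))
    (hd : ∀ t, d (v, t) = m.testBit t) :
    num (fun t : Fin γ => tok (Sum.elim x d) (v, Sum.inr t)) =
      (num (fun t => x (v, Sum.inl t)) + 2 ^ w * m) % 2 ^ γ := by
  rw [← dnum_mod]
  refine congrArg num (funext fun t => ?_)
  rw [Nat.add_comm (num fun t => x (v, Sum.inl t)), Nat.testBit_two_pow_mul_add _ (dnum_lt _),
    dnum_bit]
  show (if (t : ℕ) < w + (j + 1) then Sum.elim x d (if h : (t : ℕ) < w then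
    Sum.inl (v, Sum.inl ⟨t, h⟩) else if h' : (t : ℕ) - w < j + 1 then
      Sum.inr (v, ⟨(t : ℕ) - w, h'⟩) else Sum.inl (v, Sum.inr (Sum.inl ()))) else false) = _
  by_cases h1 : (t : ℕ) < w
  · rw [if_pos (by omega), dif_pos h1, if_pos h1, dif_pos h1]
    rfl
  · by_cases h2 : (t : ℕ) - w < j + 1
    · rw [if_pos (by omega), dif_neg h1, dif_pos h2, if_neg h1]
      exact hd _
    · rw [if_neg (by omega), if_neg h1]
      exact (Nat.testBit_lt_two_pow (hm.trans_le (Nat.pow_le_pow_right (by norm_num)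
        (by omega)))).symm

theorem tDec (h1 : S_DecN) (h2 : S_DecS) (h3 : S_Pre) (h4 : S_Sub) : S_Dec := by
  obtain ⟨c5, h5⟩ := decF h1 h2
  obtain ⟨c3, h3⟩ := h3
  obtain ⟨c4, h4⟩ := h4
  refine ⟨c5 + 3 * c3 + 2 * c4 + 7, fun γ j w hw hj => ?_⟩
  have a1 := ((cx_zet j w).comp (cx_cnt h3 j)).comp (cx_pred h4 j)
  have a2 := (a1.ext (cx_tok j w γ)).comp (h5 γ j hj)
  refine (a2.mono ?_).congr fun x e => ?_
  · have b1 : 2 ^ j * (w + 2) ≤ 2 * (2 ^ j * (γ + 1)) := by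
      calc 2 ^ j * (w + 2) ≤ 2 ^ j * (2 * (γ + 1)) := Nat.mul_le_mul_left _ (by omega)
        _ = _ := by ring
    have b2 : c3 * (2 ^ j * (j + 2)) ≤ 3 * c3 * (2 ^ j * (γ + 1)) := by
      calc c3 * (2 ^ j * (j + 2)) ≤ c3 * (2 ^ j * (3 * (γ + 1))) :=
            Nat.mul_le_mul_left _ (Nat.mul_le_mul_left _ (by omega))
        _ = _ := by ring
    have b3 : 2 ^ j * ((c4 + 1) * (j + 1)) ≤ (2 * c4 + 2) * (2 ^ j * (γ + 1)) := by
      calc 2 ^ j * ((c4 + 1) * (j + 1)) ≤ 2 ^ j * ((c4 + 1) * (2 * (γ + 1))) :=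
            Nat.mul_le_mul_left _ (Nat.mul_le_mul_left _ (by omega))
        _ = _ := by ring
    have b4 : 2 ^ j * (w + 2) + c3 * (2 ^ j * (j + 2)) + 2 ^ j * ((c4 + 1) * (j + 1)) +
        2 ^ j * (γ + 1) ≤ (3 * c3 + 2 * c4 + 7) * (2 ^ j * (γ + 1)) := by
      calc _ ≤ 2 * (2 ^ j * (γ + 1)) + 3 * c3 * (2 ^ j * (γ + 1)) +
            (2 * c4 + 2) * (2 ^ j * (γ + 1)) + 2 ^ j * (γ + 1) := by omega
        _ ≤ (3 * c3 + 2 * c4 + 7) * (2 ^ j * (γ + 1)) := by nlinarith [Nat.zero_le (2 ^ j * (γ + 1))]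
    have b5 : γ + 1 ≤ (γ + 1) ^ (c5 + 3 * c3 + 2 * c4 + 7) := by
      calc γ + 1 = (γ + 1) ^ 1 := (pow_one _).symm
        _ ≤ _ := Nat.pow_le_pow_right (by omega) (by omega)
    have b6 : (γ + 1) ^ c5 ≤ (γ + 1) ^ (c5 + 3 * c3 + 2 * c4 + 7) :=
      Nat.pow_le_pow_right (by omega) (by omega)
    calc 2 ^ j * (w + 2) + c3 * (2 ^ j * (j + 2)) + 2 ^ j * ((c4 + 1) * (j + 1)) +
          2 ^ j * (γ + 1) + c5 * (2 ^ γ + 2 ^ j * (γ + 1) ^ c5)
        ≤ (3 * c3 + 2 * c4 + 7) * (2 ^ γ + 2 ^ j * (γ + 1) ^ (c5 + 3 * c3 + 2 * c4 + 7)) +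
          c5 * (2 ^ γ + 2 ^ j * (γ + 1) ^ (c5 + 3 * c3 + 2 * c4 + 7)) :=
          Nat.add_le_add (b4.trans (Nat.mul_le_mul_left _ ((Nat.mul_le_mul_left _ b5).trans
            (Nat.le_add_left _ _)))) (Nat.mul_le_mul_left _ (Nat.add_le_add_left
              (Nat.mul_le_mul_left _ b6) _))
      _ = _ := by ring
  · unfold DecF
    rw [decide_eq_decide]
    refine exists_congr fun v => ?_
    have hc := cnt_le (fun v => zet x v) v
    have hp : 2 ^ (j + 1) = 2 * 2 ^ j := by ring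
    have hj0 : 0 < 2 ^ j := Nat.two_pow_pos j
    have hn : num (fun t : Fin (j + 1) => (cnt (fun v => zet x v) v).testBit t) =
        cnt (fun v => zet x v) v := by
      rw [dnum_mod]
      exact Nat.mod_eq_of_lt (by omega)
    have key := num_tok (γ := γ) x (fun p : Fin (2 ^ j) × Fin (j + 1) =>
      (num (fun t : Fin (j + 1) => (cnt (fun v => zet x v) p.1).testBit t) - 1).testBit p.2) v
      (cnt (fun v => zet x v) v - 1) (by omega) (fun t => by
        show (num (fun t : Fin (j + 1) => (cnt (fun v => zet x v) v).testBit t) - 1).testBit t = _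
        rw [hn])
    have hcnt : cnt (fun v => zet x v) v = (univ.filter fun v' : Fin (2 ^ j) =>
        v' ≤ v ∧ x (v', Sum.inr (Sum.inr ())) = true ∧ ∀ t, x (v', Sum.inl t) = false).card := by
      unfold cnt
      refine congrArg card (filter_congr fun v' _ => ?_)
      exact and_congr Iff.rfl decide_eq_true_iff
    rw [← hcnt]
    constructor
    · rintro ⟨hv, hn⟩
      have hv' : (x (v, Sum.inr (Sum.inl ())) && x (v, Sum.inr (Sum.inr ()))) = true := hv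
      rw [Bool.and_eq_true] at hv'
      exact ⟨hv'.1, hv'.2, key.symm.trans hn⟩
    · rintro ⟨hv1, hv2, hn⟩
      refine ⟨?_, key.trans hn⟩
      show (x (v, Sum.inr (Sum.inl ())) && x (v, Sum.inr (Sum.inr ()))) = true
      rw [Bool.and_eq_true]
      exact ⟨hv1, hv2⟩

end Pool.Agent.Lin
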