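import Pool.Agent.Lib.MP_76b24b_lcM.Spec2

/-!
# MP_76b24b_lc, package M: decompression, the simple way
-/

set_option autoImplicit false

namespace Pool.Agent.Lin

open Finset

private theorem num_testBit_mod : ∀ (k m : ℕ), num (fun t : Fin k => m.testBit t) = m % 2 ^ k
  | 0, m => by simp [num, Nat.mod_one]
  | k + 1, m => by
    have ih := num_testBit_mod k (m / 2)
    unfold num at ih ⊢
    rw [Fin.sum_univ_succ]
    have h1 : (if m.testBit ((0 : Fin (k + 1)) : ℕ) = true then 2 ^ ((0 : Fin (k + 1)) : ℕ) else 0) =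
        m % 2 := by
      simp only [Fin.val_zero, pow_zero, Nat.testBit_zero, decide_eq_true_eq]
      rcases Nat.mod_two_eq_zero_or_one m with h | h <;> simp [h]
    have h2 : (∑ i : Fin k, if m.testBit (i.succ : ℕ) = true then 2 ^ (i.succ : ℕ) else 0) =
        2 * ((m / 2) % 2 ^ k) := by
      rw [← ih, Finset.mul_sum]
      refine Finset.sum_congr rfl fun i _ => ?_
      rw [Fin.val_succ, Nat.testBit_succ, mul_ite, mul_zero, pow_succ, mul_comm]
    rw [h1, h2, pow_succ, mul_comm (2 ^ k) 2, Nat.mod_mul]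

private theorem num_succ {k : ℕ} (u : Fin (k + 1) → Bool) :
    num u = (if u 0 = true then 1 else 0) + 2 * num (fun i => u i.succ) := by
  unfold num
  rw [Fin.sum_univ_succ, Finset.mul_sum]
  congr 1
  refine Finset.sum_congr rfl fun i _ => ?_
  by_cases h : u i.succ = true
  · rw [if_pos h, if_pos h, Fin.val_succ, pow_succ]
    ring
  · rw [if_neg h, if_neg h, mul_zero]

private theorem num_inj {k : ℕ} : ∀ (u v : Fin k → Bool), num u = num v → u = v := by
  induction k with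
  | zero =>
    intro u v _
    funext i
    exact i.elim0
  | succ k ih =>
    intro u v h
    rw [num_succ, num_succ] at h
    have h1 : (if u 0 = true then 1 else 0) ≤ 1 := by split_ifs <;> omega
    have h2 : (if v 0 = true then 1 else 0) ≤ 1 := by split_ifs <;> omega
    have h3 := ih (fun i => u i.succ) (fun i => v i.succ) (by omega)
    have h4 : (if u 0 = true then 1 else 0) = (if v 0 = true then 1 else 0) := by omega
    have h5 : u 0 = v 0 := by
      rcases hu : u 0 with _ | _ <;> rcases hv : v 0 with _ | _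
      · rfl
      · rw [hu, hv] at h4
        simp at h4
      · rw [hu, hv] at h4
        simp at h4
      · rfl
    funext i
    refine Fin.cases h5 (fun i => congrFun h3 i) i

/-- A number is given by its digits. -/
private theorem num_iff {k : ℕ} (u : Fin k → Bool) (e : Fin (2 ^ k)) :
    num u = e ↔ ∀ t, u t = (e : ℕ).testBit t := by
  have h0 : num (fun t : Fin k => (e : ℕ).testBit t) = e := by
    rw [num_testBit_mod, Nat.mod_eq_of_lt e.isLt]
  constructor
  · intro h t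
    exact congrFun (num_inj u _ (h.trans h0.symm)) t
  · intro h
    have : u = fun t : Fin k => (e : ℕ).testBit t := funext h
    rw [this, h0]

/-- The tokens at the places `v`, the questions at the places `2 ^ m + e`. -/
private def src (γ j m : ℕ) (p : Fin (2 ^ (m + 1)) × (Fin γ ⊕ Fin 1)) :
    (Fin (2 ^ j) × (Unit ⊕ Fin γ)) ⊕ Bool :=
  if (p.1 : ℕ) < 2 ^ m then
    if h : (p.1 : ℕ) < 2 ^ j then
      match p.2 with
      | Sum.inl t => Sum.inl (⟨(p.1 : ℕ), h⟩, Sum.inr t)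
      | Sum.inr _ => Sum.inl (⟨(p.1 : ℕ), h⟩, Sum.inl ())
    else Sum.inr false
  else
    match p.2 with
    | Sum.inl t => Sum.inr (((p.1 : ℕ) - 2 ^ m).testBit t)
    | Sum.inr _ => Sum.inr false

private def tok (j m : ℕ) (hj : j ≤ m) (v : Fin (2 ^ j)) : Fin (2 ^ (m + 1)) :=
  ⟨v, v.isLt.trans_le (Nat.pow_le_pow_right (by norm_num) (by omega))⟩

private def que (γ m : ℕ) (hγ : γ ≤ m) (e : Fin (2 ^ γ)) : Fin (2 ^ (m + 1)) :=
  ⟨2 ^ m + e, by
    have h := e.isLt
    have h2 : 2 ^ γ ≤ 2 ^ m := Nat.pow_le_pow_right (by norm_num) hγ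
    rw [pow_succ]
    omega⟩

private theorem src_tok_inl {γ j m : ℕ} (hj : j ≤ m) (v : Fin (2 ^ j)) (t : Fin γ) :
    src γ j m (tok j m hj v, Sum.inl t) = Sum.inl (v, Sum.inr t) := by
  have h1 : ((tok j m hj v : Fin (2 ^ (m + 1))) : ℕ) < 2 ^ m :=
    v.isLt.trans_le (Nat.pow_le_pow_right (by norm_num) hj)
  unfold src
  rw [if_pos h1, dif_pos (show ((tok j m hj v : Fin (2 ^ (m + 1))) : ℕ) < 2 ^ j from v.isLt)]
  rfl

private theorem src_tok_inr {γ j m : ℕ} (hj : j ≤ m) (v : Fin (2 ^ j)) (t : Fin 1) :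
    src γ j m (tok j m hj v, Sum.inr t) = Sum.inl (v, Sum.inl ()) := by
  have h1 : ((tok j m hj v : Fin (2 ^ (m + 1))) : ℕ) < 2 ^ m :=
    v.isLt.trans_le (Nat.pow_le_pow_right (by norm_num) hj)
  unfold src
  rw [if_pos h1, dif_pos (show ((tok j m hj v : Fin (2 ^ (m + 1))) : ℕ) < 2 ^ j from v.isLt)]
  rfl

private theorem src_que_inl {γ j m : ℕ} (hγ : γ ≤ m) (e : Fin (2 ^ γ)) (t : Fin γ) :
    src γ j m (que γ m hγ e, Sum.inl t) = Sum.inr ((e : ℕ).testBit t) := by
  have h1 : ¬ ((que γ m hγ e : Fin (2 ^ (m + 1))) : ℕ) < 2 ^ m := by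
    change ¬ (2 ^ m + (e : ℕ) < 2 ^ m)
    omega
  unfold src
  rw [if_neg h1]
  change Sum.inr ((2 ^ m + (e : ℕ) - 2 ^ m).testBit t) = _
  rw [Nat.add_sub_cancel_left]

private theorem src_inr {γ j m : ℕ} (hj : j ≤ m) (i : Fin (2 ^ (m + 1))) (t : Fin 1) :
    src γ j m (i, Sum.inr t) = Sum.inr false ∨ ∃ v, i = tok j m hj v := by
  by_cases h2 : (i : ℕ) < 2 ^ j
  · exact Or.inr ⟨⟨i, h2⟩, Fin.ext rfl⟩
  · left
    unfold src
    by_cases h1 : (i : ℕ) < 2 ^ m
    · rw [if_pos h1, dif_neg h2]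
    · rw [if_neg h1]

theorem tDecN (h : S_KeyOr) : S_DecN := by
  obtain ⟨c, hc⟩ := h
  refine ⟨16 * c + 2, fun γ j => ?_⟩
  obtain ⟨m, hm⟩ : ∃ m, m = max γ j := ⟨_, rfl⟩
  have hγ : γ ≤ m := hm ▸ le_max_left _ _
  have hj : j ≤ m := hm ▸ le_max_right _ _
  have hms : m ≤ γ + j := by rw [hm]; exact max_le (by omega) (by omega)
  have h1 := hc (m + 1) γ 1 (by norm_num)
  have hne : Nonempty (Fin (2 ^ j) × (Unit ⊕ Fin γ)) := ⟨(⟨0, Nat.two_pow_pos j⟩, Sum.inl ())⟩
  have h2 := ((Cx.consts (ι := Fin (2 ^ j) × (Unit ⊕ Fin γ)) (fun b : Bool => b)).keep.out (src γ j m)).comp h1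
  have h3 := h2.out (fun e : Fin (2 ^ γ) => (que γ m hγ e, (0 : Fin 1)))
  refine (h3.mono ?_).congr fun x e => ?_
  · obtain ⟨X, hX⟩ : ∃ X, X = (γ + j + 1) ^ 3 * (2 ^ γ + 2 ^ j) := ⟨_, rfl⟩
    have hX1 : 1 ≤ X := by
      rw [hX]
      exact Nat.mul_pos (pow_pos (by omega) 3) (Nat.add_pos_left (Nat.two_pow_pos γ) _)
    have hpow : 2 ^ (m + 1) ≤ 2 * (2 ^ γ + 2 ^ j) := by
      rw [pow_succ, mul_comm]
      refine Nat.mul_le_mul_left 2 ?_
      rcases max_choice γ j with h | h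
      · rw [hm, h]
        exact Nat.le_add_right _ _
      · rw [hm, h]
        exact Nat.le_add_left _ _
    have hle : (m + 1 + γ + 1) * (m + 1 + γ + 1) * (m + 1 + 1) * 2 ^ (m + 1) ≤ 16 * X := by
      calc (m + 1 + γ + 1) * (m + 1 + γ + 1) * (m + 1 + 1) * 2 ^ (m + 1)
          ≤ (2 * (γ + j + 1)) * (2 * (γ + j + 1)) * (2 * (γ + j + 1)) * (2 * (2 ^ γ + 2 ^ j)) :=
            Nat.mul_le_mul (Nat.mul_le_mul (Nat.mul_le_mul (by omega) (by omega)) (by omega)) hpow
        _ = 16 * X := by rw [hX]; ring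
    rw [← hX, Fintype.card_bool]
    calc 2 + c * ((m + 1 + γ + 1) * (m + 1 + γ + 1) * (m + 1 + 1) * 2 ^ (m + 1))
        ≤ 2 * X + c * (16 * X) := Nat.add_le_add (by omega) (Nat.mul_le_mul_left c hle)
      _ = (16 * c + 2) * X := by ring
  · unfold DecF
    rw [decide_eq_decide]
    dsimp only
    constructor
    · rintro ⟨i', -, hk, hv⟩
      rcases src_inr (γ := γ) hj i' 0 with hi | ⟨v, rfl⟩
      · rw [hi] at hv
        exact absurd hv (by simp)
      · refine ⟨v, ?_, ?_⟩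
        · rw [src_tok_inr] at hv
          exact hv
        · rw [num_iff]
          intro t
          have h4 := hk t
          rw [src_tok_inl, src_que_inl] at h4
          exact h4
    · rintro ⟨v, hv, hk⟩
      rw [num_iff] at hk
      refine ⟨tok j m hj v, ?_, fun t => ?_, ?_⟩
      · rw [Fin.le_def]
        change (v : ℕ) ≤ 2 ^ m + e
        have h4 := v.isLt
        have h5 : 2 ^ j ≤ 2 ^ m := Nat.pow_le_pow_right (by norm_num) hj
        omega
      · rw [src_tok_inl, src_que_inl]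
        exact hk t
      · rw [src_tok_inr]
        exact hv

end Pool.Agent.Lin
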