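import Pool.Agent.Lib.MP_76b24b_lcM.Spec2

/-!
# MP_76b24b_lc, package M: decompression in linear size, for few tokens
-/

set_option autoImplicit false

namespace Pool.Agent.Lin

open Finset

/-! ### Numbers -/

private theorem num_succ {k : ℕ} (u : Fin (k + 1) → Bool) :
    num u = num (fun t : Fin k => u t.castSucc) + 2 ^ k * (if u (Fin.last k) = true then 1 else 0) := by
  unfold num
  rw [Fin.sum_univ_castSucc]
  congr 1
  rw [Fin.val_last]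
  split_ifs <;> simp

private theorem num_lt {k : ℕ} (u : Fin k → Bool) : num u < 2 ^ k := by
  induction k with
  | zero => simp [num]
  | succ k ih =>
    rw [num_succ, pow_succ]
    have h1 := ih (fun t : Fin k => u t.castSucc)
    split_ifs <;> omega

private theorem num_bit {k : ℕ} (u : Fin k → Bool) (t : ℕ) :
    (num u).testBit t = if h : t < k then u ⟨t, h⟩ else false := by
  induction k generalizing t with
  | zero => simp [num]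
  | succ k ih =>
    rw [num_succ, add_comm, Nat.testBit_two_pow_mul_add _ (num_lt _)]
    rcases lt_trichotomy t k with h | h | h
    · rw [if_pos h, ih, dif_pos h, dif_pos (by omega)]
      rfl
    · subst h
      rw [if_neg (lt_irrefl _), Nat.sub_self, dif_pos (Nat.lt_succ_self _)]
      change _ = u (Fin.last t)
      cases u (Fin.last t) <;> simp
    · rw [if_neg (by omega), dif_neg (by omega)]
      have h1 : t - k ≠ 0 := by omega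
      split_ifs
      · exact Nat.testBit_lt_two_pow (Nat.one_lt_two_pow h1)
      · exact Nat.zero_testBit _

private theorem num_div {γ β η : ℕ} (hγ : γ = η + β) (u : Fin γ → Bool) :
    num u / 2 ^ β = num (fun t : Fin η => u ⟨β + t, by omega⟩) := by
  refine Nat.eq_of_testBit_eq fun t => ?_
  rw [Nat.testBit_div_two_pow, num_bit, num_bit]
  by_cases h : t < η
  · rw [dif_pos h, dif_pos (by omega)]
    exact congrArg u (Fin.ext (Nat.add_comm _ _))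
  · rw [dif_neg h, dif_neg (by omega)]

private theorem num_mod {γ β η : ℕ} (hγ : γ = η + β) (u : Fin γ → Bool) :
    num u % 2 ^ β = num (fun t : Fin β => u ⟨t, by omega⟩) := by
  refine Nat.eq_of_testBit_eq fun t => ?_
  rw [Nat.testBit_mod_two_pow, num_bit, num_bit]
  by_cases h : t < β
  · rw [dif_pos h, dif_pos (by omega), decide_eq_true h, Bool.true_and]
  · rw [dif_neg h, decide_eq_false h, Bool.false_and]

private theorem num_eq {k : ℕ} (u : Fin k → Bool) (m : ℕ) (hm : m < 2 ^ k)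
    (h : ∀ t : Fin k, u t = m.testBit t) : num u = m := by
  refine Nat.eq_of_testBit_eq fun t => ?_
  rw [num_bit]
  by_cases ht : t < k
  · rw [dif_pos ht]
    exact h ⟨t, ht⟩
  · rw [dif_neg ht]
    exact (Nat.testBit_lt_two_pow (lt_of_lt_of_le hm
      (Nat.pow_le_pow_right (by norm_num) (by omega)))).symm

/-! ### The circuit -/

private theorem core (c1 : ℕ)
    (h1 : ∀ γ j : ℕ, Cx (DecF γ j) (c1 * ((γ + j + 1) ^ 3 * (2 ^ γ + 2 ^ j))))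
    (γ β η μ j s : ℕ) (hγ : γ = η + β) (hj : j ≤ μ)
    (F : (((Fin 2 × Fin (2 ^ μ)) × (Fin (η + 1) ⊕ Fin (2 ^ β))) ⊕ Fin (2 ^ η) → Bool) →
      Fin (2 ^ η) × Fin (2 ^ β) → Bool) (hF : Cx F s)
    (hP : ∀ x, (univ.filter fun a => x (Sum.inr a) = true).card ≤ 2 ^ j → ∀ a e,
        F x (a, e) = decide (x (Sum.inr a) = true ∧
          ∃ r, (∀ t : Fin (η + 1), x (Sum.inl (r, Sum.inl t)) = (a : ℕ).testBit t) ∧
            x (Sum.inl (r, Sum.inr e)) = true)) :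
    Cx (DecF γ j) ((0 + c1 * ((η + j + 1) ^ 3 * (2 ^ η + 2 ^ j)) +
      (2 ^ j * (c1 * ((β + 0 + 1) ^ 3 * (2 ^ β + 2 ^ 0))) + 1)) + s) := by
  classical
  have hpj : 0 < 2 ^ j := Nat.two_pow_pos j
  have hpβ : 0 < 2 ^ β := Nat.two_pow_pos β
  have hjμ : 2 ^ j ≤ 2 ^ μ := Nat.pow_le_pow_right (by norm_num) hj
  have : Nonempty (Fin (2 ^ j) × (Unit ⊕ Fin γ)) := ⟨(⟨0, hpj⟩, Sum.inl ())⟩
  -- the high digits
  let hi : Unit ⊕ Fin η → Unit ⊕ Fin γ := Sum.map id (fun t => ⟨β + t, by omega⟩)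
  let lw : Unit ⊕ Fin β → Unit ⊕ Fin γ := Sum.map id (fun t => ⟨t, by omega⟩)
  let S1 : (Fin (2 ^ j) × (Unit ⊕ Fin γ) → Bool) → Fin (2 ^ η) → Bool :=
    fun x => DecF η j (fun p => x (p.1, hi p.2))
  let S2 : (Fin (2 ^ j) × (Unit ⊕ Fin γ) → Bool) → Fin (2 ^ j) × Fin (2 ^ β) → Bool :=
    fun x p => DecF β 0 (fun q => x (p.1, lw q.2)) p.2
  have c1' : Cx S1 (c1 * ((η + j + 1) ^ 3 * (2 ^ η + 2 ^ j))) :=
    (h1 η j).inp (fun p : Fin (2 ^ j) × (Unit ⊕ Fin η) => (p.1, hi p.2))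
  have c2' : Cx S2 (2 ^ j * (c1 * ((β + 0 + 1) ^ 3 * (2 ^ β + 2 ^ 0)))) := by
    have a := (Cx.blocks (α := Fin (2 ^ j)) (h1 β 0)).inp
      (fun p : Fin (2 ^ j) × (Fin (2 ^ 0) × (Unit ⊕ Fin β)) =>
        ((p.1, lw p.2.2) : Fin (2 ^ j) × (Unit ⊕ Fin γ)))
    rw [Fintype.card_fin] at a
    exact a
  have c0 : Cx (fun (x : Fin (2 ^ j) × (Unit ⊕ Fin γ) → Bool) p => x p) 0 := Cx.proj id
  have c3 : Cx (fun (_ : Fin (2 ^ j) × (Unit ⊕ Fin γ) → Bool) (_ : Unit) => false) 1 :=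
    Cx.const false
  let g : ((Fin 2 × Fin (2 ^ μ)) × (Fin (η + 1) ⊕ Fin (2 ^ β))) ⊕ Fin (2 ^ η) →
      ((Fin (2 ^ j) × (Unit ⊕ Fin γ)) ⊕ Fin (2 ^ η)) ⊕ ((Fin (2 ^ j) × Fin (2 ^ β)) ⊕ Unit) :=
    Sum.elim (fun p => Sum.elim
      (fun t : Fin (η + 1) => if h : p.1.1 = 0 ∧ (p.1.2 : ℕ) < 2 ^ j ∧ (t : ℕ) < η then
        Sum.inl (Sum.inl (⟨p.1.2, h.2.1⟩, Sum.inr ⟨β + t, by have := h.2.2; omega⟩))
        else Sum.inr (Sum.inr ()))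
      (fun e : Fin (2 ^ β) => if h : p.1.1 = 0 ∧ (p.1.2 : ℕ) < 2 ^ j then
        Sum.inr (Sum.inl (⟨p.1.2, h.2⟩, e)) else Sum.inr (Sum.inr ())) p.2)
      (fun a => Sum.inl (Sum.inr a))
  have c4 := (((c0.pair c1').pair (c2'.pair c3)).out g).comp hF
  have c5 := c4.out (fun e : Fin (2 ^ γ) =>
    ((⟨(e : ℕ) / 2 ^ β, by
        rw [Nat.div_lt_iff_lt_mul hpβ, ← pow_add, ← hγ]
        exact e.isLt⟩, ⟨(e : ℕ) % 2 ^ β, Nat.mod_lt _ hpβ⟩) : Fin (2 ^ η) × Fin (2 ^ β)))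
  refine c5.congr fun x e => ?_
  set R : ((Fin 2 × Fin (2 ^ μ)) × (Fin (η + 1) ⊕ Fin (2 ^ β))) ⊕ Fin (2 ^ η) → Bool :=
    fun k => (Sum.elim (Sum.elim (fun p => x p) (S1 x)) (Sum.elim (S2 x) (fun _ => false)) :
      ((Fin (2 ^ j) × (Unit ⊕ Fin γ)) ⊕ Fin (2 ^ η)) ⊕ ((Fin (2 ^ j) × Fin (2 ^ β)) ⊕ Unit) →
        Bool) (g k) with hR
  change F R (_, _) = _
  -- the values of `R`
  have rA : ∀ a, R (Sum.inr a) = S1 x a := fun a => rfl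
  have rT : ∀ (q : Fin 2 × Fin (2 ^ μ)) (t : Fin (η + 1)), R (Sum.inl (q, Sum.inl t)) =
      if h : q.1 = 0 ∧ (q.2 : ℕ) < 2 ^ j ∧ (t : ℕ) < η then
        x (⟨q.2, h.2.1⟩, Sum.inr ⟨β + t, by have := h.2.2; omega⟩) else false := by
    intro q t
    simp only [hR, g, Sum.elim_inl]
    by_cases h : q.1 = 0 ∧ (q.2 : ℕ) < 2 ^ j ∧ (t : ℕ) < η
    · rw [dif_pos h, dif_pos h]
      rfl
    · rw [dif_neg h, dif_neg h]
      rfl
  have rE : ∀ (q : Fin 2 × Fin (2 ^ μ)) (e : Fin (2 ^ β)), R (Sum.inl (q, Sum.inr e)) =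
      if h : q.1 = 0 ∧ (q.2 : ℕ) < 2 ^ j then S2 x (⟨q.2, h.2⟩, e) else false := by
    intro q e
    simp only [hR, g, Sum.elim_inl, Sum.elim_inr]
    by_cases h : q.1 = 0 ∧ (q.2 : ℕ) < 2 ^ j
    · rw [dif_pos h, dif_pos h]
      rfl
    · rw [dif_neg h, dif_neg h]
      rfl
  have s1 : ∀ a : Fin (2 ^ η), S1 x a = true ↔ ∃ v, x (v, Sum.inl ()) = true ∧
      num (fun t => x (v, Sum.inr t)) / 2 ^ β = a := by
    intro a
    simp only [S1, DecF, decide_eq_true_eq]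
    refine exists_congr fun v => and_congr Iff.rfl ?_
    rw [num_div hγ]
    rfl
  have s2 : ∀ (v : Fin (2 ^ j)) (e : Fin (2 ^ β)), S2 x (v, e) = true ↔
      x (v, Sum.inl ()) = true ∧ num (fun t => x (v, Sum.inr t)) % 2 ^ β = e := by
    intro v e
    simp only [S2, DecF, decide_eq_true_eq]
    rw [num_mod hγ]
    constructor
    · rintro ⟨_, h, h'⟩
      exact ⟨h, h'⟩
    · rintro ⟨h, h'⟩
      exact ⟨⟨0, by norm_num⟩, h, h'⟩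
  have hcard : (univ.filter fun a => R (Sum.inr a) = true).card ≤ 2 ^ j := by
    have hsub : (univ.filter fun a => R (Sum.inr a) = true) ⊆
        (univ : Finset (Fin (2 ^ j))).image (fun v =>
          (⟨num (fun t => x (v, Sum.inr t)) / 2 ^ β, by
            rw [Nat.div_lt_iff_lt_mul hpβ, ← pow_add, ← hγ]
            exact num_lt _⟩ : Fin (2 ^ η))) := by
      intro a ha
      rw [mem_filter, rA, s1] at ha
      obtain ⟨v, _, hv⟩ := ha.2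
      rw [mem_image]
      exact ⟨v, mem_univ _, Fin.ext hv⟩
    refine (card_le_card hsub).trans (card_image_le.trans ?_)
    rw [card_univ, Fintype.card_fin]
  rw [hP R hcard, DecF, decide_eq_decide, rA, s1]
  constructor
  · rintro ⟨_, q, hq1, hq2⟩
    rw [rE] at hq2
    by_cases h : q.1 = 0 ∧ (q.2 : ℕ) < 2 ^ j
    · rw [dif_pos h, s2] at hq2
      refine ⟨⟨q.2, h.2⟩, hq2.1, ?_⟩
      have e1 : num (fun t : Fin γ => x (⟨q.2, h.2⟩, Sum.inr t)) / 2 ^ β = (e : ℕ) / 2 ^ β := by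
        rw [num_div hγ]
        refine num_eq _ _ ?_ fun t => ?_
        · rw [Nat.div_lt_iff_lt_mul hpβ, ← pow_add, ← hγ]
          exact e.isLt
        · have := hq1 t.castSucc
          rw [rT, dif_pos ⟨h.1, h.2, t.isLt⟩] at this
          exact this
      have e2 := hq2.2
      rw [← Nat.div_add_mod (num (fun t : Fin γ => x (⟨q.2, h.2⟩, Sum.inr t))) (2 ^ β), e1, e2]
      exact Nat.div_add_mod _ _
    · rw [dif_neg h] at hq2
      exact absurd hq2 (by decide)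
  · rintro ⟨v, hv1, hv2⟩
    refine ⟨⟨v, hv1, by rw [hv2]⟩, (0, ⟨v, lt_of_lt_of_le v.isLt hjμ⟩), fun t => ?_, ?_⟩
    · rw [rT]
      change _ = ((e : ℕ) / 2 ^ β).testBit t
      rw [← hv2, num_div hγ, num_bit]
      by_cases ht : (t : ℕ) < η
      · rw [dif_pos ⟨rfl, v.isLt, ht⟩, dif_pos ht]
      · rw [dif_neg (fun h => ht h.2.2), dif_neg ht]
    · rw [rE, dif_pos ⟨rfl, v.isLt⟩, s2]
      exact ⟨hv1, by rw [hv2]⟩

/-! ### The size -/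

private theorem cube {a b : ℕ} (h : a ≤ 2 ^ b) : a ^ 3 ≤ 2 ^ (3 * b) := by
  calc a ^ 3 ≤ (2 ^ b) ^ 3 := Nat.pow_le_pow_left h 3
    _ = 2 ^ (3 * b) := by rw [← pow_mul, Nat.mul_comm]

theorem tDecS (h1 : S_DecN) (h2 : S_Back) (h3 : S_Exp) : S_DecS := by
  obtain ⟨c1, hc1⟩ := h1
  obtain ⟨c2, hc2⟩ := h2
  refine ⟨17 * c1 + 4 * c2 + 1, fun γ j hγj => ?_⟩
  obtain ⟨Λ, hΛ⟩ : ∃ Λ, Nat.log 2 (γ + 1) + 1 = Λ := ⟨_, rfl⟩
  have hΛ1 : γ + 1 < 2 ^ Λ := by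
    rw [← hΛ]
    exact Nat.lt_pow_succ_log_self (by norm_num) _
  have hΛ0 : 1 ≤ Λ := by omega
  rw [hΛ] at hγj
  have hη : γ = (γ - 4 * Λ) + 4 * Λ := by omega
  have hjη : j ≤ γ - 4 * Λ := by omega
  obtain ⟨η, hη'⟩ : ∃ η, γ - 4 * Λ = η := ⟨_, rfl⟩
  obtain ⟨μ, hμ'⟩ : ∃ μ, γ - 12 * Λ - 6 = μ := ⟨_, rfl⟩
  rw [hη'] at hη hjη
  obtain ⟨h, hG⟩ := h3 (2 ^ η) (2 ^ μ) (2 ^ j) (Nat.two_pow_pos _) (by
    calc 6 * 256 ^ 4 * 2 ^ η * (2 ^ j) ^ 3 ≤ 2 ^ 35 * 2 ^ η * (2 ^ j) ^ 3 :=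
          Nat.mul_le_mul_right _ (Nat.mul_le_mul_right _ (by norm_num))
      _ = 2 ^ (35 + η + 3 * j) := by rw [← pow_mul, ← pow_add, ← pow_add, Nat.mul_comm j 3]
      _ ≤ 2 ^ (μ * 4) := Nat.pow_le_pow_right (by norm_num) (by omega)
      _ = (2 ^ μ) ^ 4 := by rw [pow_mul])
  obtain ⟨F, hF, hP⟩ := hc2 (4 * Λ) η μ (2 ^ j) h (by omega) hG
  refine (core c1 hc1 γ (4 * Λ) η μ j _ hη (by omega) F hF hP).mono ?_
  rw [Nat.log_pow (by norm_num)]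
  -- first part
  have b1 : (η + j + 1) ^ 3 * (2 ^ η + 2 ^ j) ≤ 16 * 2 ^ γ := by
    have e1 : η + j + 1 ≤ 2 ^ (Λ + 1) := by
      rw [pow_succ]
      omega
    have e2 : 2 ^ j ≤ 2 ^ η := Nat.pow_le_pow_right (by norm_num) hjη
    calc (η + j + 1) ^ 3 * (2 ^ η + 2 ^ j) ≤ 2 ^ (3 * (Λ + 1)) * (2 ^ η + 2 ^ η) :=
          Nat.mul_le_mul (cube e1) (by omega)
      _ = 2 ^ (3 * (Λ + 1) + η + 1) := by rw [← two_mul, pow_succ, pow_add]; ring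
      _ ≤ 2 ^ (4 + γ) := Nat.pow_le_pow_right (by norm_num) (by omega)
      _ = 16 * 2 ^ γ := by rw [pow_add]; norm_num
  have b2 : 2 ^ j * ((4 * Λ + 0 + 1) ^ 3 * (2 ^ (4 * Λ) + 2 ^ 0)) ≤ 2 ^ γ := by
    have e1 : 4 * Λ + 0 + 1 ≤ 2 ^ (4 * Λ) := Nat.lt_two_pow_self
    have e2 : 2 ^ 0 ≤ 2 ^ (4 * Λ) := Nat.pow_le_pow_right (by norm_num) (Nat.zero_le _)
    calc 2 ^ j * ((4 * Λ + 0 + 1) ^ 3 * (2 ^ (4 * Λ) + 2 ^ 0))
        ≤ 2 ^ j * (2 ^ (3 * (4 * Λ)) * (2 ^ (4 * Λ) + 2 ^ (4 * Λ))) :=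
          Nat.mul_le_mul_left _ (Nat.mul_le_mul (cube e1) (by omega))
      _ = 2 ^ (j + (3 * (4 * Λ) + (4 * Λ + 1))) := by
          rw [← two_mul, pow_add, pow_add, pow_succ 2 (4 * Λ)]; ring
      _ ≤ 2 ^ γ := Nat.pow_le_pow_right (by norm_num) (by omega)
  have b3 : 2 ^ η * (2 ^ (4 * Λ) + η + j + 1) ≤ 3 * 2 ^ γ := by
    have e1 : 2 ^ Λ ≤ 2 ^ (4 * Λ) := Nat.pow_le_pow_right (by norm_num) (by omega)
    calc 2 ^ η * (2 ^ (4 * Λ) + η + j + 1) ≤ 2 ^ η * (3 * 2 ^ (4 * Λ)) :=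
          Nat.mul_le_mul_left _ (by omega)
      _ = 3 * 2 ^ (η + 4 * Λ) := by rw [pow_add]; ring
      _ = 3 * 2 ^ γ := by rw [← hη]
  have b4 : 2 ^ μ * (η + 2 ^ (4 * Λ) + 1) ^ 3 ≤ 2 ^ γ := by
    have e1 : 2 ^ Λ ≤ 2 ^ (4 * Λ) := Nat.pow_le_pow_right (by norm_num) (by omega)
    have e2 : η + 2 ^ (4 * Λ) + 1 ≤ 2 ^ (4 * Λ + 1) := by
      rw [pow_succ]
      omega
    calc 2 ^ μ * (η + 2 ^ (4 * Λ) + 1) ^ 3 ≤ 2 ^ μ * 2 ^ (3 * (4 * Λ + 1)) :=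
          Nat.mul_le_mul_left _ (cube e2)
      _ = 2 ^ (μ + 3 * (4 * Λ + 1)) := by rw [← pow_add]
      _ ≤ 2 ^ γ := Nat.pow_le_pow_right (by norm_num) (by omega)
  have b5 : 1 ≤ 2 ^ γ := Nat.one_le_two_pow
  have d1 := Nat.mul_le_mul_left c1 b1
  have d2 := Nat.mul_le_mul_left c1 b2
  have d3 := Nat.mul_le_mul_left c2 (Nat.add_le_add b3 b4)
  have e3 : 2 ^ j * (c1 * ((4 * Λ + 0 + 1) ^ 3 * (2 ^ (4 * Λ) + 2 ^ 0))) =
      c1 * (2 ^ j * ((4 * Λ + 0 + 1) ^ 3 * (2 ^ (4 * Λ) + 2 ^ 0))) := by ring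
  rw [e3]
  have e4 : (17 * c1 + 4 * c2 + 1) * 2 ^ γ =
      c1 * (16 * 2 ^ γ) + c1 * 2 ^ γ + c2 * (3 * 2 ^ γ + 2 ^ γ) + 2 ^ γ := by ring
  rw [e4]
  omega

end Pool.Agent.Lin
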