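import Pool.Agent.Lib.MP_76b24b_lcM.Spec2

/-!
# MP_76b24b_lc, package M: halving of an array
-/

set_option autoImplicit false

namespace Pool.Agent.Lin

open Finset

theorem tHalf (h1 : S_Con) (h2 : S_Exp) : S_Half := by
  obtain ⟨c, hc⟩ := h1
  refine ⟨c * 2 ^ 13, fun k N M hN hM => ?_⟩
  subst hN
  subst hM
  obtain ⟨h, hG⟩ := h2 (2 ^ (k + 13)) (2 ^ (k + 12)) (2 ^ k) (Nat.two_pow_pos _) (by
    have e1 : 6 * 256 ^ 4 * 2 ^ (k + 13) * (2 ^ k) ^ 3 = 6 * 2 ^ 45 * (2 ^ k) ^ 4 := by ring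
    have e2 : (2 ^ (k + 12)) ^ 4 = 2 ^ 48 * (2 ^ k) ^ 4 := by ring
    rw [e1, e2]
    exact Nat.mul_le_mul_right _ (by norm_num))
  obtain ⟨f, hf, hP⟩ := hc (2 ^ (k + 13)) (2 ^ (k + 12)) (2 ^ k) h (Nat.two_pow_pos _)
    (Nat.pow_le_pow_right (by norm_num) (by omega)) hG
  refine ⟨f, hf.mono (le_of_eq ?_) (le_of_eq ?_), hP⟩
  · rw [Nat.log_pow (by norm_num)]
    ring
  · ring

end Pool.Agent.Lin
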