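import Pool.Agent.Lib.MP_76b24b_lcM.Spec2

/-!
# MP_76b24b_lc, package M, module In

The list of the tokens of all marks.
-/

set_option autoImplicit false

namespace Pool.Agent.Lin

open Finset

/-- `num` of the lowest digits. -/
private theorem in_num (k s : ℕ) : num (fun t : Fin k => s.testBit t) = s % 2 ^ k := by
  induction k with
  | zero => simp [num, Nat.mod_one]
  | succ k ih =>
    have h1 : num (fun t : Fin (k + 1) => s.testBit t)
        = num (fun t : Fin k => s.testBit t) + (if s.testBit k = true then 2 ^ k else 0) := by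
      unfold num
      rw [Fin.sum_univ_castSucc]
      simp only [Fin.val_castSucc, Fin.val_last]
    rw [h1, ih, Nat.mod_pow_succ, Nat.testBit_eq_decide_div_mod_eq]
    rcases Nat.mod_two_eq_zero_or_one (s / 2 ^ k) with h | h
    · rw [h]
      simp
    · rw [h]
      simp

private theorem in_add (k a b i : ℕ) (hi : i < k) :
    (a % 2 ^ k + b).testBit i = (a + b).testBit i := by
  have h1 : ((a % 2 ^ k + b) % 2 ^ k).testBit i = (a % 2 ^ k + b).testBit i := by
    rw [Nat.testBit_mod_two_pow]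
    simp [hi]
  have h2 : ((a + b) % 2 ^ k).testBit i = (a + b).testBit i := by
    rw [Nat.testBit_mod_two_pow]
    simp [hi]
  rw [← h1, ← h2, Nat.mod_add_mod]

/-! ### Ranks in blocks -/

private theorem pos_lt {b p q a c : ℕ} (hq : q < b) (hc : c ≤ b) :
    p * b + q < a * b + c ↔ p < a ∨ (p = a ∧ q < c) := by
  rcases lt_trichotomy p a with h | h | h
  · have h1 : (p + 1) * b ≤ a * b := Nat.mul_le_mul_right _ h
    rw [Nat.add_mul, one_mul] at h1
    constructor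
    · intro _
      exact Or.inl h
    · intro _
      omega
  · subst h
    constructor
    · intro h1
      exact Or.inr ⟨rfl, by omega⟩
    · rintro (h1 | ⟨_, h1⟩)
      · omega
      · omega
  · have h1 : (a + 1) * b ≤ p * b := Nat.mul_le_mul_right _ h
    rw [Nat.add_mul, one_mul] at h1
    constructor
    · intro h2
      omega
    · rintro (h2 | ⟨h2, _⟩)
      · omega
      · omega

private theorem rk_split {N b : ℕ} (P : Fin N × Fin b → Bool) (a : Fin N) (c : ℕ) (hc : c ≤ b) :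
    rk (bpos b) P (a * b + c) = rk (bpos b) P (a * b) +
      (univ.filter fun t : Fin b => (t : ℕ) < c ∧ P (a, t) = true).card := by
  classical
  unfold rk
  have h1 : (univ.filter fun t : Fin b => (t : ℕ) < c ∧ P (a, t) = true).card =
      ((univ.filter fun t : Fin b => (t : ℕ) < c ∧ P (a, t) = true).image
        fun t => ((a, t) : Fin N × Fin b)).card := by
    rw [Finset.card_image_of_injective]
    intro t t' h
    exact (Prod.ext_iff.1 h).2
  rw [h1, ← Finset.card_union_of_disjoint]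
  · congr 1
    ext q
    rw [Finset.mem_union, Finset.mem_filter, Finset.mem_filter, Finset.mem_image]
    have e1 : bpos b q < a * b + c ↔ (q.1 : ℕ) < a ∨ ((q.1 : ℕ) = a ∧ (q.2 : ℕ) < c) :=
      pos_lt q.2.isLt hc
    have e2 : bpos b q < a * b ↔ (q.1 : ℕ) < a ∨ ((q.1 : ℕ) = a ∧ (q.2 : ℕ) < 0) :=
      pos_lt (c := 0) q.2.isLt (Nat.zero_le _)
    constructor
    · rintro ⟨_, h2, h3⟩
      rcases e1.1 h2 with h4 | ⟨h4, h5⟩
      · exact Or.inl ⟨Finset.mem_univ _, e2.2 (Or.inl h4), h3⟩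
      · right
        have h6 : q.1 = a := Fin.ext h4
        refine ⟨q.2, ?_, ?_⟩
        · rw [Finset.mem_filter]
          refine ⟨Finset.mem_univ _, h5, ?_⟩
          rw [← h6]
          exact h3
        · rw [← h6]
    · rintro (⟨_, h2, h3⟩ | ⟨t, ht, he⟩)
      · refine ⟨Finset.mem_univ _, ?_, h3⟩
        omega
      · rw [Finset.mem_filter] at ht
        rw [← he] at e1 ⊢
        exact ⟨Finset.mem_univ _, e1.2 (Or.inr ⟨rfl, ht.2.1⟩), ht.2.2⟩
  · rw [Finset.disjoint_left]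
    intro q h2 h3
    rw [Finset.mem_filter] at h2
    rw [Finset.mem_image] at h3
    obtain ⟨t, _, he⟩ := h3
    have h4 : (q.1 : ℕ) = a := by rw [← he]
    have h5 : (q.1 : ℕ) * b + q.2 < a * b := h2.2.1
    rw [h4] at h5
    omega

private theorem rk_block {N b : ℕ} (P : Fin N × Fin b → Bool) (a : Fin N) (ρ : Fin b) :
    rk (bpos b) P (bpos b (a, ρ)) = rk (bpos b) P (a * b) +
      rk Fin.val (fun t => P (a, t)) ρ :=
  rk_split P a ρ ρ.isLt.le

private theorem rk_next {N b : ℕ} (P : Fin N × Fin b → Bool) (a : Fin N) :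
    rk (bpos b) P ((a + 1) * b) = rk (bpos b) P (a * b) +
      (univ.filter fun t : Fin b => P (a, t) = true).card := by
  rw [Nat.add_mul, one_mul, rk_split P a b le_rfl]
  congr 2
  ext t
  rw [Finset.mem_filter, Finset.mem_filter]
  simp

private theorem rk_all {N b : ℕ} (P : Fin N × Fin b → Bool) (a : ℕ) (ha : N ≤ a) :
    rk (bpos b) P (a * b) = (univ.filter fun q => P q = true).card := by
  unfold rk
  congr 1
  ext q
  rw [Finset.mem_filter, Finset.mem_filter]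
  have e2 : bpos b q < a * b := by
    have : (q.1 : ℕ) * b + q.2 < a * b + 0 :=
      (pos_lt q.2.isLt (Nat.zero_le _)).2 (Or.inl (lt_of_lt_of_le q.1.isLt ha))
    exact this
  simp [e2]

private theorem rk_zero {N b : ℕ} (P : Fin N × Fin b → Bool) : rk (bpos b) P (0 * b) = 0 := by
  unfold rk
  rw [Finset.card_eq_zero, Finset.filter_eq_empty_iff]
  intro q _ h
  rw [Nat.zero_mul] at h
  omega

private theorem prf {σ γ l : ℕ} (P : Fin (2 ^ σ) × Fin (2 ^ γ) → Bool)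
    (h : (univ.filter fun p => P p = true).card ≤ 2 ^ (σ - 13 + l)) :
    Prf σ γ l (fun a => rk (bpos (2 ^ γ)) P (a * 2 ^ γ)) := by
  refine ⟨rk_zero P, fun a => ?_, fun a => ?_, ?_⟩
  · show rk (bpos (2 ^ γ)) P (a * 2 ^ γ) ≤ rk (bpos (2 ^ γ)) P ((a + 1) * 2 ^ γ)
    by_cases ha : a < 2 ^ σ
    · have := rk_next P ⟨a, ha⟩
      have h2 : rk (bpos (2 ^ γ)) P ((a + 1) * 2 ^ γ) = rk (bpos (2 ^ γ)) P (a * 2 ^ γ) +
        (univ.filter fun t : Fin (2 ^ γ) => P (⟨a, ha⟩, t) = true).card := this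
      omega
    · rw [rk_all P a (by omega), rk_all P (a + 1) (by omega)]
  · show rk (bpos (2 ^ γ)) P ((a + 1) * 2 ^ γ) ≤ rk (bpos (2 ^ γ)) P (a * 2 ^ γ) + 2 ^ γ
    by_cases ha : a < 2 ^ σ
    · have := rk_next P ⟨a, ha⟩
      have h2 : rk (bpos (2 ^ γ)) P ((a + 1) * 2 ^ γ) = rk (bpos (2 ^ γ)) P (a * 2 ^ γ) +
        (univ.filter fun t : Fin (2 ^ γ) => P (⟨a, ha⟩, t) = true).card := this
      have h3 : (univ.filter fun t : Fin (2 ^ γ) => P (⟨a, ha⟩, t) = true).card ≤ 2 ^ γ := by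
        refine (Finset.card_filter_le _ _).trans ?_
        rw [Finset.card_univ, Fintype.card_fin]
      omega
    · rw [rk_all P a (by omega), rk_all P (a + 1) (by omega)]
      exact Nat.le_add_right _ _
  · show rk (bpos (2 ^ γ)) P (2 ^ σ * 2 ^ γ) ≤ _
    rw [rk_all P (2 ^ σ) le_rfl]
    exact h

/-- The number of a mark is smaller than the number of all marks. -/
private theorem rk_mark {n : ℕ} (P : Fin n → Bool) (a : Fin n) (ha : P a = true) :
    rk Fin.val P a < (univ.filter fun t => P t = true).card := by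
  unfold rk
  apply Finset.card_lt_card
  rw [Finset.ssubset_iff_of_subset]
  · refine ⟨a, ?_, ?_⟩
    · rw [Finset.mem_filter]
      exact ⟨Finset.mem_univ _, ha⟩
    · simp
  · intro c hc
    rw [Finset.mem_filter] at hc ⊢
    exact ⟨hc.1, hc.2.2⟩

/-- In a sequence of intervals a number determines its interval. -/
private theorem interval {I : ℕ → ℕ} (hI : ∀ a, I a ≤ I (a + 1)) {a a' v v' : ℕ}
    (hv : v < I (a + 1) - I a) (hv' : v' < I (a' + 1) - I a') (h : I a + v = I a' + v') :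
    a = a' := by
  have hm : Monotone I := monotone_nat_of_le_succ hI
  rcases lt_trichotomy a a' with h1 | h1 | h1
  · have := hm (Nat.succ_le_of_lt h1)
    simp only [Nat.succ_eq_add_one] at this
    omega
  · exact h1
  · have := hm (Nat.succ_le_of_lt h1)
    simp only [Nat.succ_eq_add_one] at this
    omega

/-! ### The circuits -/

/-- The numbers of the marks in the superblocks `< a`. -/
private def JJ (σ γ : ℕ) (x : Fin 3 × (Fin (2 ^ σ) × Fin (2 ^ γ)) → Bool) (a : ℕ) : ℕ :=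
  rk (bpos (2 ^ γ)) (fun p => x (0, p) && x (1, p)) (a * 2 ^ γ)

/-- The raw data of the superblocks. -/
private def Dat (σ γ : ℕ) (x : Fin 3 × (Fin (2 ^ σ) × Fin (2 ^ γ)) → Bool)
    (p : Fin (2 ^ σ) × Raw γ) : Bool :=
  Sum.elim (fun t : Fin γ => (rk (bpos (2 ^ γ)) (fun p => x (0, p)) (p.1 * 2 ^ γ)).testBit t)
    (fun q : Fin 3 × Fin (2 ^ γ) => x (q.1, (p.1, q.2))) p.2

private theorem cxJ (h : S_Pre) : ∃ c : ℕ, ∀ σ γ : ℕ,
    Cx (fun (x : Fin 3 × (Fin (2 ^ σ) × Fin (2 ^ γ)) → Bool) =>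
      dig σ (σ + γ + 1) (JJ σ γ x)) (c * (2 ^ σ * (2 ^ γ + σ + 1))) ∧
    Cx (Dat σ γ) (c * (2 ^ σ * (2 ^ γ + σ + 1))) := by
  obtain ⟨c, hc⟩ := h
  refine ⟨c + 1, fun σ γ => ⟨?_, ?_⟩⟩
  · have a1 := Cx.layer (ι := Fin 3 × (Fin (2 ^ σ) × Fin (2 ^ γ)))
      (fun _ : Fin (2 ^ σ) × Fin (2 ^ γ) => and) (fun p => (0, p)) (fun p => (1, p))
    refine ((a1.comp (hc γ σ)).mono ?_).congr fun x p => ?_
    · rw [Fintype.card_prod, Fintype.card_fin, Fintype.card_fin]
      have : 2 ^ σ * 2 ^ γ ≤ 2 ^ σ * (2 ^ γ + σ + 1) := Nat.mul_le_mul_left _ (by omega)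
      rw [Nat.add_mul, one_mul]
      omega
    · rfl
  · have a1 := (hc γ σ).inp (fun p : Fin (2 ^ σ) × Fin (2 ^ γ) =>
      ((0, p) : Fin 3 × (Fin (2 ^ σ) × Fin (2 ^ γ))))
    have a2 := (a1.pair (Cx.proj (fun p : Fin (2 ^ σ) × (Fin 3 × Fin (2 ^ γ)) =>
      ((p.2.1, (p.1, p.2.2)) : Fin 3 × (Fin (2 ^ σ) × Fin (2 ^ γ)))))).out
      (fun p : Fin (2 ^ σ) × Raw γ => Sum.elim
        (fun t : Fin γ => (Sum.inl (p.1.castSucc, ⟨t, by omega⟩) :
          (Fin (2 ^ σ + 1) × Fin (σ + γ + 1)) ⊕ (Fin (2 ^ σ) × (Fin 3 × Fin (2 ^ γ)))))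
        (fun q : Fin 3 × Fin (2 ^ γ) => Sum.inr (p.1, q)) p.2)
    refine (a2.mono ?_).congr fun x p => ?_
    · rw [Nat.add_mul]
      omega
    · obtain ⟨a, t | q⟩ := p
      · rfl
      · rfl

private theorem bound (c cA N G σ γ K L w : ℕ) (S : ℕ) (hK : K = σ + γ + 1) :
    c * (N * (G + σ + 1)) + (c * (N * (G + σ + 1)) + cA * (K * N) + cA * N * (γ + 3 * G)) + S +
      (c * (N * (G + σ + 1)) + cA * (K ^ 2 * N + K * L) + cA * (K * L) * (w + 1)) ≤
    (3 * c + 3 * cA) * (N * G + K ^ 2 * N + (w + 1) * K * L) + S := by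
  have hK2 : K ≤ K ^ 2 := Nat.le_self_pow (by norm_num) _
  have h1 : N * (G + σ + 1) ≤ N * G + K ^ 2 * N := by
    have : (σ + 1) * N ≤ K ^ 2 * N := Nat.mul_le_mul_right _ (by omega)
    calc N * (G + σ + 1) = N * G + (σ + 1) * N := by ring
      _ ≤ _ := by omega
  have h2 : K * N ≤ K ^ 2 * N := Nat.mul_le_mul_right _ hK2
  have h3 : γ * N ≤ K ^ 2 * N := Nat.mul_le_mul_right _ (by omega)
  have h4 : K * L ≤ (w + 1) * K * L := by
    calc K * L = 1 * (K * L) := (one_mul _).symm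
      _ ≤ (w + 1) * (K * L) := Nat.mul_le_mul_right _ (by omega)
      _ = _ := by ring
  have h5 : c * (N * (G + σ + 1)) ≤ c * (N * G + K ^ 2 * N + (w + 1) * K * L) :=
    Nat.mul_le_mul_left _ (by omega)
  have h6 : cA * (K * N + (γ * N + 3 * (N * G)) + (K ^ 2 * N + K * L) + (w + 1) * K * L) ≤
      cA * (3 * (N * G + K ^ 2 * N + (w + 1) * K * L)) :=
    Nat.mul_le_mul_left _ (by omega)
  calc c * (N * (G + σ + 1)) + (c * (N * (G + σ + 1)) + cA * (K * N) +
        cA * N * (γ + 3 * G)) + S +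
      (c * (N * (G + σ + 1)) + cA * (K ^ 2 * N + K * L) + cA * (K * L) * (w + 1))
      = 3 * (c * (N * (G + σ + 1))) + cA * (K * N + (γ * N + 3 * (N * G)) +
        (K ^ 2 * N + K * L) + (w + 1) * K * L) + S := by ring
    _ ≤ 3 * (c * (N * G + K ^ 2 * N + (w + 1) * K * L)) +
        cA * (3 * (N * G + K ^ 2 * N + (w + 1) * K * L)) + S := by omega
    _ = _ := by ring

theorem tIn (h1 : S_Acc) (h2 : S_Pre) (h3 : S_LA) : S_In := by
  obtain ⟨cA, hA⟩ := h1
  obtain ⟨c, hc⟩ := cxJ h2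
  refine ⟨3 * c + 3 * cA, fun σ γ l r w zz co hlr hl hr hσ hw hL => ?_⟩
  obtain ⟨A, B, mA, mB, hAB⟩ := hA σ γ l r hlr hl hr hσ
  obtain ⟨cJ, cD⟩ := hc σ γ
  have hL' : ∀ i : Fin (r + 1), LCom γ (l + i) w (co i) zz := fun i =>
    hL i (Nat.lt_succ_iff.1 i.isLt)
  choose Fi hF1 hF2 using hL'
  -- the raw data at the slots
  have a1 := (mA.pre cJ).cx (Raw γ)
  have a2 := cD.ext a1
  -- the local circuits
  have a3 := a2.comp (h3.1 σ l r (Raw γ) (Fin w ⊕ Unit) co Fi (by omega) hF1)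
  -- the list
  have a4 := (mB.pre cJ).cx (Fin w ⊕ Unit)
  have a5 := a3.ext a4
  refine ⟨_, a5.mono ?_, ?_⟩
  · have hb := bound c cA (2 ^ σ) (2 ^ γ) σ γ (σ + γ + 1) (2 ^ (σ + l)) w
      (∑ i ∈ range (r + 1), 2 ^ (σ - i) * co i) rfl
    have e1 : Fintype.card (Raw γ) = γ + 3 * 2 ^ γ := by
      rw [Fintype.card_sum, Fintype.card_prod, Fintype.card_fin, Fintype.card_fin,
        Fintype.card_fin]
    have e2 : Fintype.card (Fin w ⊕ Unit) = w + 1 := by
      rw [Fintype.card_sum, Fintype.card_fin, Fintype.card_unit]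
    rw [e1, e2, pow_add 2 σ γ]
    refine le_trans (le_of_eq ?_) hb
    ring
  · intro x hz hcard p ρ hP hQ hρ
    obtain ⟨a, τ⟩ := p
    have hcard' : (univ.filter fun p : Fin (2 ^ σ) × Fin (2 ^ γ) =>
        (x (0, p) && x (1, p)) = true).card ≤ 2 ^ (σ - 13 + l) := by
      simpa only [Bool.and_eq_true] using hcard
    have hPrf : Prf σ γ l (JJ σ γ x) :=
      prf (σ := σ) (γ := γ) (l := l) (fun p => x (0, p) && x (1, p)) hcard'
    obtain ⟨pbA, qA, iffB⟩ := hAB (JJ σ γ x) hPrf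
    obtain ⟨⟨i, α⟩, hs⟩ := pbA.2.1 a trivial
    -- the data at the slot
    have hY : ∀ e, mv (fun x => A (dig σ (σ + γ + 1) (JJ σ γ x)))
        (Sum.elim x (Dat σ γ x)) (⟨i, α⟩, e) = Dat σ γ x (a, e) := by
      intro e
      rw [Bool.eq_iff_iff, mv_iff]
      constructor
      · rintro ⟨a', h1, h2⟩
        have h3 : a' = a := pbA.2.2.2 a' a _ h1 hs
        rw [← h3]
        exact h2
      · intro h
        exact ⟨a, hs, h⟩
    -- the number of the mark
    have hPQ : (x (0, (a, τ)) && x (1, (a, τ))) = true := by rw [hP, hQ]; rfl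
    have hb := rk_block (fun p : Fin (2 ^ σ) × Fin (2 ^ γ) => x (0, p) && x (1, p)) a τ
    have hm := rk_mark (fun t : Fin (2 ^ γ) => x (0, (a, t)) && x (1, (a, t))) τ hPQ
    have hn : JJ σ γ x (a + 1) = JJ σ γ x a +
      (univ.filter fun t : Fin (2 ^ γ) => (x (0, (a, t)) && x (1, (a, t))) = true).card :=
      rk_next (fun p : Fin (2 ^ σ) × Fin (2 ^ γ) => x (0, p) && x (1, p)) a
    have hρ' : JJ σ γ x a + rk Fin.val (fun t : Fin (2 ^ γ) => x (0, (a, t)) && x (1, (a, t))) τ =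
      ρ := by
      rw [← hρ, hb]
      rfl
    generalize hvv : rk Fin.val (fun t : Fin (2 ^ γ) => x (0, (a, t)) && x (1, (a, t))) τ = v
      at hm hρ'
    have hq : JJ σ γ x (a + 1) - JJ σ γ x a < 2 ^ (l + (i : ℕ)) := qA a _ hs
    have hv1 : v < JJ σ γ x (a + 1) - JJ σ γ x a := by omega
    have hv2 : v < 2 ^ (l + (i : ℕ)) := by omega
    have hi : (i : ℕ) ≤ σ := by
      have := i.isLt
      omega
    -- the cell
    have hlt : (α : ℕ) * 2 ^ (l + (i : ℕ)) + v < 2 ^ (σ + l) := by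
      have h1 : ((α : ℕ) + 1) * 2 ^ (l + (i : ℕ)) ≤ 2 ^ (σ - (i : ℕ)) * 2 ^ (l + (i : ℕ)) :=
        Nat.mul_le_mul_right _ α.isLt
      rw [← pow_add] at h1
      have h2 : σ - (i : ℕ) + (l + (i : ℕ)) = σ + l := by omega
      rw [h2, Nat.add_mul, one_mul] at h1
      omega
    have hdiv : ((α : ℕ) * 2 ^ (l + (i : ℕ)) + v) / 2 ^ (l + (i : ℕ)) = α := by
      rw [Nat.mul_comm, Nat.mul_add_div (Nat.two_pow_pos _), Nat.div_eq_of_lt hv2, Nat.add_zero]
    have hmod : ((α : ℕ) * 2 ^ (l + (i : ℕ)) + v) % 2 ^ (l + (i : ℕ)) = v := by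
      rw [Nat.mul_comm, Nat.mul_add_mod, Nat.mod_eq_of_lt hv2]
    have hB : B (dig σ (σ + γ + 1) (JJ σ γ x)) (i, ⟨(α : ℕ) * 2 ^ (l + (i : ℕ)) + v, hlt⟩) ρ := by
      rw [iffB]
      refine ⟨a, ⟨i, α⟩, hs, rfl, hdiv.symm, ?_, ?_⟩
      · rw [hmod]
        exact hv1
      · rw [hmod]
        exact hρ'.symm
    have hu : ∀ q, B (dig σ (σ + γ + 1) (JJ σ γ x)) q ρ →
        q = (i, ⟨(α : ℕ) * 2 ^ (l + (i : ℕ)) + v, hlt⟩) := by
      rintro ⟨i', e'⟩ h
      rw [iffB] at h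
      obtain ⟨a', ⟨i'', α'⟩, h1, h2, h3, h4, h5⟩ := h
      have h6 : i'' = i' := h2
      subst h6
      have h7 : (a : ℕ) = a' := interval hPrf.2.1 hv1 h4 (hρ'.trans h5)
      have h8 : a = a' := Fin.ext h7
      subst h8
      have h9 : (⟨i'', α'⟩ : Slot σ r) = ⟨i, α⟩ := pbA.2.2.1 a _ _ h1 hs
      have h10 : i'' = i := congrArg Sigma.fst h9
      subst h10
      have h11 : α' = α := by
        have := (Sigma.mk.injEq _ _ _ _).mp h9
        exact eq_of_heq this.2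
      subst h11
      refine Prod.ext rfl (Fin.ext ?_)
      show (e' : ℕ) = α' * 2 ^ (l + (i'' : ℕ)) + v
      have h12 := Nat.div_add_mod (e' : ℕ) (2 ^ (l + (i'' : ℕ)))
      have h13 : (α' : ℕ) = e' / 2 ^ (l + (i'' : ℕ)) := h3
      rw [← h13] at h12
      have h14 : (e' : ℕ) % 2 ^ (l + (i'' : ℕ)) = v := by omega
      rw [h14, Nat.mul_comm] at h12
      exact h12.symm
    -- the outputs
    have hout : ∀ d, mv (fun x => B (dig σ (σ + γ + 1) (JJ σ γ x)))
        (Sum.elim x (fun q : (Fin (r + 1) × Fin (2 ^ (σ + l))) × (Fin w ⊕ Unit) =>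
          Fi q.1.1 (fun e => mv (fun x => A (dig σ (σ + γ + 1) (JJ σ γ x)))
            (Sum.elim x (Dat σ γ x)) (sl q.1.1 (q.1.2 / 2 ^ (l + (q.1.1 : ℕ))), e))
            (lo (l + (q.1.1 : ℕ)) q.1.2, q.2))) (ρ, d) =
        Fi i (fun e => Dat σ γ x (a, e)) (⟨v, hv2⟩, d) := by
      intro d
      have hsl : sl (σ := σ) (r := r) i (((α : ℕ) * 2 ^ (l + (i : ℕ)) + v) /
          2 ^ (l + (i : ℕ))) = ⟨i, α⟩ := by
        rw [hdiv]
        unfold sl
        congr 1
        exact Fin.ext (Nat.mod_eq_of_lt α.isLt)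
      have hlo : lo (l + (i : ℕ)) ((α : ℕ) * 2 ^ (l + (i : ℕ)) + v) = ⟨v, hv2⟩ :=
        Fin.ext hmod
      have hcell : Fi i (fun e => mv (fun x => A (dig σ (σ + γ + 1) (JJ σ γ x)))
            (Sum.elim x (Dat σ γ x)) (sl i (((α : ℕ) * 2 ^ (l + (i : ℕ)) + v) /
              2 ^ (l + (i : ℕ))), e)) (lo (l + (i : ℕ)) ((α : ℕ) * 2 ^ (l + (i : ℕ)) + v), d) =
          Fi i (fun e => Dat σ γ x (a, e)) (⟨v, hv2⟩, d) := by
        rw [hsl, hlo]
        congr 1
        exact funext hY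
      rw [← hcell, Bool.eq_iff_iff, mv_iff]
      constructor
      · rintro ⟨q, h1, h2⟩
        have h3 := hu q h1
        subst h3
        exact h2
      · intro h
        exact ⟨_, hB, h⟩
    -- the local circuit
    have hloc := hF2 i (fun e => Dat σ γ x (a, e)) (fun h t => hz h (a, t)) ?_ τ ⟨v, hv2⟩ hP hQ hvv
    · obtain ⟨hl1, hl2⟩ := hloc
      constructor
      · intro e
        refine (hout _).trans ((hl1 e).trans ?_)
        have e1 : num (fun t : Fin γ => Dat σ γ x (a, Sum.inl t)) =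
          rk (bpos (2 ^ γ)) (fun p => x (0, p)) (a * 2 ^ γ) % 2 ^ γ :=
          in_num γ (rk (bpos (2 ^ γ)) (fun p => x (0, p)) (a * 2 ^ γ))
        rw [e1, in_add _ _ _ _ (lt_of_lt_of_le e.isLt hw), rk_block (fun p => x (0, p)) a τ]
        rfl
      · exact (hout _).trans hl2
    · have e1 : (univ.filter fun ρ : Fin (2 ^ γ) =>
          Dat σ γ x (a, Sum.inr (0, ρ)) = true ∧ Dat σ γ x (a, Sum.inr (1, ρ)) = true) =
        univ.filter fun t : Fin (2 ^ γ) => (x (0, (a, t)) && x (1, (a, t))) = true := by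
        ext t
        rw [Finset.mem_filter, Finset.mem_filter, Bool.and_eq_true]
        rfl
      rw [e1]
      omega

end Pool.Agent.Lin
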