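import Pool.Agent.Lib.MP_76b24b_lcM.Spec2

/-!
# MP_76b24b_lc, package M: local circuits at all slots
-/

set_option autoImplicit false

namespace Pool.Agent.Lin

open Finset

private theorem sum_slots (σ r : ℕ) (co : ℕ → ℕ) :
    ∑ p : Slot σ r, co (p.1 : ℕ) = ∑ i ∈ range (r + 1), 2 ^ (σ - i) * co i := by
  rw [Fintype.sum_sigma, ← Fin.sum_univ_eq_sum_range (fun i => 2 ^ (σ - i) * co i)]
  refine sum_congr rfl fun i _ => ?_
  show ∑ _y : Fin (2 ^ (σ - (i : ℕ))), co (i : ℕ) = _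
  rw [sum_const, card_univ, Fintype.card_fin, smul_eq_mul]

theorem tLA : S_LA := by
  constructor
  · intro σ l r ρ δ co F hr hF
    have a := Cx.sig (α := Slot σ r) (κ := fun p => Fin (2 ^ (l + (p.1 : ℕ))) × δ)
      (fun p (y : Slot σ r × ρ → Bool) q => F p.1 (fun e => y (p, e)) q) (fun p => co (p.1 : ℕ))
      (fun p => (hF p.1).inp (fun e => (p, e)))
    rw [sum_slots] at a
    exact a.out (fun q : (Fin (r + 1) × Fin (2 ^ (σ + l))) × δ =>
      (⟨sl q.1.1 (q.1.2 / 2 ^ (l + (q.1.1 : ℕ))), (lo (l + (q.1.1 : ℕ)) q.1.2, q.2)⟩ :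
        (p : Slot σ r) × (Fin (2 ^ (l + (p.1 : ℕ))) × δ)))
  · intro σ l r δ τ co G hr hG
    have a := Cx.fam (fun (p : Slot σ r) (y : (Fin (r + 1) × Fin (2 ^ (σ + l))) × δ → Bool) =>
      G p.1 (fun e => y ((p.1, lo (σ + l) ((p.2 : ℕ) * 2 ^ (l + (p.1 : ℕ)) + e.1)), e.2)))
      (fun p => co (p.1 : ℕ)) (fun p => (hG p.1).inp (fun e =>
        ((p.1, lo (σ + l) ((p.2 : ℕ) * 2 ^ (l + (p.1 : ℕ)) + e.1)), e.2)))
    rw [sum_slots] at a
    exact a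

end Pool.Agent.Lin
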