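import Pool.Agent.Lib.MP_76b24b_lcM.Spec2

/-!
# MP_76b24b_lc, package M: stable compaction, given the local circuits
-/

set_option autoImplicit false

namespace Pool.Agent.Lin

open Finset

private theorem bpos_inj {N b : ℕ} {p q : Fin N × Fin b} (h : bpos b p = bpos b q) : p = q := by
  obtain ⟨p1, p2⟩ := p
  obtain ⟨q1, q2⟩ := q
  have h' : (p1 : ℕ) * b + p2 = (q1 : ℕ) * b + q2 := h
  have hb : 0 < b := lt_of_le_of_lt (Nat.zero_le _) p2.isLt
  have e1 : ((p1 : ℕ) * b + p2) / b = p1 := by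
    rw [Nat.add_comm, Nat.add_mul_div_right _ _ hb, Nat.div_eq_of_lt p2.isLt, Nat.zero_add]
  have e2 : ((q1 : ℕ) * b + q2) / b = q1 := by
    rw [Nat.add_comm, Nat.add_mul_div_right _ _ hb, Nat.div_eq_of_lt q2.isLt, Nat.zero_add]
  have h1 : (p1 : ℕ) = q1 := by rw [← e1, h', e2]
  have h2 : (p2 : ℕ) = q2 := by
    rw [h1] at h'
    omega
  exact Prod.ext (Fin.ext h1) (Fin.ext h2)

private theorem rk_lt {α : Type} [Fintype α] (pos : α → ℕ) (P : α → Bool) {p q : α}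
    (hp : P p = true) (h : pos p < pos q) : rk pos P (pos p) < rk pos P (pos q) := by
  unfold rk
  refine card_lt_card ?_
  rw [ssubset_iff_of_subset]
  · exact ⟨p, mem_filter.2 ⟨mem_univ _, h, hp⟩, fun hh => lt_irrefl _ (mem_filter.1 hh).2.1⟩
  · intro a ha
    obtain ⟨_, h1, h2⟩ := mem_filter.1 ha
    exact mem_filter.2 ⟨mem_univ _, h1.trans h, h2⟩

theorem tMain (h1 : S_In) (h2 : S_Out) (h3 : S_Prof) (h4 : S_MainL) : S_Main := by
  obtain ⟨c1, h1⟩ := h1
  obtain ⟨c2, h2⟩ := h2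
  obtain ⟨c3, h3⟩ := h3
  refine ⟨c1 + c2 + c3, fun σ γ l r w zz ci co hlr hl hr hσ hw hci hco => ?_⟩
  obtain ⟨Fi, hFi, hPi⟩ := h1 σ γ l r w zz ci hlr hl hr hσ hw hci
  obtain ⟨Fo, hFo, hPo⟩ := h2 σ γ l r w co hlr hl hr hσ hco
  obtain ⟨Fp, hFp, hPp⟩ := h3 σ γ
  let ρ : Fin 2 × (Fin (2 ^ σ) × Fin (2 ^ γ)) → Fin 3 × (Fin (2 ^ σ) × Fin (2 ^ γ)) :=
    fun q => (Fin.castSucc q.1, q.2)
  refine ⟨fun x => Fo (Sum.elim (Fp fun q => x (ρ q)) (Fi x)), ?_, ?_⟩
  · have a := ((hFp.inp ρ).pair hFi).comp hFo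
    refine a.mono ?_
    have e : ∑ i ∈ range (r + 1), 2 ^ (σ - i) * (ci i + co i) =
        ∑ i ∈ range (r + 1), 2 ^ (σ - i) * ci i + ∑ i ∈ range (r + 1), 2 ^ (σ - i) * co i := by
      rw [← sum_add_distrib]
      exact sum_congr rfl fun i _ => Nat.mul_add _ _ _
    have h5 : c3 * (2 ^ (σ + γ) + (σ + γ + 1) ^ 2 * 2 ^ σ) ≤ c3 * (2 ^ (σ + γ) +
        (σ + γ + 1) ^ 2 * 2 ^ σ + (w + 1) * (σ + γ + 1) * 2 ^ (σ + l)) :=
      Nat.mul_le_mul_left _ (Nat.le_add_right _ _)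
    rw [e]
    generalize (2 ^ (σ + γ) + (σ + γ + 1) ^ 2 * 2 ^ σ + (w + 1) * (σ + γ + 1) * 2 ^ (σ + l)) = X
      at h5 ⊢
    have e2 : (c1 + c2 + c3) * X = c1 * X + c2 * X + c3 * X := by ring
    rw [e2]
    omega
  · intro x hz hc hM a e
    -- the marks
    let P : Fin (2 ^ σ) × Fin (2 ^ γ) → Bool := fun p => x (0, p)
    let Q : Fin (2 ^ σ) × Fin (2 ^ γ) → Bool := fun p => x (1, p)
    let R : Fin (2 ^ σ) × Fin (2 ^ γ) → ℕ := fun p => rk (bpos (2 ^ γ)) P (bpos (2 ^ γ) p)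
    let I : ℕ → ℕ := fun a => (univ.filter fun p : Fin (2 ^ σ) × Fin (2 ^ γ) =>
      P p = true ∧ Q p = true ∧ R p < a * 2 ^ γ).card
    have hRinj : ∀ p q, P p = true → P q = true → R p = R q → p = q := by
      intro p q hp hq h
      rcases lt_trichotomy (bpos (2 ^ γ) p) (bpos (2 ^ γ) q) with hlt | heq | hgt
      · have := rk_lt (bpos (2 ^ γ)) P hp hlt
        exact absurd h (ne_of_lt this)
      · exact bpos_inj heq
      · have := rk_lt (bpos (2 ^ γ)) P hq hgt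
        exact absurd h.symm (ne_of_lt this)
    have hI : Prf σ γ l I := by
      refine ⟨?_, ?_, ?_, ?_⟩
      · show (univ.filter _).card = 0
        rw [card_eq_zero, filter_eq_empty_iff]
        rintro p _ ⟨_, _, h⟩
        rw [Nat.zero_mul] at h
        exact absurd h (Nat.not_lt_zero _)
      · intro a
        refine card_le_card fun p hp => ?_
        obtain ⟨_, q1, q2, q3⟩ := mem_filter.1 hp
        exact mem_filter.2 ⟨mem_univ _, q1, q2,
          lt_of_lt_of_le q3 (Nat.mul_le_mul_right _ (Nat.le_succ a))⟩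
      · intro a
        show (univ.filter fun p : Fin (2 ^ σ) × Fin (2 ^ γ) =>
          P p = true ∧ Q p = true ∧ R p < (a + 1) * 2 ^ γ).card ≤
          (univ.filter fun p : Fin (2 ^ σ) × Fin (2 ^ γ) =>
          P p = true ∧ Q p = true ∧ R p < a * 2 ^ γ).card + 2 ^ γ
        have hs : (univ.filter fun p : Fin (2 ^ σ) × Fin (2 ^ γ) =>
            P p = true ∧ Q p = true ∧ R p < (a + 1) * 2 ^ γ) ⊆
            (univ.filter fun p : Fin (2 ^ σ) × Fin (2 ^ γ) =>
              P p = true ∧ Q p = true ∧ R p < a * 2 ^ γ) ∪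
            (univ.filter fun p : Fin (2 ^ σ) × Fin (2 ^ γ) =>
              P p = true ∧ a * 2 ^ γ ≤ R p ∧ R p < (a + 1) * 2 ^ γ) := by
          intro p hp
          obtain ⟨_, q1, q2, q3⟩ := mem_filter.1 hp
          by_cases h : R p < a * 2 ^ γ
          · exact mem_union.2 (Or.inl (mem_filter.2 ⟨mem_univ _, q1, q2, h⟩))
          · exact mem_union.2 (Or.inr (mem_filter.2 ⟨mem_univ _, q1, not_lt.1 h, q3⟩))
        refine (card_le_card hs).trans ((card_union_le _ _).trans (Nat.add_le_add_left ?_ _))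
        have hc' : ((univ.filter fun p : Fin (2 ^ σ) × Fin (2 ^ γ) =>
              P p = true ∧ a * 2 ^ γ ≤ R p ∧ R p < (a + 1) * 2 ^ γ).image R).card =
            (univ.filter fun p : Fin (2 ^ σ) × Fin (2 ^ γ) =>
              P p = true ∧ a * 2 ^ γ ≤ R p ∧ R p < (a + 1) * 2 ^ γ).card := by
          refine card_image_of_injOn ?_
          intro p hp q hq h
          exact hRinj p q (mem_filter.1 (mem_coe.1 hp)).2.1 (mem_filter.1 (mem_coe.1 hq)).2.1 h
        rw [← hc']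
        have hsub : (univ.filter fun p : Fin (2 ^ σ) × Fin (2 ^ γ) =>
              P p = true ∧ a * 2 ^ γ ≤ R p ∧ R p < (a + 1) * 2 ^ γ).image R ⊆
            Finset.Ico (a * 2 ^ γ) ((a + 1) * 2 ^ γ) := by
          intro y hy
          obtain ⟨p, hp, rfl⟩ := mem_image.1 hy
          obtain ⟨_, _, q1, q2⟩ := mem_filter.1 hp
          exact Finset.mem_Ico.2 ⟨q1, q2⟩
        refine (card_le_card hsub).trans (le_of_eq ?_)
        rw [Nat.card_Ico, Nat.add_mul, Nat.one_mul]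
        exact Nat.add_sub_cancel_left _ _
      · refine (card_le_card ?_).trans hc
        intro p hp
        obtain ⟨_, q1, q2, _⟩ := mem_filter.1 hp
        exact mem_filter.2 ⟨mem_univ _, q1, q2⟩
    have hin := hPi x hz hc
    have hout := hPo I (Sum.elim (Fp fun q => x (ρ q)) (Fi x)) hI (fun p => hPp _ p) a e
    rw [Bool.eq_iff_iff, hout]
    refine h4 σ γ (2 ^ (σ + 1 + l)) w P Q (fun p => x (2, p)) (fun k t => Fi x (k, Sum.inl t))
      (fun k => Fi x (k, Sum.inr ())) I hw (hc.trans (Nat.pow_le_pow_right (by norm_num)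
        (by omega))) (fun _ => rfl) (fun p k hp hq hk => hin p k hp hq hk) hM a e

end Pool.Agent.Lin
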