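import Pool.Agent.Lib.MP_76b24b_lcM.Spec2

/-!
# MP_76b24b_lc, package M: correctness of the tokens (helper84)
-/

set_option autoImplicit false

namespace Pool.Agent.Lin

open Finset

private theorem rk_le {α : Type} [Fintype α] (pos : α → ℕ) (S : α → Bool) {a b : ℕ} (h : a ≤ b) :
    rk pos S a ≤ rk pos S b := by
  unfold rk
  refine card_le_card fun x hx => ?_
  simp only [mem_filter, mem_univ, true_and] at hx ⊢
  exact ⟨hx.1.trans_le h, hx.2⟩

private theorem rk_lt {α : Type} [Fintype α] (pos : α → ℕ) (S : α → Bool) {p : α} (hp : S p = true)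
    {b : ℕ} (h : pos p < b) : rk pos S (pos p) < rk pos S b := by
  unfold rk
  refine card_lt_card ⟨fun x hx => ?_, fun hs => ?_⟩
  · simp only [mem_filter, mem_univ, true_and] at hx ⊢
    exact ⟨hx.1.trans h, hx.2⟩
  · have h1 : p ∈ univ.filter fun a => pos a < b ∧ S a = true := by
      simp only [mem_filter, mem_univ, true_and]
      exact ⟨h, hp⟩
    have h2 := hs h1
    simp only [mem_filter, mem_univ, true_and] at h2
    exact lt_irrefl _ h2.1

private theorem rk_lt_iff {α : Type} [Fintype α] (pos : α → ℕ) (S : α → Bool) {p q : α} (hp : S p = true) :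
    rk pos S (pos p) < rk pos S (pos q) ↔ pos p < pos q := by
  refine ⟨fun h => ?_, fun h => rk_lt pos S hp h⟩
  by_contra h'
  exact absurd (rk_le pos S (not_lt.1 h')) (not_le.2 h)

private theorem rk_le_iff {α : Type} [Fintype α] (pos : α → ℕ) (S : α → Bool) {p q : α} (hq : S q = true) :
    rk pos S (pos p) ≤ rk pos S (pos q) ↔ pos p ≤ pos q := by
  rw [← not_lt, rk_lt_iff pos S hq, not_lt]

private theorem rk_inj {α : Type} [Fintype α] {pos : α → ℕ} (hpos : Function.Injective pos) (S : α → Bool)
    {p q : α} (hp : S p = true) (hq : S q = true) (h : rk pos S (pos p) = rk pos S (pos q)) : p = q := by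
  apply hpos
  exact le_antisymm ((rk_le_iff pos S hq).1 h.le) ((rk_le_iff pos S hp).1 h.ge)

private theorem rk_lt_card {α : Type} [Fintype α] (pos : α → ℕ) (S : α → Bool) {p : α} (hp : S p = true) :
    rk pos S (pos p) < (univ.filter fun a => S a = true).card := by
  unfold rk
  refine card_lt_card ⟨fun x hx => ?_, fun hs => ?_⟩
  · simp only [mem_filter, mem_univ, true_and] at hx ⊢
    exact hx.2
  · have h1 : p ∈ univ.filter fun a => S a = true := by
      simp only [mem_filter, mem_univ, true_and]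
      exact hp
    have h2 := hs h1
    simp only [mem_filter, mem_univ, true_and] at h2
    exact lt_irrefl _ h2.1

private theorem rk_surj {α : Type} [Fintype α] {pos : α → ℕ} (hpos : Function.Injective pos) (S : α → Bool)
    {v : ℕ} (hv : v < (univ.filter fun a => S a = true).card) : ∃ p, S p = true ∧ rk pos S (pos p) = v := by
  classical
  have h1 : (univ.filter fun a => S a = true).image (fun p => rk pos S (pos p)) =
      range (univ.filter fun a => S a = true).card := by
    refine eq_of_subset_of_card_le (fun x hx => ?_) ?_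
    · rw [mem_image] at hx
      obtain ⟨p, hp, rfl⟩ := hx
      rw [mem_filter] at hp
      rw [mem_range]
      exact rk_lt_card pos S hp.2
    · rw [card_range, card_image_of_injOn]
      intro p hp q hq h
      rw [mem_coe, mem_filter] at hp hq
      exact rk_inj hpos S hp.2 hq.2 h
  have h2 : v ∈ range (univ.filter fun a => S a = true).card := mem_range.2 hv
  rw [← h1, mem_image] at h2
  obtain ⟨p, hp, h⟩ := h2
  rw [mem_filter] at hp
  exact ⟨p, hp.2, h⟩

private theorem num_testBit_mod : ∀ (k m : ℕ), num (fun t : Fin k => m.testBit t) = m % 2 ^ k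
  | 0, m => by simp [num, Nat.mod_one]
  | k + 1, m => by
    have ih := num_testBit_mod k (m / 2)
    unfold num at ih ⊢
    rw [Fin.sum_univ_succ]
    have h1 : (if m.testBit ((0 : Fin (k + 1)) : ℕ) = true then 2 ^ ((0 : Fin (k + 1)) : ℕ) else 0) =
        m % 2 := by
      simp only [Fin.val_zero, pow_zero, Nat.testBit_zero, decide_eq_true_eq]
      rcases Nat.mod_two_eq_zero_or_one m with h | h <;> simp [h]
    have h2 : (∑ i : Fin k, if m.testBit (i.succ : ℕ) = true then 2 ^ (i.succ : ℕ) else 0) =
        2 * ((m / 2) % 2 ^ k) := by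
      rw [← ih, Finset.mul_sum]
      refine Finset.sum_congr rfl fun i _ => ?_
      rw [Fin.val_succ, Nat.testBit_succ, mul_ite, mul_zero, pow_succ, mul_comm]
    rw [h1, h2, pow_succ, mul_comm (2 ^ k) 2, Nat.mod_mul]

private theorem testBit_false_iff (w m : ℕ) : (∀ t : Fin w, m.testBit t = false) ↔ 2 ^ w ∣ m := by
  rw [Nat.dvd_iff_mod_eq_zero, ← num_testBit_mod]
  constructor
  · intro h
    unfold num
    simp [h]
  · intro h t
    unfold num at h
    rw [sum_eq_zero_iff] at h
    have h1 := h t (mem_univ t)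
    by_contra h2
    rw [Bool.not_eq_false] at h2
    rw [if_pos h2] at h1
    exact absurd h1 (by positivity)

private theorem core {α : Type} [Fintype α] (pos : α → ℕ) (hpos : Function.Injective pos) (γ n w : ℕ)
    (P Q Z : α → Bool) (T : Fin n → Fin w → Bool) (U : Fin n → Bool) (I : ℕ → ℕ) (hw : w ≤ γ)
    (hn : (univ.filter fun p => P p = true ∧ Q p = true).card ≤ n)
    (hI : ∀ a, I a = (univ.filter fun p => P p = true ∧ Q p = true ∧ rk pos P (pos p) < a * 2 ^ γ).card)
    (hT : ∀ p (ρ : Fin n), P p = true → Q p = true → rk pos (fun p => P p && Q p) (pos p) = ρ →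
      (∀ e, T ρ e = (rk pos P (pos p)).testBit e) ∧ U ρ = Z p)
    (hM : w < γ → ∀ p, P p = true → 2 ^ w ∣ rk pos P (pos p) → Q p = true) (a e : ℕ) (he : e < 2 ^ γ) :
    (∃ ρ : Fin n, I a ≤ ρ ∧ (ρ : ℕ) < I (a + 1) ∧ U ρ = true ∧
        (num (T ρ) + 2 ^ w * ((univ.filter fun ρ' : Fin n => I a ≤ ρ' ∧ ρ' ≤ ρ ∧
          ∀ t, T ρ' t = false).card - 1)) % 2 ^ γ = e) ↔
      ∃ p, P p = true ∧ (Q p && Z p) = true ∧ rk pos P (pos p) = a * 2 ^ γ + e := by
  classical
  have hn' : (univ.filter fun p => (P p && Q p) = true).card ≤ n := by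
    have h1 : (univ.filter fun p => (P p && Q p) = true) = univ.filter fun p => P p = true ∧ Q p = true := by
      refine filter_congr fun p _ => ?_
      rw [Bool.and_eq_true]
    rw [h1]
    exact hn
  -- marks and their numbers
  have hIr : ∀ (b : ℕ) (p : α), P p = true → Q p = true →
      (rk pos (fun p => P p && Q p) (pos p) < I b ↔ rk pos P (pos p) < b * 2 ^ γ) := by
    intro b p hP hQ
    have hPQ : (P p && Q p) = true := by rw [hP, hQ]; rfl
    rw [hI]
    constructor
    · intro h
      by_contra h'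
      rw [not_lt] at h'
      refine absurd h (not_lt.2 ?_)
      unfold rk
      refine card_le_card fun q hq => ?_
      simp only [mem_filter, mem_univ, true_and] at hq ⊢
      refine ⟨?_, by rw [hq.1, hq.2.1]; rfl⟩
      have h1 : rk pos P (pos q) < rk pos P (pos p) := lt_of_lt_of_le hq.2.2 h'
      exact (rk_lt_iff pos P hq.1).1 h1
    · intro h
      unfold rk
      refine card_lt_card ⟨fun q hq => ?_, fun hs => ?_⟩
      · simp only [mem_filter, mem_univ, true_and, Bool.and_eq_true] at hq ⊢
        exact ⟨hq.2.1, hq.2.2, lt_of_le_of_lt (rk_le pos P hq.1.le) h⟩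
      · have h1 : p ∈ univ.filter fun p => P p = true ∧ Q p = true ∧ rk pos P (pos p) < b * 2 ^ γ := by
          simp only [mem_filter, mem_univ, true_and]
          exact ⟨hP, hQ, h⟩
        have h2 := hs h1
        simp only [mem_filter, mem_univ, true_and] at h2
        exact lt_irrefl _ h2.1
  have hIn : ∀ b, I b ≤ (univ.filter fun p => (P p && Q p) = true).card := by
    intro b
    rw [hI]
    refine card_le_card fun q hq => ?_
    simp only [mem_filter, mem_univ, true_and, Bool.and_eq_true] at hq ⊢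
    exact ⟨hq.1, hq.2.1⟩
  have hpw : 0 < 2 ^ w := Nat.two_pow_pos w
  have hdvd : 2 ^ w ∣ 2 ^ γ := pow_dvd_pow 2 hw
  -- the value of a token
  have hval : ∀ (p : α) (ρ : Fin n), P p = true → Q p = true →
      rk pos (fun p => P p && Q p) (pos p) = ρ → a * 2 ^ γ ≤ rk pos P (pos p) →
      rk pos P (pos p) < (a + 1) * 2 ^ γ →
      (num (T ρ) + 2 ^ w * ((univ.filter fun ρ' : Fin n => I a ≤ ρ' ∧ ρ' ≤ ρ ∧
          ∀ t, T ρ' t = false).card - 1)) % 2 ^ γ = rk pos P (pos p) - a * 2 ^ γ := by
    intro p ρ hP hQ hρ h1 h2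
    have hPQ : (P p && Q p) = true := by rw [hP, hQ]; rfl
    obtain ⟨hTp, -⟩ := hT p ρ hP hQ hρ
    have hnum : num (T ρ) = rk pos P (pos p) % 2 ^ w := by
      rw [← num_testBit_mod]
      congr 1
      funext t
      exact hTp t
    have h3 : (a + 1) * 2 ^ γ = a * 2 ^ γ + 2 ^ γ := by ring
    obtain ⟨d, hd⟩ : ∃ d, rk pos P (pos p) = a * 2 ^ γ + d := ⟨rk pos P (pos p) - a * 2 ^ γ, by omega⟩
    have hd' : d < 2 ^ γ := by omega
    have h4 : rk pos P (pos p) % 2 ^ w = d % 2 ^ w := by
      rw [hd]
      obtain ⟨u, hu⟩ := hdvd.mul_left a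
      rw [hu, Nat.mul_add_mod]
    rcases hw.lt_or_eq with hlt | heq
    · -- the number of multiples
      have hC : (univ.filter fun ρ' : Fin n => I a ≤ ρ' ∧ ρ' ≤ ρ ∧ ∀ t, T ρ' t = false).card =
          (univ.filter fun q : α => P q = true ∧ Q q = true ∧ a * 2 ^ γ ≤ rk pos P (pos q) ∧
            rk pos P (pos q) ≤ rk pos P (pos p) ∧ 2 ^ w ∣ rk pos P (pos q)).card := by
        symm
        refine card_bij (fun q _ => (⟨min (rk pos (fun p => P p && Q p) (pos q)) (ρ : ℕ),
          lt_of_le_of_lt (min_le_right _ _) ρ.2⟩ : Fin n)) ?_ ?_ ?_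
        · intro q hq
          simp only [mem_filter, mem_univ, true_and] at hq ⊢
          obtain ⟨hPq, hQq, hq1, hq2, hq3⟩ := hq
          have hle : rk pos (fun p => P p && Q p) (pos q) ≤ ρ := by
            rw [← hρ]
            exact rk_le _ _ ((rk_le_iff pos P hP).1 hq2)
          have hmin : min (rk pos (fun p => P p && Q p) (pos q)) (ρ : ℕ) =
              rk pos (fun p => P p && Q p) (pos q) := min_eq_left hle
          refine ⟨?_, ?_, ?_⟩
          · show I a ≤ min _ _
            rw [hmin]
            by_contra hcon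
            rw [not_le, hIr a q hPq hQq] at hcon
            exact absurd hq1 (not_le.2 hcon)
          · rw [Fin.le_def]
            exact min_le_right _ _
          · obtain ⟨hTq, -⟩ := hT q ⟨min (rk pos (fun p => P p && Q p) (pos q)) (ρ : ℕ),
              lt_of_le_of_lt (min_le_right _ _) ρ.2⟩ hPq hQq hmin.symm
            intro t
            rw [hTq t]
            exact (testBit_false_iff w _).2 hq3 t
        · intro q hq q' hq' h
          simp only [mem_filter, mem_univ, true_and] at hq hq'
          obtain ⟨hPq, hQq, hq1, hq2, hq3⟩ := hq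
          obtain ⟨hPq', hQq', hq1', hq2', hq3'⟩ := hq'
          have hle : rk pos (fun p => P p && Q p) (pos q) ≤ ρ := by
            rw [← hρ]
            exact rk_le _ _ ((rk_le_iff pos P hP).1 hq2)
          have hle' : rk pos (fun p => P p && Q p) (pos q') ≤ ρ := by
            rw [← hρ]
            exact rk_le _ _ ((rk_le_iff pos P hP).1 hq2')
          have h5 := congrArg Fin.val h
          simp only at h5
          rw [min_eq_left hle, min_eq_left hle'] at h5
          exact rk_inj hpos (fun p => P p && Q p) (by simp only [hPq, hQq, Bool.and_self])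
            (by simp only [hPq', hQq', Bool.and_self]) h5
        · intro ρ' hρ'
          simp only [mem_filter, mem_univ, true_and] at hρ'
          obtain ⟨hr1, hr2, hr3⟩ := hρ'
          have h5 : (ρ' : ℕ) < (univ.filter fun p => (P p && Q p) = true).card := by
            have h6 := rk_lt_card pos (fun p => P p && Q p) hPQ
            rw [hρ] at h6
            exact lt_of_le_of_lt (Fin.le_def.1 hr2) h6
          obtain ⟨q, hq, hqr⟩ := rk_surj hpos (fun p => P p && Q p) h5
          have hq' : P q = true ∧ Q q = true := by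
            rw [← Bool.and_eq_true]
            exact hq
          obtain ⟨hTq, -⟩ := hT q ρ' hq'.1 hq'.2 hqr
          refine ⟨q, ?_, ?_⟩
          · simp only [mem_filter, mem_univ, true_and]
            refine ⟨hq'.1, hq'.2, ?_, ?_, ?_⟩
            · by_contra hcon
              rw [not_le, ← hIr a q hq'.1 hq'.2, hqr] at hcon
              exact absurd hr1 (not_le.2 hcon)
            · rw [rk_le_iff pos P hP, ← rk_le_iff pos (fun p => P p && Q p) hPQ, hqr, hρ]
              exact Fin.le_def.1 hr2
            · exact (testBit_false_iff w _).1 fun t => by rw [← hTq t]; exact hr3 t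
          · apply Fin.ext
            show min _ _ = _
            rw [hqr]
            exact min_eq_left (Fin.le_def.1 hr2)
      have hC2 : (univ.filter fun q : α => P q = true ∧ Q q = true ∧ a * 2 ^ γ ≤ rk pos P (pos q) ∧
            rk pos P (pos q) ≤ rk pos P (pos p) ∧ 2 ^ w ∣ rk pos P (pos q)).card = d / 2 ^ w + 1 := by
        rw [← card_range (d / 2 ^ w + 1)]
        refine card_bij (fun q _ => (rk pos P (pos q) - a * 2 ^ γ) / 2 ^ w) ?_ ?_ ?_
        · intro q hq
          simp only [mem_filter, mem_univ, true_and] at hq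
          rw [mem_range, Nat.lt_succ_iff]
          exact Nat.div_le_div_right (by omega)
        · intro q hq q' hq' h
          simp only [mem_filter, mem_univ, true_and] at hq hq'
          obtain ⟨hPq, hQq, hq1, hq2, hq3⟩ := hq
          obtain ⟨hPq', hQq', hq1', hq2', hq3'⟩ := hq'
          have h5 : 2 ^ w ∣ rk pos P (pos q) - a * 2 ^ γ := Nat.dvd_sub hq3 (hdvd.mul_left a)
          have h6 : 2 ^ w ∣ rk pos P (pos q') - a * 2 ^ γ := Nat.dvd_sub hq3' (hdvd.mul_left a)
          have h7 : rk pos P (pos q) - a * 2 ^ γ = rk pos P (pos q') - a * 2 ^ γ := by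
            rw [← Nat.div_mul_cancel h5, ← Nat.div_mul_cancel h6, h]
          exact rk_inj hpos P hPq hPq' (by omega)
        · intro j hj
          rw [mem_range, Nat.lt_succ_iff] at hj
          have h5 : j * 2 ^ w ≤ d := (Nat.mul_le_mul_right _ hj).trans (Nat.div_mul_le_self _ _)
          have h6 : a * 2 ^ γ + j * 2 ^ w < (univ.filter fun a => P a = true).card := by
            have h7 := rk_lt_card pos P hP
            omega
          obtain ⟨q, hq, hqr⟩ := rk_surj hpos P h6
          have h8 : 2 ^ w ∣ rk pos P (pos q) := by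
            rw [hqr]
            exact dvd_add (hdvd.mul_left a) (dvd_mul_left _ _)
          refine ⟨q, ?_, ?_⟩
          · simp only [mem_filter, mem_univ, true_and]
            exact ⟨hq, hM hlt q hq h8, by omega, by omega, h8⟩
          · rw [hqr, Nat.add_sub_cancel_left, Nat.mul_div_cancel _ hpw]
      rw [hC, hC2, Nat.add_sub_cancel, hnum, h4, Nat.mod_add_div, Nat.mod_eq_of_lt hd', hd,
        Nat.add_sub_cancel_left]
    · subst heq
      rw [hnum, Nat.add_mul_mod_self_left, Nat.mod_mod, h4, Nat.mod_eq_of_lt hd', hd, Nat.add_sub_cancel_left]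
  constructor
  · rintro ⟨ρ, h1, h2, h3, h4⟩
    have h5 : (ρ : ℕ) < (univ.filter fun p => (P p && Q p) = true).card := h2.trans_le (hIn _)
    obtain ⟨q, hq, hqr⟩ := rk_surj hpos (fun p => P p && Q p) h5
    have hq' : P q = true ∧ Q q = true := by
      rw [← Bool.and_eq_true]
      exact hq
    have h6 : a * 2 ^ γ ≤ rk pos P (pos q) := by
      by_contra hcon
      rw [not_le, ← hIr a q hq'.1 hq'.2, hqr] at hcon
      exact absurd h1 (not_le.2 hcon)
    have h7 : rk pos P (pos q) < (a + 1) * 2 ^ γ := by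
      rw [← hIr (a + 1) q hq'.1 hq'.2, hqr]
      exact h2
    have h8 := hval q ρ hq'.1 hq'.2 hqr h6 h7
    refine ⟨q, hq'.1, ?_, ?_⟩
    · rw [hq'.2, ← (hT q ρ hq'.1 hq'.2 hqr).2, h3]
      rfl
    · omega
  · rintro ⟨p, hP, hQZ, hr⟩
    rw [Bool.and_eq_true] at hQZ
    have hPQ : (P p && Q p) = true := by rw [hP, hQZ.1]; rfl
    have h5 : rk pos (fun p => P p && Q p) (pos p) < n :=
      (rk_lt_card pos (fun p => P p && Q p) hPQ).trans_le hn'
    have h3 : (a + 1) * 2 ^ γ = a * 2 ^ γ + 2 ^ γ := by ring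
    have h6 : a * 2 ^ γ ≤ rk pos P (pos p) := by omega
    have h7 : rk pos P (pos p) < (a + 1) * 2 ^ γ := by omega
    refine ⟨⟨rk pos (fun p => P p && Q p) (pos p), h5⟩, ?_, ?_, ?_, ?_⟩
    · show I a ≤ rk pos (fun p => P p && Q p) (pos p)
      by_contra hcon
      rw [not_le, hIr a p hP hQZ.1] at hcon
      omega
    · show rk pos (fun p => P p && Q p) (pos p) < I (a + 1)
      rw [hIr (a + 1) p hP hQZ.1]
      exact h7
    · rw [(hT p _ hP hQZ.1 rfl).2]
      exact hQZ.2
    · rw [hval p _ hP hQZ.1 rfl h6 h7]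
      omega

theorem tMainL : S_MainL := by
  intro σ γ n w P Q Z T U I hw hn hI hT hM a e
  have hpos : Function.Injective (bpos (2 ^ γ) (N := 2 ^ σ)) := by
    intro p q h
    unfold bpos at h
    have h0 : 0 < 2 ^ γ := Nat.two_pow_pos γ
    have h1 : ((p.1 : ℕ) * 2 ^ γ + p.2) / 2 ^ γ = ((q.1 : ℕ) * 2 ^ γ + q.2) / 2 ^ γ := by rw [h]
    have h2 : ((p.1 : ℕ) * 2 ^ γ + p.2) % 2 ^ γ = ((q.1 : ℕ) * 2 ^ γ + q.2) % 2 ^ γ := by rw [h]
    rw [mul_comm, mul_comm (q.1 : ℕ), Nat.mul_add_div h0, Nat.mul_add_div h0, Nat.div_eq_of_lt p.2.2,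
      Nat.div_eq_of_lt q.2.2, add_zero, add_zero] at h1
    rw [mul_comm, mul_comm (q.1 : ℕ), Nat.mul_add_mod, Nat.mul_add_mod, Nat.mod_eq_of_lt p.2.2,
      Nat.mod_eq_of_lt q.2.2] at h2
    exact Prod.ext (Fin.ext h1) (Fin.ext h2)
  have h := core (bpos (2 ^ γ)) hpos γ n w P Q Z T U I hw hn hI hT hM a e e.2
  unfold cmp
  rw [decide_eq_true_iff]
  exact h

end Pool.Agent.Lin
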