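import Pool.Agent.Lib.MP_76b24b_lcM.Spec2

/-!
# MP_76b24b_lc, package M: a polynomial is smaller than an exponential function
-/

set_option autoImplicit false

namespace Pool.Agent.Lin

private theorem aux (c q : ℕ) (hc : 0 < c) : (q + 1) ^ c ≤ c ^ c * 2 ^ q := by
  have h1 := Nat.div_add_mod q c
  have h2 := Nat.mod_lt q hc
  have h3 : q / c + 1 ≤ 2 ^ (q / c) := Nat.lt_two_pow_self
  calc (q + 1) ^ c ≤ (c * (q / c + 1)) ^ c := by
        refine Nat.pow_le_pow_left ?_ c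
        rw [Nat.mul_add, Nat.mul_one]
        omega
    _ = c ^ c * (q / c + 1) ^ c := Nat.mul_pow _ _ _
    _ ≤ c ^ c * (2 ^ (q / c)) ^ c := Nat.mul_le_mul_left _ (Nat.pow_le_pow_left h3 c)
    _ = c ^ c * 2 ^ (q / c * c) := by rw [← Nat.pow_mul]
    _ ≤ c ^ c * 2 ^ q := Nat.mul_le_mul_left _
        (Nat.pow_le_pow_right (by norm_num) (Nat.div_mul_le_self q c))

theorem tNum : S_Num := by
  intro c
  rcases Nat.eq_zero_or_pos c with rfl | hc
  · exact ⟨1, fun L => by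
      rw [pow_zero, one_mul]
      exact Nat.one_le_two_pow⟩
  refine ⟨18 ^ c * c ^ c, fun L => ?_⟩
  have h1 := Nat.div_add_mod L 4
  have h2 := Nat.mod_lt L (show 0 < 4 by norm_num)
  calc (4 * L + 6) ^ c ≤ (18 * (L / 4 + 1)) ^ c := Nat.pow_le_pow_left (by omega) c
    _ = 18 ^ c * (L / 4 + 1) ^ c := Nat.mul_pow _ _ _
    _ ≤ 18 ^ c * (c ^ c * 2 ^ (L / 4)) := Nat.mul_le_mul_left _ (aux c (L / 4) hc)
    _ = 18 ^ c * c ^ c * 2 ^ (L / 4) := by ring

end Pool.Agent.Lin
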