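import Pool.Agent.Lib.MP_76b24b_lcM.Spec2

/-! Stable compaction as a network, with `O(n log n)` switches. -/

set_option autoImplicit false

namespace Pool.Agent.Lin

open Finset

private theorem rk_zero {m : ℕ} (P : Fin m → Bool) : rk Fin.val P 0 = 0 := by
  unfold rk
  rw [Finset.card_eq_zero, Finset.filter_eq_empty_iff]
  intro a _
  simp

private theorem rk_succ {m : ℕ} (P : Fin m → Bool) (q : ℕ) (hq : q < m) :
    rk Fin.val P (q + 1) = rk Fin.val P q + (if P ⟨q, hq⟩ = true then 1 else 0) := by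
  unfold rk
  by_cases h : P ⟨q, hq⟩ = true
  · rw [if_pos h]
    have h1 : (univ.filter fun a : Fin m => a.val < q + 1 ∧ P a = true) =
        insert ⟨q, hq⟩ (univ.filter fun a : Fin m => a.val < q ∧ P a = true) := by
      ext a
      simp only [Finset.mem_filter, Finset.mem_univ, true_and, Finset.mem_insert]
      constructor
      · rintro ⟨h1, h2⟩
        rcases Nat.lt_succ_iff_lt_or_eq.1 h1 with h3 | h3
        · exact Or.inr ⟨h3, h2⟩
        · exact Or.inl (Fin.ext h3)
      · rintro (h1 | ⟨h1, h2⟩)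
        · rw [h1]
          exact ⟨Nat.lt_succ_self q, h⟩
        · exact ⟨Nat.lt_succ_of_lt h1, h2⟩
    rw [h1, Finset.card_insert_of_notMem]
    simp
  · rw [if_neg h, add_zero]
    congr 1
    ext a
    simp only [Finset.mem_filter, Finset.mem_univ, true_and]
    constructor
    · rintro ⟨h1, h2⟩
      refine ⟨?_, h2⟩
      rcases Nat.lt_succ_iff_lt_or_eq.1 h1 with h3 | h3
      · exact h3
      · have h4 : a = ⟨q, hq⟩ := Fin.ext h3
        rw [h4] at h2
        exact absurd h2 h
    · rintro ⟨h1, h2⟩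
      exact ⟨Nat.lt_succ_of_lt h1, h2⟩

section Split

variable {m n : ℕ}

private def c0 (hm : m = 2 * n) (i : Fin n) : Fin m := ⟨2 * i, by have := i.isLt; omega⟩
private def c1 (hm : m = 2 * n) (i : Fin n) : Fin m := ⟨2 * i + 1, by have := i.isLt; omega⟩

/-- The cells with `P` and rank of the parity `c`. -/
private def cA (P : Fin m → Bool) (c : Fin 2) (i : Fin m) : Bool :=
  P i && decide (rk Fin.val P i % 2 = (c : ℕ))

private def cP (hm : m = 2 * n) (P : Fin m → Bool) (c : Fin 2) (i : Fin n) : Bool :=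
  cA P c (c0 hm i) || cA P c (c1 hm i)

private theorem rk_cP (hm : m = 2 * n) (P : Fin m → Bool) (c : Fin 2) :
    ∀ i : ℕ, i ≤ n → rk Fin.val (cP hm P c) i = (rk Fin.val P (2 * i) + (1 - c)) / 2 := by
  intro i
  induction i with
  | zero =>
    intro _
    rw [rk_zero, mul_zero, rk_zero]
    fin_cases c <;> rfl
  | succ i ih =>
    intro hi
    have h1 := rk_succ (cP hm P c) i (by omega)
    have h2 : rk Fin.val P (2 * (i + 1)) = rk Fin.val P (2 * i) +
        (if P (c0 hm ⟨i, by omega⟩) = true then 1 else 0) +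
        (if P (c1 hm ⟨i, by omega⟩) = true then 1 else 0) := by
      rw [show 2 * (i + 1) = 2 * i + 1 + 1 by ring, rk_succ P (2 * i + 1) (by omega),
        rk_succ P (2 * i) (by omega)]
      rfl
    have h3 : rk Fin.val P (2 * i + 1) = rk Fin.val P (2 * i) +
        (if P (c0 hm ⟨i, by omega⟩) = true then 1 else 0) := rk_succ P (2 * i) (by omega)
    rw [h1, ih (by omega), h2]
    have h4 : cP hm P c ⟨i, by omega⟩ = true ↔
        (P (c0 hm ⟨i, by omega⟩) = true ∧ rk Fin.val P (2 * i) % 2 = c) ∨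
        (P (c1 hm ⟨i, by omega⟩) = true ∧ rk Fin.val P (2 * i + 1) % 2 = c) := by
      simp only [cP, cA, Bool.or_eq_true, Bool.and_eq_true, decide_eq_true_eq]
      rfl
    rw [h3] at h4
    have hc := c.isLt
    generalize rk Fin.val P (2 * i) = a at *
    generalize P (c0 hm ⟨i, by omega⟩) = p0 at *
    generalize P (c1 hm ⟨i, by omega⟩) = p1 at *
    generalize cP hm P c ⟨i, by omega⟩ = u at *
    clear h3 h2 h1 ih
    cases p0 <;> cases p1 <;> cases u <;>
    simp only [if_true, Bool.false_eq_true, if_false, true_and, false_and, or_false, false_or,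
      true_iff, false_iff, or_self, add_zero] at h4 ⊢ <;> omega

end Split

/-- One more signal. -/
private theorem snoc {ι : Type} {f : (ι → Bool) → ℕ → Bool} {n s t : ℕ}
    (h : Cx (fun x (i : Fin n) => f x i) s) {g : (ι ⊕ Fin n → Bool) → Unit → Bool}
    (hg : Cx g t) (he : ∀ x, f x n = g (Sum.elim x (fun i : Fin n => f x i)) ()) :
    Cx (fun x (i : Fin (n + 1)) => f x i) (s + t) := by
  have h1 := h.keep.comp ((Cx.proj (Sum.inr : Fin n → ι ⊕ Fin n)).pair hg)
  rw [zero_add] at h1
  have h2 := h1.out (fun i : Fin (n + 1) =>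
    if hi : (i : ℕ) < n then (Sum.inl ⟨i, hi⟩ : Fin n ⊕ Unit) else Sum.inr ())
  refine h2.congr fun x i => ?_
  by_cases hi : (i : ℕ) < n
  · simp only [hi, dif_pos, Sum.elim_inl, Sum.elim_inr]
  · have hi' : (i : ℕ) = n := by have := i.isLt; omega
    simp only [hi, dif_neg, not_false_eq_true, Sum.elim_inr]
    rw [hi', he]

private theorem cx_par (m : ℕ) : ∀ n ≤ m,
    Cx (fun (P : Fin m → Bool) (i : Fin n) => decide (rk Fin.val P i % 2 = 1)) n := by
  intro n
  induction n with
  | zero =>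
    intro _
    exact (Cx.proj (fun i : Fin 0 => i.elim0)).congr fun x i => i.elim0
  | succ n ih =>
    intro hn
    rcases Nat.eq_zero_or_pos n with h0 | h0
    · subst h0
      have : Nonempty (Fin m) := ⟨⟨0, by omega⟩⟩
      refine ((Cx.const (ι := Fin m) false).out (fun _ : Fin 1 => ())).congr fun x i => ?_
      have hi : i = 0 := Subsingleton.elim _ _
      subst hi
      change false = decide (rk Fin.val x 0 % 2 = 1)
      rw [rk_zero]
      rfl
    · have h1 := ih (by omega)
      refine snoc (f := fun (P : Fin m → Bool) i => decide (rk Fin.val P i % 2 = 1)) h1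
        (Cx.gate (fun a b => a ^^ b) (Sum.inl ⟨n - 1, by omega⟩ : Fin m ⊕ Fin n)
          (Sum.inr ⟨n - 1, by omega⟩)) ?_
      intro P
      simp only [Sum.elim_inl, Sum.elim_inr]
      have h2 := rk_succ P (n - 1) (by omega)
      rw [Nat.sub_add_cancel h0] at h2
      rw [h2]
      rcases Nat.mod_two_eq_zero_or_one (rk Fin.val P (n - 1)) with h3 | h3 <;>
      by_cases h4 : P ⟨n - 1, by omega⟩ = true
      · rw [if_pos h4, h4, Nat.add_mod, h3]; rfl
      · rw [if_neg h4, Bool.not_eq_true _ |>.mp h4, add_zero, h3]; rfl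
      · rw [if_pos h4, h4, Nat.add_mod, h3]; rfl
      · rw [if_neg h4, Bool.not_eq_true _ |>.mp h4, add_zero, h3]; rfl

/-- The cells as pairs (parity, half). -/
private def eqv {m n : ℕ} (hm : m = 2 * n) : Fin m ≃ Fin 2 × Fin n where
  toFun j := (⟨j % 2, Nat.mod_lt _ (by norm_num)⟩, ⟨j / 2, by have := j.isLt; omega⟩)
  invFun p := ⟨2 * p.2 + p.1, by have h1 := p.1.isLt; have h2 := p.2.isLt; omega⟩
  left_inv j := Fin.ext (Nat.div_add_mod _ _)
  right_inv p := by
    have h1 := p.1.isLt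
    refine Prod.ext (Fin.ext ?_) (Fin.ext ?_)
    · show (2 * (p.2 : ℕ) + p.1) % 2 = p.1
      omega
    · show (2 * (p.2 : ℕ) + p.1) / 2 = p.2
      omega

/-- The relation of two steps is the relation of one step. -/
private theorem step_iff {m n : ℕ} (hm : m = 2 * n) (P : Fin m → Bool) (i j : Fin m) :
    (∃ q : Fin 2 × Fin n, (∃ t : Fin 2, cA P t i = true ∧
        ((t, ⟨i / 2, by have := i.isLt; omega⟩) : Fin 2 × Fin n) = q) ∧
      q.1 = (eqv hm j).1 ∧ cP hm P q.1 q.2 = true ∧
        rk Fin.val (fun e => cP hm P q.1 e) q.2 = ((eqv hm j).2 : ℕ)) ↔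
      P i = true ∧ rk Fin.val P i = j := by
  have hi := i.isLt
  have hj := j.isLt
  have hi2 : (i : ℕ) / 2 < n := by omega
  have hrk : ∀ c : Fin 2, rk Fin.val (fun e => cP hm P c e) (i / 2 : ℕ) =
      (rk Fin.val P (2 * (i / 2 : ℕ)) + (1 - c)) / 2 := fun c => rk_cP hm P c (i / 2) hi2.le
  have hstep : rk Fin.val P i = rk Fin.val P (2 * (i / 2 : ℕ)) ∨
      ((i : ℕ) = 2 * (i / 2 : ℕ) + 1 ∧ (rk Fin.val P i = rk Fin.val P (2 * (i / 2 : ℕ)) ∨
        rk Fin.val P i = rk Fin.val P (2 * (i / 2 : ℕ)) + 1)) := by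
    rcases Nat.mod_two_eq_zero_or_one (i : ℕ) with h | h
    · left
      rw [show 2 * ((i : ℕ) / 2) = i by omega]
    · right
      refine ⟨by omega, ?_⟩
      have h1 := rk_succ P (2 * ((i : ℕ) / 2)) (by omega)
      rw [show 2 * ((i : ℕ) / 2) + 1 = i by omega] at h1
      split_ifs at h1
      · exact Or.inr h1
      · exact Or.inl h1
  have hcP : ∀ c : Fin 2, cA P c i = true → cP hm P c ⟨i / 2, hi2⟩ = true := by
    intro c hA
    simp only [cP, Bool.or_eq_true]
    rcases Nat.mod_two_eq_zero_or_one (i : ℕ) with h | h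
    · left
      have h6 : i = c0 hm ⟨i / 2, hi2⟩ := Fin.ext (by simp only [c0]; omega)
      rw [← h6]
      exact hA
    · right
      have h6 : i = c1 hm ⟨i / 2, hi2⟩ := Fin.ext (by simp only [c1]; omega)
      rw [← h6]
      exact hA
  constructor
  · rintro ⟨q, ⟨t, hA, rfl⟩, h1, -, h3⟩
    have hA' := hA
    simp only [cA, Bool.and_eq_true, decide_eq_true_eq] at hA'
    have h4 : (t : ℕ) = j % 2 := congrArg Fin.val h1
    have h5 : (rk Fin.val P (2 * (i / 2 : ℕ)) + (1 - t)) / 2 = (j : ℕ) / 2 :=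
      (hrk t).symm.trans h3
    have h6 := t.isLt
    refine ⟨hA'.1, ?_⟩
    have h7 := hA'.2
    omega
  · rintro ⟨h1, h2⟩
    have hA : cA P (eqv hm j).1 i = true := by
      simp only [cA, Bool.and_eq_true, decide_eq_true_eq]
      refine ⟨h1, ?_⟩
      show rk Fin.val P i % 2 = (j : ℕ) % 2
      rw [h2]
    refine ⟨((eqv hm j).1, ⟨i / 2, hi2⟩), ⟨(eqv hm j).1, hA, rfl⟩, rfl, hcP _ hA, ?_⟩
    refine (hrk _).trans ?_
    show (rk Fin.val P (2 * (i / 2 : ℕ)) + (1 - ((j : ℕ) % 2))) / 2 = (j : ℕ) / 2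
    omega

theorem tNvM : S_NvM := by
  refine ⟨8, fun k => ?_⟩
  induction k with
  | zero =>
    have : Nonempty (Fin (2 ^ 0)) := ⟨0⟩
    have h1 := Mv.base (X := Fin (2 ^ 0)) (Y := Fin (2 ^ 0)) (d := 1) Nat.one_pos
      (fun _ _ => 0) (Cx.proj (fun p : Fin (2 ^ 0) × Fin 1 => p.1))
    refine (h1.mono (Nat.zero_le _) (by simp)).congr fun x i j => ?_
    have hi : i = 0 := by
      apply Fin.ext
      have := i.isLt
      simpa using this
    have hj : j = 0 := by
      apply Fin.ext
      have := j.isLt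
      simpa using this
    subst hi
    subst hj
    constructor
    · rintro ⟨t, h2, -⟩
      exact ⟨h2, rk_zero x⟩
    · rintro ⟨h2, -⟩
      exact ⟨0, h2, rfl⟩
  | succ k ih =>
    have hm : 2 ^ (k + 1) = 2 * 2 ^ k := by rw [pow_succ]; ring
    obtain ⟨n, hn⟩ : ∃ n, n = 2 ^ k := ⟨_, rfl⟩
    obtain ⟨m, hm'⟩ : ∃ m, m = 2 ^ (k + 1) := ⟨_, rfl⟩
    rw [← hn] at ih
    rw [← hm', ← hn] at hm
    rw [← hm']
    have hn0 : 0 < n := by rw [hn]; exact Nat.two_pow_pos k
    have hm0 : 0 < m := by omega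
    have : Nonempty (Fin m) := ⟨⟨0, hm0⟩⟩
    -- the cells with a given parity
    have h2 : Cx (fun (x : Fin m → Bool) (p : Fin m × Fin 2) => cA x p.2 p.1) (m + 2 * m) := by
      have h3 := Cx.layer (fun (p : Fin 2 × Fin m) (a b : Bool) => a && (b == decide (p.1 = 1)))
        (fun p => (Sum.inl p.2 : Fin m ⊕ Fin m)) (fun p => Sum.inr p.2)
      rw [Fintype.card_prod, Fintype.card_fin, Fintype.card_fin] at h3
      refine (((cx_par m m le_rfl).ext h3).out (fun p : Fin m × Fin 2 => (p.2, p.1))).congr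
        fun x p => ?_
      simp only [Sum.elim_inl, Sum.elim_inr, cA]
      congr 1
      obtain ⟨i, c⟩ := p
      have h4 := Nat.mod_lt (rk Fin.val x i) (by norm_num : 0 < 2)
      fin_cases c
      · rcases (by omega : rk Fin.val x i % 2 = 0 ∨ rk Fin.val x i % 2 = 1) with h5 | h5 <;>
          simp [h5]
      · rcases (by omega : rk Fin.val x i % 2 = 0 ∨ rk Fin.val x i % 2 = 1) with h5 | h5 <;>
          simp [h5]
    -- the halves
    have h3 : Cx (fun (x : Fin m → Bool) (p : Fin 2 × Fin n) => cP hm x p.1 p.2)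
        (m + 2 * m + 2 * n) := by
      have h4 := Cx.layer (fun (_ : Fin 2 × Fin n) (a b : Bool) => a || b)
        (fun p => ((c0 hm p.2, p.1) : Fin m × Fin 2)) (fun p => (c1 hm p.2, p.1))
      rw [Fintype.card_prod, Fintype.card_fin, Fintype.card_fin] at h4
      exact (h2.comp h4).congr fun x p => rfl
    have h4 := Mv.base (X := Fin m) (Y := Fin 2 × Fin n) (d := 2) (by norm_num)
      (fun i t => (t, ⟨i / 2, by have := i.isLt; omega⟩)) h2
    have h5 := (h4.comp h3 (ih.blocks (Fin 2))).equiv (Equiv.refl (Fin m)) (eqv hm)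
    rw [Fintype.card_fin, Fintype.card_fin, Fintype.card_prod, Fintype.card_fin,
      Fintype.card_fin] at h5
    refine (h5.mono ?_ ?_).congr fun x i j => step_iff hm x i j
    · rw [hm]
      nlinarith [Nat.zero_le (k * n)]
    · rw [hm]
      nlinarith [Nat.zero_le (k * n)]

end Pool.Agent.Lin
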