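import Pool.Agent.Lib.MP_76b24b_lcM.Spec2

/-!
# MP_76b24b_lc, package M: Out
-/

set_option autoImplicit false

namespace Pool.Agent.Lin

open Finset

/-- Tokens in a slot and tokens in the list. -/
private theorem out_core {N M w γ d s0 : ℕ} (hd : d ≤ M) (hN : s0 + d ≤ N)
    (X : Fin N → Fin w → Bool) (Z : Fin N → Bool) (T : Fin M → Fin w → Bool) (Z' V : Fin M → Bool)
    (hV : ∀ v, V v = true ↔ (v : ℕ) < d)
    (hZ : ∀ (v : Fin M) (ρ : Fin N), (v : ℕ) < d → (ρ : ℕ) = s0 + v → Z' v = Z ρ)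
    (hT : ∀ (v : Fin M) (ρ : Fin N), (v : ℕ) < d → (ρ : ℕ) = s0 + v → T v = X ρ) (e : ℕ) :
    (∃ v, Z' v = true ∧ V v = true ∧ (num (T v) + 2 ^ w * ((univ.filter fun v' : Fin M =>
      v' ≤ v ∧ V v' = true ∧ ∀ t, T v' t = false).card - 1)) % 2 ^ γ = e) ↔
    ∃ ρ : Fin N, s0 ≤ ρ ∧ (ρ : ℕ) < s0 + d ∧ Z ρ = true ∧
      (num (X ρ) + 2 ^ w * ((univ.filter fun ρ' : Fin N => s0 ≤ ρ' ∧ ρ' ≤ ρ ∧
        ∀ t, X ρ' t = false).card - 1)) % 2 ^ γ = e := by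
  have hcard : ∀ (v : Fin M) (ρ : Fin N), (v : ℕ) < d → (ρ : ℕ) = s0 + v →
      (univ.filter fun v' : Fin M => v' ≤ v ∧ V v' = true ∧ ∀ t, T v' t = false).card =
      (univ.filter fun ρ' : Fin N => s0 ≤ ρ' ∧ ρ' ≤ ρ ∧ ∀ t, X ρ' t = false).card := by
    intro v ρ hv hρ
    have hlt : ∀ v' ∈ (univ.filter fun v' : Fin M => v' ≤ v ∧ V v' = true ∧ ∀ t, T v' t = false),
        s0 + (v' : ℕ) < N := by
      intro v' hv'
      have h1 := (mem_filter.1 hv').2.1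
      rw [Fin.le_def] at h1
      omega
    refine card_bij (fun v' h => ⟨s0 + v', hlt v' h⟩) ?_ ?_ ?_
    · intro v' h
      obtain ⟨h1, h2, h3⟩ := (mem_filter.1 h).2
      rw [Fin.le_def] at h1
      rw [mem_filter]
      refine ⟨mem_univ _, by simp, ?_, ?_⟩
      · rw [Fin.le_def]
        show s0 + (v' : ℕ) ≤ ρ
        omega
      · have h4 := hT v' ⟨s0 + v', hlt v' h⟩ (by omega) rfl
        rw [← h4]
        exact h3
    · intro v1 h1 v2 h2 h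
      have := congrArg Fin.val h
      simp only at this
      exact Fin.ext (by omega)
    · intro ρ' h
      obtain ⟨h1, h2, h3⟩ := (mem_filter.1 h).2
      rw [Fin.le_def] at h2
      have h5 : (ρ' : ℕ) - s0 < M := by omega
      have h6 : (⟨(ρ' : ℕ) - s0, h5⟩ : Fin M) ∈
          (univ.filter fun v' : Fin M => v' ≤ v ∧ V v' = true ∧ ∀ t, T v' t = false) := by
        rw [mem_filter]
        refine ⟨mem_univ _, ?_, ?_, ?_⟩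
        · rw [Fin.le_def]
          show (ρ' : ℕ) - s0 ≤ v
          omega
        · rw [hV]
          show (ρ' : ℕ) - s0 < d
          omega
        · have h4 := hT ⟨(ρ' : ℕ) - s0, h5⟩ ρ' (by show (ρ' : ℕ) - s0 < d; omega)
            (by show (ρ' : ℕ) = s0 + ((ρ' : ℕ) - s0); omega)
          rw [h4]
          exact h3
      refine ⟨⟨(ρ' : ℕ) - s0, h5⟩, h6, ?_⟩
      apply Fin.ext
      show s0 + ((ρ' : ℕ) - s0) = ρ'
      omega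
  constructor
  · rintro ⟨v, h1, h2, h3⟩
    have hv := (hV v).1 h2
    refine ⟨⟨s0 + v, by omega⟩, by simp, by simpa using hv, ?_, ?_⟩
    · rw [← hZ v _ hv rfl]
      exact h1
    · rw [← hT v ⟨s0 + v, by omega⟩ hv rfl, ← hcard v ⟨s0 + v, by omega⟩ hv rfl]
      exact h3
  · rintro ⟨ρ, h1, h2, h3, h4⟩
    have h5 : (ρ : ℕ) - s0 < M := by omega
    have h6 : (ρ : ℕ) - s0 < d := by omega
    have h7 : (ρ : ℕ) = s0 + ((ρ : ℕ) - s0) := by omega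
    refine ⟨⟨(ρ : ℕ) - s0, h5⟩, ?_, ?_, ?_⟩
    · rw [hZ ⟨(ρ : ℕ) - s0, h5⟩ ρ h6 h7]
      exact h3
    · exact (hV _).2 h6
    · rw [hT ⟨(ρ : ℕ) - s0, h5⟩ ρ h6 h7, hcard ⟨(ρ : ℕ) - s0, h5⟩ ρ h6 h7]
      exact h4

/-- The decompression of one slot. -/
private def oG (γ j w : ℕ) (x : Fin (2 ^ j) × (Fin w ⊕ (Unit ⊕ Unit)) → Bool) (e : Fin (2 ^ γ)) :
    Bool :=
  decide (∃ v : Fin (2 ^ j), x (v, Sum.inr (Sum.inl ())) = true ∧
      x (v, Sum.inr (Sum.inr ())) = true ∧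
      (num (fun t => x (v, Sum.inl t)) + 2 ^ w * ((univ.filter fun v' : Fin (2 ^ j) =>
        v' ≤ v ∧ x (v', Sum.inr (Sum.inr ())) = true ∧ ∀ t, x (v', Sum.inl t) = false).card
          - 1)) % 2 ^ γ = e)

/-- The inputs of the network `B`. -/
private def oR1 {σ γ l w : ℕ} : (Fin (2 ^ σ + 1) × Fin (σ + γ + 1)) ⊕
    (Fin (2 ^ (σ + 1 + l)) × (Fin w ⊕ (Unit ⊕ Unit))) →
    ((Fin (2 ^ σ + 1) × Fin (σ + γ + 1)) ⊕ (Fin (2 ^ (σ + 1 + l)) × (Fin w ⊕ Unit))) ⊕ Unit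
  | Sum.inl c => Sum.inl (Sum.inl c)
  | Sum.inr (ρ, Sum.inl t) => Sum.inl (Sum.inr (ρ, Sum.inl t))
  | Sum.inr (ρ, Sum.inr (Sum.inl _)) => Sum.inl (Sum.inr (ρ, Sum.inr ()))
  | Sum.inr (_, Sum.inr (Sum.inr _)) => Sum.inr ()

private theorem out_size (c σ γ l w S : ℕ) :
    1 + (c * ((σ + γ + 1) ^ 2 * 2 ^ σ + (σ + γ + 1) * 2 ^ (σ + l)) +
      c * ((σ + γ + 1) * 2 ^ (σ + l)) * (w + (1 + 1))) + S +
      (c * ((σ + γ + 1) * 2 ^ σ) + c * 2 ^ σ * 2 ^ γ) ≤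
    (3 * c + 1) * (2 ^ (σ + γ) + (σ + γ + 1) ^ 2 * 2 ^ σ + (w + 1) * (σ + γ + 1) * 2 ^ (σ + l)) +
      S := by
  have h1 : 1 ≤ 2 ^ (σ + γ) := Nat.one_le_two_pow
  have h2 : 2 ^ σ * 2 ^ γ = 2 ^ (σ + γ) := (pow_add 2 σ γ).symm
  have h3 : (σ + γ + 1) * 2 ^ σ ≤ (σ + γ + 1) ^ 2 * 2 ^ σ :=
    Nat.mul_le_mul_right _ (Nat.le_self_pow (by norm_num) _)
  rw [Nat.mul_assoc c (2 ^ σ), h2]
  set p := 2 ^ (σ + γ)
  set q := (σ + γ + 1) * 2 ^ σ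
  set q2 := (σ + γ + 1) ^ 2 * 2 ^ σ
  have h4 : (w + 1) * (σ + γ + 1) * 2 ^ (σ + l) = (w + 1) * ((σ + γ + 1) * 2 ^ (σ + l)) := by ring
  rw [h4]
  set t := (σ + γ + 1) * 2 ^ (σ + l)
  have h5 : c * q ≤ c * q2 := Nat.mul_le_mul_left _ h3
  have e1 : 1 + (c * (q2 + t) + c * t * (w + (1 + 1))) + S + (c * q + c * p) =
      1 + c * p + c * q + c * q2 + c * ((w + 3) * t) + S := by ring
  have e2 : (3 * c + 1) * (p + q2 + (w + 1) * t) + S =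
      p + 3 * (c * p) + 3 * (c * q2) + q2 + c * ((3 * w + 3) * t) + (w + 1) * t + S := by ring
  have h6 : c * ((w + 3) * t) ≤ c * ((3 * w + 3) * t) :=
    Nat.mul_le_mul_left _ (Nat.mul_le_mul_right _ (by omega))
  rw [e1, e2]
  omega

theorem tOut (h1 : S_Acc) (h2 : S_LA) : S_Out := by
  obtain ⟨c, h1⟩ := h1
  obtain ⟨-, h2⟩ := h2
  refine ⟨3 * c + 1, fun σ γ l r w co hlr hl hr hrσ hco => ?_⟩
  obtain ⟨A, B, hA, hB, hAB⟩ := h1 σ γ l r hlr hl hr hrσ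
  have : Nonempty ((Fin (2 ^ σ + 1) × Fin (σ + γ + 1)) ⊕
      (Fin (2 ^ (σ + 1 + l)) × (Fin w ⊕ Unit))) := ⟨Sum.inl (0, 0)⟩
  -- the circuit
  have c1 := (Cx.const (ι := (Fin (2 ^ σ + 1) × Fin (σ + γ + 1)) ⊕
      (Fin (2 ^ (σ + 1 + l)) × (Fin w ⊕ Unit))) true).ext
    ((hB.cxT (Fin w ⊕ (Unit ⊕ Unit))).inp (oR1 (σ := σ) (γ := γ) (l := l) (w := w)))
  have c2 := h2 σ l r (Fin w ⊕ (Unit ⊕ Unit)) (Fin (2 ^ γ)) co (fun i => oG γ (l + i) w)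
    (by omega) (fun i => hco i (by omega))
  have c3 := (c1.comp c2).ext ((hA.cxT (Fin (2 ^ γ))).inp
    (Sum.elim (fun c => Sum.inl (Sum.inl c)) (fun q => Sum.inr q) :
      (Fin (2 ^ σ + 1) × Fin (σ + γ + 1)) ⊕ (Slot σ r × Fin (2 ^ γ)) →
      ((Fin (2 ^ σ + 1) × Fin (σ + γ + 1)) ⊕ (Fin (2 ^ (σ + 1 + l)) × (Fin w ⊕ Unit))) ⊕
        (Slot σ r × Fin (2 ^ γ))))
  refine ⟨_, c3.mono ?_, ?_⟩
  · rw [Fintype.card_sum, Fintype.card_sum, Fintype.card_unit, Fintype.card_fin, Fintype.card_fin]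
    exact out_size c σ γ l w _
  intro I x hI hx a e
  obtain ⟨hPB, hlt, hBB⟩ := hAB I hI
  have hctl : (fun q : Fin (2 ^ σ + 1) × Fin (σ + γ + 1) => x (Sum.inl q)) =
      dig σ (σ + γ + 1) I := funext hx
  rw [mv_iff]
  simp only [Sum.elim_inl, Sum.elim_inr]
  rw [hctl]
  obtain ⟨p, hp⟩ := hPB.2.1 a trivial
  have hmono : ∀ b : ℕ, b ≤ 2 ^ σ → I b ≤ I (2 ^ σ) := by
    intro b hb
    exact monotone_nat_of_le_succ hI.2.1 hb
  have hIa : I (a + 1) ≤ 2 ^ (σ + 1 + l) := by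
    refine (hmono _ (by have := a.isLt; omega)).trans (hI.2.2.2.trans ?_)
    exact Nat.pow_le_pow_right (by norm_num) (by omega)
  have hle := hI.2.1 a
  have hd := hlt a p hp
  have hpi : (p.1 : ℕ) ≤ σ := by
    have := p.1.isLt
    omega
  have hpow : 2 ^ (σ - (p.1 : ℕ)) * 2 ^ (l + (p.1 : ℕ)) = 2 ^ (σ + l) := by
    rw [← pow_add]
    congr 1
    omega
  -- the contents of the slot
  have hcell : ∀ v : Fin (2 ^ (l + (p.1 : ℕ))),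
      ((lo (σ + l) ((p.2 : ℕ) * 2 ^ (l + (p.1 : ℕ)) + v) : Fin (2 ^ (σ + l))) : ℕ) =
        (p.2 : ℕ) * 2 ^ (l + (p.1 : ℕ)) + v := by
    intro v
    show ((p.2 : ℕ) * 2 ^ (l + (p.1 : ℕ)) + v) % 2 ^ (σ + l) = _
    refine Nat.mod_eq_of_lt ?_
    have h3 := p.2.isLt
    have h4 := v.isLt
    calc (p.2 : ℕ) * 2 ^ (l + (p.1 : ℕ)) + v < (p.2 : ℕ) * 2 ^ (l + (p.1 : ℕ)) +
          2 ^ (l + (p.1 : ℕ)) := by omega
      _ = ((p.2 : ℕ) + 1) * 2 ^ (l + (p.1 : ℕ)) := by ring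
      _ ≤ 2 ^ (σ - (p.1 : ℕ)) * 2 ^ (l + (p.1 : ℕ)) := Nat.mul_le_mul_right _ h3
      _ = 2 ^ (σ + l) := hpow
  have hB2 : ∀ (v : Fin (2 ^ (l + (p.1 : ℕ)))) (ρ : Fin (2 ^ (σ + 1 + l))),
      B (dig σ (σ + γ + 1) I) (p.1, lo (σ + l) ((p.2 : ℕ) * 2 ^ (l + (p.1 : ℕ)) + v)) ρ ↔
        (v : ℕ) < I (a + 1) - I a ∧ (ρ : ℕ) = I a + v := by
    intro v ρ
    rw [hBB, hcell v]
    have hpos : 0 < 2 ^ (l + (p.1 : ℕ)) := Nat.two_pow_pos _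
    have e1 : ((p.2 : ℕ) * 2 ^ (l + (p.1 : ℕ)) + v) / 2 ^ (l + (p.1 : ℕ)) = p.2 := by
      rw [Nat.mul_comm, Nat.mul_add_div hpos, Nat.div_eq_of_lt v.isLt, Nat.add_zero]
    have e2 : ((p.2 : ℕ) * 2 ^ (l + (p.1 : ℕ)) + v) % 2 ^ (l + (p.1 : ℕ)) = v := by
      rw [Nat.mul_comm, Nat.mul_add_mod, Nat.mod_eq_of_lt v.isLt]
    rw [e1, e2]
    constructor
    · rintro ⟨a', p', h3, h4, h5, h6, h7⟩
      have hpp : p' = p := by
        obtain ⟨i', α'⟩ := p'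
        obtain ⟨i, α⟩ := p
        simp only at h4 h5
        subst h4
        congr 1
        exact Fin.ext h5
      rw [hpp] at h3
      have haa : a' = a := hPB.2.2.2 a' a p h3 hp
      rw [haa] at h6 h7
      exact ⟨h6, h7⟩
    · rintro ⟨h3, h4⟩
      exact ⟨a, p, hp, rfl, rfl, h3, h4⟩
  have key := out_core (N := 2 ^ (σ + 1 + l)) (M := 2 ^ (l + (p.1 : ℕ))) (w := w) (γ := γ)
    (d := I (a + 1) - I a) (s0 := I a) hd.le (by omega)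
    (fun ρ t => x (Sum.inr (ρ, Sum.inl t))) (fun ρ => x (Sum.inr (ρ, Sum.inr ())))
    (fun v t => mv (tr B) (fun q => Sum.elim x (fun _ => true) (oR1 q))
      ((p.1, lo (σ + l) ((p.2 : ℕ) * 2 ^ (l + (p.1 : ℕ)) + v)), Sum.inl t))
    (fun v => mv (tr B) (fun q => Sum.elim x (fun _ => true) (oR1 q))
      ((p.1, lo (σ + l) ((p.2 : ℕ) * 2 ^ (l + (p.1 : ℕ)) + v)), Sum.inr (Sum.inl ())))
    (fun v => mv (tr B) (fun q => Sum.elim x (fun _ => true) (oR1 q))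
      ((p.1, lo (σ + l) ((p.2 : ℕ) * 2 ^ (l + (p.1 : ℕ)) + v)), Sum.inr (Sum.inr ())))
    ?_ ?_ ?_ (e : ℕ)
  · constructor
    · rintro ⟨p', h3, h4⟩
      have hpp : p' = p := hPB.2.2.1 a p' p h3 hp
      subst hpp
      have h5 := (key.1 (of_decide_eq_true h4))
      obtain ⟨ρ, h6, h7, h8, h9⟩ := h5
      exact ⟨ρ, h6, by omega, h8, h9⟩
    · rintro ⟨ρ, h6, h7, h8, h9⟩
      exact ⟨p, hp, decide_eq_true (key.2 ⟨ρ, h6, by omega, h8, h9⟩)⟩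
  · intro v
    rw [mv_iff]
    constructor
    · rintro ⟨ρ, h3, -⟩
      have h4 : B (dig σ (σ + γ + 1) I)
          (p.1, lo (σ + l) ((p.2 : ℕ) * 2 ^ (l + (p.1 : ℕ)) + v)) ρ := by
        rw [← hctl]
        exact h3
      exact ((hB2 v ρ).1 h4).1
    · intro h3
      refine ⟨⟨I a + v, by omega⟩, ?_, rfl⟩
      show B (fun q => x (Sum.inl q)) _ _
      rw [hctl]
      exact (hB2 v _).2 ⟨h3, rfl⟩
  · intro v ρ hv hρ
    rw [Bool.eq_iff_iff, mv_iff]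
    constructor
    · rintro ⟨ρ', h3, h4⟩
      have h5 : B (dig σ (σ + γ + 1) I)
          (p.1, lo (σ + l) ((p.2 : ℕ) * 2 ^ (l + (p.1 : ℕ)) + v)) ρ' := by
        rw [← hctl]
        exact h3
      have h6 : ρ' = ρ := Fin.ext (((hB2 v ρ').1 h5).2.trans hρ.symm)
      rw [← h6]
      exact h4
    · intro h3
      refine ⟨ρ, ?_, h3⟩
      show B (fun q => x (Sum.inl q)) _ _
      rw [hctl]
      exact (hB2 v _).2 ⟨hv, hρ⟩
  · intro v ρ hv hρ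
    funext t
    rw [Bool.eq_iff_iff, mv_iff]
    constructor
    · rintro ⟨ρ', h3, h4⟩
      have h5 : B (dig σ (σ + γ + 1) I)
          (p.1, lo (σ + l) ((p.2 : ℕ) * 2 ^ (l + (p.1 : ℕ)) + v)) ρ' := by
        rw [← hctl]
        exact h3
      have h6 : ρ' = ρ := Fin.ext (((hB2 v ρ').1 h5).2.trans hρ.symm)
      rw [← h6]
      exact h4
    · intro h3
      refine ⟨ρ, ?_, h3⟩
      show B (fun q => x (Sum.inl q)) _ _
      rw [hctl]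
      exact (hB2 v _).2 ⟨hv, hρ⟩

end Pool.Agent.Lin
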