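import Pool.Agent.Lib.MP_76b24b_lcM.Spec2

/-! # MP_76b24b_lc, package M: ranks modulo `2 ^ w` -/

set_option autoImplicit false

namespace Pool.Agent.Lin

open Finset

private theorem num_testBit_mod : ∀ (k m : ℕ), num (fun t : Fin k => m.testBit t) = m % 2 ^ k
  | 0, m => by simp [num, Nat.mod_one]
  | k + 1, m => by
    have ih := num_testBit_mod k (m / 2)
    unfold num at ih ⊢
    rw [Fin.sum_univ_succ]
    have h1 : (if m.testBit ((0 : Fin (k + 1)) : ℕ) = true then 2 ^ ((0 : Fin (k + 1)) : ℕ) else 0) =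
        m % 2 := by
      simp only [Fin.val_zero, pow_zero, Nat.testBit_zero, decide_eq_true_eq]
      rcases Nat.mod_two_eq_zero_or_one m with h | h <;> simp [h]
    have h2 : (∑ i : Fin k, if m.testBit (i.succ : ℕ) = true then 2 ^ (i.succ : ℕ) else 0) =
        2 * ((m / 2) % 2 ^ k) := by
      rw [← ih, Finset.mul_sum]
      refine Finset.sum_congr rfl fun i _ => ?_
      rw [Fin.val_succ, Nat.testBit_succ, mul_ite, mul_zero, pow_succ, mul_comm]
    rw [h1, h2, pow_succ, mul_comm (2 ^ k) 2, Nat.mod_mul]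

private theorem testBit_mod_of_lt (m k t : ℕ) (ht : t < k) : (m % 2 ^ k).testBit t = m.testBit t := by
  rw [Nat.testBit_mod_two_pow]
  simp [ht]

private theorem testBit_congr (a b k t : ℕ) (ht : t < k) (h : a % 2 ^ k = b % 2 ^ k) :
    a.testBit t = b.testBit t := by
  rw [← testBit_mod_of_lt a k t ht, ← testBit_mod_of_lt b k t ht, h]

private def Sm {N K : ℕ} (x : Fin N × Fin K → Bool) (i : ℕ) : ℕ :=
  ∑ i' : Fin N, if (i' : ℕ) < i then num (fun t => x (i', t)) else 0

private theorem Sm_zero {N K : ℕ} (x : Fin N × Fin K → Bool) : Sm x 0 = 0 := by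
  simp [Sm]

private theorem Sm_succ {N K : ℕ} (x : Fin N × Fin K → Bool) (i : ℕ) (hi : i < N) :
    Sm x (i + 1) = Sm x i + num (fun t => x (⟨i, hi⟩, t)) := by
  unfold Sm
  have h1 : ∀ i' : Fin N, (if (i' : ℕ) < i + 1 then num (fun t => x (i', t)) else 0) =
      (if (i' : ℕ) < i then num (fun t => x (i', t)) else 0) +
      (if i' = ⟨i, hi⟩ then num (fun t => x (i', t)) else 0) := by
    intro i'
    by_cases h1 : (i' : ℕ) < i
    · have h2 : ¬ i' = ⟨i, hi⟩ := by
        intro h; rw [h] at h1; simp at h1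
      rw [if_pos h1, if_pos (by omega), if_neg h2, add_zero]
    · by_cases h2 : i' = ⟨i, hi⟩
      · have h3 : (i' : ℕ) = i := by rw [h2]
        rw [if_neg h1, if_pos (by omega), if_pos h2, zero_add]
      · have h3 : (i' : ℕ) ≠ i := fun h => h2 (Fin.ext h)
        rw [if_neg h1, if_neg (by omega), if_neg h2, zero_add]
  rw [Finset.sum_congr rfl fun i' _ => h1 i', Finset.sum_add_distrib]
  simp

private theorem step (hA : S_Add) {N K : ℕ} [Nonempty (Fin N × Fin K)] : ∀ i : ℕ, i ≤ N →
    Cx (fun (x : Fin N × Fin K → Bool) (p : Fin (i + 1) × Fin K) => (Sm x p.1).testBit p.2)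
      (1 + 5 * K * i)
  | 0, _ => by
    have h1 : Cx (fun (_ : Fin N × Fin K → Bool) (_ : Unit) => false) 1 := Cx.const false
    refine ((h1.out (fun _ : Fin (0 + 1) × Fin K => ())).mono (by omega)).congr fun x p => ?_
    have hp : ((p.1 : Fin (0 + 1)) : ℕ) = 0 := by have := p.1.isLt; omega
    rw [hp, Sm_zero]
    simp
  | i + 1, hi => by
    have ih := step hA (N := N) (K := K) i (by omega)
    have h1 := (hA K).inp (Sum.elim
      (fun t : Fin K => (Sum.inr (Fin.last i, t) : (Fin N × Fin K) ⊕ (Fin (i + 1) × Fin K)))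
      (fun t : Fin K => Sum.inl ((⟨i, by omega⟩ : Fin N), t)))
    have h2 := (ih.keep.comp h1.keep).out (fun p : Fin (i + 1 + 1) × Fin K =>
      if hp : (p.1 : ℕ) < i + 1 then
        (Sum.inl (Sum.inr ((⟨p.1, hp⟩ : Fin (i + 1)), p.2)) :
          ((Fin N × Fin K) ⊕ (Fin (i + 1) × Fin K)) ⊕ Fin K) else Sum.inr p.2)
    refine (h2.mono (by ring_nf; exact le_rfl)).congr fun x p => ?_
    by_cases hp : (p.1 : ℕ) < i + 1
    · simp only [hp, dif_pos, Sum.elim_inl, Sum.elim_inr]
    · have hp' : (p.1 : ℕ) = i + 1 := by have := p.1.isLt; omega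
      simp only [hp, dif_neg, not_false_eq_true, Sum.elim_inl, Sum.elim_inr, Fin.val_last]
      rw [hp', Sm_succ x i (by omega), num_testBit_mod]
      refine testBit_congr _ _ K _ p.2.isLt ?_
      rw [Nat.mod_add_mod]

/-- the number with the digit `b` at the place `0` -/
private theorem num_one {w : ℕ} (hw : 0 < w) (b : Bool) :
    num (fun t : Fin w => if (t : ℕ) = 0 then b else false) = if b = true then 1 else 0 := by
  unfold num
  rw [Finset.sum_eq_single (⟨0, hw⟩ : Fin w)]
  · simp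
  · intro t _ ht
    have h : (t : ℕ) ≠ 0 := fun h => ht (Fin.ext h)
    simp [h]
  · intro h
    exact absurd (Finset.mem_univ _) h

private theorem Sm_rk {n w : ℕ} (hw : 0 < w) (P : Fin n → Bool) (i : ℕ) :
    Sm (fun p : Fin n × Fin w => if (p.2 : ℕ) = 0 then P p.1 else false) i = rk Fin.val P i := by
  unfold Sm rk
  rw [Finset.card_filter]
  refine Finset.sum_congr rfl fun i' _ => ?_
  change (if (i' : ℕ) < i then num (fun t : Fin w => if (t : ℕ) = 0 then P i' else false) else 0) = _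
  rw [num_one hw]
  by_cases h : (i' : ℕ) < i
  · simp [h]
  · simp [h]

theorem tPreM (h : S_Add) : S_PreM := by
  refine ⟨7, fun n w hn => ?_⟩
  rcases Nat.eq_zero_or_pos w with hw | hw
  · subst hw
    exact Cx.empty _ _
  have : Nonempty (Fin n) := ⟨⟨0, hn⟩⟩
  have : Nonempty (Fin n × Fin w) := ⟨(⟨0, hn⟩, ⟨0, hw⟩)⟩
  have h0 : Cx (fun (_ : Fin n → Bool) (_ : Unit) => false) 1 := Cx.const false
  have h1 := h0.keep.out (fun p : Fin n × Fin w =>
    if (p.2 : ℕ) = 0 then (Sum.inl p.1 : Fin n ⊕ Unit) else Sum.inr ())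
  have h2 : Cx (fun (P : Fin n → Bool) (p : Fin n × Fin w) =>
      if (p.2 : ℕ) = 0 then P p.1 else false) 1 := by
    refine h1.congr fun P p => ?_
    by_cases hp : (p.2 : ℕ) = 0
    · simp only [hp, if_true, Sum.elim_inl]
    · simp only [hp, if_false, Sum.elim_inr]
  have h3 := (h2.comp (step h (N := n) (K := w) n le_rfl)).out
    (fun p : Fin n × Fin w => (p.1.castSucc, p.2))
  refine (h3.mono ?_).congr fun P p => ?_
  · nlinarith [Nat.mul_pos hn hw]
  · simp only [Fin.val_castSucc]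
    rw [Sm_rk hw]

end Pool.Agent.Lin
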