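import Pool.Agent.Lib.MP_76b24b_lcM.Spec2

/-!
# MP_76b24b_lc, package M: the profile of the output superblocks
-/

set_option autoImplicit false

namespace Pool.Agent.Lin

open Finset

private theorem dec_iff {p : Prop} (h : Decidable p) : @decide p h = true ↔ p :=
  @decide_eq_true_iff p h

private theorem num_testBit_mod : ∀ (k m : ℕ), num (fun t : Fin k => m.testBit t) = m % 2 ^ k
  | 0, m => by simp [num, Nat.mod_one]
  | k + 1, m => by
    have ih := num_testBit_mod k (m / 2)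
    unfold num at ih ⊢
    rw [Fin.sum_univ_succ]
    have h1 : (if m.testBit ((0 : Fin (k + 1)) : ℕ) = true then 2 ^ ((0 : Fin (k + 1)) : ℕ) else 0) =
        m % 2 := by
      simp only [Fin.val_zero, pow_zero, Nat.testBit_zero, decide_eq_true_eq]
      rcases Nat.mod_two_eq_zero_or_one m with h | h <;> simp [h]
    have h2 : (∑ i : Fin k, if m.testBit (i.succ : ℕ) = true then 2 ^ (i.succ : ℕ) else 0) =
        2 * ((m / 2) % 2 ^ k) := by
      rw [← ih, Finset.mul_sum]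
      refine Finset.sum_congr rfl fun i _ => ?_
      rw [Fin.val_succ, Nat.testBit_succ, mul_ite, mul_zero, pow_succ, mul_comm]
    rw [h1, h2, pow_succ, mul_comm (2 ^ k) 2, Nat.mod_mul]

private theorem rk_mono {α : Type} [Fintype α] (pos : α → ℕ) (P : α → Bool) {q q' : ℕ}
    (h : q ≤ q') : rk pos P q ≤ rk pos P q' := by
  unfold rk
  refine Finset.card_le_card fun a ha => ?_
  rw [Finset.mem_filter] at ha ⊢
  exact ⟨ha.1, ha.2.1.trans_le h, ha.2.2⟩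

private theorem rk_val_le {b : ℕ} (P : Fin b → Bool) (q : ℕ) : rk Fin.val P q ≤ min b q := by
  unfold rk
  rw [← Fin.card_filter_val_lt]
  refine Finset.card_le_card fun a ha => ?_
  rw [Finset.mem_filter] at ha ⊢
  exact ⟨ha.1, ha.2.1⟩

/-- The rank inside of a block. -/
private theorem rk_block {b N : ℕ} (P : Fin N × Fin b → Bool) (i : Fin N) (ρ : ℕ) (hρ : ρ ≤ b) :
    rk (bpos b) P (i * b + ρ) = rk (bpos b) P (i * b) + rk Fin.val (fun ρ => P (i, ρ)) ρ := by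
  classical
  unfold rk
  have e1 : (univ.filter fun ρ' : Fin b => (ρ' : ℕ) < ρ ∧ P (i, ρ') = true).card =
      ((univ.filter fun ρ' : Fin b => (ρ' : ℕ) < ρ ∧ P (i, ρ') = true).image
        fun ρ' => (i, ρ')).card := by
    rw [Finset.card_image_of_injective]
    intro r r' h
    exact (Prod.mk.injEq _ _ _ _ ▸ h).2
  rw [e1, ← Finset.card_union_of_disjoint]
  · congr 1
    ext ⟨i', ρ'⟩
    have hρ' := ρ'.isLt
    simp only [Finset.mem_union, Finset.mem_filter, Finset.mem_univ, true_and, Finset.mem_image,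
      Prod.mk.injEq]
    simp only [bpos]
    constructor
    · rintro ⟨h1, h2⟩
      by_cases h3 : (i' : ℕ) * b + ρ' < i * b
      · exact Or.inl ⟨h3, h2⟩
      · right
        have h4 : (i' : ℕ) = i := by
          have h5 : (i' : ℕ) * b < (i + 1) * b := by nlinarith
          have h6 : (i' : ℕ) < i + 1 := lt_of_mul_lt_mul_right h5 (Nat.zero_le b)
          have h7 : (i : ℕ) * b < (i' + 1) * b := by nlinarith
          have h8 : (i : ℕ) < i' + 1 := lt_of_mul_lt_mul_right h7 (Nat.zero_le b)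
          omega
        have h5 : i' = i := Fin.ext h4
        subst h5
        exact ⟨ρ', ⟨by omega, h2⟩, rfl, rfl⟩
    · rintro (⟨h1, h2⟩ | ⟨r, ⟨h1, h2⟩, rfl, rfl⟩)
      · exact ⟨by omega, h2⟩
      · exact ⟨by omega, h2⟩
  · rw [Finset.disjoint_left]
    rintro ⟨i', ρ'⟩ h1 h2
    simp only [Finset.mem_filter, Finset.mem_univ, true_and, Finset.mem_image,
      Prod.mk.injEq] at h1 h2
    simp only [bpos] at h1
    obtain ⟨r, -, rfl, rfl⟩ := h2
    omega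

private theorem rk_end {b N : ℕ} (P : Fin N × Fin b → Bool) (q : ℕ) (hq : N * b ≤ q) :
    rk (bpos b) P q = rk (bpos b) P (N * b) := by
  refine le_antisymm ?_ (rk_mono _ _ hq)
  unfold rk
  refine Finset.card_le_card fun a ha => ?_
  rw [Finset.mem_filter] at ha ⊢
  refine ⟨ha.1, ?_, ha.2.2⟩
  obtain ⟨i, r⟩ := a
  have h1 := i.isLt
  have h2 := r.isLt
  show (i : ℕ) * b + r < N * b
  have : ((i : ℕ) + 1) * b ≤ N * b := Nat.mul_le_mul_right _ h1
  nlinarith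

private theorem rk_zero {b N : ℕ} (P : Fin N × Fin b → Bool) : rk (bpos b) P 0 = 0 := by
  unfold rk
  rw [Finset.card_eq_zero, Finset.filter_eq_empty_iff]
  intro a _ h
  exact absurd h.1 (Nat.not_lt_zero _)

private theorem rk_step {b N : ℕ} (P : Fin N × Fin b → Bool) (i : ℕ) :
    rk (bpos b) P ((i + 1) * b) ≤ rk (bpos b) P (i * b) + b := by
  by_cases h : i < N
  · have h1 := rk_block P ⟨i, h⟩ b le_rfl
    have h2 := rk_val_le (fun ρ => P (⟨i, h⟩, ρ)) b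
    have h3 : (i + 1) * b = i * b + b := by ring
    rw [h3]
    simp only at h1
    rw [h1]
    exact Nat.add_le_add_left (h2.trans (min_le_left _ _)) _
  · have h1 : N * b ≤ i * b := Nat.mul_le_mul_right _ (not_lt.1 h)
    have h2 : N * b ≤ (i + 1) * b := Nat.mul_le_mul_right _ (by omega)
    rw [rk_end P _ h1, rk_end P _ h2]
    omega

private theorem rkF_eq (N : ℕ) (P : Fin N → Bool) (a : ℕ → ℕ) (h0 : a 0 = 0)
    (h1 : ∀ i, a i ≤ a (i + 1)) (h2 : ∀ i, a (i + 1) ≤ a i + 1)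
    (hP : ∀ i : Fin N, (i : ℕ) + 1 < N → (P i = true ↔ a i ≠ a (i + 1))) (q : ℕ) (hq : q < N) :
    rk Fin.val P q = a q := by
  induction q with
  | zero =>
    unfold rk
    rw [h0, card_eq_zero, filter_eq_empty_iff]
    intro i _ h
    exact absurd h.1 (Nat.not_lt_zero _)
  | succ q ih =>
    have ih := ih (by omega)
    unfold rk at ih ⊢
    by_cases hPq : P ⟨q, by omega⟩ = true
    · have h3 := (hP ⟨q, by omega⟩ hq).1 hPq
      have h4 : (univ.filter fun i : Fin N => i.val < q + 1 ∧ P i = true) =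
          insert (⟨q, by omega⟩ : Fin N) (univ.filter fun i : Fin N => i.val < q ∧ P i = true) := by
        ext i
        simp only [mem_filter, mem_univ, true_and, mem_insert, Fin.ext_iff]
        constructor
        · rintro ⟨h5, h6⟩
          by_cases h7 : i.val = q
          · exact Or.inl h7
          · exact Or.inr ⟨by omega, h6⟩
        · rintro (h5 | ⟨h5, h6⟩)
          · refine ⟨by omega, ?_⟩
            have h6 : i = ⟨q, by omega⟩ := Fin.ext h5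
            rw [h6]
            exact hPq
          · exact ⟨by omega, h6⟩
      rw [h4, card_insert_of_notMem, ih]
      · have h5 := h1 q
        have h6 := h2 q
        change a q ≠ a (q + 1) at h3
        omega
      · rw [mem_filter]
        rintro ⟨-, h5, -⟩
        exact lt_irrefl _ h5
    · have h3 : ¬ a q ≠ a (q + 1) := fun h => hPq ((hP ⟨q, by omega⟩ hq).2 h)
      have h4 : (univ.filter fun i : Fin N => i.val < q + 1 ∧ P i = true) =
          (univ.filter fun i : Fin N => i.val < q ∧ P i = true) := by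
        ext i
        simp only [mem_filter, mem_univ, true_and]
        constructor
        · rintro ⟨h5, h6⟩
          refine ⟨?_, h6⟩
          by_contra h7
          have h8 : i = ⟨q, by omega⟩ := Fin.ext (by change i.val = q; omega)
          rw [h8] at h6
          exact hPq h6
        · rintro ⟨h5, h6⟩
          exact ⟨by omega, h6⟩
      rw [h4, ih]
      exact not_not.1 h3

/-! ### The local circuit -/

private abbrev Lam (K γ : ℕ) : Type := (Fin K ⊕ Fin K) ⊕ (Fin (2 ^ γ) ⊕ Fin (2 ^ γ))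

private theorem loc (hA : S_Add) (hS : S_Sub) (hP : S_Split) :
    ∃ c : ℕ, ∀ γ K : ℕ, γ < K → ∃ L : (Lam K γ → Bool) → Fin K → Bool,
      Cx L (c * (2 ^ γ + (γ + 1) ^ 2 + K)) ∧
      ∀ (y : Lam K γ → Bool) (R J : ℕ), (∀ t : Fin K, y (Sum.inl (Sum.inl t)) = R.testBit t) →
        (∀ t : Fin K, y (Sum.inl (Sum.inr t)) = J.testBit t) → J < 2 ^ K → ∀ e : Fin K,
        L y e = (J + (univ.filter fun ρ : Fin (2 ^ γ) => y (Sum.inr (Sum.inl ρ)) = true ∧
          y (Sum.inr (Sum.inr ρ)) = true ∧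
          rk Fin.val (fun ρ => y (Sum.inr (Sum.inl ρ))) ρ < 2 ^ γ - R % 2 ^ γ).card).testBit e := by
  obtain ⟨cS, hS⟩ := hS
  obtain ⟨cP, hP⟩ := hP
  refine ⟨2 + cS + cP * 3 + 6, fun γ K hγ => ?_⟩
  -- the digits of `2 ^ γ` and of `R % 2 ^ γ`
  have h1 := Cx.layer (ι := Lam K γ) (κ := Fin (γ + 1) ⊕ Fin (γ + 1))
    (fun j u _ => Sum.elim (fun t : Fin (γ + 1) => decide ((t : ℕ) = γ))
      (fun t : Fin (γ + 1) => u && decide ((t : ℕ) < γ)) j)
    (Sum.elim (fun _ => Sum.inl (Sum.inl ⟨0, by omega⟩))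
      (fun t => Sum.inl (Sum.inl ⟨t, by omega⟩)))
    (fun _ => Sum.inl (Sum.inl ⟨0, by omega⟩))
  have h2 := (h1.comp (hS (γ + 1) (Nat.succ_pos _))).out (Sum.inr : Fin (γ + 1) → Unit ⊕ Fin (γ + 1))
  have h3 := (h2.pair (Cx.proj (Sum.inr : Fin (2 ^ γ) ⊕ Fin (2 ^ γ) → Lam K γ))).comp
    (hP γ (γ + 1) (Nat.succ_pos _))
  have h4 := h3.comp (Cx.layer (κ := Fin K) (fun t u _ => u && decide ((t : ℕ) < γ + 1))
    (fun t => (⟨min t γ, by omega⟩ : Fin (γ + 1))) (fun t => (⟨min t γ, by omega⟩ : Fin (γ + 1))))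
  have h5 := ((Cx.proj (fun t => Sum.inl (Sum.inr t) : Fin K → Lam K γ)).pair h4).comp (hA K)
  refine ⟨_, h5.mono ?_, ?_⟩
  · rw [Fintype.card_sum, Fintype.card_fin, Fintype.card_fin]
    have e1 : (γ + 1) * (γ + 1 + γ + 1) = 2 * (γ + 1) ^ 2 := by ring
    rw [e1]
    have e2 : γ + 1 ≤ (γ + 1) ^ 2 := by nlinarith
    have e3 : cS * (γ + 1) ≤ cS * (γ + 1) ^ 2 := Nat.mul_le_mul_left _ e2
    nlinarith [Nat.zero_le (cS * 2 ^ γ), Nat.zero_le (cS * K), Nat.zero_le (cP * K),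
      Nat.zero_le (cP * 2 ^ γ), Nat.zero_le (cP * (γ + 1) ^ 2), Nat.zero_le (2 ^ γ)]
  · intro y R J hR hJ hJK e
    have hlt : R % 2 ^ γ < 2 ^ γ := Nat.mod_lt _ (Nat.two_pow_pos γ)
    have hpow : (2 : ℕ) ^ (γ + 1) = 2 ^ γ + 2 ^ γ := by ring
    have na : num (fun t : Fin (γ + 1) => decide ((t : ℕ) = γ)) = 2 ^ γ := by
      have : (fun t : Fin (γ + 1) => decide ((t : ℕ) = γ)) =
          fun t : Fin (γ + 1) => (2 ^ γ).testBit t := by
        funext t
        rw [Nat.testBit_two_pow]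
        exact decide_eq_decide.2 eq_comm
      rw [this, num_testBit_mod, Nat.mod_eq_of_lt (by rw [hpow]; have := Nat.two_pow_pos γ; omega)]
    have nb : num (fun t : Fin (γ + 1) => R.testBit t && decide ((t : ℕ) < γ)) = R % 2 ^ γ := by
      have : (fun t : Fin (γ + 1) => R.testBit t && decide ((t : ℕ) < γ)) =
          fun t : Fin (γ + 1) => (R % 2 ^ γ).testBit t := by
        funext t
        rw [Nat.testBit_mod_two_pow, Bool.and_comm]
      rw [this, num_testBit_mod, Nat.mod_eq_of_lt (by rw [hpow]; omega)]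
    have nk : num (fun t : Fin (γ + 1) => (2 ^ γ - R % 2 ^ γ).testBit t) = 2 ^ γ - R % 2 ^ γ := by
      rw [num_testBit_mod, Nat.mod_eq_of_lt (by rw [hpow]; have := Nat.two_pow_pos γ; omega)]
    set cnt := (univ.filter fun ρ : Fin (2 ^ γ) => y (Sum.inr (Sum.inl ρ)) = true ∧
          y (Sum.inr (Sum.inr ρ)) = true ∧
          rk Fin.val (fun ρ => y (Sum.inr (Sum.inl ρ))) ρ < 2 ^ γ - R % 2 ^ γ).card with hcnt
    have hcl : cnt < 2 ^ (γ + 1) := by
      have : cnt ≤ 2 ^ γ := by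
        rw [hcnt]
        refine (card_le_univ _).trans (le_of_eq ?_)
        rw [Fintype.card_fin]
      rw [hpow]
      have := Nat.two_pow_pos γ
      omega
    have hcK : cnt < 2 ^ K := lt_of_lt_of_le hcl (Nat.pow_le_pow_right (by norm_num) hγ)
    -- the output of the subtraction
    have s1 : ∀ t : Fin (γ + 1), Sum.elim (fun _ : Unit =>
        decide (num (fun t : Fin (γ + 1) => y (Sum.inl (Sum.inl ⟨t, by omega⟩)) &&
          decide ((t : ℕ) < γ)) ≤ num (fun t : Fin (γ + 1) => decide ((t : ℕ) = γ))))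
        (fun t : Fin (γ + 1) => (num (fun t : Fin (γ + 1) => decide ((t : ℕ) = γ)) -
          num (fun t : Fin (γ + 1) => y (Sum.inl (Sum.inl ⟨t, by omega⟩)) &&
          decide ((t : ℕ) < γ))).testBit t) (Sum.inr t) = (2 ^ γ - R % 2 ^ γ).testBit t := by
      intro t
      have : (fun t : Fin (γ + 1) => y (Sum.inl (Sum.inl ⟨t, by omega⟩)) &&
          decide ((t : ℕ) < γ)) = fun t : Fin (γ + 1) => R.testBit t && decide ((t : ℕ) < γ) := by
        funext t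
        rw [hR]
      rw [this, na, nb]
      rfl
    show (num (fun t : Fin K => y (Sum.inl (Sum.inr t))) + num (fun t : Fin K =>
      ((univ.filter fun ρ : Fin (2 ^ γ) => y (Sum.inr (Sum.inl ρ)) = true ∧
          y (Sum.inr (Sum.inr ρ)) = true ∧
          rk Fin.val (fun ρ => y (Sum.inr (Sum.inl ρ))) ρ < num (fun t : Fin (γ + 1) =>
          Sum.elim (fun _ : Unit =>
        decide (num (fun t : Fin (γ + 1) => y (Sum.inl (Sum.inl ⟨t, by omega⟩)) &&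
          decide ((t : ℕ) < γ)) ≤ num (fun t : Fin (γ + 1) => decide ((t : ℕ) = γ))))
        (fun t : Fin (γ + 1) => (num (fun t : Fin (γ + 1) => decide ((t : ℕ) = γ)) -
          num (fun t : Fin (γ + 1) => y (Sum.inl (Sum.inl ⟨t, by omega⟩)) &&
          decide ((t : ℕ) < γ))).testBit t) (Sum.inr t))).card).testBit (min (t : ℕ) γ) &&
        decide ((t : ℕ) < γ + 1))).testBit e = _
    have s2 : num (fun t : Fin (γ + 1) =>
          Sum.elim (fun _ : Unit =>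
        decide (num (fun t : Fin (γ + 1) => y (Sum.inl (Sum.inl ⟨t, by omega⟩)) &&
          decide ((t : ℕ) < γ)) ≤ num (fun t : Fin (γ + 1) => decide ((t : ℕ) = γ))))
        (fun t : Fin (γ + 1) => (num (fun t : Fin (γ + 1) => decide ((t : ℕ) = γ)) -
          num (fun t : Fin (γ + 1) => y (Sum.inl (Sum.inl ⟨t, by omega⟩)) &&
          decide ((t : ℕ) < γ))).testBit t) (Sum.inr t)) = 2 ^ γ - R % 2 ^ γ := by
      rw [← nk]
      congr 1
      funext t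
      exact s1 t
    rw [s2, ← hcnt]
    have s3 : (fun t : Fin K => cnt.testBit (min (t : ℕ) γ) && decide ((t : ℕ) < γ + 1)) =
        fun t : Fin K => cnt.testBit t := by
      funext t
      by_cases ht : (t : ℕ) < γ + 1
      · rw [Nat.min_eq_left (by omega), decide_eq_true ht, Bool.and_true]
      · rw [decide_eq_false ht, Bool.and_false, Nat.testBit_lt_two_pow
          (lt_of_lt_of_le hcl (Nat.pow_le_pow_right (by norm_num) (by omega)))]
    have s4 : (fun t : Fin K => y (Sum.inl (Sum.inr t))) = fun t : Fin K => J.testBit t :=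
      funext hJ
    rw [s3, s4, num_testBit_mod, num_testBit_mod, Nat.mod_eq_of_lt hJK, Nat.mod_eq_of_lt hcK]

/-! ### Facts about the ranks -/

section Facts

variable {σ γ : ℕ}

private def Rn (x : Fin 2 × (Fin (2 ^ σ) × Fin (2 ^ γ)) → Bool) (i : ℕ) : ℕ :=
  rk (bpos (2 ^ γ)) (fun p => x (0, p)) (i * 2 ^ γ)

private def Jn (x : Fin 2 × (Fin (2 ^ σ) × Fin (2 ^ γ)) → Bool) (i : ℕ) : ℕ :=
  rk (bpos (2 ^ γ)) (fun p => x (0, p) && x (1, p)) (i * 2 ^ γ)

private def In (x : Fin 2 × (Fin (2 ^ σ) × Fin (2 ^ γ)) → Bool) (a : ℕ) : ℕ :=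
  (univ.filter fun p : Fin (2 ^ σ) × Fin (2 ^ γ) => x (0, p) = true ∧ x (1, p) = true ∧
        rk (bpos (2 ^ γ)) (fun p => x (0, p)) (bpos (2 ^ γ) p) < a * 2 ^ γ).card

private def fx (x : Fin 2 × (Fin (2 ^ σ) × Fin (2 ^ γ)) → Bool) (s : Fin (2 ^ σ)) : Bool :=
  xor ((Rn x s).testBit γ) ((Rn x (s + 1)).testBit γ)

private theorem b_zero (x : Fin 2 × (Fin (2 ^ σ) × Fin (2 ^ γ)) → Bool) : Rn x 0 / 2 ^ γ = 0 := by
  unfold Rn
  rw [Nat.zero_mul, rk_zero, Nat.zero_div]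

private theorem b_mono (x : Fin 2 × (Fin (2 ^ σ) × Fin (2 ^ γ)) → Bool) :
    Monotone fun i => Rn x i / 2 ^ γ := fun _ _ h =>
  Nat.div_le_div_right (rk_mono _ _ (Nat.mul_le_mul_right _ h))

private theorem b_step (x : Fin 2 × (Fin (2 ^ σ) × Fin (2 ^ γ)) → Bool) (i : ℕ) :
    Rn x (i + 1) / 2 ^ γ ≤ Rn x i / 2 ^ γ + 1 := by
  rw [← Nat.add_div_right _ (Nat.two_pow_pos γ)]
  exact Nat.div_le_div_right (rk_step _ i)

private theorem fx_iff (x : Fin 2 × (Fin (2 ^ σ) × Fin (2 ^ γ)) → Bool) (s : Fin (2 ^ σ)) :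
    fx x s = true ↔ Rn x (s + 1) / 2 ^ γ = Rn x s / 2 ^ γ + 1 := by
  unfold fx
  rw [Nat.testBit_eq_decide_div_mod_eq, Nat.testBit_eq_decide_div_mod_eq]
  have h3 := b_mono x (Nat.le_succ (s : ℕ))
  have h4 := b_step x s
  have h3' : Rn x s / 2 ^ γ ≤ Rn x (s + 1) / 2 ^ γ := h3
  generalize Rn x s / 2 ^ γ = u at *
  generalize Rn x (s + 1) / 2 ^ γ = v at *
  by_cases h5 : u % 2 = 1
  · by_cases h6 : v % 2 = 1
    · simp only [h5, h6, decide_true, Bool.xor_self, Bool.false_eq_true, false_iff]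
      omega
    · simp only [h5, h6, decide_true, decide_false, Bool.xor_false, true_iff]
      omega
  · by_cases h6 : v % 2 = 1
    · simp only [h5, h6, decide_true, decide_false, Bool.xor_true, Bool.not_false, true_iff]
      omega
    · simp only [h5, h6, decide_false, Bool.xor_self, Bool.false_eq_true, false_iff]
      omega

private theorem rk_fx (x : Fin 2 × (Fin (2 ^ σ) × Fin (2 ^ γ)) → Bool) (s : Fin (2 ^ σ)) :
    rk Fin.val (fx x) s = Rn x s / 2 ^ γ := by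
  refine rkF_eq (2 ^ σ) (fx x) (fun i => Rn x i / 2 ^ γ) (b_zero x)
    (fun i => b_mono x (Nat.le_succ i)) (b_step x) (fun i _ => ?_) s s.isLt
  rw [fx_iff]
  have h3 : Rn x i / 2 ^ γ ≤ Rn x (i + 1) / 2 ^ γ := b_mono x (Nat.le_succ (i : ℕ))
  have h4 := b_step x i
  change Rn x (i + 1) / 2 ^ γ = Rn x i / 2 ^ γ + 1 ↔ Rn x i / 2 ^ γ ≠ Rn x (i + 1) / 2 ^ γ
  omega

private theorem cmp_fx (x : Fin 2 × (Fin (2 ^ σ) × Fin (2 ^ γ)) → Bool) (g : Fin (2 ^ σ) → Bool)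
    (j : ℕ) : cmp Fin.val (fx x) g j = true ↔
      ∃ s, fx x s = true ∧ g s = true ∧ Rn x s / 2 ^ γ = j := by
  unfold cmp
  refine (dec_iff _).trans (exists_congr fun s => ?_)
  rw [rk_fx]

private theorem s_unique (x : Fin 2 × (Fin (2 ^ σ) × Fin (2 ^ γ)) → Bool) (s s' : Fin (2 ^ σ))
    (h : fx x s = true) (h' : fx x s' = true) (e : Rn x s / 2 ^ γ = Rn x s' / 2 ^ γ) :
    s = s' := by
  rw [fx_iff] at h h'
  rcases lt_trichotomy (s : ℕ) s' with hlt | heq | hgt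
  · have : Rn x (s + 1) / 2 ^ γ ≤ Rn x s' / 2 ^ γ := b_mono x (show (s : ℕ) + 1 ≤ s' from hlt)
    omega
  · exact Fin.ext heq
  · have : Rn x (s' + 1) / 2 ^ γ ≤ Rn x s / 2 ^ γ := b_mono x (show (s' : ℕ) + 1 ≤ s from hgt)
    omega

private theorem s_exists (x : Fin 2 × (Fin (2 ^ σ) × Fin (2 ^ γ)) → Bool) (j : ℕ)
    (h : j + 1 ≤ Rn x (2 ^ σ) / 2 ^ γ) : ∃ s, fx x s = true ∧ Rn x s / 2 ^ γ = j := by
  classical
  have hex : ∃ i, j + 1 ≤ Rn x i / 2 ^ γ := ⟨_, h⟩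
  have h1 := Nat.find_spec hex
  have h2 : Nat.find hex ≤ 2 ^ σ := Nat.find_min' hex h
  have h3 : Nat.find hex ≠ 0 := by
    intro h0
    rw [h0, b_zero] at h1
    omega
  obtain ⟨i, hi⟩ := Nat.exists_eq_succ_of_ne_zero h3
  rw [hi] at h1 h2
  have h4 := Nat.find_min hex (m := i) (by rw [hi]; exact Nat.lt_succ_self i)
  have h5 := b_step x i
  have h1' : j + 1 ≤ Rn x (i + 1) / 2 ^ γ := h1
  refine ⟨⟨i, h2⟩, (fx_iff x _).2 ?_, ?_⟩
  · show Rn x (i + 1) / 2 ^ γ = Rn x i / 2 ^ γ + 1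
    omega
  · show Rn x i / 2 ^ γ = j
    omega

private theorem Jn_le (x : Fin 2 × (Fin (2 ^ σ) × Fin (2 ^ γ)) → Bool) (i : ℕ) :
    Jn x i < 2 ^ (σ + γ + 1) := by
  have : Jn x i ≤ 2 ^ (σ + γ) := by
    unfold Jn rk
    refine (card_le_univ _).trans (le_of_eq ?_)
    rw [Fintype.card_prod, Fintype.card_fin, Fintype.card_fin, ← Nat.pow_add]
  have h2 : (2 : ℕ) ^ (σ + γ + 1) = 2 ^ (σ + γ) + 2 ^ (σ + γ) := by ring
  have := Nat.two_pow_pos (σ + γ)
  omega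

private theorem In_last (x : Fin 2 × (Fin (2 ^ σ) × Fin (2 ^ γ)) → Bool) (a : ℕ)
    (h : Rn x (2 ^ σ) / 2 ^ γ < a) : In x a = Jn x (2 ^ σ) := by
  unfold In Jn rk
  congr 1
  ext p
  rw [mem_filter, mem_filter]
  have hlt : bpos (2 ^ γ) p < 2 ^ σ * 2 ^ γ := by
    have h1 := p.1.isLt
    have h2 := p.2.isLt
    show (p.1 : ℕ) * 2 ^ γ + p.2 < 2 ^ σ * 2 ^ γ
    have : ((p.1 : ℕ) + 1) * 2 ^ γ ≤ 2 ^ σ * 2 ^ γ := Nat.mul_le_mul_right _ h1
    rw [Nat.add_mul, Nat.one_mul] at this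
    omega
  constructor
  · rintro ⟨_, h1, h2, _⟩
    exact ⟨mem_univ _, hlt, Bool.and_eq_true_iff.2 ⟨h1, h2⟩⟩
  · rintro ⟨_, _, h2⟩
    obtain ⟨h3, h4⟩ := Bool.and_eq_true_iff.1 h2
    refine ⟨mem_univ _, h3, h4, ?_⟩
    have h5 : rk (bpos (2 ^ γ)) (fun p => x (0, p)) (bpos (2 ^ γ) p) ≤ Rn x (2 ^ σ) :=
      rk_mono _ _ hlt.le
    have h6 : Rn x (2 ^ σ) < a * 2 ^ γ := (Nat.div_lt_iff_lt_mul (Nat.two_pow_pos γ)).1 h
    exact lt_of_le_of_lt h5 h6

private theorem In_eq (x : Fin 2 × (Fin (2 ^ σ) × Fin (2 ^ γ)) → Bool) (s : Fin (2 ^ σ))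
    (h : fx x s = true) : In x (Rn x s / 2 ^ γ + 1) = Jn x s +
      (univ.filter fun ρ : Fin (2 ^ γ) => x (0, (s, ρ)) = true ∧ x (1, (s, ρ)) = true ∧
        rk Fin.val (fun ρ => x (0, (s, ρ))) ρ < 2 ^ γ - Rn x s % 2 ^ γ).card := by
  classical
  rw [fx_iff] at h
  have hdm := Nat.div_add_mod (Rn x s) (2 ^ γ)
  have hml := Nat.mod_lt (Rn x s) (Nat.two_pow_pos γ)
  have hR1 : (Rn x s / 2 ^ γ + 1) * 2 ^ γ ≤ Rn x (s + 1) := by
    rw [← h]
    exact Nat.div_mul_le_self _ _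
  have hR0 : Rn x s < (Rn x s / 2 ^ γ + 1) * 2 ^ γ := by
    rw [Nat.add_mul, Nat.one_mul, Nat.mul_comm (Rn x s / 2 ^ γ)]
    omega
  have e1 : (univ.filter fun ρ : Fin (2 ^ γ) => x (0, (s, ρ)) = true ∧ x (1, (s, ρ)) = true ∧
        rk Fin.val (fun ρ => x (0, (s, ρ))) ρ < 2 ^ γ - Rn x s % 2 ^ γ).card =
      ((univ.filter fun ρ : Fin (2 ^ γ) => x (0, (s, ρ)) = true ∧ x (1, (s, ρ)) = true ∧
        rk Fin.val (fun ρ => x (0, (s, ρ))) ρ < 2 ^ γ - Rn x s % 2 ^ γ).image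
        fun ρ => (s, ρ)).card := by
    rw [card_image_of_injective]
    intro r r' h
    exact (Prod.mk.injEq _ _ _ _ ▸ h).2
  rw [e1]
  unfold In Jn rk
  rw [← card_union_of_disjoint]
  · congr 1
    ext ⟨i, ρ⟩
    simp only [mem_filter, mem_univ, true_and, mem_union, mem_image, Bool.and_eq_true]
    have hρ := ρ.isLt
    have hrb := rk_block (fun p => x (0, p)) i ρ hρ.le
    have hbp : bpos (2 ^ γ) (i, ρ) = (i : ℕ) * 2 ^ γ + ρ := rfl
    constructor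
    · rintro ⟨h1, h2, h3⟩
      rcases lt_trichotomy (i : ℕ) s with hlt | heq | hgt
      · refine Or.inl ⟨?_, h1, h2⟩
        rw [hbp]
        have : ((i : ℕ) + 1) * 2 ^ γ ≤ s * 2 ^ γ := Nat.mul_le_mul_right _ hlt
        rw [Nat.add_mul, Nat.one_mul] at this
        omega
      · have hi : i = s := Fin.ext heq
        subst hi
        refine Or.inr ⟨ρ, ⟨h1, h2, ?_⟩, rfl⟩
        have h4 : rk (bpos (2 ^ γ)) (fun p => x (0, p)) (bpos (2 ^ γ) (i, ρ)) =
          Rn x i + rk Fin.val (fun ρ => x (0, (i, ρ))) ρ := hrb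
        have h3' : rk (bpos (2 ^ γ)) (fun p => x (0, p)) (bpos (2 ^ γ) (i, ρ)) <
          (Rn x i / 2 ^ γ + 1) * 2 ^ γ := h3
        rw [h4, Nat.add_mul, Nat.one_mul, Nat.mul_comm (Rn x i / 2 ^ γ)] at h3'
        have h5 : rk Fin.val (fun ρ => x (0, (i, ρ))) ρ < 2 ^ γ - Rn x i % 2 ^ γ := by omega
        exact h5
      · exfalso
        have h4 : Rn x (s + 1) ≤ rk (bpos (2 ^ γ)) (fun p => x (0, p)) (bpos (2 ^ γ) (i, ρ)) := by
          refine rk_mono _ _ ?_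
          rw [hbp]
          exact (Nat.mul_le_mul_right _ hgt).trans (Nat.le_add_right _ _)
        have h3' : rk (bpos (2 ^ γ)) (fun p => x (0, p)) (bpos (2 ^ γ) (i, ρ)) <
          (Rn x s / 2 ^ γ + 1) * 2 ^ γ := h3
        omega
    · rintro (⟨h1, h2, h3⟩ | ⟨r, ⟨h1, h2, h3⟩, he⟩)
      · refine ⟨h2, h3, ?_⟩
        have h4 : rk (bpos (2 ^ γ)) (fun p => x (0, p)) (bpos (2 ^ γ) (i, ρ)) ≤ Rn x s :=
          rk_mono _ _ h1.le
        exact lt_of_le_of_lt h4 hR0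
      · obtain ⟨rfl, rfl⟩ : s = i ∧ r = ρ := ⟨congrArg Prod.fst he, congrArg Prod.snd he⟩
        refine ⟨h1, h2, ?_⟩
        have h4 : rk (bpos (2 ^ γ)) (fun p => x (0, p)) (bpos (2 ^ γ) (s, r)) =
          Rn x s + rk Fin.val (fun ρ => x (0, (s, ρ))) r := hrb
        have h3' : rk Fin.val (fun ρ => x (0, (s, ρ))) r < 2 ^ γ - Rn x s % 2 ^ γ := h3
        have h5 : rk (bpos (2 ^ γ)) (fun p => x (0, p)) (bpos (2 ^ γ) (s, r)) <
          (Rn x s / 2 ^ γ + 1) * 2 ^ γ := by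
          rw [h4, Nat.add_mul, Nat.one_mul, Nat.mul_comm (Rn x s / 2 ^ γ)]
          omega
        exact h5
  · rw [disjoint_left]
    rintro ⟨i, ρ⟩ h1 h2
    simp only [mem_filter, mem_univ, true_and, mem_image, Prod.mk.injEq] at h1 h2
    obtain ⟨r, -, rfl, rfl⟩ := h2
    have : bpos (2 ^ γ) (s, r) < s * 2 ^ γ := h1.1
    have e : bpos (2 ^ γ) (s, r) = (s : ℕ) * 2 ^ γ + r := rfl
    omega

end Facts

/-! ### The circuit -/

private abbrev Xi (σ γ : ℕ) : Type := (Fin 2 × (Fin (2 ^ σ) × Fin (2 ^ γ))) ⊕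
  ((Fin (2 ^ σ + 1) × Fin (σ + γ + 1)) ⊕ (Fin (2 ^ σ + 1) × Fin (σ + γ + 1)))

private def mu1 {σ γ : ℕ} (s : Fin (2 ^ σ)) : Lam (σ + γ + 1) γ → Xi σ γ :=
  Sum.elim (Sum.elim (fun t => Sum.inr (Sum.inl (s.castSucc, t)))
      (fun t => Sum.inr (Sum.inr (s.castSucc, t))))
    (Sum.elim (fun ρ => Sum.inl (0, (s, ρ))) (fun ρ => Sum.inl (1, (s, ρ))))

private def nu1 {σ γ : ℕ} (a : Option (Fin (σ + γ + 1))) : Fin (2 ^ σ) ⊕ Fin (2 ^ σ) →
    Xi σ γ ⊕ (Fin (2 ^ σ) ⊕ (Fin (2 ^ σ) × Fin (σ + γ + 1))) :=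
  Sum.elim (fun s => Sum.inr (Sum.inl s))
    (fun s => match a with
      | none => Sum.inr (Sum.inl s)
      | some e => Sum.inr (Sum.inr (s, e)))

private def pr1 {n : ℕ} (a : Fin (2 ^ n + 1)) : Fin (2 ^ n) :=
  ⟨(a : ℕ) - 1, by have := a.isLt; have := Nat.two_pow_pos n; omega⟩

private def stA {σ γ : ℕ} (x : Fin 2 × (Fin (2 ^ σ) × Fin (2 ^ γ)) → Bool) : Xi σ γ → Bool :=
  Sum.elim x (Sum.elim (fun q => (Rn x q.1).testBit q.2) (fun q => (Jn x q.1).testBit q.2))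

private def FP {σ γ : ℕ} (L : (Lam (σ + γ + 1) γ → Bool) → Fin (σ + γ + 1) → Bool)
    (x : Fin 2 × (Fin (2 ^ σ) × Fin (2 ^ γ)) → Bool) (q : Fin (2 ^ σ + 1) × Fin (σ + γ + 1)) :
    Bool :=
  decide ((q.1 : ℕ) ≠ 0) && (cmp Fin.val (fx x) (fun s => L (fun i => stA x (mu1 s i)) q.2)
    (pr1 q.1) || (!cmp Fin.val (fx x) (fx x) (pr1 q.1) && (Jn x (2 ^ σ)).testBit q.2))

private theorem cx_A (hP : S_Pre) : ∃ c : ℕ, ∀ σ γ : ℕ,
    Cx (stA : (Fin 2 × (Fin (2 ^ σ) × Fin (2 ^ γ)) → Bool) → Xi σ γ → Bool)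
      (c * (2 ^ σ * (2 ^ γ + σ + 1))) := by
  obtain ⟨c, hP⟩ := hP
  refine ⟨2 * c + 1, fun σ γ => ?_⟩
  have a1 := (hP γ σ).inp (fun p => ((0 : Fin 2), p))
  have a2 := (Cx.layer (ι := Fin 2 × (Fin (2 ^ σ) × Fin (2 ^ γ)))
    (κ := Fin (2 ^ σ) × Fin (2 ^ γ)) (fun _ => and) (fun p => (0, p)) (fun p => (1, p))).comp
    (hP γ σ)
  have a3 := (a1.pair a2).keep
  refine (a3.mono ?_).congr fun x j => ?_
  · rw [Fintype.card_prod, Fintype.card_fin, Fintype.card_fin]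
    have e : (2 * c + 1) * (2 ^ σ * (2 ^ γ + σ + 1)) = 2 ^ σ * 2 ^ γ + 2 ^ σ * (σ + 1) +
      (c * (2 ^ σ * (2 ^ γ + σ + 1)) + c * (2 ^ σ * (2 ^ γ + σ + 1))) := by ring
    rw [e]
    have := Nat.zero_le (2 ^ σ * (σ + 1))
    omega
  · rcases j with j | j | j <;> rfl

private theorem size_aux (A G c cL σ γ : ℕ) (hA1 : 0 < A) :
    c * (A * (G + σ + 1)) + (A + A * (cL * (G + (γ + 1) ^ 2 + (σ + γ + 1)))) +
      ((σ + γ + 1 + 1) * (8 * (σ + 1) * A) + (A * (σ + γ + 1) + (A + 1) * (σ + γ + 1))) ≤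
      (c + 30 + 3 * cL) * (A * G + (σ + γ + 1) ^ 2 * A) := by
  have q3 : σ + γ + 1 ≤ (σ + γ + 1) ^ 2 := Nat.le_self_pow (by norm_num) _
  have q1 : σ + 1 ≤ (σ + γ + 1) ^ 2 := le_trans (by omega) q3
  have q2 : (γ + 1) ^ 2 ≤ (σ + γ + 1) ^ 2 := Nat.pow_le_pow_left (by omega) 2
  have q4 : (σ + γ + 1 + 1) * (8 * (σ + 1)) ≤ 16 * (σ + γ + 1) ^ 2 :=
    (Nat.mul_le_mul (by omega : σ + γ + 1 + 1 ≤ 2 * (σ + γ + 1))
      (by omega : 8 * (σ + 1) ≤ 8 * (σ + γ + 1))).trans (le_of_eq (by ring))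
  generalize (σ + γ + 1) ^ 2 = B at *
  have r1 : c * (A * (G + σ + 1)) ≤ c * (A * G + B * A) := by
    refine Nat.mul_le_mul_left _ ?_
    nlinarith
  have r2 : A * (cL * (G + (γ + 1) ^ 2 + (σ + γ + 1))) ≤ 3 * cL * (A * G + B * A) := by
    have : A * (cL * (G + (γ + 1) ^ 2 + (σ + γ + 1))) ≤ A * (cL * (G + B + B)) :=
      Nat.mul_le_mul_left _ (Nat.mul_le_mul_left _ (by omega))
    refine this.trans ?_
    have e : 3 * cL * (A * G + B * A) = A * (cL * (G + B + B)) +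
      cL * (2 * (A * G) + A * B) := by ring
    rw [e]
    exact Nat.le_add_right _ _
  have r3 : (σ + γ + 1 + 1) * (8 * (σ + 1) * A) ≤ 16 * (B * A) := by
    have : (σ + γ + 1 + 1) * (8 * (σ + 1) * A) = (σ + γ + 1 + 1) * (8 * (σ + 1)) * A := by ring
    rw [this]
    have := Nat.mul_le_mul_right A q4
    nlinarith
  have r4 : A * (σ + γ + 1) ≤ B * A := by nlinarith
  have r5 : (A + 1) * (σ + γ + 1) ≤ 2 * (B * A) := by nlinarith
  have r6 : A ≤ B * A := by nlinarith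
  have e : (c + 30 + 3 * cL) * (A * G + B * A) =
    c * (A * G + B * A) + 3 * cL * (A * G + B * A) + 30 * (A * G + B * A) := by ring
  rw [e]
  have := Nat.zero_le (A * G)
  omega

private theorem cx_FP (hP : S_Pre) (hN : S_Naive) : ∃ c : ℕ, ∀ (σ γ cL : ℕ)
    (L : (Lam (σ + γ + 1) γ → Bool) → Fin (σ + γ + 1) → Bool),
    Cx L (cL * (2 ^ γ + (γ + 1) ^ 2 + (σ + γ + 1))) →
    Cx (FP (σ := σ) L) ((c + 3 * cL) * (2 ^ (σ + γ) + (σ + γ + 1) ^ 2 * 2 ^ σ)) := by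
  obtain ⟨c, hA⟩ := cx_A hP
  refine ⟨c + 30, fun σ γ cL L hL => ?_⟩
  have b1 := Cx.fam (fun (s : Fin (2 ^ σ)) (z : Xi σ γ → Bool) => L (fun i => z (mu1 s i)))
    (fun _ => cL * (2 ^ γ + (γ + 1) ^ 2 + (σ + γ + 1))) (fun s => hL.inp (mu1 s))
  have b2 := Cx.layer (ι := Xi σ γ) (κ := Fin (2 ^ σ)) (fun _ => xor)
    (fun s => Sum.inr (Sum.inl (s.castSucc, ⟨γ, by omega⟩)))
    (fun s => Sum.inr (Sum.inl (s.succ, ⟨γ, by omega⟩)))
  have b3 := (b2.pair b1).keep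
  have c1 := Cx.fam (fun (a : Option (Fin (σ + γ + 1)))
    (z : Xi σ γ ⊕ (Fin (2 ^ σ) ⊕ (Fin (2 ^ σ) × Fin (σ + γ + 1))) → Bool) (j : Fin (2 ^ σ)) =>
      cmp Fin.val (fun i => z (nu1 a (Sum.inl i))) (fun i => z (nu1 a (Sum.inr i))) j)
    (fun _ => 8 * (σ + 1) * 2 ^ σ) (fun a => (hN σ).inp (nu1 a))
  have c2 := c1.keep
  have d1 := Cx.layer (ι := (Xi σ γ ⊕ (Fin (2 ^ σ) ⊕ (Fin (2 ^ σ) × Fin (σ + γ + 1)))) ⊕
      (Option (Fin (σ + γ + 1)) × Fin (2 ^ σ))) (κ := Fin (2 ^ σ) × Fin (σ + γ + 1))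
    (fun _ u w => !u && w) (fun p => Sum.inr (none, p.1))
    (fun p => Sum.inl (Sum.inl (Sum.inr (Sum.inr (Fin.last _, p.2)))))
  have d2 := (d1.keep).comp (Cx.layer (κ := Fin (2 ^ σ + 1) × Fin (σ + γ + 1))
    (fun q u w => decide ((q.1 : ℕ) ≠ 0) && (u || w))
    (fun q => Sum.inl (Sum.inr (some q.2, pr1 q.1))) (fun q => Sum.inr (pr1 q.1, q.2)))
  have e1 := ((hA σ γ).comp b3).comp (c2.comp d2)
  refine (e1.mono ?_).congr fun x q => ?_
  · rw [sum_const, sum_const, card_univ, card_univ, Fintype.card_option, Fintype.card_prod,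
      Fintype.card_prod, Fintype.card_fin, Fintype.card_fin, Fintype.card_fin, smul_eq_mul,
      smul_eq_mul, Nat.pow_add]
    exact size_aux (2 ^ σ) (2 ^ γ) c cL σ γ (Nat.two_pow_pos σ)
  · rfl

theorem tProf (h1 : S_Pre) (h2 : S_Split) (h3 : S_Sub) (h4 : S_Add) (h5 : S_Naive) :
    S_Prof := by
  obtain ⟨cL, hL⟩ := loc h4 h3 h2
  obtain ⟨c, hc⟩ := cx_FP h1 h5
  refine ⟨c + 3 * cL, fun σ γ => ?_⟩
  obtain ⟨L, hL1, hL2⟩ := hL γ (σ + γ + 1) (by omega)
  refine ⟨FP L, hc σ γ cL L hL1, fun x q => ?_⟩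
  obtain ⟨a, e⟩ := q
  have hv : ∀ s, fx x s = true → L (fun i => stA x (mu1 s i)) e =
      (In x (Rn x s / 2 ^ γ + 1)).testBit e := by
    intro s hs
    rw [hL2 (fun i => stA x (mu1 s i)) (Rn x s) (Jn x s) (fun _ => rfl) (fun _ => rfl)
      (Jn_le x s) e, In_eq x s hs]
    rfl
  show FP L x (a, e) = (In x a).testBit e
  unfold FP
  by_cases ha : (a : ℕ) = 0
  · rw [decide_eq_false (by simpa using ha), Bool.false_and]
    have h0 : In x a = 0 := by
      unfold In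
      rw [ha, card_eq_zero, filter_eq_empty_iff]
      rintro p _ ⟨_, _, h⟩
      rw [Nat.zero_mul] at h
      exact absurd h (Nat.not_lt_zero _)
    rw [h0, Nat.zero_testBit]
  · rw [decide_eq_true (show (a : ℕ) ≠ 0 from ha), Bool.true_and]
    have hpr : ((pr1 a : Fin (2 ^ σ)) : ℕ) = (a : ℕ) - 1 := rfl
    by_cases hE : (a : ℕ) ≤ Rn x (2 ^ σ) / 2 ^ γ
    · obtain ⟨s, hs, hb⟩ := s_exists x ((a : ℕ) - 1) (by omega)
      have hb1 : Rn x s / 2 ^ γ + 1 = a := by omega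
      have h6 : cmp Fin.val (fx x) (fx x) (pr1 a) = true := by
        rw [cmp_fx]
        exact ⟨s, hs, hs, hb⟩
      rw [h6, Bool.not_true, Bool.false_and, Bool.or_false, Bool.eq_iff_iff, cmp_fx, ← hb1,
        ← hv s hs]
      constructor
      · rintro ⟨s', hs', hL', hb'⟩
        have : s = s' := s_unique x s s' hs hs' (by rw [hb, hb', hpr])
        rw [this]
        exact hL'
      · intro h
        exact ⟨s, hs, h, by rw [hb, hpr]⟩
    · have hno : ∀ g, cmp Fin.val (fx x) g (pr1 a) = false := by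
        intro g
        rw [← Bool.not_eq_true, cmp_fx]
        rintro ⟨s, hs, _, hb⟩
        rw [fx_iff] at hs
        have h7 : Rn x (s + 1) / 2 ^ γ ≤ Rn x (2 ^ σ) / 2 ^ γ :=
          b_mono x (show (s : ℕ) + 1 ≤ 2 ^ σ from s.isLt)
        rw [hpr] at hb
        omega
      rw [hno, hno, Bool.false_or, Bool.not_false, Bool.true_and, In_last x a (not_le.1 hE)]

end Pool.Agent.Lin
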