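import Pool.Agent.Lib.MP_76b24b_lcM.Spec2

/-!
# MP_76b24b_lc, package M: numbers of tokens and destinations of the first chunks
-/

set_option autoImplicit false

namespace Pool.Agent.Lin

open Finset

private theorem qk_num' : ∀ (k m : ℕ), num (fun t : Fin k => m.testBit t) = m % 2 ^ k
  | 0, m => by simp [num, Nat.mod_one]
  | k + 1, m => by
    have ih := qk_num' k (m / 2)
    unfold num at ih ⊢
    rw [Fin.sum_univ_succ]
    have h1 : (if m.testBit ((0 : Fin (k + 1)) : ℕ) = true then 2 ^ ((0 : Fin (k + 1)) : ℕ) else 0) =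
        m % 2 := by
      simp only [Fin.val_zero, pow_zero, Nat.testBit_zero, decide_eq_true_eq]
      rcases Nat.mod_two_eq_zero_or_one m with h | h <;> simp [h]
    have h2 : (∑ i : Fin k, if m.testBit (i.succ : ℕ) = true then 2 ^ (i.succ : ℕ) else 0) =
        2 * ((m / 2) % 2 ^ k) := by
      rw [← ih, Finset.mul_sum]
      refine Finset.sum_congr rfl fun i _ => ?_
      rw [Fin.val_succ, Nat.testBit_succ, mul_ite, mul_zero, pow_succ, mul_comm]
    rw [h1, h2, pow_succ, mul_comm (2 ^ k) 2, Nat.mod_mul]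

private theorem qk_num (m k : ℕ) : num (fun t : Fin k => m.testBit t) = m % 2 ^ k :=
  qk_num' k m

private theorem qk_mono {I : ℕ → ℕ} (h : ∀ a, I a ≤ I (a + 1)) {a b : ℕ} (hab : a ≤ b) :
    I a ≤ I b := monotone_nat_of_le_succ h hab

theorem tQk (h1 : S_Sub) (h2 : S_Add) : S_Qk := by
  obtain ⟨c, hc⟩ := h1
  refine ⟨c + 6, fun σ γ l r hlr hr hσ => ?_⟩
  have hl : l ≤ γ := by omega
  let b1 : Fin (2 ^ σ) → Fin (2 ^ σ + 1) := fun a => ⟨a + 1, by have := a.2; omega⟩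
  let b0 : Fin (2 ^ σ) → Fin (2 ^ σ + 1) := fun a => ⟨a, by have := a.2; omega⟩
  let GA : Fin (2 ^ σ) → (Fin (2 ^ σ + 1) × Fin (σ + γ + 1) → Bool) → Fin (l + r) → Bool :=
    fun a x t => (num (fun t => x (b1 a, t)) - num (fun t => x (b0 a, t))).testBit t
  let GB : Fin (2 ^ σ) → (Fin (2 ^ σ + 1) × Fin (σ + γ + 1) → Bool) → Fin (σ + 1) → Bool :=
    fun a x t => (num (fun t : Fin (σ + 1) => (a : ℕ).testBit t) +
      num (fun t : Fin (σ + 1) => x (b0 a, ⟨l + t, by have := t.2; omega⟩))).testBit t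
  have hGA : ∀ a, Cx (GA a) (c * (σ + γ + 1)) := by
    intro a
    have e := ((hc (σ + γ + 1) (by omega)).inp (Sum.elim (fun t => (b1 a, t))
      (fun t => (b0 a, t)) : Fin (σ + γ + 1) ⊕ Fin (σ + γ + 1) →
        Fin (2 ^ σ + 1) × Fin (σ + γ + 1))).out
      (fun t : Fin (l + r) => (Sum.inr ⟨t, by have := t.2; omega⟩ : Unit ⊕ Fin (σ + γ + 1)))
    exact e.congr fun x t => rfl
  have hne : Nonempty (Fin (2 ^ σ + 1) × Fin (σ + γ + 1)) := ⟨(0, 0)⟩
  have hGB : ∀ a, Cx (GB a) (6 * (σ + 1)) := by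
    intro a
    have e := ((Cx.consts (ι := Fin (2 ^ σ + 1) × Fin (σ + γ + 1)) (κ := Fin (σ + 1))
      (fun t => (a : ℕ).testBit t)).pair (Cx.proj (fun t : Fin (σ + 1) =>
        ((b0 a, ⟨l + t, by have := t.2; omega⟩) : Fin (2 ^ σ + 1) × Fin (σ + γ + 1))))).comp
          (h2 (σ + 1))
    refine (e.mono ?_).congr fun x t => rfl
    rw [Fintype.card_fin]
    omega
  have hG := Cx.fam (fun (a : Fin (2 ^ σ)) x => Sum.elim (GA a x) (GB a x))
    (fun _ => c * (σ + γ + 1) + 6 * (σ + 1)) (fun a => (hGA a).pair (hGB a))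
  refine ⟨_, hG.mono ?_, fun I hI a => ⟨fun t => ?_, fun t => ?_⟩⟩
  · rw [Finset.sum_const, Finset.card_univ, Fintype.card_fin, smul_eq_mul]
    have e1 : c * (σ + γ + 1) + 6 * (σ + 1) ≤ (c + 6) * (σ + γ + 1) := by
      rw [Nat.add_mul]
      omega
    calc 2 ^ σ * (c * (σ + γ + 1) + 6 * (σ + 1)) ≤ 2 ^ σ * ((c + 6) * (σ + γ + 1)) :=
          Nat.mul_le_mul_left _ e1
      _ = (c + 6) * ((σ + γ + 1) * 2 ^ σ) := by ring
  · obtain ⟨-, hI1, -, hI3⟩ := hI
    have hbig : (2 : ℕ) ^ (σ - 13 + l) < 2 ^ (σ + γ + 1) :=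
      Nat.pow_lt_pow_right (by norm_num) (by omega)
    have ha := a.2
    have hb : ∀ b : ℕ, b ≤ 2 ^ σ → I b % 2 ^ (σ + γ + 1) = I b := by
      intro b hb
      apply Nat.mod_eq_of_lt
      have := qk_mono hI1 hb
      omega
    show (num (fun t : Fin (σ + γ + 1) => (I (a + 1)).testBit t) -
      num (fun t : Fin (σ + γ + 1) => (I a).testBit t)).testBit t = _
    rw [qk_num, qk_num, hb _ (by omega), hb _ (by omega)]
  · obtain ⟨-, hI1, -, hI3⟩ := hI
    have ha := a.2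
    have hIa : I a ≤ 2 ^ (σ - 13 + l) := (qk_mono hI1 ha.le).trans hI3
    have hdiv : I a / 2 ^ l < 2 ^ (σ + 1) := by
      have e1 : I a / 2 ^ l ≤ 2 ^ (σ - 13) := by
        rw [pow_add] at hIa
        exact Nat.div_le_of_le_mul (by rw [Nat.mul_comm]; exact hIa)
      have e2 : (2 : ℕ) ^ (σ - 13) < 2 ^ (σ + 1) := Nat.pow_lt_pow_right (by norm_num) (by omega)
      omega
    have ha' : (a : ℕ) < 2 ^ (σ + 1) := by
      rw [pow_succ]
      omega
    show (num (fun t : Fin (σ + 1) => (a : ℕ).testBit t) +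
      num (fun t : Fin (σ + 1) => (I a).testBit (l + t))).testBit t = _
    have e3 : (fun t : Fin (σ + 1) => (I a).testBit (l + t)) =
        fun t : Fin (σ + 1) => (I a / 2 ^ l).testBit t := by
      funext t
      rw [Nat.testBit_div_two_pow, Nat.add_comm]
    rw [e3, qk_num, qk_num, Nat.mod_eq_of_lt ha', Nat.mod_eq_of_lt hdiv]

end Pool.Agent.Lin
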