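import Pool.Agent.Lib.MP_76b24b_lcM.Spec2

/-!
# MP_76b24b_lc, package M: ranks of the tokens in the sorted array of chunks
-/

set_option autoImplicit false

namespace Pool.Agent.Lin

open Finset

/-- The beginning of the superblock `a` in the sorted array. -/
private def st (l : ℕ) (I : ℕ → ℕ) (a : ℕ) : ℕ := (a + I a / 2 ^ l) * 2 ^ l

private theorem st_succ (l : ℕ) (I : ℕ → ℕ) (a : ℕ) (h : I a ≤ I (a + 1)) :
    st l I a + (I (a + 1) - I a) < st l I (a + 1) := by
  unfold st
  have h1 := Nat.div_add_mod (I a) (2 ^ l)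
  have h2 := Nat.div_add_mod (I (a + 1)) (2 ^ l)
  have h3 := Nat.mod_lt (I (a + 1)) (Nat.two_pow_pos l)
  have e1 : (a + I a / 2 ^ l) * 2 ^ l = a * 2 ^ l + 2 ^ l * (I a / 2 ^ l) := by ring
  have e2 : (a + 1 + I (a + 1) / 2 ^ l) * 2 ^ l =
      a * 2 ^ l + 2 ^ l + 2 ^ l * (I (a + 1) / 2 ^ l) := by ring
  rw [e1, e2]
  omega

private theorem st_mono (l : ℕ) (I : ℕ → ℕ) (h : ∀ a, I a ≤ I (a + 1)) :
    Monotone (st l I) := by
  refine monotone_nat_of_le_succ fun a => ?_
  have := st_succ l I a (h a)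
  omega

private theorem st_zero (l : ℕ) (I : ℕ → ℕ) (h : I 0 = 0) : st l I 0 = 0 := by
  unfold st
  rw [h]
  simp

/-- The cells of the superblock `a`. -/
private theorem cnt {σ l n : ℕ} {I : ℕ → ℕ} {P : Fin n → Bool} (hm : ∀ a, I a ≤ I (a + 1))
    (hlt : ∀ a < 2 ^ σ, ∀ w < I (a + 1) - I a, (a + I a / 2 ^ l) * 2 ^ l + w < n)
    (hP : ∀ k : Fin n, P k = true ↔
      ∃ a < 2 ^ σ, ∃ w < I (a + 1) - I a, (k : ℕ) = (a + I a / 2 ^ l) * 2 ^ l + w)
    {a : ℕ} (ha : a < 2 ^ σ) {v u : ℕ} (hv : v = I (a + 1) - I a ∨ v ≤ I (a + 1) - I a)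
    (hu : u = st l I a + v ∨ (v = I (a + 1) - I a ∧ st l I a + v ≤ u ∧ u ≤ st l I (a + 1))) :
    (univ.filter fun k : Fin n => st l I a ≤ (k : ℕ) ∧ (k : ℕ) < u ∧ P k = true).card = v := by
  have hv' : v ≤ I (a + 1) - I a := by
    rcases hv with h | h
    · exact h.le
    · exact h
  have key : (univ.filter fun k : Fin n =>
      st l I a ≤ (k : ℕ) ∧ (k : ℕ) < u ∧ P k = true).image Fin.val =
      (range v).image (fun w => st l I a + w) := by
    ext x
    rw [mem_image, mem_image]
    constructor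
    · rintro ⟨k, hk, rfl⟩
      obtain ⟨_, h1, h2, h3⟩ := mem_filter.1 hk
      obtain ⟨a', ha', w, hw, e⟩ := (hP k).1 h3
      have e' : (k : ℕ) = st l I a' + w := e
      have hle : u ≤ st l I (a + 1) := by
        rcases hu with h | ⟨_, _, h⟩
        · have := st_succ l I a (hm a)
          omega
        · exact h
      have haa : a' = a := by
        rcases lt_trichotomy a' a with hlt' | heq | hgt
        · have q1 := st_succ l I a' (hm a')
          have q2 := st_mono l I hm (show a' + 1 ≤ a from hlt')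
          omega
        · exact heq
        · have q2 := st_mono l I hm (show a + 1 ≤ a' from hgt)
          omega
      subst haa
      refine ⟨w, mem_range.2 ?_, e'.symm⟩
      rcases hu with h | ⟨h, _, _⟩
      · omega
      · omega
    · rintro ⟨w, hw, rfl⟩
      have hw' := mem_range.1 hw
      have hn := hlt a ha w (by omega)
      refine ⟨⟨st l I a + w, hn⟩, mem_filter.2 ⟨mem_univ _, ?_, ?_, ?_⟩, rfl⟩
      · exact Nat.le_add_right _ _
      · show st l I a + w < u
        rcases hu with h | ⟨_, h, _⟩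
        · omega
        · omega
      · exact (hP _).2 ⟨a, ha, w, by omega, rfl⟩
  have c1 := card_image_of_injective (univ.filter fun k : Fin n =>
      st l I a ≤ (k : ℕ) ∧ (k : ℕ) < u ∧ P k = true) Fin.val_injective
  have c2 := card_image_of_injective (range v) (fun x y (h : st l I a + x = st l I a + y) =>
    Nat.add_left_cancel h)
  rw [← c1, key, c2, card_range]

private theorem split_card {n : ℕ} (P : Fin n → Bool) (s u : ℕ) (h : s ≤ u) :
    (univ.filter fun k : Fin n => (k : ℕ) < u ∧ P k = true).card =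
      (univ.filter fun k : Fin n => (k : ℕ) < s ∧ P k = true).card +
      (univ.filter fun k : Fin n => s ≤ (k : ℕ) ∧ (k : ℕ) < u ∧ P k = true).card := by
  rw [← card_union_of_disjoint]
  · congr 1
    ext k
    simp only [mem_filter, mem_univ, true_and, mem_union]
    constructor
    · rintro ⟨h1, h2⟩
      by_cases h3 : (k : ℕ) < s
      · exact Or.inl ⟨h3, h2⟩
      · exact Or.inr ⟨not_lt.1 h3, h1, h2⟩
    · rintro (⟨h1, h2⟩ | ⟨h1, h2, h3⟩)
      · exact ⟨by omega, h2⟩
      · exact ⟨h2, h3⟩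
  · rw [disjoint_left]
    intro k h1 h2
    have a1 := (mem_filter.1 h1).2.1
    have a2 := (mem_filter.1 h2).2.1
    omega

theorem tRkL : S_RkL := by
  intro σ l n I P h0 hm hlt hP a w k ha hw hk
  have hind : ∀ a ≤ 2 ^ σ,
      (univ.filter fun k : Fin n => (k : ℕ) < st l I a ∧ P k = true).card = I a := by
    intro a
    induction a with
    | zero =>
      intro _
      rw [st_zero l I h0, h0, card_eq_zero, filter_eq_empty_iff]
      rintro k _ ⟨h, _⟩
      exact absurd h (Nat.not_lt_zero _)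
    | succ a ih =>
      intro ha
      have hs := st_succ l I a (hm a)
      rw [split_card P (st l I a) (st l I (a + 1)) (by omega), ih (by omega),
        cnt hm hlt hP (show a < 2 ^ σ by omega) (v := I (a + 1) - I a) (Or.inl rfl)
          (Or.inr ⟨rfl, hs.le, le_rfl⟩)]
      have := hm a
      omega
  have hk' : (k : ℕ) = st l I a + w := hk
  show (univ.filter fun k' : Fin n => (k' : ℕ) < (k : ℕ) ∧ P k' = true).card = I a + w
  rw [hk', split_card P (st l I a) (st l I a + w) (by omega), hind a ha.le,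
    cnt hm hlt hP ha (v := w) (Or.inr hw.le) (Or.inl rfl)]

end Pool.Agent.Lin
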