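import Pool.Agent.Lib.MP_76b24b_lcM.Spec2

/-!
# MP_76b24b_lc, package M: routing

`tRt (h : S_Half) : S_Rt`. Radix sort from the top digit: the elements with top digit `b` are moved to
the array `b` with half the number of slots, then the two arrays are treated in parallel.
-/

set_option autoImplicit false

namespace Pool.Agent.Lin

open Finset

private theorem num_castSucc {k : ℕ} (u : Fin (k + 1) → Bool) :
    num u = num (fun t : Fin k => u t.castSucc) + (if u (Fin.last k) = true then 2 ^ k else 0) := by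
  unfold num
  rw [Fin.sum_univ_castSucc]
  rfl

private theorem num_lt : ∀ {k : ℕ} (u : Fin k → Bool), num u < 2 ^ k
  | 0, u => by simp [num]
  | k + 1, u => by
    rw [num_castSucc]
    have h := num_lt fun t : Fin k => u t.castSucc
    rw [pow_succ]
    split_ifs <;> omega

/-- the slots of the result: the top digit and the rest -/
private def eB (k : ℕ) : Fin (2 ^ (k + 1)) ≃ Bool × Fin (2 ^ k) :=
  ((finCongr (by ring)).trans finProdFinEquiv.symm : Fin (2 ^ (k + 1)) ≃ Fin 2 × Fin (2 ^ k)).trans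
    (Equiv.prodCongr finTwoEquiv (Equiv.refl _))

private theorem eB_val (k : ℕ) (j : Fin (2 ^ (k + 1))) :
    (j : ℕ) = ((eB k j).2 : ℕ) + (if (eB k j).1 = true then 2 ^ k else 0) := by
  obtain ⟨p, rfl⟩ := (eB k).symm.surjective j
  rw [Equiv.apply_symm_apply]
  obtain ⟨b, l⟩ := p
  have h1 : (((eB k).symm (b, l) : Fin (2 ^ (k + 1))) : ℕ) = (l : ℕ) + 2 ^ k * (finTwoEquiv.symm b : ℕ) := rfl
  rw [h1]
  cases b
  · have h2 : ((finTwoEquiv.symm false : Fin 2) : ℕ) = 0 := rfl
    rw [h2]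
    simp
  · have h2 : ((finTwoEquiv.symm true : Fin 2) : ℕ) = 1 := rfl
    rw [h2]
    simp

section Step

variable {N M k : ℕ}

/-- the valid elements with top digit `b` -/
private def ub (b : Bool) (x : Fin N × (Unit ⊕ Fin (k + 1)) → Bool) (i : Fin N) : Bool :=
  x (i, Sum.inl ()) && (x (i, Sum.inr (Fin.last k)) == b)

private theorem ub_iff (b : Bool) (x : Fin N × (Unit ⊕ Fin (k + 1)) → Bool) (i : Fin N) :
    ub b x i = true ↔ x (i, Sum.inl ()) = true ∧ x (i, Sum.inr (Fin.last k)) = b := by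
  unfold ub
  rw [Bool.and_eq_true, beq_iff_eq]

private theorem ub_cx (b : Bool) :
    Cx (fun (x : Fin N × (Unit ⊕ Fin (k + 1)) → Bool) (i : Fin N) => ub b x i) N := by
  have h := Cx.layer (ι := Fin N × (Unit ⊕ Fin (k + 1))) (κ := Fin N) (fun _ p q => p && (q == b))
    (fun i => (i, Sum.inl ())) (fun i => (i, Sum.inr (Fin.last k)))
  rw [Fintype.card_fin] at h
  exact h

/-- the data which are moved along -/
private def rtDat (x : Fin N × (Unit ⊕ Fin (k + 1)) → Bool) (q : Fin N × (Unit ⊕ Fin k)) : Bool :=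
  x (q.1, Sum.map id Fin.castSucc q.2)

/-- the control input of the array `b` -/
private noncomputable def Gb (g : (Fin N → Bool) → Fin N → Fin M → Prop) (b : Bool)
    (x : Fin N × (Unit ⊕ Fin (k + 1)) → Bool) (p : Fin M × (Unit ⊕ Fin k)) : Bool :=
  mv g (Sum.elim (ub b x) (rtDat x) : Fin N ⊕ (Fin N × (Unit ⊕ Fin k)) → Bool) p

private theorem Gb_iff (g : (Fin N → Bool) → Fin N → Fin M → Prop) (b : Bool)
    (x : Fin N × (Unit ⊕ Fin (k + 1)) → Bool) (j : Fin M) (e : Unit ⊕ Fin k) :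
    Gb g b x (j, e) = true ↔ ∃ i, g (ub b x) i j ∧ x (i, Sum.map id Fin.castSucc e) = true := by
  unfold Gb
  rw [mv_iff]
  rfl

private theorem Gb_cx {g : (Fin N → Bool) → Fin N → Fin M → Prop} {s t : ℕ} (hg : Mv g s t) (b : Bool) :
    Cx (fun (x : Fin N × (Unit ⊕ Fin (k + 1)) → Bool) => Gb g b x) (N + (s + t * (k + 1))) := by
  have h1 := ((ub_cx (N := N) (k := k) b).pair (Cx.proj (fun q : Fin N × (Unit ⊕ Fin k) =>
    (q.1, Sum.map id Fin.castSucc q.2)))).comp (hg.cx (Unit ⊕ Fin k))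
  rw [Fintype.card_sum, Fintype.card_unit, Fintype.card_fin, Nat.add_comm 1 k] at h1
  exact h1

/-- the first network -/
private theorem first_mv {g : (Fin N → Bool) → Fin N → Fin M → Prop} {s t : ℕ} (hg : Mv g s t) :
    Mv (fun (x : Fin N × (Unit ⊕ Fin (k + 1)) → Bool) (i : Fin N) (p : Bool × Fin M) =>
      g (ub p.1 x) i p.2) ((N + s) + (N + s)) (t + t + N) := by
  have h := ((hg.pre (ub_cx (N := N) (k := k) false)).sumY
    (hg.pre (ub_cx (N := N) (k := k) true))).equiv (Equiv.refl _) (Equiv.boolProdEquivSum (Fin M))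
  rw [Fintype.card_fin] at h
  refine h.congr fun x i p => ?_
  obtain ⟨b, j⟩ := p
  cases b <;> exact Iff.rfl

/-- the whole network -/
private theorem step_mv {g : (Fin N → Bool) → Fin N → Fin M → Prop} {s t s' t' : ℕ} (hg : Mv g s t)
    {f : (Fin M × (Unit ⊕ Fin k) → Bool) → Fin M → Fin (2 ^ k) → Prop} (hf : Mv f s' t') :
    Mv (fun (x : Fin N × (Unit ⊕ Fin (k + 1)) → Bool) (i : Fin N) (j : Fin (2 ^ (k + 1))) =>
      ∃ p : Bool × Fin M, g (ub p.1 x) i p.2 ∧ p.1 = (eB k j).1 ∧ f (Gb g p.1 x) p.2 (eB k j).2)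
      ((N + s) + (N + s) + (2 * (N + (s + t * (k + 1))) + 2 * s')) ((t + t + N) + 2 * t') := by
  have hG := Cx.fam (fun (b : Bool) (x : Fin N × (Unit ⊕ Fin (k + 1)) → Bool) => Gb g b x)
    (fun _ => N + (s + t * (k + 1))) (fun b => Gb_cx hg b)
  rw [Finset.sum_const, smul_eq_mul, Finset.card_univ, Fintype.card_bool] at hG
  have h := ((first_mv hg).comp hG (hf.blocks Bool)).equiv (Equiv.refl _) (eB k)
  rw [Fintype.card_bool] at h
  exact h

/-- at most `2 ^ k` elements have top digit `b` -/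
private theorem card_ub (b : Bool) (x : Fin N × (Unit ⊕ Fin (k + 1)) → Bool)
    (hx : ∀ i i', x (i, Sum.inl ()) = true → x (i', Sum.inl ()) = true →
      (∀ t, x (i, Sum.inr t) = x (i', Sum.inr t)) → i = i') :
    (univ.filter fun i => ub b x i = true).card ≤ 2 ^ k := by
  have h1 : (univ : Finset (Fin k → Bool)).card = 2 ^ k := by
    rw [Finset.card_univ, Fintype.card_fun, Fintype.card_bool, Fintype.card_fin]
  rw [← h1]
  refine Finset.card_le_card_of_injOn (fun i t => x (i, Sum.inr (Fin.castSucc t))) (fun _ _ => mem_univ _) ?_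
  intro i hi i' hi' hii
  have hi1 := (ub_iff b x i).1 (mem_filter.1 (Finset.mem_coe.1 hi)).2
  have hi2 := (ub_iff b x i').1 (mem_filter.1 (Finset.mem_coe.1 hi')).2
  refine hx i i' hi1.1 hi2.1 fun t => ?_
  refine Fin.lastCases ?_ (fun t => ?_) t
  · rw [hi1.2, hi2.2]
  · exact congrFun hii t

/-- correctness -/
private theorem step_spec {g : (Fin N → Bool) → Fin N → Fin M → Prop}
    {f : (Fin M × (Unit ⊕ Fin k) → Bool) → Fin M → Fin (2 ^ k) → Prop}
    (hg : ∀ u : Fin N → Bool, (univ.filter fun i => u i = true).card ≤ 2 ^ (k + 1) →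
      PB (fun i => u i = true) (g u))
    (hf : ∀ y : Fin M × (Unit ⊕ Fin k) → Bool,
      (∀ i i', y (i, Sum.inl ()) = true → y (i', Sum.inl ()) = true →
        (∀ t, y (i, Sum.inr t) = y (i', Sum.inr t)) → i = i') →
      ∀ i j, f y i j ↔ y (i, Sum.inl ()) = true ∧ num (fun t => y (i, Sum.inr t)) = j)
    (x : Fin N × (Unit ⊕ Fin (k + 1)) → Bool)
    (hx : ∀ i i', x (i, Sum.inl ()) = true → x (i', Sum.inl ()) = true →
      (∀ t, x (i, Sum.inr t) = x (i', Sum.inr t)) → i = i') (i : Fin N) (j : Fin (2 ^ (k + 1))) :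
    (∃ p : Bool × Fin M, g (ub p.1 x) i p.2 ∧ p.1 = (eB k j).1 ∧ f (Gb g p.1 x) p.2 (eB k j).2) ↔
      x (i, Sum.inl ()) = true ∧ num (fun t => x (i, Sum.inr t)) = j := by
  have hPB : ∀ b, PB (fun i => ub b x i = true) (g (ub b x)) := fun b =>
    hg _ ((card_ub b x hx).trans (Nat.pow_le_pow_right (by norm_num) (by omega)))
  -- the values of the moved bits
  have hval : ∀ b i j, g (ub b x) i j → ∀ e, Gb g b x (j, e) = x (i, Sum.map id Fin.castSucc e) := by
    intro b i j hij e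
    rw [Bool.eq_iff_iff, Gb_iff]
    constructor
    · rintro ⟨i', hi', h⟩
      rw [(hPB b).2.2.2 i i' j hij hi']
      exact h
    · exact fun h => ⟨i, hij, h⟩
  have hex : ∀ b j e, Gb g b x (j, e) = true → ∃ i, g (ub b x) i j := by
    intro b j e h
    obtain ⟨i, hi, -⟩ := (Gb_iff g b x j e).1 h
    exact ⟨i, hi⟩
  -- the destinations in the array `b` are different
  have hdis : ∀ b, ∀ l l', Gb g b x (l, Sum.inl ()) = true → Gb g b x (l', Sum.inl ()) = true →
      (∀ t, Gb g b x (l, Sum.inr t) = Gb g b x (l', Sum.inr t)) → l = l' := by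
    intro b l l' h1 h2 h3
    obtain ⟨i1, hi1⟩ := hex b l _ h1
    obtain ⟨i2, hi2⟩ := hex b l' _ h2
    have u1 := (ub_iff b x i1).1 ((hPB b).1 i1 l hi1)
    have u2 := (ub_iff b x i2).1 ((hPB b).1 i2 l' hi2)
    have h12 : i1 = i2 := by
      refine hx i1 i2 u1.1 u2.1 fun t => ?_
      refine Fin.lastCases ?_ (fun t => ?_) t
      · rw [u1.2, u2.2]
      · have h4 := h3 t
        rw [hval b i1 l hi1, hval b i2 l' hi2] at h4
        exact h4
    subst h12
    exact (hPB b).2.2.1 i1 l l' hi1 hi2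
  have hj := eB_val k j
  have hl := ((eB k j).2).isLt
  have hn := num_lt (fun t : Fin k => x (i, Sum.inr t.castSucc))
  have hnum := num_castSucc (fun t : Fin (k + 1) => x (i, Sum.inr t))
  constructor
  · rintro ⟨⟨b, l⟩, h1, h2, h3⟩
    dsimp only at h1 h2 h3
    rw [hf _ (hdis b)] at h3
    obtain ⟨-, h3⟩ := h3
    have u1 := (ub_iff b x i).1 ((hPB b).1 i l h1)
    refine ⟨u1.1, ?_⟩
    have h4 : (fun t : Fin k => Gb g b x (l, Sum.inr t)) = fun t : Fin k => x (i, Sum.inr t.castSucc) :=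
      funext fun t => hval b i l h1 (Sum.inr t)
    rw [h4] at h3
    rw [hnum, h3, u1.2, h2]
    exact hj.symm
  · rintro ⟨h1, h2⟩
    have h3 : x (i, Sum.inr (Fin.last k)) = (eB k j).1 ∧
        num (fun t : Fin k => x (i, Sum.inr t.castSucc)) = ((eB k j).2 : ℕ) := by
      rw [h2, hj] at hnum
      generalize x (i, Sum.inr (Fin.last k)) = a at hnum ⊢
      generalize (eB k j).1 = a' at hnum ⊢
      cases a <;> cases a' <;>
        simp only [Bool.false_eq_true, if_false, if_true, add_zero, true_and, false_and, reduceCtorEq] at hnum ⊢ <;> omega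
    obtain ⟨l, hl'⟩ := (hPB (eB k j).1).2.1 i ((ub_iff _ x i).2 ⟨h1, h3.1⟩)
    refine ⟨((eB k j).1, l), hl', rfl, ?_⟩
    dsimp only
    rw [hf _ (hdis _)]
    refine ⟨?_, ?_⟩
    · rw [hval _ i l hl']
      exact h1
    · have h4 : (fun t : Fin k => Gb g (eB k j).1 x (l, Sum.inr t)) =
          fun t : Fin k => x (i, Sum.inr t.castSucc) := funext fun t => hval _ i l hl' (Sum.inr t)
      rw [h4]
      exact h3.2

end Step

theorem tRt (h : S_Half) : S_Rt := by
  obtain ⟨cH, hH⟩ := h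
  refine ⟨2 ^ 15 + 10 * cH, fun k => ?_⟩
  induction k with
  | zero =>
    intro N hN
    subst hN
    have : Nonempty (Fin (2 ^ (0 + 13))) := ⟨⟨0, Nat.two_pow_pos _⟩⟩
    have h := Mv.base (ι := Fin (2 ^ (0 + 13)) × (Unit ⊕ Fin 0)) (X := Fin (2 ^ (0 + 13)))
      (Y := Fin (2 ^ 0)) (d := 1) one_pos (fun _ _ => ⟨0, Nat.two_pow_pos _⟩)
      (Cx.proj (fun p : Fin (2 ^ (0 + 13)) × Fin 1 => (p.1, Sum.inl ())))
    refine ⟨_, h.mono (Nat.zero_le _) ?_, fun x _ i j => ?_⟩
    · rw [Fintype.card_fin, Fintype.card_fin]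
      norm_num
      omega
    · have hj : (j : ℕ) = 0 := by simp
      have hn : num (fun t : Fin 0 => x (i, Sum.inr t)) = 0 := by simp [num]
      rw [hn, hj]
      constructor
      · rintro ⟨_, h1, _⟩
        exact ⟨h1, rfl⟩
      · rintro ⟨h1, _⟩
        exact ⟨0, h1, Fin.ext hj.symm⟩
  | succ k ih =>
    intro N hN
    obtain ⟨g, hg1, hg2⟩ := hH (k + 1) N (2 ^ (k + 13)) hN (by rw [show k + 1 + 12 = k + 13 by omega])
    obtain ⟨f, hf1, hf2⟩ := ih (2 ^ (k + 13)) rfl
    refine ⟨_, (step_mv hg1 hf1).mono ?_ ?_, fun x hx i j => step_spec hg2 hf2 x hx i j⟩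
    · have e1 : N = 2 ^ 13 * 2 ^ (k + 1) := by rw [hN]; ring
      have e2 : (2 : ℕ) ^ (k + 1) = 2 * 2 ^ k := by ring
      rw [e1, e2]
      generalize 2 ^ k = K
      have h0 : 0 ≤ K * (k * cH) := Nat.zero_le _
      nlinarith [Nat.zero_le (K * k), Nat.zero_le (K * cH), Nat.zero_le (K * k * cH)]
    · have e1 : N = 2 ^ 13 * 2 ^ (k + 1) := by rw [hN]; ring
      have e2 : (2 : ℕ) ^ (k + 1) = 2 * 2 ^ k := by ring
      rw [e1, e2]
      generalize 2 ^ k = K
      nlinarith [Nat.zero_le (K * k), Nat.zero_le (K * cH), Nat.zero_le (K * k * cH)]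

end Pool.Agent.Lin
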