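import Pool.Agent.Lib.MP_76b24b_lcM.Spec2

/-!
# MP_76b24b_lc, package M: valid cells and destinations of the chunks at the slots
-/

set_option autoImplicit false

namespace Pool.Agent.Lin

open Finset

private theorem sk_num' : ∀ (k m : ℕ), num (fun t : Fin k => m.testBit t) = m % 2 ^ k
  | 0, m => by simp [num, Nat.mod_one]
  | k + 1, m => by
    have ih := sk_num' k (m / 2)
    unfold num at ih ⊢
    rw [Fin.sum_univ_succ]
    have h1 : (if m.testBit ((0 : Fin (k + 1)) : ℕ) = true then 2 ^ ((0 : Fin (k + 1)) : ℕ) else 0) =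
        m % 2 := by
      simp only [Fin.val_zero, pow_zero, Nat.testBit_zero, decide_eq_true_eq]
      rcases Nat.mod_two_eq_zero_or_one m with h | h <;> simp [h]
    have h2 : (∑ i : Fin k, if m.testBit (i.succ : ℕ) = true then 2 ^ (i.succ : ℕ) else 0) =
        2 * ((m / 2) % 2 ^ k) := by
      rw [← ih, Finset.mul_sum]
      refine Finset.sum_congr rfl fun i _ => ?_
      rw [Fin.val_succ, Nat.testBit_succ, mul_ite, mul_zero, pow_succ, mul_comm]
    rw [h1, h2, pow_succ, mul_comm (2 ^ k) 2, Nat.mod_mul]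

private theorem sk_succ {k : ℕ} (u : Fin (k + 1) → Bool) :
    num u = num (fun t : Fin k => u t.castSucc) + 2 ^ k * (if u (Fin.last k) = true then 1 else 0) := by
  unfold num
  rw [Fin.sum_univ_castSucc]
  congr 1
  rw [Fin.val_last]
  split_ifs <;> simp

private theorem sk_lt {k : ℕ} (u : Fin k → Bool) : num u < 2 ^ k := by
  induction k with
  | zero => simp [num]
  | succ k ih =>
    rw [sk_succ, pow_succ]
    have h1 := ih (fun t : Fin k => u t.castSucc)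
    split_ifs <;> omega

private theorem sk_bit {k : ℕ} (u : Fin k → Bool) (t : ℕ) :
    (num u).testBit t = if h : t < k then u ⟨t, h⟩ else false := by
  induction k generalizing t with
  | zero => simp [num]
  | succ k ih =>
    rw [sk_succ, add_comm, Nat.testBit_two_pow_mul_add _ (sk_lt _)]
    rcases lt_trichotomy t k with h | h | h
    · rw [if_pos h, ih, dif_pos h, dif_pos (by omega)]
      rfl
    · subst h
      rw [if_neg (lt_irrefl _), Nat.sub_self, dif_pos (Nat.lt_succ_self _)]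
      change _ = u (Fin.last t)
      cases u (Fin.last t) <;> simp
    · rw [if_neg (by omega), dif_neg (by omega)]
      have h1 : t - k ≠ 0 := by omega
      split_ifs
      · exact Nat.testBit_lt_two_pow (Nat.one_lt_two_pow h1)
      · exact Nat.zero_testBit _

private theorem sk_mod {j k : ℕ} (h : j ≤ k) (u : Fin k → Bool) :
    num (fun t : Fin j => u ⟨t, by omega⟩) = num u % 2 ^ j := by
  refine Nat.eq_of_testBit_eq fun t => ?_
  rw [Nat.testBit_mod_two_pow, sk_bit, sk_bit]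
  by_cases ht : t < j
  · rw [dif_pos ht, dif_pos (by omega)]
    simp [ht]
  · rw [dif_neg ht]
    simp [ht]

theorem tSK (h1 : S_Thr) (h2 : S_Add) : S_SK := by
  refine ⟨6, fun σ l r hl hr => ?_⟩
  have hi : ∀ i : Fin (r + 1), (i : ℕ) ≤ r := fun i => by have := i.2; omega
  have e1 : ∀ i : Fin (r + 1), (2 : ℕ) ^ (σ + l) = 2 ^ (σ - (i : ℕ)) * 2 ^ (l + (i : ℕ)) := by
    intro i
    rw [← pow_add]
    congr 1
    have := hi i
    omega
  have e2 : ∀ i : Fin (r + 1), (2 : ℕ) ^ σ = 2 ^ (σ - (i : ℕ)) * 2 ^ (i : ℕ) := by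
    intro i
    rw [← pow_add]
    congr 1
    have := hi i
    omega
  have hd1 : ∀ (i : Fin (r + 1)) (e : Fin (2 ^ (σ + l))),
      (e : ℕ) / 2 ^ (l + (i : ℕ)) < 2 ^ (σ - (i : ℕ)) := by
    intro i e
    rw [Nat.div_lt_iff_lt_mul (Nat.two_pow_pos _), ← e1 i]
    exact e.2
  have hd2 : ∀ (i : Fin (r + 1)) (e : Fin (2 ^ σ)),
      (e : ℕ) / 2 ^ (i : ℕ) < 2 ^ (σ - (i : ℕ)) := by
    intro i e
    rw [Nat.div_lt_iff_lt_mul (Nat.two_pow_pos _), ← e2 i]
    exact e.2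
  -- the valid cells
  let FA : Fin (r + 1) → (Slot σ r × (Fin (l + r) ⊕ Fin (σ + 1)) → Bool) →
      Fin (2 ^ (σ + l)) → Bool := fun i y e =>
    decide ((e : ℕ) % 2 ^ (l + (i : ℕ)) < num (fun t : Fin (l + (i : ℕ)) =>
      y (⟨i, ⟨(e : ℕ) / 2 ^ (l + (i : ℕ)), hd1 i e⟩⟩, Sum.inl ⟨t, by
        have := t.2
        have := hi i
        omega⟩)))
  have hFA : ∀ i, Cx (FA i) (4 * 2 ^ (σ + l)) := by
    intro i
    have a := Cx.fam (fun (α : Fin (2 ^ (σ - (i : ℕ))))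
      (y : Slot σ r × (Fin (l + r) ⊕ Fin (σ + 1)) → Bool) (j : Fin (2 ^ (l + (i : ℕ)))) =>
        decide ((j : ℕ) < num (fun t : Fin (l + (i : ℕ)) => y (⟨i, α⟩, Sum.inl ⟨t, by
          have := t.2
          have := hi i
          omega⟩)))) (fun _ => 4 * 2 ^ (l + (i : ℕ))) (fun α => (h1 (l + (i : ℕ))
            (by omega)).inp (fun t : Fin (l + (i : ℕ)) => (((⟨i, α⟩ : Slot σ r), Sum.inl ⟨t, by
              have := t.2
              have := hi i
              omega⟩) : Slot σ r × (Fin (l + r) ⊕ Fin (σ + 1)))))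
    rw [Finset.sum_const, Finset.card_univ, Fintype.card_fin, smul_eq_mul] at a
    have b := a.out (fun e : Fin (2 ^ (σ + l)) =>
      ((⟨(e : ℕ) / 2 ^ (l + (i : ℕ)), hd1 i e⟩, ⟨(e : ℕ) % 2 ^ (l + (i : ℕ)),
        Nat.mod_lt _ (Nat.two_pow_pos _)⟩) : Fin (2 ^ (σ - (i : ℕ))) × Fin (2 ^ (l + (i : ℕ)))))
    refine (b.mono (le_of_eq ?_)).congr fun y e => rfl
    rw [e1 i]
    ring
  have hA := Cx.fam FA (fun _ => 4 * 2 ^ (σ + l)) hFA
  -- the destinations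
  let FB : Fin (r + 1) × Fin (2 ^ σ) → (Slot σ r × (Fin (l + r) ⊕ Fin (σ + 1)) → Bool) →
      Fin (σ + 1) → Bool := fun q y t =>
    (num (fun t : Fin (σ + 1) => y (⟨q.1, ⟨(q.2 : ℕ) / 2 ^ (q.1 : ℕ), hd2 q.1 q.2⟩⟩, Sum.inr t)) +
      num (fun t : Fin (σ + 1) => ((q.2 : ℕ) % 2 ^ (q.1 : ℕ)).testBit t)).testBit t
  have hne : Nonempty (Slot σ r × (Fin (l + r) ⊕ Fin (σ + 1))) :=
    ⟨(⟨0, ⟨0, Nat.two_pow_pos _⟩⟩, Sum.inr 0)⟩
  have hFB : ∀ q, Cx (FB q) (6 * (σ + 1)) := by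
    intro q
    have a := ((Cx.proj (fun t : Fin (σ + 1) =>
      (((⟨q.1, ⟨(q.2 : ℕ) / 2 ^ (q.1 : ℕ), hd2 q.1 q.2⟩⟩ : Slot σ r), Sum.inr t) :
        Slot σ r × (Fin (l + r) ⊕ Fin (σ + 1))))).pair (Cx.consts
      (ι := Slot σ r × (Fin (l + r) ⊕ Fin (σ + 1))) (κ := Fin (σ + 1))
      (fun t => ((q.2 : ℕ) % 2 ^ (q.1 : ℕ)).testBit t))).comp (h2 (σ + 1))
    refine (a.mono ?_).congr fun y t => rfl
    rw [Fintype.card_fin]
    omega
  have hB := Cx.fam FB (fun _ => 6 * (σ + 1)) hFB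
  rw [Finset.sum_const, Finset.card_univ, Fintype.card_fin, smul_eq_mul] at hA
  rw [Finset.sum_const, Finset.card_univ, Fintype.card_prod, Fintype.card_fin,
    Fintype.card_fin, smul_eq_mul] at hB
  refine ⟨_, (hA.pair hB).mono ?_, fun y p hp => ⟨fun e he => ?_, fun e t he => ?_⟩⟩
  · have a1 : (r + 1) * (4 * 2 ^ (σ + l)) ≤ 6 * ((r + 1) * 2 ^ (σ + l)) := by
      have : (r + 1) * (4 * 2 ^ (σ + l)) = 4 * ((r + 1) * 2 ^ (σ + l)) := by ring
      omega
    have a2 : (r + 1) * 2 ^ σ * (6 * (σ + 1)) = 6 * ((σ + 1) * (r + 1) * 2 ^ σ) := by ring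
    rw [a2, Nat.mul_add]
    omega
  · obtain ⟨i, α⟩ := p
    have hα : α = ⟨(e : ℕ) / 2 ^ (l + (i : ℕ)), hd1 i e⟩ := Fin.ext he
    subst hα
    show FA i y e = _
    simp only [FA]
    rw [sk_mod (by have := hi i; omega) (fun t => y (⟨i, ⟨(e : ℕ) / 2 ^ (l + (i : ℕ)),
      hd1 i e⟩⟩, Sum.inl t)), Nat.mod_eq_of_lt hp]
  · obtain ⟨i, α⟩ := p
    have hα : α = ⟨(e : ℕ) / 2 ^ (i : ℕ), hd2 i e⟩ := Fin.ext he
    subst hα
    show FB (i, e) y t = _
    simp only [FB]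
    have hlt : (e : ℕ) % 2 ^ (i : ℕ) < 2 ^ (σ + 1) := by
      have h3 := Nat.mod_le (e : ℕ) (2 ^ (i : ℕ))
      have h4 := e.2
      rw [pow_succ]
      omega
    rw [sk_num' (σ + 1) ((e : ℕ) % 2 ^ (i : ℕ)), Nat.mod_eq_of_lt hlt]

end Pool.Agent.Lin
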