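import Pool.Agent.Lib.MP_76b24b_lcM.Spec2

/-!
# MP_76b24b_lc, package M: `S_SpM`
-/

set_option autoImplicit false

namespace Pool.Agent.Lin

open Finset

private theorem rk_map {α α' : Type} [Fintype α] [Fintype α'] (pos : α → ℕ) (pos' : α' → ℕ)
    (P : α → Bool) (P' : α' → Bool) (f : α → α') (hf : Function.Injective f)
    (hpos : ∀ a, pos' (f a) = pos a) (hP : ∀ a, P' (f a) = P a)
    (hR : ∀ b, P' b = true → ∃ a, f a = b) (q : ℕ) : rk pos' P' q = rk pos P q := by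
  classical
  unfold rk
  symm
  refine Finset.card_bij (fun a _ => f a) ?_ ?_ ?_
  · intro a ha
    rw [mem_filter] at ha ⊢
    refine ⟨mem_univ _, ?_, ?_⟩
    · rw [hpos]
      exact ha.2.1
    · rw [hP]
      exact ha.2.2
  · intro a _ b _ h
    exact hf h
  · intro b hb
    rw [mem_filter] at hb
    obtain ⟨a, rfl⟩ := hR b hb.2.2
    refine ⟨a, ?_, rfl⟩
    rw [mem_filter]
    refine ⟨mem_univ _, ?_, ?_⟩
    · rw [← hpos]
      exact hb.2.1
    · rw [← hP]
      exact hb.2.2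

private theorem cmp_map {α α' : Type} [Fintype α] [Fintype α'] (pos : α → ℕ) (pos' : α' → ℕ)
    (P Q : α → Bool) (P' Q' : α' → Bool) (f : α → α') (hf : Function.Injective f)
    (hpos : ∀ a, pos' (f a) = pos a) (hP : ∀ a, P' (f a) = P a) (hQ : ∀ a, Q' (f a) = Q a)
    (hR : ∀ b, P' b = true → ∃ a, f a = b) (j : ℕ) : cmp pos' P' Q' j = cmp pos P Q j := by
  classical
  have hrk := rk_map pos pos' P P' f hf hpos hP hR
  unfold cmp
  rw [decide_eq_decide]
  constructor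
  · rintro ⟨b, h1, h2, h3⟩
    obtain ⟨a, rfl⟩ := hR b h1
    refine ⟨a, ?_, ?_, ?_⟩
    · rw [← hP]
      exact h1
    · rw [← hQ]
      exact h2
    · rw [← hrk, ← hpos]
      exact h3
  · rintro ⟨a, h1, h2, h3⟩
    refine ⟨f a, ?_, ?_, ?_⟩
    · rw [hP]
      exact h1
    · rw [hQ]
      exact h2
    · rw [hrk, hpos]
      exact h3

private theorem pad_lem {n : ℕ} (hn : 0 < n) {α' : Type} [Fintype α'] (pos' : α' → ℕ)
    (f : Fin n → α') (hf : ∀ i, pos' (f i) = i) (hf' : ∀ b (h : pos' b < n), f ⟨pos' b, h⟩ = b)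
    (G : (α' ⊕ α' → Bool) → α' → Bool) (s : ℕ) (hG : Cx G s) :
    ∃ (pad : (Fin n ⊕ Fin n → Bool) → α' ⊕ α' → Bool) (F : (Fin n ⊕ Fin n → Bool) → Fin n → Bool),
      Cx F (1 + s) ∧
      (∀ x b, pad x (Sum.inl b) = if h : pos' b < n then x (Sum.inl ⟨pos' b, h⟩) else false) ∧
      (∀ x b, pad x (Sum.inr b) = if h : pos' b < n then x (Sum.inr ⟨pos' b, h⟩) else false) ∧
      (∀ x, (∀ j, G (pad x) j = cmp pos' (fun a => pad x (Sum.inl a))
          (fun a => pad x (Sum.inr a)) (pos' j)) →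
        ∀ j : Fin n, F x j = cmp Fin.val (fun i => x (Sum.inl i)) (fun i => x (Sum.inr i)) j) := by
  classical
  have : Nonempty (Fin n ⊕ Fin n) := ⟨Sum.inl ⟨0, hn⟩⟩
  let g : α' ⊕ α' → (Fin n ⊕ Fin n) ⊕ Unit :=
    Sum.elim (fun b => if h : pos' b < n then Sum.inl (Sum.inl ⟨pos' b, h⟩) else Sum.inr ())
      (fun b => if h : pos' b < n then Sum.inl (Sum.inr ⟨pos' b, h⟩) else Sum.inr ())
  let pad : (Fin n ⊕ Fin n → Bool) → α' ⊕ α' → Bool :=
    fun x k => (Sum.elim x (fun _ : Unit => false) : (Fin n ⊕ Fin n) ⊕ Unit → Bool) (g k)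
  have hpad : Cx pad 1 := ((Cx.const (ι := Fin n ⊕ Fin n) false).keep).out g
  have h1 : ∀ x b, pad x (Sum.inl b) =
      if h : pos' b < n then x (Sum.inl ⟨pos' b, h⟩) else false := by
    intro x b
    simp only [pad, g, Sum.elim_inl]
    by_cases h : pos' b < n
    · rw [dif_pos h, dif_pos h, Sum.elim_inl]
    · rw [dif_neg h, dif_neg h, Sum.elim_inr]
  have h2 : ∀ x b, pad x (Sum.inr b) =
      if h : pos' b < n then x (Sum.inr ⟨pos' b, h⟩) else false := by
    intro x b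
    simp only [pad, g, Sum.elim_inr]
    by_cases h : pos' b < n
    · rw [dif_pos h, dif_pos h, Sum.elim_inl]
    · rw [dif_neg h, dif_neg h, Sum.elim_inr]
  refine ⟨pad, fun x j => G (pad x) (f j), (hpad.comp hG).out f, h1, h2, ?_⟩
  intro x hx j
  change G (pad x) (f j) = _
  rw [hx, hf]
  refine cmp_map Fin.val pos' _ _ _ _ f ?_ hf ?_ ?_ ?_ j
  · intro a b hab
    have := hf a
    rw [hab, hf b] at this
    exact (Fin.ext this).symm
  · intro a
    rw [h1, dif_pos (by rw [hf]; exact a.isLt)]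
    congr 2
    exact Fin.ext (hf a)
  · intro a
    rw [h2, dif_pos (by rw [hf]; exact a.isLt)]
    congr 2
    exact Fin.ext (hf a)
  · intro b hb
    rw [h1] at hb
    by_cases h : pos' b < n
    · exact ⟨_, hf' b h⟩
    · rw [dif_neg h] at hb
      exact absurd hb (by decide)

/-- A circuit for `2 ^ ν` cells gives one for `n` cells. -/
private theorem spm_pad {n ν K m s B : ℕ} (hn : 0 < n) (hν : n < 2 ^ ν)
    (G : (Fin (2 ^ ν) ⊕ Fin (2 ^ ν) → Bool) → Fin (2 ^ ν) → Bool) (hG : Cx G s) (hK : 2 * m ≤ K)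
    (hs : s + 1 ≤ B)
    (hx : ∀ x, (univ.filter fun i => x (Sum.inl i) = true ∧ x (Sum.inr i) = true).card ≤ K →
      ∀ j, G x j = cmp Fin.val (fun i => x (Sum.inl i)) (fun i => x (Sum.inr i)) j) :
    ∃ F : (Fin n ⊕ Fin n → Bool) → Fin n → Bool, Cx F B ∧
      ∀ x, (univ.filter fun i => x (Sum.inl i) = true ∧ x (Sum.inr i) = true).card ≤ 2 * m →
        ∀ j, F x j = cmp Fin.val (fun i => x (Sum.inl i)) (fun i => x (Sum.inr i)) j := by
  classical
  have hle : ∀ j : Fin n, (j : ℕ) < 2 ^ ν := fun j => lt_trans j.isLt hν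
  obtain ⟨pad, F, hF, hp1, hp2, hFx⟩ := pad_lem hn (α' := Fin (2 ^ ν)) Fin.val
    (fun j => ⟨j, hle j⟩) (fun _ => rfl) (fun _ _ => rfl) G s hG
  refine ⟨F, hF.mono (by omega), fun x hc => hFx x fun j => hx (pad x) ?_ j⟩
  refine le_trans ?_ (hc.trans hK)
  refine le_trans (card_le_card ?_) (Finset.card_image_le
    (f := fun i : Fin n => (⟨(i : ℕ), hle i⟩ : Fin (2 ^ ν))))
  intro i hi
  rw [mem_filter] at hi
  obtain ⟨_, hρ1, hρ2⟩ := hi
  rw [hp1] at hρ1
  rw [hp2] at hρ2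
  by_cases hlt : (i : ℕ) < n
  · rw [dif_pos hlt] at hρ1 hρ2
    exact mem_image.2 ⟨⟨i, hlt⟩, mem_filter.2 ⟨mem_univ _, hρ1, hρ2⟩, rfl⟩
  · rw [dif_neg hlt] at hρ1
    exact absurd hρ1 (by decide)

/-- The numbers in the case of large `n / m`. -/
private theorem spm_num {n m ν β : ℕ} (hm : 0 < m) (h1 : 2 ^ ν ≤ 2 * n) (h2 : n < 2 ^ ν)
    (h3 : m * 2 ^ β ≤ n) (h4 : n < m * 2 ^ (β + 1)) :
    β < ν ∧ 2 * m ≤ 2 ^ (ν - β + 1) ∧ 2 ^ (ν - β) ≤ 4 * m := by
  have hβ : β < ν := by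
    by_contra hcon
    have h5 : 2 ^ ν ≤ 2 ^ β := Nat.pow_le_pow_right (by norm_num) (by omega)
    have h6 : 2 ^ β ≤ m * 2 ^ β := Nat.le_mul_of_pos_left _ hm
    omega
  have h5 : 2 ^ ν = 2 ^ (ν - β) * 2 ^ β := by
    rw [← pow_add]
    congr 1
    omega
  have hpos : 0 < 2 ^ β := Nat.pow_pos (by norm_num)
  refine ⟨hβ, ?_, ?_⟩
  · have h6 : m * 2 ^ β < 2 ^ (ν - β) * 2 ^ β := by omega
    have h7 : m < 2 ^ (ν - β) := Nat.lt_of_mul_lt_mul_right h6
    rw [pow_succ]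
    omega
  · have h6 : 2 ^ (ν - β) * 2 ^ β ≤ 4 * m * 2 ^ β := by
      have h7 : m * 2 ^ (β + 1) = 2 * (m * 2 ^ β) := by
        rw [pow_succ]
        ring
      have h8 : 4 * m * 2 ^ β = 4 * (m * 2 ^ β) := by ring
      omega
    exact Nat.le_of_mul_le_mul_right h6 hpos

theorem tSpM (h1 : S_T2) (h2 : S_T3) (h3 : S_Naive) : S_SpM := by
  classical
  obtain ⟨C2, hC2⟩ := h1
  obtain ⟨C3, hC3⟩ := h2
  refine ⟨16 * C2 + 8 * C3 + 2 ^ 21, ?_⟩
  intro n m hm
  rcases Nat.eq_zero_or_pos n with rfl | hn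
  · exact ⟨fun _ j => j.elim0, Cx.empty _ _, fun _ _ j => j.elim0⟩
  set L : ℕ := Nat.log 2 n with hL
  set β : ℕ := Nat.log 2 (n / m) with hβ
  set ν : ℕ := L + 1 with hν
  have hn1 : 2 ^ ν ≤ 2 * n := by
    rw [hν, pow_succ]
    have := Nat.pow_log_le_self 2 (x := n) (by omega)
    rw [← hL] at this
    omega
  have hn2 : n < 2 ^ ν := Nat.lt_pow_succ_log_self (by norm_num) n
  have hn3 : n / m < 2 ^ (β + 1) := Nat.lt_pow_succ_log_self (by norm_num) _
  have hn4 : n < m * 2 ^ (β + 1) := by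
    rw [Nat.div_lt_iff_lt_mul hm] at hn3
    rw [Nat.mul_comm]
    exact hn3
  -- the naive circuit
  have naive : ∀ B : ℕ, 8 * (ν + 1) * 2 ^ ν + 1 ≤ B →
      ∃ F : (Fin n ⊕ Fin n → Bool) → Fin n → Bool, Cx F B ∧
      ∀ x, (univ.filter fun i => x (Sum.inl i) = true ∧ x (Sum.inr i) = true).card ≤ 2 * m →
        ∀ j, F x j = cmp Fin.val (fun i => x (Sum.inl i)) (fun i => x (Sum.inr i)) j :=
    fun B hB => spm_pad (K := 2 * m) hn hn2 _ (h3 ν) le_rfl hB fun _ _ _ => rfl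
  have hE : 0 ≤ m * L * (β + 1) := Nat.zero_le _
  have hmul : (16 * C2 + 8 * C3 + 2 ^ 21) * (n + m * L * (β + 1)) =
      16 * C2 * (n + m * L * (β + 1)) + 8 * C3 * (n + m * L * (β + 1)) +
        2 ^ 21 * (n + m * L * (β + 1)) := by ring
  rcases Nat.lt_or_ge β 16 with hb | hb
  · -- small `n / m`
    refine naive _ ?_
    have h5 : n ≤ 2 ^ 16 * m := by
      have h6 : 2 ^ (β + 1) ≤ 2 ^ 16 := Nat.pow_le_pow_right (by norm_num) (by omega)
      have h7 := Nat.mul_le_mul_left m h6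
      rw [Nat.mul_comm m (2 ^ 16)] at h7
      omega
    have h6 : n * L ≤ 2 ^ 16 * (m * L * (β + 1)) := by
      calc n * L ≤ 2 ^ 16 * m * L := Nat.mul_le_mul_right _ h5
        _ = 2 ^ 16 * (m * L * 1) := by ring
        _ ≤ 2 ^ 16 * (m * L * (β + 1)) :=
          Nat.mul_le_mul_left _ (Nat.mul_le_mul_left _ (by omega))
    have h7 : 8 * (ν + 1) * 2 ^ ν ≤ 16 * (n * L) + 32 * n := by
      calc 8 * (ν + 1) * 2 ^ ν ≤ 8 * (ν + 1) * (2 * n) := Nat.mul_le_mul_left _ hn1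
        _ = 16 * (n * L) + 32 * n := by
          rw [hν]
          ring
    rw [hmul]
    have h8 : 2 ^ 21 * (n + m * L * (β + 1)) = 2 ^ 21 * n + 2 ^ 21 * (m * L * (β + 1)) := by ring
    rw [h8]
    generalize m * L * (β + 1) = E at *
    have h9 : 0 ≤ 16 * C2 * (n + E) + 8 * C3 * (n + E) := Nat.zero_le _
    norm_num at *
    omega
  have hn5 : m * 2 ^ β ≤ n := by
    have h5 : n / m ≠ 0 := by
      intro h0
      rw [hβ, h0, Nat.log_zero_right] at hb
      omega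
    have h6 : 2 ^ β ≤ n / m := Nat.pow_log_le_self 2 h5
    rw [Nat.le_div_iff_mul_le hm] at h6
    rw [Nat.mul_comm]
    exact h6
  obtain ⟨k1, k2, k3⟩ := spm_num hm hn1 hn2 hn5 hn4
  have hL1 : 1 ≤ L := by omega
  rcases Nat.lt_or_ge (Nat.log 2 ν + 1) (2 * β) with hc | hc
  · rcases Nat.lt_or_ge (2 * (Nat.log 2 ν + 1)) β with hd | hd
    · rcases Nat.lt_or_ge ν 128 with he | he
      · -- small `n`
        refine naive _ ?_
        have h5 : 8 * (ν + 1) * 2 ^ ν ≤ 2048 * n := by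
          calc 8 * (ν + 1) * 2 ^ ν ≤ 8 * 128 * (2 * n) :=
                Nat.mul_le_mul (Nat.mul_le_mul_left _ (by omega)) hn1
            _ = 2048 * n := by ring
        rw [hmul]
        have h8 : 2 ^ 21 * (n + m * L * (β + 1)) = 2 ^ 21 * n + 2 ^ 21 * (m * L * (β + 1)) := by
          ring
        rw [h8]
        have h9 : 0 ≤ 16 * C2 * (n + m * L * (β + 1)) + 8 * C3 * (n + m * L * (β + 1)) :=
          Nat.zero_le _
        have h10 : 0 ≤ 2 ^ 21 * (m * L * (β + 1)) := Nat.zero_le _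
        have h11 : 2049 * n ≤ 2 ^ 21 * n := Nat.mul_le_mul_right _ (by norm_num)
        omega
      · -- very few marks
        set β' : ℕ := 2 * (Nat.log 2 ν + 1) with hβ'
        have h5 : 16 ≤ β' := by
          have h6 : 7 ≤ Nat.log 2 ν := by
            have : Nat.log 2 128 ≤ Nat.log 2 ν := Nat.log_mono_right he
            have h7 : Nat.log 2 128 = 7 := by
              rw [show (128 : ℕ) = 2 ^ 7 by norm_num, Nat.log_pow (by norm_num)]
            omega
          omega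
        obtain ⟨G, hG, hGx⟩ := hC2 ν β' h5 le_rfl
        refine spm_pad hn hn2 G hG (m := m) (K := 2 ^ (ν - β' + 1)) ?_ ?_ hGx
        · exact k2.trans (Nat.pow_le_pow_right (by norm_num) (by omega))
        · have h6 : ν * (Nat.log 2 ν + 1) ≤ 2 ^ β' := by
            have h7 : ν ≤ 2 ^ (Nat.log 2 ν + 1) :=
              (Nat.lt_pow_succ_log_self (by norm_num) ν).le
            have h8 : Nat.log 2 ν + 1 ≤ ν := Nat.log_lt_self 2 (by omega)
            calc ν * (Nat.log 2 ν + 1) ≤ 2 ^ (Nat.log 2 ν + 1) * 2 ^ (Nat.log 2 ν + 1) :=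
                  Nat.mul_le_mul h7 (h8.trans h7)
              _ = 2 ^ β' := by
                rw [hβ', ← pow_add]
                congr 1
                ring
          have h7 : ν * (Nat.log 2 ν + 1) * 2 ^ (ν - β') ≤ 2 ^ ν := by
            calc ν * (Nat.log 2 ν + 1) * 2 ^ (ν - β') ≤ 2 ^ β' * 2 ^ (ν - β') :=
                  Nat.mul_le_mul_right _ h6
              _ = 2 ^ ν := by
                rw [← pow_add]
                congr 1
                omega
          have h8 : C2 * (2 ^ ν + ν * (Nat.log 2 ν + 1) * 2 ^ (ν - β')) ≤ 16 * C2 * n := by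
            calc _ ≤ C2 * (2 * n + 2 * n) := Nat.mul_le_mul_left _ (by omega)
              _ = 4 * (C2 * n) := by ring
              _ ≤ 16 * (C2 * n) := Nat.mul_le_mul_right _ (by norm_num)
              _ = 16 * C2 * n := by ring
          rw [hmul]
          have h9 : 16 * C2 * (n + m * L * (β + 1)) =
            16 * C2 * n + 16 * C2 * (m * L * (β + 1)) := by ring
          have h10 : 2 ^ 21 * (n + m * L * (β + 1)) = 2 ^ 21 * n + 2 ^ 21 * (m * L * (β + 1)) := by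
            ring
          have h11 : n ≤ 2 ^ 21 * n := Nat.le_mul_of_pos_left _ (by norm_num)
          omega
    · -- middle range
      obtain ⟨G, hG, hGx⟩ := hC2 ν β hb hd
      refine spm_pad hn hn2 G hG (m := m) (K := 2 ^ (ν - β + 1)) k2 ?_ hGx
      have h6 : ν * (Nat.log 2 ν + 1) * 2 ^ (ν - β) ≤ 16 * (m * L * (β + 1)) := by
        calc ν * (Nat.log 2 ν + 1) * 2 ^ (ν - β) ≤ 2 * L * (2 * (β + 1)) * (4 * m) :=
              Nat.mul_le_mul (Nat.mul_le_mul (by omega) (by omega)) k3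
          _ = 16 * (m * L * (β + 1)) := by ring
      have h8 : C2 * (2 ^ ν + ν * (Nat.log 2 ν + 1) * 2 ^ (ν - β)) ≤
          16 * C2 * (n + m * L * (β + 1)) := by
        calc _ ≤ C2 * (16 * (n + m * L * (β + 1))) := Nat.mul_le_mul_left _ (by omega)
          _ = 16 * C2 * (n + m * L * (β + 1)) := by ring
      rw [hmul]
      have h10 : 2 ^ 21 * (n + m * L * (β + 1)) = 2 ^ 21 * n + 2 ^ 21 * (m * L * (β + 1)) := by
        ring
      have h11 : n ≤ 2 ^ 21 * n := Nat.le_mul_of_pos_left _ (by norm_num)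
      omega
  · -- short tokens
    obtain ⟨G, hG, hGx⟩ := hC3 ν β hb hc
    refine spm_pad hn hn2 G hG (m := m) (K := 2 ^ (ν - β + 1)) k2 ?_ hGx
    have h6 : ν * (β + 1) * 2 ^ (ν - β) ≤ 8 * (m * L * (β + 1)) := by
      calc ν * (β + 1) * 2 ^ (ν - β) ≤ 2 * L * (β + 1) * (4 * m) :=
            Nat.mul_le_mul (Nat.mul_le_mul_right _ (by omega)) k3
        _ = 8 * (m * L * (β + 1)) := by ring
    have h8 : C3 * (2 ^ ν + ν * (β + 1) * 2 ^ (ν - β)) ≤ 8 * C3 * (n + m * L * (β + 1)) := by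
      calc _ ≤ C3 * (8 * (n + m * L * (β + 1))) := Nat.mul_le_mul_left _ (by omega)
        _ = 8 * C3 * (n + m * L * (β + 1)) := by ring
    rw [hmul]
    have h10 : 2 ^ 21 * (n + m * L * (β + 1)) = 2 ^ 21 * n + 2 ^ 21 * (m * L * (β + 1)) := by
      ring
    have h11 : n ≤ 2 ^ 21 * n := Nat.le_mul_of_pos_left _ (by norm_num)
    omega

end Pool.Agent.Lin
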