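import Pool.Agent.Lib.MP_76b24b_lcM.Base2

/-!
# MP_76b24b_lc, package M: circuits of size `O(n + m log n log (n / m))` for `m` alternations

THEOREM. There is `C` such that for all `n`, `m` a circuit with at most
`C (n + m log n (log (n / m) + 1))` gates computes `f` on all words `x` of length `n` whose 0-1
subsequence has at most `m` alternations.

IDEA. As in package L it is enough to move the marks `Q` (changes of the payload) to their ranks in
`P` (`cmp`). `2 ^ σ` superblocks of `2 ^ γ = log ^ 4 n` cells. TOKEN of a mark: the lowest digits of its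
rank in `P`. All tokens are written, in order, in one list (`2 ^ (σ + 1 + l)` cells, `2 ^ (σ + l)` is
about `m`). INPUT SIDE: superblocks with many marks are rare; the superblocks with at least
`2 ^ (l + i)` marks are moved to an array of `2 ^ (σ - i - 1)` slots by unique-neighbour expanders (the raw
data move a constant number of times on average, `S_Al`), where a superblock has room for `2 ^ (l + i)`
tokens. Chunks of `2 ^ l` tokens are collected, sorted by their destination (`S_Rt`: `log n` levels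
of expanders, radix sort from the top digit with slack) and the tokens are compacted (`S_NvM`).
OUTPUT SIDE: the same network for the numbers of marks in the output superblocks, used backwards.

Every module is independent (the statements used are hypotheses). `Cx` calculus: Base.lean of package
L; `Mv` calculus (networks for data of any width in both directions): Base2.lean (`Mv.mono, congr,
symm, refl, cx, cxT, pre, inp, comp, equiv, lift, blocks, sumY, base`, `Cx.sig`, `Cx.empty`).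
Numbers `c` in the statements: choose them large.
Each module file: `theorem tXxx (h : S_Used) : S_Xxx`.
-/

set_option autoImplicit false

namespace Pool.Agent.Lin

open Finset

/-! ### Numbers -/

/-- **Sub** (120 lines, uses `S_Add`). Comparison and (truncated) difference.

Proof. With `k + 1` digits (the top digits `0`, `Cx.const`): `w = num a + num (¬ b)` where `¬ b` are the `k`
negated digits (`= 2 ^ k - 1 - num b`), and `w + 1 = num a + 2 ^ k - num b < 2 ^ (k + 1)`, two adders. Digit `k`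
of `w + 1` is true iff `num b ≤ num a`, and then its digits `< k` are those of `num a - num b`; otherwise
the output is `0` (AND with the digit `k`). -/
def S_Sub : Prop :=
  ∃ c : ℕ, ∀ k : ℕ, 0 < k → Cx (fun (x : Fin k ⊕ Fin k → Bool) (p : Unit ⊕ Fin k) =>
    Sum.elim (fun _ : Unit =>
        decide (num (fun t => x (Sum.inr t)) ≤ num (fun t => x (Sum.inl t))))
      (fun t : Fin k =>
        (num (fun t => x (Sum.inl t)) - num (fun t => x (Sum.inr t))).testBit t) p) (c * k)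

/-- **Split** (250 lines, uses `S_Add`, `S_Pop`, `S_Sub`, `S_Or`). The number of marks among the first cells of `P`, in
linear size.

Proof. Induction on `γ`. `γ = 0`: `P 0 ∧ Q 0 ∧ (some digit of k)`. `γ + 1`: left half `L`, right half `R`,
`p = |P ∩ L|`, `m = |P ∩ Q ∩ L|` (`S_Pop`), `b = (p ≤ k)` and `k' = k - p` (`S_Sub` with `D + γ + 1` digits;
`k' ≤ k` has `D` digits). `H = if b then R else L` (for `P` and `Q`), `k'' = if b then k' else k`, `v` = the result for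
`H` and `k''` (induction), output `v + (if b then m else 0)`. Correct: the cells of `R` have ranks
`p + ` (rank in `R`), and if `k < p` no cell of `R` is counted; if `p ≤ k` all marks in `L` are counted.
So `T(γ + 1) ≤ T(γ) + c (2 ^ γ + D + γ + 1)`. -/
def S_Split : Prop :=
  ∃ c : ℕ, ∀ γ D : ℕ, 0 < D →
    Cx (fun (x : Fin D ⊕ (Fin (2 ^ γ) ⊕ Fin (2 ^ γ)) → Bool) (t : Fin (γ + 1)) =>
      ((univ.filter fun ρ : Fin (2 ^ γ) => x (Sum.inr (Sum.inl ρ)) = true ∧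
        x (Sum.inr (Sum.inr ρ)) = true ∧ rk Fin.val (fun ρ => x (Sum.inr (Sum.inl ρ))) ρ <
          num (fun t => x (Sum.inl t))).card).testBit t) (c * (2 ^ γ + (γ + 1) * (D + γ + 1)))

/-- **PreM** (100 lines, uses `S_Add`). Ranks modulo `2 ^ w`.

Proof. `s_0 = 0`, `s_(i+1) = s_i + P_i` modulo `2 ^ w` by `S_Add` with `k = w` (the second summand has the digit
`P_i` at the place `0` and constants `0`); `w = 0` is trivial (`Cx.empty`). -/
def S_PreM : Prop :=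
  ∃ c : ℕ, ∀ n w : ℕ, 0 < n → Cx (fun (P : Fin n → Bool) (p : Fin n × Fin w) =>
    (rk Fin.val P p.1).testBit p.2) (c * (n * (w + 1)))

/-- **Num** (80 lines). A polynomial is smaller than an exponential function.

Proof. E.g. by induction on `c`: `4 L + 6 ≤ K * 2 ^ (L / (8 c))`-type bounds, or by
`Nat`/`Real` asymptotics: `(4 L + 6) ^ c / 2 ^ (L / 4)` tends to `0`, so it is bounded. -/
def S_Num : Prop := ∀ c : ℕ, ∃ C : ℕ, ∀ L : ℕ, (4 * L + 6) ^ c ≤ C * 2 ^ (L / 4)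

/-! ### Networks -/

/-- **Con** (150 lines, uses `S_Mat`). A concentrator: the elements of `u` are matched with bins.

Proof. `F` of `S_Mat` (`d = 16`), `m'(i, t) = F u (i, t) ∧ ¬ ∃ t' < t, F u (i, t')` (16 * 16 * N gates), `Mv.base` with
`ctl = m'`, `d = 16`, `h`. So every `i ∈ u` has exactly one edge in `m'`. -/
def S_Con : Prop :=
  ∃ c : ℕ, ∀ (N M K : ℕ) (h : Fin N → Fin 16 → Fin M), 0 < N → M ≤ N → Good h K →
    ∃ f : (Fin N → Bool) → Fin N → Fin M → Prop,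
      Mv f (c * (N * (Nat.log 2 K + 1))) (c * N) ∧
      ∀ u : Fin N → Bool, (univ.filter fun i => u i = true).card ≤ K →
        PB (fun i => u i = true) (f u)

/-- **Half** (80 lines, uses `S_Con`, `S_Exp`). At most `2 ^ k` elements are moved from `2 ^ (k + 13)` to
`2 ^ (k + 12)` slots.

Proof. `S_Exp` with `N = 2 ^ (k + 13)`, `M = 2 ^ (k + 12)`, `K = 2 ^ k`: `6 * 2 ^ 32 * 2 ^ (k + 13) * 2 ^ (3 k) ≤ 2 ^ (4 k + 48)`. -/
def S_Half : Prop :=
  ∃ c : ℕ, ∀ k N M : ℕ, N = 2 ^ (k + 13) → M = 2 ^ (k + 12) →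
    ∃ f : (Fin N → Bool) → Fin N → Fin M → Prop,
      Mv f (c * ((k + 1) * 2 ^ k)) (c * 2 ^ k) ∧
      ∀ u : Fin N → Bool, (univ.filter fun i => u i = true).card ≤ 2 ^ k →
        PB (fun i => u i = true) (f u)

/-- **Coll** (200 lines, uses `S_Half`). At most `2 ^ k` elements are moved to `2 ^ (k + 13)` slots.

Proof. Induction on `e`. `e = 0`: `u i ∧ i = j` (`Mv.base`, `d = 1`). `e + 1`: `S_Half` with `k + e + 1`, then the network
for `e` with the occupied slots `u' j = ∃ i, u i ∧ f u i j` (`Mv.cx` with `δ = Unit`); `u'` has as many elements as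
`u`. Geometric sums. -/
def S_Coll : Prop :=
  ∃ c : ℕ, ∀ k e N M : ℕ, N = 2 ^ (k + 13 + e) → M = 2 ^ (k + 13) →
    ∃ f : (Fin N → Bool) → Fin N → Fin M → Prop,
      Mv f (c * ((k + e + 1) * 2 ^ (k + e))) (c * 2 ^ (k + e)) ∧
      ∀ u : Fin N → Bool, (univ.filter fun i => u i = true).card ≤ 2 ^ k →
        PB (fun i => u i = true) (f u)

/-- **Rt** (350 lines, uses `S_Half`). Routing: the valid elements (`x (i, Sum.inl ()) = true`) in `2 ^ (k + 13)` slots go to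
their destinations `num (x (i, Sum.inr ·))`, which are different.

Proof. Induction on `k`. `k = 0`: `Mv.base` with `d = 1`, the control is the valid bit. `k + 1`: for `b = 0, 1` let `u_b` be
the valid elements whose highest digit is `b`: at most `2 ^ k` elements, since their other `k` digits are
different; `S_Half` (with `k + 1`) moves them to the array `b` of `2 ^ (k + 13)` slots (`Mv.sumY`), the valid bit and
the other `k` digits are moved along (`Mv.cx`, `δ = Unit ⊕ Fin k`), then the networks for `k` (`Mv.blocks` for `Bool`) and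
the slot `(b, j)` is the slot `b * 2 ^ k + j` (`Mv.equiv`). In the array `b` an empty slot is not valid. Use
`Mv.comp` (first `S_Half`, then the induction). `s(k + 1) ≤ 2 s(k) + c (k + 2) 2 ^ k`, `t(k + 1) ≤ 2 t(k) + c 2 ^ k`. -/
def S_Rt : Prop :=
  ∃ c : ℕ, ∀ k N : ℕ, N = 2 ^ (k + 13) →
    ∃ f : (Fin N × (Unit ⊕ Fin k) → Bool) → Fin N → Fin (2 ^ k) → Prop,
      Mv f (c * ((k + 1) ^ 2 * 2 ^ k)) (c * ((k + 1) * 2 ^ k)) ∧
      ∀ x : Fin N × (Unit ⊕ Fin k) → Bool,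
        (∀ i i', x (i, Sum.inl ()) = true → x (i', Sum.inl ()) = true →
          (∀ t, x (i, Sum.inr t) = x (i', Sum.inr t)) → i = i') →
        ∀ i j, f x i j ↔ x (i, Sum.inl ()) = true ∧ num (fun t => x (i, Sum.inr t)) = j

/-- **NvM** (300 lines, uses only `Mv`). Stable compaction as a network.

Proof. Induction on `k`, as in module Naive of package L (its lemmas on `U`, `V` can be used again). `k = 0`:
`Mv.base`. `k + 1`: `par i` = parity of `rk P i` (XOR chain). `Mv.base` with `d = 2`: the cell `i` has the edges to `(b, i / 2)`,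
`b = 0, 1`, the switch is `P i ∧ (par i = b)`. The new `P` at `(b, i')` is the OR of the two switches; for each `b` the
network for `k` (`Mv.blocks`, `Mv.comp`); output `(b, j)` is the cell `2 j + b` (`Mv.equiv`). The cell `i` with even (odd)
rank `2 r` (`2 r + 1`) becomes the cell `(0, i / 2)` (`(1, i / 2)`) with rank `r`. -/
def S_NvM : Prop :=
  ∃ c : ℕ, ∀ k : ℕ, Mv (fun (P : Fin (2 ^ k) → Bool) (i j : Fin (2 ^ k)) =>
    P i = true ∧ rk Fin.val P i = j) (c * ((k + 1) * 2 ^ k)) (c * ((k + 1) * 2 ^ k))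

/-- The slots of the superblocks: an array of `2 ^ (σ - i)` slots for each class `i ≤ r`. -/
abbrev Slot (σ r : ℕ) : Type := (i : Fin (r + 1)) × Fin (2 ^ (σ - (i : ℕ)))

/-- **Al** (400 lines, uses `S_Half`, `S_Or`). Allocation: every superblock `a` (with the number `q_a` of its marks, given by
`l + r` digits) gets a slot of a class `i` with `q_a < 2 ^ (l + i)`.

Proof. Induction on `r` (for all `l`, `σ`). `r = 0`: `Slot σ 0` is `Fin (2 ^ σ)`, the identity. `r + 1`: `a` is heavy if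
`q_a ≥ 2 ^ l`, i.e. one of the digits `l, …, l + r` is `1` (`S_Or`). A light `a` gets the slot `a` of class `0`. There are at
most `2 ^ (σ - 13)` heavy ones (`q_a` have the sum `≤ 2 ^ (σ - 13 + l)`), `S_Half` with `k = σ - 13` moves them (and the digits,
`Mv.cx`) to `2 ^ (σ - 1)` slots, where the induction is used with `σ - 1`, `l + 1`, `r` (the sum of the numbers is still
`≤ 2 ^ (σ - 1 - 13 + (l + 1))`; empty slots have the number `0`). `Slot σ (r + 1)` is `Fin (2 ^ σ) ⊕ Slot (σ - 1) r`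
(`Mv.sumY`, `Mv.equiv`). Sizes: geometric sums. -/
def S_Al : Prop :=
  ∃ c : ℕ, ∀ r l σ : ℕ, r + 12 ≤ σ →
    ∃ A : (Fin (2 ^ σ) × Fin (l + r) → Bool) → Fin (2 ^ σ) → Slot σ r → Prop,
      Mv A (c * ((σ + l + r + 1) * 2 ^ σ)) (c * 2 ^ σ) ∧
      ∀ x : Fin (2 ^ σ) × Fin (l + r) → Bool,
        ∑ a, num (fun t => x (a, t)) ≤ 2 ^ (σ - 13 + l) →
        PB (fun _ => True) (A x) ∧
          ∀ a p, A x a p → num (fun t => x (a, t)) < 2 ^ (l + (p.1 : ℕ))

/-- **CR** (250 lines, uses `S_Coll`, `S_Rt`). Routing of the chunks: `(r + 1) 2 ^ σ` slots, of which at most `2 ^ (σ + 1)` are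
valid (they have different destinations with `σ + 1` digits).

Proof. `e = Nat.log 2 (r + 1)`, `N = 2 ^ (σ + 1 + 13 + e) ≥ (r + 1) 2 ^ σ`. `Mv.base` with `d = 1` and the valid bits as control embeds the slots
in `Fin N`; `S_Coll` with `k = σ + 1` and the moved valid bits; `S_Rt` with `k = σ + 1` and the moved valid bits and
digits. `2 ^ e ≤ r + 1`. -/
def S_CR : Prop :=
  ∃ c : ℕ, ∀ σ r : ℕ,
    ∃ f : ((Fin (r + 1) × Fin (2 ^ σ)) × (Unit ⊕ Fin (σ + 1)) → Bool) →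
        Fin (r + 1) × Fin (2 ^ σ) → Fin (2 ^ (σ + 1)) → Prop,
      Mv f (c * ((σ + r + 1) ^ 2 * 2 ^ σ)) (c * ((σ + r + 1) * 2 ^ σ)) ∧
      ∀ x : (Fin (r + 1) × Fin (2 ^ σ)) × (Unit ⊕ Fin (σ + 1)) → Bool,
        (∀ i i', x (i, Sum.inl ()) = true → x (i', Sum.inl ()) = true →
          (∀ t, x (i, Sum.inr t) = x (i', Sum.inr t)) → i = i') →
        ∀ i j, f x i j ↔ x (i, Sum.inl ()) = true ∧ num (fun t => x (i, Sum.inr t)) = j

/-! ### The access network -/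

/-- The digits of the numbers `I a`, `a ≤ 2 ^ σ`. -/
def dig (σ k : ℕ) (I : ℕ → ℕ) (p : Fin (2 ^ σ + 1) × Fin k) : Bool := (I p.1).testBit p.2

/-- `I a` is the number of the tokens of the superblocks `< a`. -/
def Prf (σ γ l : ℕ) (I : ℕ → ℕ) : Prop :=
  I 0 = 0 ∧ (∀ a, I a ≤ I (a + 1)) ∧ (∀ a, I (a + 1) ≤ I a + 2 ^ γ) ∧
    I (2 ^ σ) ≤ 2 ^ (σ - 13 + l)

/-- **Qk** (150 lines, uses `S_Sub`, `S_Add`). The number of tokens of `a` and the destination of its first chunk.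

Proof. `I (a + 1) - I a ≤ 2 ^ γ < 2 ^ (l + r)`: `S_Sub` with `σ + γ + 1` digits for each `a`. `I a / 2 ^ l ≤ 2 ^ (σ - 13)` (`σ ≥ 13`) is given by the
digits `≥ l` of `I a`; `S_Add` with `k = σ + 1` and the constant digits of `a`; the sum is `< 2 ^ (σ + 1)`. (The
numbers `I a`, `a ≤ 2 ^ σ`, are at most `2 ^ (σ - 13 + l) < 2 ^ (σ + γ + 1)`, so `num` of the digits is `I a`.) -/
def S_Qk : Prop :=
  ∃ c : ℕ, ∀ σ γ l r : ℕ, l + r = γ + 1 → 0 < r → 13 ≤ σ →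
    ∃ G : (Fin (2 ^ σ + 1) × Fin (σ + γ + 1) → Bool) →
        Fin (2 ^ σ) × (Fin (l + r) ⊕ Fin (σ + 1)) → Bool,
      Cx G (c * ((σ + γ + 1) * 2 ^ σ)) ∧ ∀ I : ℕ → ℕ, Prf σ γ l I → ∀ a : Fin (2 ^ σ),
        (∀ t, G (dig σ (σ + γ + 1) I) (a, Sum.inl t) = (I (a + 1) - I a).testBit t) ∧
        ∀ t, G (dig σ (σ + γ + 1) I) (a, Sum.inr t) = ((a : ℕ) + I a / 2 ^ l).testBit t

/-- **SK** (250 lines, uses `S_Thr`, `S_Add`). A slot of class `i` has `2 ^ (l + i)` cells for tokens, i.e. `2 ^ i` chunks of `2 ^ l` cells; the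
cell `v` of the slot `α` of class `i` is the cell `(i, α * 2 ^ (l + i) + v)`, its chunk `t` is the chunk `(i, α * 2 ^ i + t)`.
From the number of tokens and the destination of the first chunk at every slot: the valid cells,
and the destinations of the chunks.

Proof. `S_Thr` with `k = l + i > 0` for the first `l + i` digits, `4 * 2 ^ (l + i)` gates for each slot; `S_Add` with
`k = σ + 1` and the constant digits of `t` for each chunk. `Cx.fam` over the `i`, `α`; a cell `c` belongs to the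
slot `c / 2 ^ (l + i) < 2 ^ (σ - i)`. -/
def S_SK : Prop :=
  ∃ c : ℕ, ∀ σ l r : ℕ, 0 < l → r ≤ σ →
    ∃ F : (Slot σ r × (Fin (l + r) ⊕ Fin (σ + 1)) → Bool) →
        (Fin (r + 1) × Fin (2 ^ (σ + l))) ⊕ ((Fin (r + 1) × Fin (2 ^ σ)) × Fin (σ + 1)) → Bool,
      Cx F (c * ((σ + 1) * (r + 1) * 2 ^ σ + (r + 1) * 2 ^ (σ + l))) ∧
      ∀ (y : Slot σ r × (Fin (l + r) ⊕ Fin (σ + 1)) → Bool) (p : Slot σ r),
        num (fun t => y (p, Sum.inl t)) < 2 ^ (l + (p.1 : ℕ)) →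
        (∀ e : Fin (2 ^ (σ + l)), (p.2 : ℕ) = e / 2 ^ (l + (p.1 : ℕ)) →
          F y (Sum.inl (p.1, e)) =
            decide ((e : ℕ) % 2 ^ (l + (p.1 : ℕ)) < num (fun t => y (p, Sum.inl t)))) ∧
        ∀ (e : Fin (2 ^ σ)) (t : Fin (σ + 1)), (p.2 : ℕ) = e / 2 ^ (p.1 : ℕ) →
          F y (Sum.inr ((p.1, e), t)) =
            (num (fun t => y (p, Sum.inr t)) + (e : ℕ) % 2 ^ (p.1 : ℕ)).testBit t

/-- **Acc1** (350 lines, uses `S_Al`, `S_Qk`, `S_SK`). The slots of the superblocks, the valid cells and chunks, and the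
destinations of the chunks.

Proof. `G` of `S_Qk`; `A x = A0 (q-digits of G x)` with `A0` of `S_Al` (`Mv.pre`; the sum of the `q_a` is `I (2 ^ σ)`). The digits
of `G x` are moved to the slots (`Mv.cx`); a slot without superblock has the number `0` and no valid cell. `S_SK`
gives `V` (cells) and the digits of `W`; the valid bit of the chunk `e'` is `V (i, e' * 2 ^ l)` (its first cell). -/
def S_Acc1 : Prop :=
  ∃ c : ℕ, ∀ σ γ l r : ℕ, l + r = γ + 1 → 0 < l → 0 < r → r + 12 ≤ σ →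
    ∃ (A : (Fin (2 ^ σ + 1) × Fin (σ + γ + 1) → Bool) → Fin (2 ^ σ) → Slot σ r → Prop)
      (V : (Fin (2 ^ σ + 1) × Fin (σ + γ + 1) → Bool) → Fin (r + 1) × Fin (2 ^ (σ + l)) → Bool)
      (W : (Fin (2 ^ σ + 1) × Fin (σ + γ + 1) → Bool) →
        (Fin (r + 1) × Fin (2 ^ σ)) × (Unit ⊕ Fin (σ + 1)) → Bool),
      Mv A (c * ((σ + γ + 1) * 2 ^ σ)) (c * 2 ^ σ) ∧
      Cx V (c * ((σ + γ + 1) ^ 2 * 2 ^ σ + (σ + γ + 1) * 2 ^ (σ + l))) ∧
      Cx W (c * ((σ + γ + 1) ^ 2 * 2 ^ σ + (σ + γ + 1) * 2 ^ (σ + l))) ∧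
      ∀ I : ℕ → ℕ, Prf σ γ l I → PB (fun _ => True) (A (dig σ (σ + γ + 1) I)) ∧
        (∀ a p, A (dig σ (σ + γ + 1) I) a p → I (a + 1) - I a < 2 ^ (l + (p.1 : ℕ))) ∧
        (∀ (i : Fin (r + 1)) (e : Fin (2 ^ (σ + l))), V (dig σ (σ + γ + 1) I) (i, e) = true ↔
          ∃ a p, A (dig σ (σ + γ + 1) I) a p ∧ p.1 = i ∧ (p.2 : ℕ) = e / 2 ^ (l + (i : ℕ)) ∧
            (e : ℕ) % 2 ^ (l + (i : ℕ)) < I (a + 1) - I a) ∧
        (∀ (i : Fin (r + 1)) (e : Fin (2 ^ σ)),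
          W (dig σ (σ + γ + 1) I) ((i, e), Sum.inl ()) = true ↔
          ∃ a p, A (dig σ (σ + γ + 1) I) a p ∧ p.1 = i ∧ (p.2 : ℕ) = e / 2 ^ (i : ℕ) ∧
            (e : ℕ) % 2 ^ (i : ℕ) * 2 ^ l < I (a + 1) - I a) ∧
        ∀ (e : Fin (2 ^ σ)) (t : Fin (σ + 1)) (a : Fin (2 ^ σ)) (p : Slot σ r),
          A (dig σ (σ + γ + 1) I) a p → (p.2 : ℕ) = e / 2 ^ (p.1 : ℕ) →
          W (dig σ (σ + γ + 1) I) ((p.1, e), Sum.inr t) =
            ((a : ℕ) + I a / 2 ^ l + (e : ℕ) % 2 ^ (p.1 : ℕ)).testBit t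

/-- **RkL** (150 lines). The ranks of the tokens in the sorted array of chunks.

Proof. `(a + 1 + I (a + 1) / 2 ^ l) 2 ^ l > (a + I a / 2 ^ l) 2 ^ l + (I (a + 1) - I a)`, as `(y / 2 ^ l) 2 ^ l > y - 2 ^ l` and
`(y / 2 ^ l) 2 ^ l ≤ y`. So the places of the tokens of different `a` are in the order of `a`, and the cells with `P`
before `k` are the `I (a' + 1) - I a'` cells of each `a' < a` and `w` cells of `a`; the sum is `I a + w`. (Induction on `a`
for the number of the cells with `P` before `(a + I a / 2 ^ l) 2 ^ l`, which is `I a`.) -/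
def S_RkL : Prop :=
  ∀ (σ l n : ℕ) (I : ℕ → ℕ) (P : Fin n → Bool), I 0 = 0 → (∀ a, I a ≤ I (a + 1)) →
    (∀ a < 2 ^ σ, ∀ w < I (a + 1) - I a, (a + I a / 2 ^ l) * 2 ^ l + w < n) →
    (∀ k : Fin n, P k = true ↔
      ∃ a < 2 ^ σ, ∃ w < I (a + 1) - I a, (k : ℕ) = (a + I a / 2 ^ l) * 2 ^ l + w) →
    ∀ (a w : ℕ) (k : Fin n), a < 2 ^ σ → w < I (a + 1) - I a →
      (k : ℕ) = (a + I a / 2 ^ l) * 2 ^ l + w → rk Fin.val P k = I a + w

/-- **Acc** (400 lines, uses `S_Acc1`, `S_CR`, `S_NvM`, `S_RkL`). The access network. `A`: superblocks and slots. `B`: the cell `v` of the slot of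
the superblock `a` is connected with the cell `I a + v` of the list, for `v < I (a + 1) - I a`.

Proof. `A`, `V`, `W` of `S_Acc1`. The cell `(i, e)` is the cell `e % 2 ^ l` of the chunk `(i, e / 2 ^ l)`. Network `B`: `S_CR` for `W`, lifted
(`Mv.lift` with `U = Fin (2 ^ l)`), then `S_NvM` with `k = σ + 1 + l` on the cells `j * 2 ^ l + u` of the positions `j < 2 ^ (σ + 1)`, with
`P` = the moved `V` (`Mv.comp`, `Mv.equiv`). The valid chunks are `(a, t)` with `t 2 ^ l < I (a + 1) - I a`, the destination is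
`a + I a / 2 ^ l + t < 2 ^ (σ + 1)`; different chunks have different destinations (see `S_RkL`: the next superblock
starts after `a + I a / 2 ^ l + (I (a + 1) - I a) / 2 ^ l`). So the cell `v = t 2 ^ l + u` of `a` comes to the place
`(a + I a / 2 ^ l) 2 ^ l + v`, `P` is as in `S_RkL`, and the rank is `I a + v`. -/
def S_Acc : Prop :=
  ∃ c : ℕ, ∀ σ γ l r : ℕ, l + r = γ + 1 → 0 < l → 0 < r → r + 12 ≤ σ →
    ∃ (A : (Fin (2 ^ σ + 1) × Fin (σ + γ + 1) → Bool) → Fin (2 ^ σ) → Slot σ r → Prop)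
      (B : (Fin (2 ^ σ + 1) × Fin (σ + γ + 1) → Bool) → Fin (r + 1) × Fin (2 ^ (σ + l)) →
        Fin (2 ^ (σ + 1 + l)) → Prop),
      Mv A (c * ((σ + γ + 1) * 2 ^ σ)) (c * 2 ^ σ) ∧
      Mv B (c * ((σ + γ + 1) ^ 2 * 2 ^ σ + (σ + γ + 1) * 2 ^ (σ + l)))
        (c * ((σ + γ + 1) * 2 ^ (σ + l))) ∧
      ∀ I : ℕ → ℕ, Prf σ γ l I → PB (fun _ => True) (A (dig σ (σ + γ + 1) I)) ∧
        (∀ a p, A (dig σ (σ + γ + 1) I) a p → I (a + 1) - I a < 2 ^ (l + (p.1 : ℕ))) ∧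
        ∀ (i : Fin (r + 1)) (e : Fin (2 ^ (σ + l))) (ρ : Fin (2 ^ (σ + 1 + l))),
          B (dig σ (σ + γ + 1) I) (i, e) ρ ↔
          ∃ a p, A (dig σ (σ + γ + 1) I) a p ∧ p.1 = i ∧ (p.2 : ℕ) = e / 2 ^ (l + (i : ℕ)) ∧
            (e : ℕ) % 2 ^ (l + (i : ℕ)) < I (a + 1) - I a ∧
            (ρ : ℕ) = I a + (e : ℕ) % 2 ^ (l + (i : ℕ))

/-! ### Inside of one superblock -/

/-- The raw data of a superblock: `γ` digits, and for each cell three bits `P`, `Q`, `Z`. -/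
abbrev Raw (γ : ℕ) : Type := Fin γ ⊕ (Fin 3 × Fin (2 ^ γ))

/-- Compression with `s` gates: if there are at most `2 ^ j` marks, the output `v` are the lowest `w` digits of
`o +` the rank in `P` of the `v`-th mark, and its bit `Z` (which may be assumed to be `true` if `zz`). -/
def LCom (γ j w s : ℕ) (zz : Prop) : Prop :=
  ∃ F : (Raw γ → Bool) → Fin (2 ^ j) × (Fin w ⊕ Unit) → Bool, Cx F s ∧
    ∀ x : Raw γ → Bool, (zz → ∀ ρ, x (Sum.inr (2, ρ)) = true) →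
      (univ.filter fun ρ : Fin (2 ^ γ) =>
        x (Sum.inr (0, ρ)) = true ∧ x (Sum.inr (1, ρ)) = true).card ≤ 2 ^ j →
      ∀ (ρ : Fin (2 ^ γ)) (v : Fin (2 ^ j)), x (Sum.inr (0, ρ)) = true →
        x (Sum.inr (1, ρ)) = true →
        rk Fin.val (fun ρ : Fin (2 ^ γ) => x (Sum.inr (0, ρ)) && x (Sum.inr (1, ρ))) ρ = v →
        (∀ e : Fin w, F x (v, Sum.inl e) = (num (fun t => x (Sum.inl t)) +
          rk Fin.val (fun ρ : Fin (2 ^ γ) => x (Sum.inr (0, ρ))) ρ).testBit e) ∧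
        F x (v, Sum.inr ()) = x (Sum.inr (2, ρ))

/-- **ComN** (200 lines, uses `S_Pre`, `S_Add`, `S_Naive`). Compression, the simple way.

Proof. `S_Pre` with `β = 0`, `η = γ`: the ranks of all cells; `S_Add` with `k = γ` for each cell: the lowest `γ` digits of
`o + rk`. `S_Naive` (`k = γ`) with `P := P ∧ Q` and `Q :=` each of the first `w` of these digits and `Z` (`Cx.fam`):
`cmp (P ∧ Q) D v` is the bit `D` at the `v`-th mark. The outputs `v ≥ 2 ^ γ` (never used) are constants. -/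
def S_ComN : Prop :=
  ∃ c : ℕ, ∀ γ j w : ℕ, 0 < γ → w ≤ γ →
    LCom γ j w (c * ((γ + 1) ^ 2 * 2 ^ γ + 2 ^ j * (w + 1))) False

/-- **Bins** (350 lines, uses `S_Or`, `S_Pre`, `S_Con`, `S_Sort`). The data of the active blocks, in order, in `2 ^ μ` bins (`dat`, `act` of
package L).

Proof. Activity of the blocks: ANDs and `S_Or`. `S_Pre`: digits of the rank `s_i` of the beginning of each block.
`S_Con` for the active blocks, `Mv.cx` moves the data `dat x i` (bins without block get `0`). `S_Sort` with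
`k = μ`, `D = (η + β + 1) + 2 ^ β + 2 ^ β` bits, the key are the `L = η + β + 1` digits of `s_i`. For active `i < i'` we have
`s_i < s_i'` (the block `i` contains a cell with `P`), so in the sorted array the bin of `i` comes before the
bin of `i'`: `φ i = σ⁻¹ (bin of i)`. -/
def S_Bins : Prop :=
  ∃ c : ℕ, ∀ (β η μ K : ℕ) (h : Fin (2 ^ η) → Fin 16 → Fin (2 ^ μ)), μ ≤ η → Good h K →
    ∃ F : ((Fin (2 ^ η) × Fin (2 ^ β)) ⊕ (Fin (2 ^ η) × Fin (2 ^ β)) → Bool) →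
      Fin (2 ^ μ) × (Fin (η + β + 1) ⊕ (Fin (2 ^ β) ⊕ Fin (2 ^ β))) → Bool,
      Cx F (c * (2 ^ η * (2 ^ β + η + Nat.log 2 K + 1) +
        (η + β + 1) * (η + β + 1 + 2 ^ β) * (μ + 1) * 2 ^ μ)) ∧
      ∀ x, (act x).card ≤ K → ∃ φ : Fin (2 ^ η) → Fin (2 ^ μ),
        (∀ i ∈ act x, ∀ i' ∈ act x, i < i' → φ i < φ i') ∧
        (∀ i ∈ act x, ∀ e, F x (φ i, e) = dat x i e) ∧
        ∀ q, (∀ i ∈ act x, φ i ≠ q) → ∀ e, F x (q, e) = false

/-- **ComS** (400 lines, uses `S_Bins`, `S_Exp`, `S_Pre`, `S_Add`, `S_Naive`). Compression in linear size, for few marks.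

Proof. `Λ = Nat.log 2 γ + 1` (`γ < 2 ^ Λ ≤ 2 γ`), `β = Λ`, `η = γ - Λ`, `μ = η - 2 Λ`, `K = 2 ^ j`. `S_Exp`: `35 + η + 3 j ≤ 4 μ` follows from
`j + 4 Λ + 12 ≤ γ`. The active blocks are at most as many as the marks, `≤ 2 ^ j`. `S_Bins` (the cell `ρ` is the cell
`(ρ / 2 ^ β, ρ % 2 ^ β)`). For each bin: `S_Pre` (blocks of length `1`) gives the rank `rk'` of each cell in the
block, two `S_Add` with `k = γ`: `o + s_i + rk'` modulo `2 ^ γ`. The marks `P ∧ Q` in the `2 ^ (μ + β)` cells of the bins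
are, in the order of `bpos`, the marks of the superblock (`φ` is increasing), so `S_Naive` (`k = μ + β`,
`P := P ∧ Q`, `Q :=` the digit) gives the digits of the `v`-th mark, `v < 2 ^ j ≤ 2 ^ (μ + β)`. The bit `Z` is the constant
`true`. Size: `2 ^ η (2 ^ β + η + j + 1) ≤ 4 * 2 ^ γ`, `(γ + 1) (γ + 1 + 2 ^ β) (μ + 1) 2 ^ μ ≤ 2 * 2 ^ (3 Λ + μ) = 2 * 2 ^ γ`,
`γ * 8 (μ + β + 1) 2 ^ (μ + β) ≤ 8 * 2 ^ (3 Λ + μ)`. -/
def S_ComS : Prop :=
  ∃ c : ℕ, ∀ γ j : ℕ, j + 4 * (Nat.log 2 γ + 1) + 12 ≤ γ → LCom γ j γ (c * 2 ^ γ) True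

/-- **Com** (60 lines, uses `S_ComN`, `S_ComS`). Compression for any number of marks.

Proof. If `j + 4 Λ + 12 ≤ γ`: `S_ComS`. Otherwise `2 ^ γ ≤ 2 ^ j * 2 ^ 12 * (2 γ) ^ 4`, and `S_ComN` with `w = γ` (the hypothesis
`False → …` is void, so it gives the statement with `True`). -/
def S_Com : Prop :=
  ∃ c : ℕ, ∀ γ j : ℕ, 0 < γ → LCom γ j γ (c * (2 ^ γ + 2 ^ j * (γ + 1) ^ c)) True

/-- Decompression of tokens with all their digits. -/
def DecF (γ j : ℕ) (x : Fin (2 ^ j) × (Unit ⊕ Fin γ) → Bool) (e : Fin (2 ^ γ)) : Bool :=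
  decide (∃ v, x (v, Sum.inl ()) = true ∧ num (fun t => x (v, Sum.inr t)) = e)

/-- **DecN** (150 lines, uses `S_KeyOr`). Decompression, the simple way.

Proof. `S_KeyOr` with `k = max γ j + 1`, `L = γ`, `b = 1`: the records `< 2 ^ (max γ j)` are the tokens (key: the digits,
string: the valid bit; unused records have the string `0`), the record `2 ^ (max γ j) + e` is a question with
the key `e` and the string `0`. `2 ^ k ≤ 2 (2 ^ γ + 2 ^ j)`. -/
def S_DecN : Prop :=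
  ∃ c : ℕ, ∀ γ j : ℕ, Cx (DecF γ j) (c * ((γ + j + 1) ^ 3 * (2 ^ γ + 2 ^ j)))

/-- **DecS** (350 lines, uses `S_DecN`, `S_Back`, `S_Exp`). Decompression in linear size, for few tokens.

Proof. `Λ = Nat.log 2 (γ + 1) + 1` (`γ + 1 < 2 ^ Λ ≤ 2 (γ + 1)`), `β = 4 Λ`, `η = γ - 4 Λ`, `μ = γ - 12 Λ - 6`, `K = 2 ^ j`. `S_Exp`:
`35 + η + 3 j ≤ 4 μ` follows from `j + 16 Λ + 20 ≤ γ`. `u a` = some valid token has the high digits `a` (`S_DecN` with
`η`, `j`: `(2 γ + 1) ^ 3 * 2 * 2 ^ η ≤ 16 * 2 ^ γ`); at most `2 ^ j = K` elements. `S_Back`: the record `(0, v)`, `v < 2 ^ j ≤ 2 ^ μ`, has the key =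
the high digits of the token `v` (and a top digit `0`) and the string `(valid v ∧ low digits of v = e')_(e' < 2 ^ β)`
(at most `2 ^ β * (β + 2)` gates for each token, in all `≤ 2 ^ γ`); the other records are `0`. Output `(a, e')` of
`S_Back` is the cell `a * 2 ^ β + e'`. Size of `S_Back`: `2 ^ η (2 ^ β + η + j + 1) ≤ 3 * 2 ^ γ`,
`2 ^ μ (η + 2 ^ β + 1) ^ 3 ≤ 2 ^ (μ + 3 β + 3) = 2 ^ (γ - 3)`. -/
def S_DecS : Prop :=
  ∃ c : ℕ, ∀ γ j : ℕ, j + 16 * (Nat.log 2 (γ + 1) + 1) + 20 ≤ γ → Cx (DecF γ j) (c * 2 ^ γ)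

/-- Decompression with `s` gates of tokens with `w` digits, a bit `Z` and a valid bit: the high digits of a
token are the number of the valid tokens with digits `0` up to this token, minus one. -/
def LDec (γ j w s : ℕ) : Prop :=
  Cx (fun (x : Fin (2 ^ j) × (Fin w ⊕ (Unit ⊕ Unit)) → Bool) (e : Fin (2 ^ γ)) =>
    decide (∃ v : Fin (2 ^ j), x (v, Sum.inr (Sum.inl ())) = true ∧
      x (v, Sum.inr (Sum.inr ())) = true ∧
      (num (fun t => x (v, Sum.inl t)) + 2 ^ w * ((univ.filter fun v' : Fin (2 ^ j) =>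
        v' ≤ v ∧ x (v', Sum.inr (Sum.inr ())) = true ∧ ∀ t, x (v', Sum.inl t) = false).card
          - 1)) % 2 ^ γ = e)) s

/-- **Dec** (250 lines, uses `S_DecN`, `S_DecS`, `S_Pre`, `S_Sub`).

Proof. First `DecF γ j` with `c (2 ^ γ + 2 ^ j (γ + 1) ^ c)` gates for `j ≤ γ + 1`: `S_DecS` if `j + 16 Λ + 20 ≤ γ`, otherwise
`2 ^ γ ≤ 2 ^ j 2 ^ 20 (2 (γ + 1)) ^ 16` and `S_DecN`. Then: `ζ v` = valid and all digits `0`; `S_Pre` with `β = 0`, `η = j` gives
`rk ζ (v + 1)` = the number of `v' ≤ v` with `ζ`; minus one by `S_Sub` with `k = j + 1`; its lowest `γ - w` digits (zeros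
if there are not enough) are the high digits of the token, `(num + 2 ^ w * h) % 2 ^ γ` is the number with these
`γ` digits. `DecF` with the valid bit `Z ∧ valid`. -/
def S_Dec : Prop :=
  ∃ c : ℕ, ∀ γ j w : ℕ, w ≤ γ → j ≤ γ + 1 → LDec γ j w (c * (2 ^ γ + 2 ^ j * (γ + 1) ^ c))

/-! ### The two sides -/

/-- The slot `a` of class `i`. -/
def sl {σ r : ℕ} (i : Fin (r + 1)) (a : ℕ) : Slot σ r :=
  ⟨i, ⟨a % 2 ^ (σ - (i : ℕ)), Nat.mod_lt _ (Nat.two_pow_pos _)⟩⟩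

/-- A number modulo `2 ^ j`. -/
def lo (j a : ℕ) : Fin (2 ^ j) := ⟨a % 2 ^ j, Nat.mod_lt _ (Nat.two_pow_pos _)⟩

/-- **LA** (120 lines). Local circuits at all slots, from the slots to the cells and from the cells to the
slots.

Proof. For each class `i` and slot `α` a copy of the circuit (`Cx.fam` or `Cx.sig`, `Cx.inp`, `Cx.out`); the number of the slots
of class `i` is `2 ^ (σ - i)`. -/
def S_LA : Prop :=
  (∀ (σ l r : ℕ) (ρ δ : Type) (co : ℕ → ℕ)
    (F : ∀ i : Fin (r + 1), (ρ → Bool) → Fin (2 ^ (l + (i : ℕ))) × δ → Bool), r ≤ σ →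
    (∀ i, Cx (F i) (co i)) →
    Cx (fun (y : Slot σ r × ρ → Bool) (q : (Fin (r + 1) × Fin (2 ^ (σ + l))) × δ) =>
      F q.1.1 (fun e => y (sl q.1.1 (q.1.2 / 2 ^ (l + (q.1.1 : ℕ))), e))
        (lo (l + (q.1.1 : ℕ)) q.1.2, q.2)) (∑ i ∈ range (r + 1), 2 ^ (σ - i) * co i)) ∧
  ∀ (σ l r : ℕ) (δ τ : Type) (co : ℕ → ℕ)
    (G : ∀ i : Fin (r + 1), (Fin (2 ^ (l + (i : ℕ))) × δ → Bool) → τ → Bool), r ≤ σ →
    (∀ i, Cx (G i) (co i)) →
    Cx (fun (y : (Fin (r + 1) × Fin (2 ^ (σ + l))) × δ → Bool) (q : Slot σ r × τ) =>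
      G q.1.1 (fun e => y ((q.1.1, lo (σ + l) ((q.1.2 : ℕ) * 2 ^ (l + (q.1.1 : ℕ)) + e.1)), e.2))
        q.2) (∑ i ∈ range (r + 1), 2 ^ (σ - i) * co i)

/-- **In** (400 lines, uses `S_Acc`, `S_Pre`, `S_LA`). The list of the tokens.

Proof. `S_Pre` for `P` (`R_a`, the rank of the beginning of the superblock `a`) and for `P ∧ Q` (`J_a`; `Prf σ γ l J`; `J (a + 1) - J a` is
the number of marks of `a`; for `a ≥ 2 ^ σ` `rk` is constant). `A`, `B` of `S_Acc` for `dig J`. `A` moves the raw data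
(`γ` lowest digits of `R_a`, `P`, `Q`, `Z` of the cells) to the slots: `c 2 ^ σ (γ + 3 * 2 ^ γ)` gates. `S_LA` with the
circuits `LCom`. `B` moves the `w + 1` bits of each cell to the list. The mark `p = (a, ρ')` is the mark number
`v = rk_a ρ' < J (a + 1) - J a` of `a`, its global number is `J a + v`; its rank in `P` is `R_a + rk ρ'`, and
`(R_a % 2 ^ γ + rk).testBit e = (R_a + rk).testBit e` for `e < w ≤ γ`. Each cell of the list is connected with at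
most one cell (`PB` and `J a + v` determines `a`, `v`). -/
def S_In : Prop :=
  ∃ c : ℕ, ∀ (σ γ l r w : ℕ) (zz : Prop) (co : ℕ → ℕ), l + r = γ + 1 → 0 < l → 0 < r →
    r + 12 ≤ σ → w ≤ γ → (∀ i ≤ r, LCom γ (l + i) w (co i) zz) →
    ∃ F : (Fin 3 × (Fin (2 ^ σ) × Fin (2 ^ γ)) → Bool) →
        Fin (2 ^ (σ + 1 + l)) × (Fin w ⊕ Unit) → Bool,
      Cx F (c * (2 ^ (σ + γ) + (σ + γ + 1) ^ 2 * 2 ^ σ + (w + 1) * (σ + γ + 1) * 2 ^ (σ + l)) +
        ∑ i ∈ range (r + 1), 2 ^ (σ - i) * co i) ∧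
      ∀ x : Fin 3 × (Fin (2 ^ σ) × Fin (2 ^ γ)) → Bool, (zz → ∀ p, x (2, p) = true) →
        (univ.filter fun p => x (0, p) = true ∧ x (1, p) = true).card ≤ 2 ^ (σ - 13 + l) →
        ∀ (p : Fin (2 ^ σ) × Fin (2 ^ γ)) (ρ : Fin (2 ^ (σ + 1 + l))), x (0, p) = true →
          x (1, p) = true → rk (bpos (2 ^ γ)) (fun p => x (0, p) && x (1, p))
            (bpos (2 ^ γ) p) = ρ →
          (∀ e : Fin w, F x (ρ, Sum.inl e) =
            (rk (bpos (2 ^ γ)) (fun p => x (0, p)) (bpos (2 ^ γ) p)).testBit e) ∧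
          F x (ρ, Sum.inr ()) = x (2, p)

/-- **Out** (350 lines, uses `S_Acc`, `S_LA`). From the list to the output superblocks.

Proof. `A`, `B` of `S_Acc` for `dig I`. `B` backwards (`Mv.cxT`) moves the `w + 1` bits of the cells of the list, and a constant
`true` (the valid bit), to the cells of the slots; `S_LA` (second part) with the circuits `LDec`; `A` backwards
moves the strings of length `2 ^ γ` to the superblocks. In the slot of `a` the cell `v` is valid iff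
`v < I (a + 1) - I a`, and then it contains the data of the cell `I a + v` of the list. -/
def S_Out : Prop :=
  ∃ c : ℕ, ∀ (σ γ l r w : ℕ) (co : ℕ → ℕ), l + r = γ + 1 → 0 < l → 0 < r →
    r + 12 ≤ σ → (∀ i ≤ r, LDec γ (l + i) w (co i)) →
    ∃ F : ((Fin (2 ^ σ + 1) × Fin (σ + γ + 1)) ⊕
        (Fin (2 ^ (σ + 1 + l)) × (Fin w ⊕ Unit)) → Bool) → Fin (2 ^ σ) × Fin (2 ^ γ) → Bool,
      Cx F (c * (2 ^ (σ + γ) + (σ + γ + 1) ^ 2 * 2 ^ σ + (w + 1) * (σ + γ + 1) * 2 ^ (σ + l)) +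
        ∑ i ∈ range (r + 1), 2 ^ (σ - i) * co i) ∧
      ∀ (I : ℕ → ℕ) (x : (Fin (2 ^ σ + 1) × Fin (σ + γ + 1)) ⊕
          (Fin (2 ^ (σ + 1 + l)) × (Fin w ⊕ Unit)) → Bool), Prf σ γ l I →
        (∀ p, x (Sum.inl p) = dig σ (σ + γ + 1) I p) →
        ∀ (a : Fin (2 ^ σ)) (e : Fin (2 ^ γ)), F x (a, e) = true ↔
          ∃ ρ : Fin (2 ^ (σ + 1 + l)), I a ≤ ρ ∧ (ρ : ℕ) < I (a + 1) ∧
            x (Sum.inr (ρ, Sum.inr ())) = true ∧
            (num (fun t => x (Sum.inr (ρ, Sum.inl t))) +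
              2 ^ w * ((univ.filter fun ρ' : Fin (2 ^ (σ + 1 + l)) => I a ≤ ρ' ∧ ρ' ≤ ρ ∧
                ∀ t, x (Sum.inr (ρ', Sum.inl t)) = false).card - 1)) % 2 ^ γ = e

/-- **Prof** (350 lines, uses `S_Pre`, `S_Split`, `S_Sub`, `S_Add`, `S_Naive`). The numbers `I a` of the marks with a rank (in `P`) `< a 2 ^ γ`.

Proof. `R_s`, `J_s` = ranks of the beginning of the superblock `s` in `P` and in `P ∧ Q` (`S_Pre`). `k_s = 2 ^ γ - R_s % 2 ^ γ` (`S_Sub`,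
`γ + 1` digits), `v_s = J_s +` the number of marks of `s` whose rank in the superblock is `< k_s` (`S_Split`, `D = γ + 1`;
`S_Add`): the number of marks with rank `< (R_s / 2 ^ γ + 1) 2 ^ γ` in the superblocks `≤ s`. `f_s` = the digits `γ` of `R_s` and
`R_(s+1)` differ (`R_s / 2 ^ γ ≠ R_(s+1) / 2 ^ γ`; the quotients increase by `0` or `1`), so the number of `s' < s` with
`f_s'` is `R_s / 2 ^ γ` (induction). For `a ≥ 1`: if `a 2 ^ γ ≤ R_(2 ^ σ)` there is exactly one `s` with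
`R_s < a 2 ^ γ ≤ R_(s+1)`, it has `f_s` and rank `a - 1`, and `I a = v_s`; otherwise `I a = J_(2 ^ σ)`. So with `S_Naive`
(`k = σ`, `P := f`, `Q :=` each digit of `v`, and `Q := true`) the digit of `I a` is `cmp f (digit) (a - 1)` if
`cmp f true (a - 1)`, and the digit of `J_(2 ^ σ)` otherwise. `I 0 = 0`. -/
def S_Prof : Prop :=
  ∃ c : ℕ, ∀ σ γ : ℕ, ∃ F : (Fin 2 × (Fin (2 ^ σ) × Fin (2 ^ γ)) → Bool) →
      Fin (2 ^ σ + 1) × Fin (σ + γ + 1) → Bool,
    Cx F (c * (2 ^ (σ + γ) + (σ + γ + 1) ^ 2 * 2 ^ σ)) ∧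
    ∀ x p, F x p = dig σ (σ + γ + 1) (fun a =>
      (univ.filter fun p : Fin (2 ^ σ) × Fin (2 ^ γ) => x (0, p) = true ∧ x (1, p) = true ∧
        rk (bpos (2 ^ γ)) (fun p => x (0, p)) (bpos (2 ^ γ) p) < a * 2 ^ γ).card) p

/-- **MainL** (300 lines, pure combinatorics). Correctness of the tokens with `w` digits.

Proof. `pos = bpos (2 ^ γ)` is injective. Let `p` be a mark of rank `d = rk P p`, number `ρ = rk (P ∧ Q) p`. The marks with
number `≤ ρ` are the marks with rank `≤ d`, and `ρ ≥ I a` iff `d ≥ a 2 ^ γ`. The list cell `ρ'` belongs to the mark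
number `ρ'` (all `ρ' < I (2 ^ σ)` are numbers of marks), its digits are `0` iff `2 ^ w ∣ d'`. If `w < γ`: the number of the
marks with `a 2 ^ γ ≤ d' ≤ d`, `2 ^ w ∣ d'`, is the number of the multiples of `2 ^ w` in `[a 2 ^ γ, d]` (each of them is the
rank of a cell with `P`, which is marked by `hM`), i.e. `(d - a 2 ^ γ) / 2 ^ w + 1`; so the sum is
`d % 2 ^ w + 2 ^ w ((d - a 2 ^ γ) / 2 ^ w) = d - a 2 ^ γ < 2 ^ γ`. If `w = γ` the sum is `d % 2 ^ γ` modulo `2 ^ γ`. -/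
def S_MainL : Prop :=
  ∀ (σ γ n w : ℕ) (P Q Z : Fin (2 ^ σ) × Fin (2 ^ γ) → Bool) (T : Fin n → Fin w → Bool)
    (U : Fin n → Bool) (I : ℕ → ℕ), w ≤ γ →
    (univ.filter fun p => P p = true ∧ Q p = true).card ≤ n →
    (∀ a, I a = (univ.filter fun p => P p = true ∧ Q p = true ∧
      rk (bpos (2 ^ γ)) P (bpos (2 ^ γ) p) < a * 2 ^ γ).card) →
    (∀ p (ρ : Fin n), P p = true → Q p = true →
      rk (bpos (2 ^ γ)) (fun p => P p && Q p) (bpos (2 ^ γ) p) = ρ →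
      (∀ e, T ρ e = (rk (bpos (2 ^ γ)) P (bpos (2 ^ γ) p)).testBit e) ∧ U ρ = Z p) →
    (w < γ → ∀ p, P p = true → 2 ^ w ∣ rk (bpos (2 ^ γ)) P (bpos (2 ^ γ) p) → Q p = true) →
    ∀ (a : Fin (2 ^ σ)) (e : Fin (2 ^ γ)),
      (∃ ρ : Fin n, I a ≤ ρ ∧ (ρ : ℕ) < I (a + 1) ∧ U ρ = true ∧
        (num (T ρ) + 2 ^ w * ((univ.filter fun ρ' : Fin n => I a ≤ ρ' ∧ ρ' ≤ ρ ∧
          ∀ t, T ρ' t = false).card - 1)) % 2 ^ γ = e) ↔
      cmp (bpos (2 ^ γ)) P (fun p => Q p && Z p) (a * 2 ^ γ + e) = true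

/-- **Main** (200 lines, uses `S_In`, `S_Out`, `S_Prof`, `S_MainL`). Stable compaction, given the local circuits.

Proof. `S_Prof` (`Prf σ γ l I`: the ranks of different cells with `P` are different, so at most `2 ^ γ` of them are in
`[a 2 ^ γ, (a + 1) 2 ^ γ)`), `S_In`, `S_Out`, `S_MainL` with `n = 2 ^ (σ + 1 + l)`. -/
def S_Main : Prop :=
  ∃ c : ℕ, ∀ (σ γ l r w : ℕ) (zz : Prop) (ci co : ℕ → ℕ), l + r = γ + 1 → 0 < l → 0 < r →
    r + 12 ≤ σ → w ≤ γ → (∀ i ≤ r, LCom γ (l + i) w (ci i) zz) →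
    (∀ i ≤ r, LDec γ (l + i) w (co i)) →
    ∃ F : (Fin 3 × (Fin (2 ^ σ) × Fin (2 ^ γ)) → Bool) → Fin (2 ^ σ) × Fin (2 ^ γ) → Bool,
      Cx F (c * (2 ^ (σ + γ) + (σ + γ + 1) ^ 2 * 2 ^ σ + (w + 1) * (σ + γ + 1) * 2 ^ (σ + l)) +
        ∑ i ∈ range (r + 1), 2 ^ (σ - i) * (ci i + co i)) ∧
      ∀ x : Fin 3 × (Fin (2 ^ σ) × Fin (2 ^ γ)) → Bool, (zz → ∀ p, x (2, p) = true) →
        (univ.filter fun p => x (0, p) = true ∧ x (1, p) = true).card ≤ 2 ^ (σ - 13 + l) →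
        (w < γ → ∀ p, x (0, p) = true →
          2 ^ w ∣ rk (bpos (2 ^ γ)) (fun p => x (0, p)) (bpos (2 ^ γ) p) → x (1, p) = true) →
        ∀ (a : Fin (2 ^ σ)) (e : Fin (2 ^ γ)), F x (a, e) =
          cmp (bpos (2 ^ γ)) (fun p => x (0, p)) (fun p => x (1, p) && x (2, p)) (a * 2 ^ γ + e)

/-! ### Parameters -/

/-- **T2** (300 lines, uses `S_Main`, `S_Com`, `S_Dec`, `S_Num`). Tokens with all digits.

Proof. `Λ = Nat.log 2 ν + 1` (`ν < 2 ^ Λ ≤ 2 ν`); `16 ≤ β ≤ 2 Λ` gives `Λ ≥ 8`, `ν ≥ 128`. `γ = 4 Λ`, `σ = ν - γ`, `w = γ`, `l = γ - β + 14 ≤ γ`, `r = β - 13`, `zz = True`, the third input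
`Z` is the constant `true`. `r + 12 ≤ σ` since `6 Λ ≤ ν`. `σ - 13 + l = ν - β + 1`. Cell `j` is `(j / 2 ^ γ, j % 2 ^ γ)`. Size: `(ν + 1) ^ 2 2 ^ (ν - γ) ≤ 4 * 2 ^ ν`;
`(γ + 1) (ν + 1) 2 ^ (σ + l) ≤ 2 ^ 18 Λ ν 2 ^ (ν - β)`; `∑ 2 ^ (σ - i) c (2 ^ γ + 2 ^ (l + i) (γ + 1) ^ c) ≤ 2 c 2 ^ ν + (γ + 1) ^ (c + 1) c 2 ^ (σ + l)`
and `(γ + 1) ^ (c + 1) ≤ C ν` by `S_Num` with `L = Nat.log 2 ν`. -/
def S_T2 : Prop :=
  ∃ C : ℕ, ∀ ν β : ℕ, 16 ≤ β → β ≤ 2 * (Nat.log 2 ν + 1) →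
    ∃ F : (Fin (2 ^ ν) ⊕ Fin (2 ^ ν) → Bool) → Fin (2 ^ ν) → Bool,
      Cx F (C * (2 ^ ν + ν * (Nat.log 2 ν + 1) * 2 ^ (ν - β))) ∧
      ∀ x, (univ.filter fun i => x (Sum.inl i) = true ∧ x (Sum.inr i) = true).card ≤
        2 ^ (ν - β + 1) → ∀ j,
          F x j = cmp Fin.val (fun i => x (Sum.inl i)) (fun i => x (Sum.inr i)) j

/-- **T3** (350 lines, uses `S_Main`, `S_ComN`, `S_Dec`, `S_PreM`, `S_Num`). Tokens with `β` digits.

Proof. Now `2 ^ 31 ≤ ν`. `Λ`, `γ = 4 Λ`, `σ = ν - γ` as in `S_T2`, `w = β`, `l = γ - β + 15`, `r = β - 14`, `zz = False`. First `S_PreM` (`w = β`, `c 2 ^ ν (β + 1)` gates):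
`Q' i = Q i ∨ (all β digits of the rank of i are 0)`; `Main` is applied to `P`, `Q'`, `Z = Q`; `Q' ∧ Q = Q`. The number
of the cells with `P ∧ Q'` is `≤ 2 ^ (ν - β + 1) + 2 ^ (ν - β) ≤ 2 ^ (ν - β + 2) = 2 ^ (σ - 13 + l)`. Size: everything of the form `(γ + 2) ^ c * 2 ^ ν`
is `(γ + 2) ^ c * 2 ^ β * 2 ^ (ν - β) ≤ C ν 2 ^ (ν - β)` by `S_Num` and `2 β ≤ Nat.log 2 ν + 1`. -/
def S_T3 : Prop :=
  ∃ C : ℕ, ∀ ν β : ℕ, 16 ≤ β → 2 * β ≤ Nat.log 2 ν + 1 →
    ∃ F : (Fin (2 ^ ν) ⊕ Fin (2 ^ ν) → Bool) → Fin (2 ^ ν) → Bool,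
      Cx F (C * (2 ^ ν + ν * (β + 1) * 2 ^ (ν - β))) ∧
      ∀ x, (univ.filter fun i => x (Sum.inl i) = true ∧ x (Sum.inr i) = true).card ≤
        2 ^ (ν - β + 1) → ∀ j,
          F x j = cmp Fin.val (fun i => x (Sum.inl i)) (fun i => x (Sum.inr i)) j

/-- **SpM** (350 lines, uses `S_T2`, `S_T3`, `S_Naive`). Stable compaction of at most `2 m` marks.

Proof. `n = 0` trivial (`Cx.empty`). `ν = Nat.log 2 n + 1`, pad to `2 ^ ν` cells with `P = false` (`2 ^ (ν - 1) ≤ n < 2 ^ ν`; this does not change `cmp`). `β₀ = Nat.log 2 (n / m)`.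
CASE `β₀ < 16` (or `m > n`): `S_Naive`, `8 (ν + 1) 2 ^ ν ≤ 16 n (log n + 2)` and `n < 2 ^ 16 m`. Otherwise `m 2 ^ β₀ ≤ n < m 2 ^ (β₀ + 1)`, so
`m < 2 ^ (ν - β₀)`, `2 m ≤ 2 ^ (ν - β₀ + 1)` and `2 ^ (ν - β₀) ≤ 4 m`; `ν ≤ 2 log n`. CASE `2 β₀ ≤ Nat.log 2 ν + 1`: `S_T3` with `β = β₀`. CASE
`Nat.log 2 ν + 1 < 2 β₀ ≤ 4 (Nat.log 2 ν + 1)`: `S_T2` with `β = β₀`. CASE `β₀ > 2 (Nat.log 2 ν + 1) = β'`: if `ν < 128`, `S_Naive` (constant factor);
otherwise `β' ≥ 16`, `S_T2` with `β = β'`: `2 ^ β' ≥ ν ^ 2`, so `ν (Nat.log 2 ν + 1) 2 ^ (ν - β') ≤ 2 ^ ν`. -/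
def S_SpM : Prop :=
  ∃ C : ℕ, ∀ n m : ℕ, 0 < m → ∃ F : (Fin n ⊕ Fin n → Bool) → Fin n → Bool,
    Cx F (C * (n + m * Nat.log 2 n * (Nat.log 2 (n / m) + 1))) ∧
    ∀ x, (univ.filter fun i => x (Sum.inl i) = true ∧ x (Sum.inr i) = true).card ≤ 2 * m →
      ∀ j, F x j = cmp Fin.val (fun i => x (Sum.inl i)) (fun i => x (Sum.inr i)) j

/-- **Top2** (300 lines, uses `S_SpM`, `S_Cnt`, `S_Lst`, `S_Chg`).

Proof. As module Top of package L (its proof can be copied), with `S_SpM` for `max m 1` instead of `S_Sparse`: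
`alt x + 1 ≤ 2 m` for `m ≥ 1`; for `m = 0` the size is `C (n + log n (log n + 1)) ≤ C' n`. -/
def S_Top2 : Prop :=
  ∃ C : ℕ, ∀ n m : ℕ, ∃ F : (Fin n × Fin 2 → Bool) → Fin n × Fin 2 → Bool,
    Cx F (C * (n + m * Nat.log 2 n * (Nat.log 2 (n / m) + 1))) ∧
    ∀ x : Fin n → Fin 3, alt x ≤ m → ∀ y : Fin n × Fin 2 → Bool,
      (∀ i, y (i, 0) = decide (x i = 1) ∧ y (i, 1) = decide (x i = 2)) → ∀ j : Fin n,
        F y (j, 0) = decide ((((List.ofFn x).filter (fun a => a != (2 : Fin 3))) ++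
          ((List.ofFn x).filter (fun a => a == (2 : Fin 3)))).getD j.val 0 = 1) ∧
        F y (j, 1) = decide ((((List.ofFn x).filter (fun a => a != (2 : Fin 3))) ++
          ((List.ofFn x).filter (fun a => a == (2 : Fin 3)))).getD j.val 0 = 2)

end Pool.Agent.Lin
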