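import Pool.Agent.Lib.MP_76b24b_lcM.Spec2

/-!
# MP_76b24b_lc, package M: the number of marks among the first cells of `P`
-/

set_option autoImplicit false

namespace Pool.Agent.Lin

open Finset

namespace SplitAux

theorem num_succ {k : ℕ} (u : Fin (k + 1) → Bool) :
    num u = num (fun t : Fin k => u t.castSucc) + 2 ^ k * (if u (Fin.last k) = true then 1 else 0) := by
  unfold num
  rw [Fin.sum_univ_castSucc]
  congr 1
  rw [Fin.val_last]
  split_ifs <;> simp

theorem num_lt {k : ℕ} (u : Fin k → Bool) : num u < 2 ^ k := by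
  induction k with
  | zero => simp [num]
  | succ k ih =>
    rw [num_succ, pow_succ]
    have h1 := ih (fun t : Fin k => u t.castSucc)
    split_ifs <;> omega

theorem num_bit {k : ℕ} (u : Fin k → Bool) (t : ℕ) :
    (num u).testBit t = if h : t < k then u ⟨t, h⟩ else false := by
  induction k generalizing t with
  | zero => simp [num]
  | succ k ih =>
    rw [num_succ, add_comm, Nat.testBit_two_pow_mul_add _ (num_lt _)]
    rcases lt_trichotomy t k with h | h | h
    · rw [if_pos h, ih, dif_pos h, dif_pos (by omega)]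
      rfl
    · subst h
      rw [if_neg (lt_irrefl _), Nat.sub_self, dif_pos (Nat.lt_succ_self _)]
      change _ = u (Fin.last t)
      cases u (Fin.last t) <;> simp
    · rw [if_neg (by omega), dif_neg (by omega)]
      have h1 : t - k ≠ 0 := by omega
      split_ifs
      · exact Nat.testBit_lt_two_pow (Nat.one_lt_two_pow h1)
      · exact Nat.zero_testBit _

/-- extension by zero digits -/
def ex {m : ℕ} (n : ℕ) (f : Fin m → Bool) : Fin n → Bool := fun t => if h : (t : ℕ) < m then f ⟨t, h⟩ else false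

theorem num_ex {m n : ℕ} (hmn : m ≤ n) (f : Fin m → Bool) : num (ex n f) = num f := by
  refine Nat.eq_of_testBit_eq fun t => ?_
  rw [num_bit, num_bit]
  by_cases h : t < n
  · rw [dif_pos h]
    rfl
  · rw [dif_neg h, dif_neg (by omega)]

theorem num_digits {k m : ℕ} (hm : m < 2 ^ k) : num (fun t : Fin k => m.testBit t) = m := by
  refine Nat.eq_of_testBit_eq fun t => ?_
  rw [num_bit]
  by_cases h : t < k
  · rw [dif_pos h]
  · rw [dif_neg h]
    exact (Nat.testBit_lt_two_pow (hm.trans_le (Nat.pow_le_pow_right (by norm_num) (by omega)))).symm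

theorem num_pos_iff {k : ℕ} (u : Fin k → Bool) : 0 < num u ↔ ∃ t, u t = true := by
  constructor
  · intro h
    by_contra hcon
    push Not at hcon
    have : num u = 0 := by
      unfold num
      exact Finset.sum_eq_zero fun i _ => by rw [if_neg (hcon i)]
    omega
  · rintro ⟨t, ht⟩
    have h1 : (num u).testBit t = true := by
      rw [num_bit, dif_pos t.isLt]
      exact ht
    rcases Nat.eq_zero_or_pos (num u) with h | h
    · rw [h, Nat.zero_testBit] at h1
      exact absurd h1 (by simp)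
    · exact h

theorem cx_ex {ι : Type} [Nonempty ι] {m n : ℕ} {F : (ι → Bool) → Fin m → Bool} {s : ℕ} (h : Cx F s) :
    Cx (fun x => ex n (F x)) (s + 1) := by
  have h1 : Cx (fun (_ : ι → Bool) (_ : Unit) => false) 1 := Cx.const false
  have h2 := (h.pair h1).out (fun t : Fin n => if ht : (t : ℕ) < m then
    (Sum.inl (⟨t, ht⟩ : Fin m) : Fin m ⊕ Unit) else Sum.inr ())
  refine h2.congr fun x t => ?_
  unfold ex
  by_cases ht : (t : ℕ) < m
  · simp only [ht, dif_pos, Sum.elim_inl]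
  · simp only [ht, dif_neg, not_false_eq_true, Sum.elim_inr]

theorem cx_mux {ι κ : Type} [Fintype κ] (b : ι) (u v : κ → ι) :
    Cx (fun (x : ι → Bool) (j : κ) => if x b = true then x (u j) else x (v j)) (3 * Fintype.card κ) := by
  have h1 : Cx (fun (x : ι → Bool) (j : κ) => (x b && x (u j))) (Fintype.card κ) :=
    Cx.layer (fun _ p q => p && q) (fun _ => b) u
  have h2 : Cx (fun (x : ι → Bool) (j : κ) => (!x b && x (v j))) (Fintype.card κ) :=
    Cx.layer (fun _ p q => !p && q) (fun _ => b) v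
  have h3 : Cx (fun (y : κ ⊕ κ → Bool) (j : κ) => (y (Sum.inl j) || y (Sum.inr j))) (Fintype.card κ) :=
    Cx.layer (fun _ p q => p || q) Sum.inl Sum.inr
  refine (((h1.pair h2).comp h3).mono (by omega)).congr fun x j => ?_
  simp only [Sum.elim_inl, Sum.elim_inr]
  cases x b <;> simp

/-- the two halves -/
def halfE (β : ℕ) : Fin 2 × Fin (2 ^ β) ≃ Fin (2 ^ (β + 1)) :=
  finProdFinEquiv.trans (finCongr (by rw [pow_succ, mul_comm]))

theorem halfE_val (β : ℕ) (c : Fin 2) (i : Fin (2 ^ β)) : (halfE β (c, i) : ℕ) = i + 2 ^ β * c := by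
  simp [halfE]

theorem card_split (β : ℕ) (p : Fin (2 ^ (β + 1)) → Prop) [DecidablePred p] :
    (univ.filter p).card = (univ.filter fun i => p (halfE β (0, i))).card +
      (univ.filter fun i => p (halfE β (1, i))).card := by
  simp only [Finset.card_filter]
  rw [← Fintype.sum_equiv (halfE β) (fun q => if p (halfE β q) then 1 else 0)
    (fun i => if p i then 1 else 0) (fun q => rfl), Fintype.sum_prod_type, Fin.sum_univ_two]

theorem card_lt {β : ℕ} (p : Fin (2 ^ β) → Prop) [DecidablePred p] : (univ.filter p).card < 2 ^ (β + 1) := by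
  have h1 : (univ.filter p).card ≤ 2 ^ β := (Finset.card_filter_le _ _).trans (by simp)
  have h2 : 2 ^ β < 2 ^ (β + 1) := Nat.pow_lt_pow_right (by norm_num) (Nat.lt_succ_self _)
  omega

/-- the number of marks among the first `k` cells of `P` -/
def cn {n : ℕ} (P Q : Fin n → Bool) (k : ℕ) : ℕ :=
  (univ.filter fun ρ : Fin n => P ρ = true ∧ Q ρ = true ∧ rk Fin.val P ρ < k).card

theorem cn_lt {β : ℕ} (P Q : Fin (2 ^ β) → Bool) (k : ℕ) : cn P Q k < 2 ^ (β + 1) := card_lt _

theorem rk_left (β : ℕ) (P : Fin (2 ^ (β + 1)) → Bool) (i : Fin (2 ^ β)) :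
    rk Fin.val P (halfE β (0, i)) = rk Fin.val (fun i => P (halfE β (0, i))) i := by
  unfold rk
  rw [card_split]
  have h1 : (univ.filter fun j : Fin (2 ^ β) => (halfE β (1, j) : ℕ) < (halfE β (0, i) : ℕ) ∧
      P (halfE β (1, j)) = true).card = 0 := by
    rw [Finset.card_eq_zero, Finset.filter_eq_empty_iff]
    rintro j _ ⟨h, _⟩
    rw [halfE_val, halfE_val] at h
    have := i.isLt
    simp only [Fin.val_zero, Fin.val_one] at h
    omega
  rw [h1, Nat.add_zero]
  congr 1

theorem rk_right (β : ℕ) (P : Fin (2 ^ (β + 1)) → Bool) (i : Fin (2 ^ β)) :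
    rk Fin.val P (halfE β (1, i)) = (univ.filter fun j : Fin (2 ^ β) => P (halfE β (0, j)) = true).card +
      rk Fin.val (fun i => P (halfE β (1, i))) i := by
  unfold rk
  rw [card_split]
  congr 1
  · congr 1
    refine Finset.filter_congr fun j _ => ?_
    rw [halfE_val, halfE_val]
    have := j.isLt
    simp only [Fin.val_zero, Fin.val_one]
    constructor
    · rintro ⟨h, h'⟩
      exact h'
    · intro h'
      exact ⟨by omega, h'⟩
  · congr 1
    refine Finset.filter_congr fun j _ => ?_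
    rw [halfE_val, halfE_val]
    simp only [Fin.val_one]
    constructor
    · rintro ⟨h, h'⟩
      exact ⟨by omega, h'⟩
    · rintro ⟨h, h'⟩
      exact ⟨by omega, h'⟩

theorem rk_lt_card (n : ℕ) (P : Fin n → Bool) (i : Fin n) (hi : P i = true) :
    rk Fin.val P i < (univ.filter fun j : Fin n => P j = true).card := by
  unfold rk
  apply Finset.card_lt_card
  rw [Finset.ssubset_iff_of_subset]
  · exact ⟨i, by simp [hi], by simp⟩
  · intro j hj
    simp only [Finset.mem_filter, Finset.mem_univ, true_and] at hj ⊢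
    exact hj.2

theorem cn_split (β : ℕ) (P Q : Fin (2 ^ (β + 1)) → Bool) (k : ℕ) :
    cn P Q k = if (univ.filter fun j : Fin (2 ^ β) => P (halfE β (0, j)) = true).card ≤ k then
      cn (fun i => P (halfE β (1, i))) (fun i => Q (halfE β (1, i)))
          (k - (univ.filter fun j : Fin (2 ^ β) => P (halfE β (0, j)) = true).card) +
        (univ.filter fun j : Fin (2 ^ β) => (P (halfE β (0, j)) && Q (halfE β (0, j))) = true).card
      else cn (fun i => P (halfE β (0, i))) (fun i => Q (halfE β (0, i))) k := by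
  unfold cn
  rw [card_split]
  simp only [rk_left, rk_right]
  split_ifs with hk
  · rw [Nat.add_comm]
    congr 1
    · congr 1
      refine Finset.filter_congr fun j _ => ?_
      constructor
      · rintro ⟨h1, h2, h3⟩
        exact ⟨h1, h2, by omega⟩
      · rintro ⟨h1, h2, h3⟩
        exact ⟨h1, h2, by omega⟩
    · congr 1
      refine Finset.filter_congr fun j _ => ?_
      constructor
      · rintro ⟨h1, h2, h3⟩
        simp [h1, h2]
      · intro h
        rw [Bool.and_eq_true] at h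
        refine ⟨h.1, h.2, ?_⟩
        exact (rk_lt_card _ (fun i => P (halfE β (0, i))) j h.1).trans_le hk
  · have h1 : (univ.filter fun j : Fin (2 ^ β) => P (halfE β (1, j)) = true ∧ Q (halfE β (1, j)) = true ∧
        (univ.filter fun j : Fin (2 ^ β) => P (halfE β (0, j)) = true).card +
          rk Fin.val (fun i => P (halfE β (1, i))) j < k).card = 0 := by
      rw [Finset.card_eq_zero, Finset.filter_eq_empty_iff]
      rintro j _ ⟨_, _, h⟩
      omega
    rw [h1, Nat.add_zero]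

/-- the function of the statement -/
def SF (D γ : ℕ) (x : Fin D ⊕ (Fin (2 ^ γ) ⊕ Fin (2 ^ γ)) → Bool) (t : Fin (γ + 1)) : Bool :=
  (cn (fun ρ => x (Sum.inr (Sum.inl ρ))) (fun ρ => x (Sum.inr (Sum.inr ρ))) (num fun t => x (Sum.inl t))).testBit t

theorem base (h4 : S_Or) (D : ℕ) (hD : 0 < D) : Cx (SF D 0) (D + 3) := by
  classical
  have : Nonempty (Fin D ⊕ (Fin (2 ^ 0) ⊕ Fin (2 ^ 0))) := ⟨Sum.inl ⟨0, hD⟩⟩
  have ho := h4 (Fin D ⊕ (Fin (2 ^ 0) ⊕ Fin (2 ^ 0))) (univ.image Sum.inl)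
  have hcard : ((univ : Finset (Fin D)).image
      (Sum.inl : Fin D → Fin D ⊕ (Fin (2 ^ 0) ⊕ Fin (2 ^ 0)))).card ≤ D :=
    Finset.card_image_le.trans (by simp)
  have hg : Cx (fun (x : Fin D ⊕ (Fin (2 ^ 0) ⊕ Fin (2 ^ 0)) → Bool) (_ : Unit) =>
      (x (Sum.inr (Sum.inl 0)) && x (Sum.inr (Sum.inr 0)))) 1 := Cx.gate (fun p q => p && q) _ _
  have hf : Cx (fun (y : Unit ⊕ Unit → Bool) (_ : Unit) => (y (Sum.inl ()) && y (Sum.inr ()))) 1 :=
    Cx.gate (fun p q => p && q) _ _
  have h5 := ((hg.pair ho).comp hf).out (fun _ : Fin (0 + 1) => ())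
  refine (h5.mono (by omega)).congr fun x j => ?_
  have hj : j = (0 : Fin 1) := Fin.fin_one_eq_zero j
  subst hj
  simp only [Sum.elim_inl, Sum.elim_inr, SF, cn]
  have hu : (univ : Finset (Fin (2 ^ 0))) = {0} := by decide
  rw [hu, Finset.filter_singleton]
  have hr : rk Fin.val (fun ρ : Fin (2 ^ 0) => x (Sum.inr (Sum.inl ρ))) ((0 : Fin (2 ^ 0)) : ℕ) = 0 := by
    unfold rk
    rw [Finset.card_eq_zero, Finset.filter_eq_empty_iff]
    rintro a _ ⟨h, _⟩
    simp at h
  rw [hr]
  have he : (∃ a ∈ (univ : Finset (Fin D)).image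
      (Sum.inl : Fin D → Fin D ⊕ (Fin (2 ^ 0) ⊕ Fin (2 ^ 0))), x a = true) ↔ ∃ t : Fin D, x (Sum.inl t) = true := by
    simp
  have hn := num_pos_iff (fun t : Fin D => x (Sum.inl t))
  simp only [he]
  by_cases h3 : ∃ t : Fin D, x (Sum.inl t) = true
  · have hn' := hn.2 h3
    by_cases h1 : x (Sum.inr (Sum.inl 0)) = true <;> by_cases h2 : x (Sum.inr (Sum.inr 0)) = true
    all_goals simp only [h1, h2, h3, hn']
    all_goals simp
  · have hn' : ¬ 0 < num (fun t : Fin D => x (Sum.inl t)) := fun h => h3 (hn.1 h)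
    by_cases h1 : x (Sum.inr (Sum.inl 0)) = true <;> by_cases h2 : x (Sum.inr (Sum.inr 0)) = true
    all_goals simp only [h1, h2, h3, hn']
    all_goals simp

theorem step (h1 : S_Add) (h2 : S_Pop) (c : ℕ)
    (h3 : ∀ k : ℕ, 0 < k → Cx (fun (x : Fin k ⊕ Fin k → Bool) (p : Unit ⊕ Fin k) =>
      Sum.elim (fun _ : Unit =>
        decide (num (fun t => x (Sum.inr t)) ≤ num (fun t => x (Sum.inl t))))
      (fun t : Fin k =>
        (num (fun t => x (Sum.inl t)) - num (fun t => x (Sum.inr t))).testBit t) p) (c * k))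
    (D γ T : ℕ) (hD : 0 < D) (ih : Cx (SF D γ) T) :
    Cx (SF D (γ + 1)) (T + (2 * c + 70) * (2 ^ γ + D + γ + 1)) := by
  have : Nonempty (Fin D ⊕ (Fin (2 ^ (γ + 1)) ⊕ Fin (2 ^ (γ + 1)))) := ⟨Sum.inl ⟨0, hD⟩⟩
  let I' : Type := Fin D ⊕ (Fin (2 ^ (γ + 1)) ⊕ Fin (2 ^ (γ + 1)))
  let pc : (I' → Bool) → ℕ := fun x =>
    (univ.filter fun i : Fin (2 ^ γ) => x (Sum.inr (Sum.inl (halfE γ (0, i)))) = true).card
  let mc : (I' → Bool) → ℕ := fun x =>
    (univ.filter fun i : Fin (2 ^ γ) => (x (Sum.inr (Sum.inl (halfE γ (0, i)))) &&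
      x (Sum.inr (Sum.inr (halfE γ (0, i))))) = true).card
  let kx : (I' → Bool) → ℕ := fun x => num (fun t : Fin D => x (Sum.inl t))
  have hpc : ∀ x, pc x < 2 ^ (γ + 1) := fun x => card_lt _
  have hmc : ∀ x, mc x < 2 ^ (γ + 1) := fun x => card_lt _
  have hkx : ∀ x, kx x < 2 ^ D := fun x => num_lt _
  have hA : Cx (fun (x : I' → Bool) (t : Fin (γ + 1)) => (pc x).testBit t) (17 * 2 ^ γ) :=
    (h2 γ).inp (fun i : Fin (2 ^ γ) => (Sum.inr (Sum.inl (halfE γ (0, i))) : I'))
  have hk : Cx (fun (x : I' → Bool) (t : Fin D) => x (Sum.inl t)) 0 := Cx.proj (fun t : Fin D => (Sum.inl t : I'))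
  have hB : Cx (fun (x : I' → Bool) => Sum.elim (fun _ : Unit => decide (pc x ≤ kx x))
      (fun t : Fin (D + γ + 1) => (kx x - pc x).testBit t)) (17 * 2 ^ γ + 2 + c * (D + γ + 1)) := by
    have h5 := ((cx_ex (n := D + γ + 1) hk).pair (cx_ex (n := D + γ + 1) hA)).comp (h3 (D + γ + 1) (by omega))
    refine (h5.mono (by omega)).congr fun x p => ?_
    have e1 : num (fun t : Fin (D + γ + 1) => Sum.elim (ex (D + γ + 1) fun t : Fin D => x (Sum.inl t))
        (ex (D + γ + 1) fun t : Fin (γ + 1) => (pc x).testBit t) (Sum.inl t)) = kx x :=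
      num_ex (by omega) (fun t : Fin D => x (Sum.inl t))
    have e2 : num (fun t : Fin (D + γ + 1) => Sum.elim (ex (D + γ + 1) fun t : Fin D => x (Sum.inl t))
        (ex (D + γ + 1) fun t : Fin (γ + 1) => (pc x).testBit t) (Sum.inr t)) = pc x :=
      (num_ex (by omega) (fun t : Fin (γ + 1) => (pc x).testBit t)).trans (num_digits (hpc x))
    rw [e1, e2]
  have hZ : Cx (fun (x : I' → Bool) (j : Fin D ⊕ (Fin (2 ^ γ) ⊕ Fin (2 ^ γ))) =>
      if pc x ≤ kx x then
        Sum.elim (fun t : Fin D => (kx x - pc x).testBit t) (Sum.elim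
          (fun i : Fin (2 ^ γ) => x (Sum.inr (Sum.inl (halfE γ (1, i)))))
          (fun i : Fin (2 ^ γ) => x (Sum.inr (Sum.inr (halfE γ (1, i)))))) j
      else Sum.elim (fun t : Fin D => x (Sum.inl t)) (Sum.elim
          (fun i : Fin (2 ^ γ) => x (Sum.inr (Sum.inl (halfE γ (0, i)))))
          (fun i : Fin (2 ^ γ) => x (Sum.inr (Sum.inr (halfE γ (0, i)))))) j)
      (17 * 2 ^ γ + 2 + c * (D + γ + 1) + 3 * (D + 2 * 2 ^ γ)) := by
    have h5 := hB.keep.comp (cx_mux (κ := Fin D ⊕ (Fin (2 ^ γ) ⊕ Fin (2 ^ γ)))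
      (Sum.inr (Sum.inl ()) : I' ⊕ (Unit ⊕ Fin (D + γ + 1)))
      (Sum.elim (fun t : Fin D => Sum.inr (Sum.inr ⟨t, by omega⟩)) (Sum.elim
        (fun i => Sum.inl (Sum.inr (Sum.inl (halfE γ (1, i))))) (fun i => Sum.inl (Sum.inr (Sum.inr (halfE γ (1, i)))))))
      (Sum.elim (fun t : Fin D => Sum.inl (Sum.inl t)) (Sum.elim
        (fun i => Sum.inl (Sum.inr (Sum.inl (halfE γ (0, i))))) (fun i => Sum.inl (Sum.inr (Sum.inr (halfE γ (0, i))))))))
    refine (h5.mono ?_).congr fun x j => ?_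
    · simp only [Fintype.card_sum, Fintype.card_fin]
      omega
    · simp only [Sum.elim_inl, Sum.elim_inr, decide_eq_true_eq]
      split_ifs
      · rcases j with j | j | j <;> rfl
      · rcases j with j | j | j <;> rfl
  have hV := hZ.comp ih
  have hM : Cx (fun (x : I' → Bool) (t : Fin (γ + 1)) => (decide (pc x ≤ kx x) && (mc x).testBit t))
      (35 * 2 ^ γ + 2 + c * (D + γ + 1) + (γ + 1)) := by
    have h5 : Cx (fun (x : I' → Bool) (i : Fin (2 ^ γ)) => (x (Sum.inr (Sum.inl (halfE γ (0, i)))) &&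
        x (Sum.inr (Sum.inr (halfE γ (0, i)))))) (Fintype.card (Fin (2 ^ γ))) :=
      Cx.layer (fun _ p q => p && q) _ _
    have h6 := h5.comp (h2 γ)
    have h7 : Cx (fun (y : (Unit ⊕ Fin (D + γ + 1)) ⊕ Fin (γ + 1) → Bool) (t : Fin (γ + 1)) =>
        (y (Sum.inl (Sum.inl ())) && y (Sum.inr t))) (Fintype.card (Fin (γ + 1))) :=
      Cx.layer (fun _ p q => p && q) _ _
    refine (((hB.pair h6).comp h7).mono ?_).congr fun x t => ?_
    · simp only [Fintype.card_fin]
      omega
    · rfl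
  have hF := ((cx_ex (n := γ + 1 + 1) hV).pair (cx_ex (n := γ + 1 + 1) hM)).comp (h1 (γ + 1 + 1))
  refine (hF.mono ?_).congr fun x t => ?_
  · have e1 : (2 * c + 70) * (2 ^ γ + D + γ + 1) = 2 * (c * (D + γ + 1)) + 2 * c * 2 ^ γ +
        70 * (2 ^ γ + D + γ + 1) := by ring
    rw [e1]
    have e2 : 1 ≤ 2 ^ γ := Nat.one_le_two_pow
    omega
  · have e2 : num (fun t : Fin (γ + 1 + 1) => Sum.elim
        (ex (γ + 1 + 1) (SF D γ fun j : Fin D ⊕ (Fin (2 ^ γ) ⊕ Fin (2 ^ γ)) => if pc x ≤ kx x then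
        Sum.elim (fun t : Fin D => (kx x - pc x).testBit t) (Sum.elim
          (fun i : Fin (2 ^ γ) => x (Sum.inr (Sum.inl (halfE γ (1, i)))))
          (fun i : Fin (2 ^ γ) => x (Sum.inr (Sum.inr (halfE γ (1, i)))))) j
      else Sum.elim (fun t : Fin D => x (Sum.inl t)) (Sum.elim
          (fun i : Fin (2 ^ γ) => x (Sum.inr (Sum.inl (halfE γ (0, i)))))
          (fun i : Fin (2 ^ γ) => x (Sum.inr (Sum.inr (halfE γ (0, i)))))) j))
        (ex (γ + 1 + 1) fun t : Fin (γ + 1) => (decide (pc x ≤ kx x) && (mc x).testBit t)) (Sum.inl t)) =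
        if pc x ≤ kx x then cn (fun i => x (Sum.inr (Sum.inl (halfE γ (1, i)))))
          (fun i => x (Sum.inr (Sum.inr (halfE γ (1, i))))) (kx x - pc x)
        else cn (fun i => x (Sum.inr (Sum.inl (halfE γ (0, i)))))
          (fun i => x (Sum.inr (Sum.inr (halfE γ (0, i))))) (kx x) := by
      refine (num_ex (by omega) _).trans ?_
      unfold SF
      rw [num_digits (cn_lt _ _ _)]
      by_cases hle : pc x ≤ kx x
      · simp only [if_pos hle, Sum.elim_inl, Sum.elim_inr]
        congr 1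
        exact num_digits (lt_of_le_of_lt (Nat.sub_le _ _) (hkx x))
      · simp only [if_neg hle, Sum.elim_inl, Sum.elim_inr]
        rfl
    have e3 : num (fun t : Fin (γ + 1 + 1) => Sum.elim
        (ex (γ + 1 + 1) (SF D γ fun j : Fin D ⊕ (Fin (2 ^ γ) ⊕ Fin (2 ^ γ)) => if pc x ≤ kx x then
        Sum.elim (fun t : Fin D => (kx x - pc x).testBit t) (Sum.elim
          (fun i : Fin (2 ^ γ) => x (Sum.inr (Sum.inl (halfE γ (1, i)))))
          (fun i : Fin (2 ^ γ) => x (Sum.inr (Sum.inr (halfE γ (1, i)))))) j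
      else Sum.elim (fun t : Fin D => x (Sum.inl t)) (Sum.elim
          (fun i : Fin (2 ^ γ) => x (Sum.inr (Sum.inl (halfE γ (0, i)))))
          (fun i : Fin (2 ^ γ) => x (Sum.inr (Sum.inr (halfE γ (0, i)))))) j))
        (ex (γ + 1 + 1) fun t : Fin (γ + 1) => (decide (pc x ≤ kx x) && (mc x).testBit t)) (Sum.inr t)) =
        if pc x ≤ kx x then mc x else 0 := by
      refine (num_ex (show γ + 1 ≤ γ + 1 + 1 by omega)
        (fun t : Fin (γ + 1) => (decide (pc x ≤ kx x) && (mc x).testBit t))).trans ?_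
      by_cases hle : pc x ≤ kx x
      · simp only [hle, if_true, decide_true, Bool.true_and]
        exact num_digits (hmc x)
      · simp only [hle, if_false, decide_false, Bool.false_and]
        unfold num
        simp
    show (_ + _ : ℕ).testBit t = SF D (γ + 1) x t
    rw [e2, e3]
    unfold SF
    rw [cn_split]
    refine congrArg (fun m => Nat.testBit m (t : ℕ)) ?_
    by_cases hle : pc x ≤ kx x
    · rw [if_pos hle, if_pos hle, if_pos hle]
    · rw [if_neg hle, if_neg hle, if_neg hle, Nat.add_zero]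

end SplitAux

open SplitAux in
theorem tSplit (h1 : S_Add) (h2 : S_Pop) (h3 : S_Sub) (h4 : S_Or) : S_Split := by
  obtain ⟨c, hc⟩ := h3
  refine ⟨2 * c + 70, fun γ D hD => ?_⟩
  show Cx (SF D γ) _
  have key : ∀ γ : ℕ, Cx (SF D γ) ((2 * c + 70) * (2 ^ γ + γ * (D + γ + 1)) + (D + 3)) := by
    intro γ
    induction γ with
    | zero => exact (base h4 D hD).mono (by omega)
    | succ γ ih =>
      refine (step h1 h2 c hc D γ _ hD ih).mono ?_
      have e1 : 2 ^ γ + γ * (D + γ + 1) + (2 ^ γ + D + γ + 1) ≤ 2 ^ (γ + 1) + (γ + 1) * (D + (γ + 1) + 1) := by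
        rw [pow_succ]
        nlinarith
      have e2 := Nat.mul_le_mul_left (2 * c + 70) e1
      nlinarith
  refine (key γ).mono ?_
  have e1 : D + 3 ≤ (2 * c + 70) * (D + γ + 1) := by nlinarith
  nlinarith

end Pool.Agent.Lin
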