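import Pool.Agent.Lib.MP_76b24b_lcM.Spec2

/-!
# MP_76b24b_lc, package M: comparison and truncated difference
-/

set_option autoImplicit false

namespace Pool.Agent.Lin

private theorem num_succ {k : ℕ} (u : Fin (k + 1) → Bool) :
    num u = num (fun i => u i.castSucc) + 2 ^ k * (u (Fin.last k)).toNat := by
  unfold num
  rw [Fin.sum_univ_castSucc]
  congr 1
  cases u (Fin.last k) <;> simp

private theorem num_not : ∀ {k : ℕ} (u : Fin k → Bool), num u + num (fun i => !u i) + 1 = 2 ^ k
  | 0, u => by simp [num]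
  | k + 1, u => by
    have h := num_not (fun i : Fin k => u i.castSucc)
    have h1 := num_succ (fun i : Fin (k + 1) => !u i)
    rw [num_succ u, h1, pow_succ]
    cases u (Fin.last k)
    · simp only [Bool.toNat_false, Bool.not_false, Bool.toNat_true]
      omega
    · simp only [Bool.toNat_false, Bool.not_true, Bool.toNat_true]
      omega

private theorem num_bits : ∀ (K n : ℕ), num (fun i : Fin K => n.testBit i) = n % 2 ^ K
  | 0, n => by simp [num, Nat.mod_one]
  | K + 1, n => by
    have h := num_bits K n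
    have h1 := num_succ (fun i : Fin (K + 1) => n.testBit i)
    rw [h1, Nat.mod_pow_succ, ← h, ← Nat.toNat_testBit]
    rfl

private def opA (k : ℕ) (j : Fin (k + 1) ⊕ Fin (k + 1)) (p _q : Bool) : Bool :=
  Sum.elim (fun t : Fin (k + 1) => if (t : ℕ) < k then p else false)
    (fun t : Fin (k + 1) => if (t : ℕ) < k then !p else false) j

private def ixA (k : ℕ) (hk : 0 < k) (t : Fin (k + 1)) : Fin k :=
  if h : (t : ℕ) < k then ⟨t, h⟩ else ⟨0, hk⟩

private def opB (k : ℕ) (j : Fin (k + 1) ⊕ Fin (k + 1)) (p _q : Bool) : Bool :=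
  Sum.elim (fun _ => p) (fun t : Fin (k + 1) => decide ((t : ℕ) = 0)) j

private theorem ixA_castSucc (k : ℕ) (hk : 0 < k) (t : Fin k) : ixA k hk t.castSucc = t := by
  unfold ixA
  rw [dif_pos (by simp)]
  rfl

private theorem num_one : ∀ k : ℕ, num (fun t : Fin (k + 1) => decide ((t : ℕ) = 0)) = 1 := by
  intro k
  unfold num
  rw [Finset.sum_eq_single 0]
  · simp
  · intro b _ hb
    have : (b : ℕ) ≠ 0 := fun h => hb (Fin.ext h)
    simp [this]
  · simp

private theorem key (k a b : ℕ) (ha : a < 2 ^ k) (hb : b < 2 ^ k) :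
    (b ≤ a → (a + (2 ^ k - 1 - b) + 1) = 2 ^ k * 1 + (a - b)) ∧
    (¬ b ≤ a → (a + (2 ^ k - 1 - b) + 1) < 2 ^ k) := by
  constructor
  · intro h
    omega
  · intro h
    omega

theorem tSub (h : S_Add) : S_Sub := by
  refine ⟨30, fun k hk => ?_⟩
  have h1 : Cx (fun (x : Fin k ⊕ Fin k → Bool) (j : Fin (k + 1) ⊕ Fin (k + 1)) =>
      opA k j (x (Sum.map (ixA k hk) (ixA k hk) j)) (x (Sum.map (ixA k hk) (ixA k hk) j)))
      (Fintype.card (Fin (k + 1) ⊕ Fin (k + 1))) :=
    Cx.layer (opA k) (Sum.map (ixA k hk) (ixA k hk)) (Sum.map (ixA k hk) (ixA k hk))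
  have h3 : Cx (fun (y : Fin (k + 1) → Bool) (j : Fin (k + 1) ⊕ Fin (k + 1)) =>
      opB k j (y (Sum.elim id (fun _ => 0) j)) (y (Sum.elim id (fun _ => 0) j)))
      (Fintype.card (Fin (k + 1) ⊕ Fin (k + 1))) :=
    Cx.layer (opB k) (Sum.elim id (fun _ => 0)) (Sum.elim id (fun _ => 0))
  have h5 : Cx (fun (y : Fin (k + 1) → Bool) (j : Unit ⊕ Fin k) =>
      (fun (_ : Unit ⊕ Fin k) (p q : Bool) => p && q) j (y ((fun _ => Fin.last k) j))
        (y (Sum.elim (fun _ => Fin.last k) Fin.castSucc j)))
      (Fintype.card (Unit ⊕ Fin k)) :=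
    Cx.layer (fun (_ : Unit ⊕ Fin k) (p q : Bool) => p && q) (fun _ => Fin.last k)
      (Sum.elim (fun _ => Fin.last k) Fin.castSucc)
  have h6 := (((h1.comp (h (k + 1))).comp h3).comp (h (k + 1))).comp h5
  refine (h6.congr fun x p => ?_).mono ?_
  · set a := num (fun t => x (Sum.inl t)) with ha
    set b := num (fun t => x (Sum.inr t)) with hb
    have eA : num (fun t : Fin (k + 1) => opA k (Sum.inl t)
        (x (Sum.map (ixA k hk) (ixA k hk) (Sum.inl t)))
        (x (Sum.map (ixA k hk) (ixA k hk) (Sum.inl t)))) = a := by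
      rw [num_succ, ha]
      simp [opA, ixA_castSucc]
    have eB : num (fun t : Fin (k + 1) => opA k (Sum.inr t)
        (x (Sum.map (ixA k hk) (ixA k hk) (Sum.inr t)))
        (x (Sum.map (ixA k hk) (ixA k hk) (Sum.inr t)))) = 2 ^ k - 1 - b := by
      have h7 := num_not (fun t : Fin k => x (Sum.inr t))
      rw [num_succ]
      simp only [opA, Sum.elim_inr, Fin.val_castSucc, Fin.is_lt, if_true, Sum.map_inr, ixA_castSucc,
        Fin.val_last, lt_irrefl, if_false, Bool.toNat_false, mul_zero, add_zero]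
      omega
    have hab := num_not (fun t : Fin k => x (Sum.inl t))
    have hbb := num_not (fun t : Fin k => x (Sum.inr t))
    have ha1 : a < 2 ^ k := by omega
    have hb1 : b < 2 ^ k := by omega
    have hk1 := key k a b ha1 hb1
    have hW : ∀ i : Fin (k + 1), (num (fun t : Fin (k + 1) => opB k (Sum.inl t)
          ((a + (2 ^ k - 1 - b)).testBit ((Sum.elim id (fun _ => 0) (Sum.inl t : Fin (k + 1) ⊕
            Fin (k + 1)) : Fin (k + 1)) : ℕ))
          ((a + (2 ^ k - 1 - b)).testBit ((Sum.elim id (fun _ => 0) (Sum.inl t : Fin (k + 1) ⊕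
            Fin (k + 1)) : Fin (k + 1)) : ℕ))) +
        num (fun t : Fin (k + 1) => opB k (Sum.inr t)
          ((a + (2 ^ k - 1 - b)).testBit ((Sum.elim id (fun _ => 0) (Sum.inr t : Fin (k + 1) ⊕
            Fin (k + 1)) : Fin (k + 1)) : ℕ))
          ((a + (2 ^ k - 1 - b)).testBit ((Sum.elim id (fun _ => 0) (Sum.inr t : Fin (k + 1) ⊕
            Fin (k + 1)) : Fin (k + 1)) : ℕ)))).testBit i = (a + (2 ^ k - 1 - b) + 1).testBit i := by
      intro i
      simp only [opB, Sum.elim_inl, Sum.elim_inr, id]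
      rw [num_one, num_bits, Nat.mod_eq_of_lt]
      rw [pow_succ]
      omega
    simp only [eA, eB]
    simp only [hW]
    by_cases hle : b ≤ a
    · have hw := hk1.1 hle
      have hlast : (a + (2 ^ k - 1 - b) + 1).testBit k = true := by
        rw [hw, Nat.testBit_two_pow_mul_add _ (by omega)]
        simp
      rcases p with p | t
      · simp only [Sum.elim_inl, Fin.val_last, hlast, Bool.and_self]
        exact (decide_eq_true hle).symm
      · simp only [Sum.elim_inr, Fin.val_last, hlast, Bool.true_and, Fin.val_castSucc]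
        rw [hw, Nat.testBit_two_pow_mul_add _ (by omega), if_pos t.isLt]
    · have hw := hk1.2 hle
      have hlast : (a + (2 ^ k - 1 - b) + 1).testBit k = false := Nat.testBit_lt_two_pow hw
      rcases p with p | t
      · simp only [Sum.elim_inl, Fin.val_last, hlast, Bool.and_self]
        exact (decide_eq_false hle).symm
      · simp only [Sum.elim_inr, Fin.val_last, hlast, Bool.false_and]
        rw [Nat.sub_eq_zero_of_le (by omega)]
        simp
  · simp only [Fintype.card_sum, Fintype.card_fin, Fintype.card_unit]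
    omega

end Pool.Agent.Lin
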