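import Pool.Agent.Lib.MP_76b24b_lcM.Spec2

/-!
# MP_76b24b_lc, package M: tokens with all digits
-/

set_option autoImplicit false

namespace Pool.Agent.Lin

open Finset

private theorem rk_equiv {α β : Type} [Fintype α] [Fintype β] (e : α ≃ β) (pos : β → ℕ) (P : β → Bool)
    (q : ℕ) : rk (fun a => pos (e a)) (fun a => P (e a)) q = rk pos P q := by
  unfold rk
  apply Finset.card_bij (fun a _ => e a)
  · intro a ha
    rw [mem_filter] at ha ⊢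
    exact ⟨mem_univ _, ha.2⟩
  · intro a _ b _ h
    exact e.injective h
  · intro b hb
    rw [mem_filter] at hb
    refine ⟨e.symm b, ?_, e.apply_symm_apply b⟩
    rw [mem_filter]
    beta_reduce
    rw [e.apply_symm_apply]
    exact ⟨mem_univ _, hb.2⟩

private theorem cmp_equiv {α β : Type} [Fintype α] [Fintype β] (e : α ≃ β) (pos : β → ℕ) (P Q : β → Bool)
    (j : ℕ) : cmp (fun a => pos (e a)) (fun a => P (e a)) (fun a => Q (e a)) j = cmp pos P Q j := by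
  unfold cmp
  rw [decide_eq_decide]
  constructor
  · rintro ⟨a, h1, h2, h3⟩
    exact ⟨e a, h1, h2, by rw [← h3, rk_equiv e pos P]⟩
  · rintro ⟨b, h1, h2, h3⟩
    refine ⟨e.symm b, ?_, ?_, ?_⟩
    · beta_reduce
      rw [e.apply_symm_apply]
      exact h1
    · beta_reduce
      rw [e.apply_symm_apply]
      exact h2
    · rw [rk_equiv e pos P]
      beta_reduce
      rw [e.apply_symm_apply, h3]

private theorem geo (σ n : ℕ) (hn : n ≤ σ + 1) :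
    ∑ i ∈ range n, 2 ^ (σ - i) + 2 ^ (σ + 1 - n) = 2 ^ (σ + 1) := by
  induction n with
  | zero => simp
  | succ n ih =>
    rw [sum_range_succ, add_assoc]
    have h1 : 2 ^ (σ - n) + 2 ^ (σ + 1 - (n + 1)) = 2 ^ (σ + 1 - n) := by
      have e1 : σ + 1 - (n + 1) = σ - n := by omega
      have e2 : σ + 1 - n = (σ - n) + 1 := by omega
      rw [e1, e2, pow_succ]
      ring
    rw [h1]
    exact ih (by omega)

private theorem sum_le (c σ γ l r g : ℕ) (hr : r ≤ σ) :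
    ∑ i ∈ range (r + 1), 2 ^ (σ - i) * (c * (2 ^ γ + 2 ^ (l + i) * g)) ≤
      c * (2 * 2 ^ (σ + γ)) + c * ((r + 1) * (2 ^ (σ + l) * g)) := by
  have h1 : ∀ i ∈ range (r + 1), 2 ^ (σ - i) * (c * (2 ^ γ + 2 ^ (l + i) * g)) =
      2 ^ (σ - i) * (c * 2 ^ γ) + c * (2 ^ (σ + l) * g) := by
    intro i hi
    have hi' := mem_range.1 hi
    have e1 : σ + l = (σ - i) + (l + i) := by omega
    rw [e1, pow_add]
    ring
  rw [sum_congr rfl h1, sum_add_distrib, ← sum_mul, sum_const, card_range, smul_eq_mul]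
  have h2 : ∑ i ∈ range (r + 1), 2 ^ (σ - i) ≤ 2 ^ (σ + 1) := by
    rw [← geo σ (r + 1) (by omega)]
    exact Nat.le_add_right _ _
  have h3 := Nat.mul_le_mul_right (c * 2 ^ γ) h2
  have e2 : 2 ^ (σ + 1) * (c * 2 ^ γ) = c * (2 * 2 ^ (σ + γ)) := by
    rw [pow_succ, pow_add]
    ring
  have e3 : (r + 1) * (c * (2 ^ (σ + l) * g)) = c * ((r + 1) * (2 ^ (σ + l) * g)) := by ring
  rw [e2] at h3
  rw [e3]
  omega

private theorem size_aux (cM cC cD C1 C2 : ℕ)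
    (hC1 : ∀ L : ℕ, (4 * L + 6) ^ (cC + 1) ≤ C1 * 2 ^ (L / 4))
    (hC2 : ∀ L : ℕ, (4 * L + 6) ^ (cD + 1) ≤ C2 * 2 ^ (L / 4))
    (ν β L γ σ l r : ℕ) (hL : L = Nat.log 2 ν) (hν : ν ≠ 0) (hγ : γ = 4 * (L + 1)) (hσ : σ + γ = ν)
    (hl : σ + l = ν - β + 14) (hr : r ≤ σ) (hr2 : r ≤ γ) :
    1 + (cM * (2 ^ (σ + γ) + (σ + γ + 1) ^ 2 * 2 ^ σ + (γ + 1) * (σ + γ + 1) * 2 ^ (σ + l)) +
        ∑ i ∈ range (r + 1), 2 ^ (σ - i) * (cC * (2 ^ γ + 2 ^ (l + i) * (γ + 1) ^ cC) +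
          cD * (2 ^ γ + 2 ^ (l + i) * (γ + 1) ^ cD))) ≤
      (1 + 2 * cM + 10 * 2 ^ 14 * cM + 2 * cC + 2 * cD + 2 ^ 14 * (cC * C1 + cD * C2)) *
        (2 ^ ν + ν * (L + 1) * 2 ^ (ν - β)) := by
  have hν1 : ν < 2 ^ (L + 1) := by
    rw [hL]
    exact Nat.lt_pow_succ_log_self (by norm_num) ν
  have hν2 : 2 ^ L ≤ ν := by
    rw [hL]
    exact Nat.pow_log_le_self 2 hν
  have hA : (ν + 1) ^ 2 * 2 ^ σ ≤ 2 ^ ν := by
    have h1 : (ν + 1) ^ 2 ≤ 2 ^ γ := by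
      calc (ν + 1) ^ 2 ≤ (2 ^ (L + 1)) ^ 2 := Nat.pow_le_pow_left (by omega) 2
        _ = 2 ^ ((L + 1) * 2) := by rw [← pow_mul]
        _ ≤ 2 ^ γ := Nat.pow_le_pow_right (by norm_num) (by omega)
    calc (ν + 1) ^ 2 * 2 ^ σ ≤ 2 ^ γ * 2 ^ σ := Nat.mul_le_mul_right _ h1
      _ = 2 ^ ν := by rw [← pow_add, add_comm γ σ, hσ]
  have hB : (γ + 1) * (ν + 1) * 2 ^ (σ + l) ≤ 10 * 2 ^ 14 * (ν * (L + 1) * 2 ^ (ν - β)) := by
    rw [hl, pow_add]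
    have h1 : (γ + 1) * (ν + 1) ≤ 10 * (ν * (L + 1)) := by
      have h2 : γ + 1 ≤ 5 * (L + 1) := by omega
      have h3 : ν + 1 ≤ 2 * ν := by omega
      calc (γ + 1) * (ν + 1) ≤ (5 * (L + 1)) * (2 * ν) := Nat.mul_le_mul h2 h3
        _ = 10 * (ν * (L + 1)) := by ring
    calc (γ + 1) * (ν + 1) * (2 ^ (ν - β) * 2 ^ 14) ≤ 10 * (ν * (L + 1)) * (2 ^ (ν - β) * 2 ^ 14) :=
          Nat.mul_le_mul_right _ h1
      _ = 10 * 2 ^ 14 * (ν * (L + 1) * 2 ^ (ν - β)) := by ring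
  have hS : ∀ c C' : ℕ, (∀ L : ℕ, (4 * L + 6) ^ (c + 1) ≤ C' * 2 ^ (L / 4)) →
      ∑ i ∈ range (r + 1), 2 ^ (σ - i) * (c * (2 ^ γ + 2 ^ (l + i) * (γ + 1) ^ c)) ≤
        2 * c * 2 ^ ν + 2 ^ 14 * (c * C') * (ν * (L + 1) * 2 ^ (ν - β)) := by
    intro c C' hC
    refine (sum_le c σ γ l r _ hr).trans ?_
    have h1 : c * (2 * 2 ^ (σ + γ)) = 2 * c * 2 ^ ν := by
      rw [hσ]
      ring
    have h2 : (r + 1) * (γ + 1) ^ c ≤ C' * (ν * (L + 1)) := by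
      calc (r + 1) * (γ + 1) ^ c ≤ (γ + 1) * (γ + 1) ^ c := Nat.mul_le_mul_right _ (by omega)
        _ = (γ + 1) ^ (c + 1) := by rw [pow_succ]; ring
        _ ≤ (4 * L + 6) ^ (c + 1) := Nat.pow_le_pow_left (by omega) _
        _ ≤ C' * 2 ^ (L / 4) := hC L
        _ ≤ C' * 2 ^ L := Nat.mul_le_mul_left _
            (Nat.pow_le_pow_right (by norm_num) (Nat.div_le_self L 4))
        _ ≤ C' * ν := Nat.mul_le_mul_left _ hν2
        _ ≤ C' * (ν * (L + 1)) := Nat.mul_le_mul_left _ (Nat.le_mul_of_pos_right _ (by omega))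
    have h3 : c * ((r + 1) * (2 ^ (σ + l) * (γ + 1) ^ c)) ≤
        2 ^ 14 * (c * C') * (ν * (L + 1) * 2 ^ (ν - β)) := by
      calc c * ((r + 1) * (2 ^ (σ + l) * (γ + 1) ^ c))
          = (c * 2 ^ (σ + l)) * ((r + 1) * (γ + 1) ^ c) := by ring
        _ ≤ (c * 2 ^ (σ + l)) * (C' * (ν * (L + 1))) := Nat.mul_le_mul_left _ h2
        _ = 2 ^ 14 * (c * C') * (ν * (L + 1) * 2 ^ (ν - β)) := by
          rw [hl, pow_add]
          ring
    rw [h1]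
    exact Nat.add_le_add_left h3 _
  have hsplit : ∑ i ∈ range (r + 1), 2 ^ (σ - i) * (cC * (2 ^ γ + 2 ^ (l + i) * (γ + 1) ^ cC) +
      cD * (2 ^ γ + 2 ^ (l + i) * (γ + 1) ^ cD)) =
      ∑ i ∈ range (r + 1), 2 ^ (σ - i) * (cC * (2 ^ γ + 2 ^ (l + i) * (γ + 1) ^ cC)) +
      ∑ i ∈ range (r + 1), 2 ^ (σ - i) * (cD * (2 ^ γ + 2 ^ (l + i) * (γ + 1) ^ cD)) := by
    rw [← sum_add_distrib]
    exact sum_congr rfl fun i _ => by rw [mul_add]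
  rw [hsplit]
  have s1 := hS cC C1 hC1
  have s2 := hS cD C2 hC2
  rw [hσ]
  have hM : cM * (2 ^ ν + (ν + 1) ^ 2 * 2 ^ σ + (γ + 1) * (ν + 1) * 2 ^ (σ + l)) ≤
      cM * (2 ^ ν + 2 ^ ν + 10 * 2 ^ 14 * (ν * (L + 1) * 2 ^ (ν - β))) :=
    Nat.mul_le_mul_left _ (Nat.add_le_add (Nat.add_le_add_left hA _) hB)
  have hone : 1 ≤ 2 ^ ν := Nat.one_le_two_pow
  generalize 2 ^ ν = A at *
  generalize ν * (L + 1) * 2 ^ (ν - β) = B at *
  refine (Nat.add_le_add hone (Nat.add_le_add hM (Nat.add_le_add s1 s2))).trans ?_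
  have e : (1 + 2 * cM + 10 * 2 ^ 14 * cM + 2 * cC + 2 * cD + 2 ^ 14 * (cC * C1 + cD * C2)) * (A + B) =
      (A + (cM * (A + A + 10 * 2 ^ 14 * B) + (2 * cC * A + 2 ^ 14 * (cC * C1) * B +
        (2 * cD * A + 2 ^ 14 * (cD * C2) * B)))) +
      (B + 2 * cM * B + 10 * 2 ^ 14 * cM * A + 2 * cC * B + 2 * cD * B +
        2 ^ 14 * (cC * C1 + cD * C2) * A) := by ring
  rw [e]
  exact Nat.le_add_right _ _

theorem tT2 (h1 : S_Main) (h2 : S_Com) (h3 : S_Dec) (h4 : S_Num) : S_T2 := by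
  obtain ⟨cM, hM⟩ := h1
  obtain ⟨cC, hC⟩ := h2
  obtain ⟨cD, hD⟩ := h3
  obtain ⟨C1, hC1⟩ := h4 (cC + 1)
  obtain ⟨C2, hC2⟩ := h4 (cD + 1)
  refine ⟨1 + 2 * cM + 10 * 2 ^ 14 * cM + 2 * cC + 2 * cD + 2 ^ 14 * (cC * C1 + cD * C2),
    fun ν β hβ hβ2 => ?_⟩
  obtain ⟨L, hL⟩ : ∃ L, L = Nat.log 2 ν := ⟨_, rfl⟩
  rw [← hL] at hβ2 ⊢
  have hL7 : 7 ≤ L := by omega
  have hν : ν ≠ 0 := by
    rintro rfl
    rw [Nat.log_zero_right] at hL
    omega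
  have hν2 : 2 ^ L ≤ ν := by
    rw [hL]
    exact Nat.pow_log_le_self 2 hν
  have h6 : 6 * (L + 1) ≤ ν := by
    refine le_trans ?_ hν2
    clear hL hβ2 hν2
    induction L, hL7 using Nat.le_induction with
    | base => norm_num
    | succ n hn ih =>
      rw [pow_succ]
      omega
  obtain ⟨γ, hγ⟩ : ∃ γ, γ = 4 * (L + 1) := ⟨_, rfl⟩
  obtain ⟨σ, hσ⟩ : ∃ σ, σ + γ = ν := ⟨ν - γ, by omega⟩
  obtain ⟨l, hl⟩ : ∃ l, l + β = γ + 14 := ⟨γ + 14 - β, by omega⟩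
  obtain ⟨r, hr⟩ : ∃ r, r + 13 = β := ⟨β - 13, by omega⟩
  obtain ⟨F', hF', hF2⟩ := hM σ γ l r γ True
    (fun i => cC * (2 ^ γ + 2 ^ (l + i) * (γ + 1) ^ cC))
    (fun i => cD * (2 ^ γ + 2 ^ (l + i) * (γ + 1) ^ cD)) (by omega) (by omega) (by omega) (by omega)
    le_rfl (fun i _ => hC γ (l + i) (by omega)) (fun i hi => hD γ (l + i) γ le_rfl (by omega))
  -- the cells
  have hcard : 2 ^ σ * 2 ^ γ = 2 ^ ν := by rw [← pow_add, hσ]
  let e : Fin (2 ^ σ) × Fin (2 ^ γ) ≃ Fin (2 ^ ν) := finProdFinEquiv.trans (finCongr hcard)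
  have he : ∀ p, ((e p : Fin (2 ^ ν)) : ℕ) = bpos (2 ^ γ) p := by
    intro p
    change ((finProdFinEquiv p : Fin (2 ^ σ * 2 ^ γ)) : ℕ) = bpos (2 ^ γ) p
    rw [finProdFinEquiv_apply_val]
    unfold bpos
    ring
  let ρ : Fin 3 × (Fin (2 ^ σ) × Fin (2 ^ γ)) → (Fin (2 ^ ν) ⊕ Fin (2 ^ ν)) ⊕ Unit := fun q =>
    if q.1 = 0 then Sum.inl (Sum.inl (e q.2)) else if q.1 = 1 then Sum.inl (Sum.inr (e q.2)) else Sum.inr ()
  have hne : Nonempty (Fin (2 ^ ν) ⊕ Fin (2 ^ ν)) := ⟨Sum.inl ⟨0, Nat.two_pow_pos ν⟩⟩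
  have hcx : Cx (fun (x : Fin (2 ^ ν) ⊕ Fin (2 ^ ν) → Bool) (j : Fin (2 ^ ν)) =>
      F' (fun q => Sum.elim x (fun _ : Unit => true) (ρ q)) (e.symm j))
      (1 + (cM * (2 ^ (σ + γ) + (σ + γ + 1) ^ 2 * 2 ^ σ + (γ + 1) * (σ + γ + 1) * 2 ^ (σ + l)) +
        ∑ i ∈ range (r + 1), 2 ^ (σ - i) * (cC * (2 ^ γ + 2 ^ (l + i) * (γ + 1) ^ cC) +
          cD * (2 ^ γ + 2 ^ (l + i) * (γ + 1) ^ cD)))) :=
    (Cx.const (ι := Fin (2 ^ ν) ⊕ Fin (2 ^ ν)) true).ext ((hF'.inp ρ).out fun j => e.symm j)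
  refine ⟨_, hcx.mono (size_aux cM cC cD C1 C2 hC1 hC2 ν β L γ σ l r hL hν hγ hσ (by omega)
    (by omega) (by omega)), fun x hx j => ?_⟩
  have x0 : ∀ p, Sum.elim x (fun _ : Unit => true) (ρ (0, p)) = x (Sum.inl (e p)) := fun p => rfl
  have x1 : ∀ p, Sum.elim x (fun _ : Unit => true) (ρ (1, p)) = x (Sum.inr (e p)) := fun p => rfl
  have x2 : ∀ p, Sum.elim x (fun _ : Unit => true) (ρ (2, p)) = true := fun p => rfl
  have hcnt : (univ.filter fun p : Fin (2 ^ σ) × Fin (2 ^ γ) =>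
      Sum.elim x (fun _ : Unit => true) (ρ (0, p)) = true ∧
      Sum.elim x (fun _ : Unit => true) (ρ (1, p)) = true).card ≤ 2 ^ (σ - 13 + l) := by
    have e1 : σ - 13 + l = ν - β + 1 := by omega
    rw [e1]
    refine le_trans (le_of_eq ?_) hx
    apply Finset.card_bij (fun p _ => e p)
    · intro p hp
      rw [mem_filter] at hp ⊢
      exact ⟨mem_univ _, hp.2⟩
    · intro p _ p' _ h
      exact e.injective h
    · intro i hi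
      rw [mem_filter] at hi
      refine ⟨e.symm i, ?_, e.apply_symm_apply i⟩
      rw [mem_filter, x0, x1, e.apply_symm_apply]
      exact ⟨mem_univ _, hi.2⟩
  have hmain := hF2 (fun q => Sum.elim x (fun _ : Unit => true) (ρ q)) (fun _ => x2) hcnt
    (fun h => absurd h (lt_irrefl _)) (e.symm j).1 (e.symm j).2
  change F' (fun q => Sum.elim x (fun _ : Unit => true) (ρ q)) (e.symm j) = _
  have hj : ((e.symm j).1 : ℕ) * 2 ^ γ + (e.symm j).2 = j := by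
    have h5 := he (e.symm j)
    rw [e.apply_symm_apply] at h5
    exact h5.symm
  rw [hj] at hmain
  rw [← cmp_equiv e Fin.val]
  have hpos : (fun a => ((e a : Fin (2 ^ ν)) : ℕ)) = bpos (2 ^ γ) := funext he
  rw [hpos]
  refine Eq.trans hmain ?_
  congr 1
  funext p
  rw [x1, x2, Bool.and_true]

end Pool.Agent.Lin
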