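import Pool.Agent.Lib.MP_76b24b_lcM.Spec2

/-!
# MP_76b24b_lc, package M: `S_T3`
-/

set_option autoImplicit false

namespace Pool.Agent.Lin

open Finset

private theorem t3_rk_map {α α' : Type} [Fintype α] [Fintype α'] (pos : α → ℕ) (pos' : α' → ℕ)
    (P : α → Bool) (P' : α' → Bool) (f : α → α') (hf : Function.Injective f)
    (hpos : ∀ a, pos' (f a) = pos a) (hP : ∀ a, P' (f a) = P a)
    (hR : ∀ b, P' b = true → ∃ a, f a = b) (q : ℕ) : rk pos' P' q = rk pos P q := by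
  classical
  unfold rk
  symm
  refine Finset.card_bij (fun a _ => f a) ?_ ?_ ?_
  · intro a ha
    rw [mem_filter] at ha ⊢
    refine ⟨mem_univ _, ?_, ?_⟩
    · rw [hpos]
      exact ha.2.1
    · rw [hP]
      exact ha.2.2
  · intro a _ b _ h
    exact hf h
  · intro b hb
    rw [mem_filter] at hb
    obtain ⟨a, rfl⟩ := hR b hb.2.2
    refine ⟨a, ?_, rfl⟩
    rw [mem_filter]
    refine ⟨mem_univ _, ?_, ?_⟩
    · rw [← hpos]
      exact hb.2.1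
    · rw [← hP]
      exact hb.2.2

private theorem t3_cmp_map {α α' : Type} [Fintype α] [Fintype α'] (pos : α → ℕ) (pos' : α' → ℕ)
    (P Q : α → Bool) (P' Q' : α' → Bool) (f : α → α') (hf : Function.Injective f)
    (hpos : ∀ a, pos' (f a) = pos a) (hP : ∀ a, P' (f a) = P a) (hQ : ∀ a, Q' (f a) = Q a)
    (hR : ∀ b, P' b = true → ∃ a, f a = b) (j : ℕ) : cmp pos' P' Q' j = cmp pos P Q j := by
  classical
  have hrk := t3_rk_map pos pos' P P' f hf hpos hP hR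
  unfold cmp
  rw [decide_eq_decide]
  constructor
  · rintro ⟨b, h1, h2, h3⟩
    obtain ⟨a, rfl⟩ := hR b h1
    refine ⟨a, ?_, ?_, ?_⟩
    · rw [← hP]
      exact h1
    · rw [← hQ]
      exact h2
    · rw [← hrk, ← hpos]
      exact h3
  · rintro ⟨a, h1, h2, h3⟩
    refine ⟨f a, ?_, ?_, ?_⟩
    · rw [hP]
      exact h1
    · rw [hQ]
      exact h2
    · rw [hrk, hpos]
      exact h3

private theorem t3_rk_lt {n : ℕ} (P : Fin n → Bool) {i j : Fin n} (h : i < j)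
    (hi : P i = true) : rk Fin.val P i < rk Fin.val P j := by
  classical
  unfold rk
  apply Finset.card_lt_card
  refine ⟨?_, ?_⟩
  · intro a ha
    rw [mem_filter] at ha ⊢
    exact ⟨mem_univ _, lt_trans ha.2.1 h, ha.2.2⟩
  · intro hs
    have h1 : i ∈ univ.filter fun a : Fin n => (a : ℕ) < (i : ℕ) ∧ P a = true :=
      hs (mem_filter.2 ⟨mem_univ _, h, hi⟩)
    exact lt_irrefl _ (mem_filter.1 h1).2.1

private theorem t3_rk_inj {n : ℕ} (P : Fin n → Bool) {i j : Fin n} (hi : P i = true)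
    (hj : P j = true) (h : rk Fin.val P i = rk Fin.val P j) : i = j := by
  rcases lt_trichotomy i j with h1 | h1 | h1
  · have := t3_rk_lt P h1 hi
    omega
  · exact h1
  · have := t3_rk_lt P h1 hj
    omega

private theorem t3_rk_lt_n {n : ℕ} (P : Fin n → Bool) (i : Fin n) : rk Fin.val P i < n := by
  classical
  unfold rk
  have h1 : (univ.filter fun a : Fin n => (a : ℕ) < (i : ℕ) ∧ P a = true) ⊂ univ := by
    rw [Finset.ssubset_univ_iff]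
    intro h
    have h2 : i ∈ univ.filter fun a : Fin n => (a : ℕ) < (i : ℕ) ∧ P a = true := by
      rw [h]
      exact mem_univ _
    exact lt_irrefl _ (mem_filter.1 h2).2.1
  have h2 := Finset.card_lt_card h1
  rwa [Finset.card_univ, Fintype.card_fin] at h2

private theorem t3_card_mult {ν β : ℕ} (hβ : β ≤ ν) (P : Fin (2 ^ ν) → Bool) :
    (univ.filter fun i => P i = true ∧ 2 ^ β ∣ rk Fin.val P (i : ℕ)).card ≤ 2 ^ (ν - β) := by
  classical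
  have h0 : 0 < 2 ^ β := Nat.two_pow_pos _
  have h1 : (2 : ℕ) ^ ν = 2 ^ (ν - β) * 2 ^ β := by
    rw [← pow_add]
    congr 1
    omega
  have h2 : (univ.filter fun i => P i = true ∧ 2 ^ β ∣ rk Fin.val P (i : ℕ)).card ≤
      (Finset.range (2 ^ (ν - β))).card := by
    refine Finset.card_le_card_of_injOn (fun i => rk Fin.val P (i : ℕ) / 2 ^ β) ?_ ?_
    · intro i _
      rw [Finset.mem_coe, Finset.mem_range, Nat.div_lt_iff_lt_mul h0, ← h1]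
      exact t3_rk_lt_n P i
    · intro i hi j hj hij
      rw [Finset.mem_coe, mem_filter] at hi hj
      have h3 : rk Fin.val P (i : ℕ) / 2 ^ β = rk Fin.val P (j : ℕ) / 2 ^ β := hij
      have h4 : rk Fin.val P (i : ℕ) = rk Fin.val P (j : ℕ) := by
        rw [← Nat.div_mul_cancel hi.2.2, h3, Nat.div_mul_cancel hj.2.2]
      exact t3_rk_inj P hi.2.1 hj.2.1 h4
  rwa [Finset.card_range] at h2

private theorem t3_dvd {β r : ℕ} : 2 ^ β ∣ r ↔ ∀ t : Fin β, r.testBit t = false := by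
  constructor
  · rintro ⟨k, rfl⟩ t
    rw [Nat.testBit_two_pow_mul]
    have : ¬ (t : ℕ) ≥ β := by
      have := t.isLt
      omega
    simp [this]
  · intro h
    rw [Nat.dvd_iff_mod_eq_zero]
    apply Nat.eq_of_testBit_eq
    intro i
    rw [Nat.testBit_mod_two_pow, Nat.zero_testBit]
    by_cases hi : i < β
    · rw [h ⟨i, hi⟩, Bool.and_false]
    · simp [hi]

private theorem t3_exp : ∀ L : ℕ, 31 ≤ L → 5 * (L + 1) + 40 ≤ 2 ^ L := by
  intro L hL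
  induction L, hL using Nat.le_induction with
  | base => norm_num
  | succ n hn ih =>
    rw [pow_succ]
    omega

private theorem t3_geom (σ r : ℕ) : ∑ i ∈ range (r + 1), 2 ^ (σ - i) ≤ 2 ^ (σ + 1) + r := by
  induction r generalizing σ with
  | zero => simp [pow_succ]
  | succ r ih =>
    rw [Finset.sum_range_succ']
    rcases Nat.eq_zero_or_pos σ with rfl | hσ
    · simp
    · have h1 : ∀ i, 2 ^ (σ - (i + 1)) = 2 ^ (σ - 1 - i) := fun i => by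
        congr 1
        omega
      simp only [h1]
      have h2 := ih (σ - 1)
      have h3 : σ - 1 + 1 = σ := by omega
      rw [h3] at h2
      have h4 : 2 ^ (σ + 1) = 2 ^ σ + 2 ^ σ := by rw [pow_succ]; ring
      rw [h4]
      simp only [Nat.sub_zero]
      omega

/-- The number of gates. -/
private theorem t3_size (c1 c2 c3 c4 K2 K3 : ℕ) (hK2 : ∀ L : ℕ, (4 * L + 6) ^ 2 ≤ K2 * 2 ^ (L / 4))
    (hK3 : ∀ L : ℕ, (4 * L + 6) ^ (c3 + 1) ≤ K3 * 2 ^ (L / 4)) (ν β L : ℕ) (hβ : 16 ≤ β)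
    (hL : 2 * β ≤ L + 1) (h1 : 2 ^ L ≤ ν) (h2 : ν < 2 ^ (L + 1)) (σ γ l r : ℕ)
    (hγ : γ = 4 * (L + 1)) (hσ : σ + γ = ν) (hl : σ + l = ν - β + 15) (hr : r + 14 = β) :
    c4 * (2 ^ ν * (β + 1)) + 2 ^ ν * (β + 1) + 2 ^ ν +
      (c1 * (2 ^ (σ + γ) + (σ + γ + 1) ^ 2 * 2 ^ σ + (β + 1) * (σ + γ + 1) * 2 ^ (σ + l)) +
        ∑ i ∈ range (r + 1), 2 ^ (σ - i) * (c2 * ((γ + 1) ^ 2 * 2 ^ γ + 2 ^ (l + i) * (β + 1)) +
          c3 * (2 ^ γ + 2 ^ (l + i) * (γ + 1) ^ c3))) ≤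
      (c4 + 3 + 2 * c1 + 2 ^ 16 * c1 + 4 * c2 * K2 + 4 * c3 + 2 ^ 15 * (c2 + c3 * K3)) *
        (2 ^ ν + ν * (β + 1) * 2 ^ (ν - β)) := by
  have hL31 : 31 ≤ L := by omega
  have hexp := t3_exp L hL31
  have hβν : β ≤ ν := by omega
  have hrσ : r ≤ σ := by omega
  set B := 2 ^ (ν - β) with hB
  set X := 2 ^ ν with hX
  set Y := ν * (β + 1) * B with hY
  have hXB : X = 2 ^ β * B := by
    rw [hX, hB, ← pow_add]
    congr 1
    omega
  have hβL : 2 ^ β ≤ 2 ^ L := Nat.pow_le_pow_right (by norm_num) (by omega)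
  have h2β : 2 ^ β ≤ ν := hβL.trans h1
  -- term 1
  have t1 : X * (β + 1) ≤ Y := by
    rw [hXB, hY]
    calc 2 ^ β * B * (β + 1) = 2 ^ β * ((β + 1) * B) := by ring
      _ ≤ ν * ((β + 1) * B) := Nat.mul_le_mul_right _ h2β
      _ = ν * (β + 1) * B := by ring
  -- term 2
  have t2 : (σ + γ + 1) ^ 2 * 2 ^ σ ≤ X := by
    rw [hσ]
    have h3 : ν + 1 ≤ 2 ^ (L + 1) := h2
    calc (ν + 1) ^ 2 * 2 ^ σ ≤ (2 ^ (L + 1)) ^ 2 * 2 ^ σ :=
          Nat.mul_le_mul_right _ (Nat.pow_le_pow_left h3 2)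
      _ = 2 ^ ((L + 1) * 2 + σ) := by rw [← pow_mul, ← pow_add]
      _ ≤ 2 ^ ν := Nat.pow_le_pow_right (by norm_num) (by omega)
  have hl' : 2 ^ (σ + l) = 2 ^ 15 * B := by
    rw [hl, hB, ← pow_add]
    congr 1
    omega
  have t3 : (β + 1) * (σ + γ + 1) * 2 ^ (σ + l) ≤ 2 ^ 16 * Y := by
    rw [hσ, hl', hY]
    have h3 : ν + 1 ≤ 2 * ν := by omega
    calc (β + 1) * (ν + 1) * (2 ^ 15 * B) ≤ (β + 1) * (2 * ν) * (2 ^ 15 * B) :=
          Nat.mul_le_mul_right _ (Nat.mul_le_mul_left _ h3)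
      _ = 2 ^ 16 * (ν * (β + 1) * B) := by ring
  -- the sum
  have t4 : ∀ i ∈ range (r + 1), 2 ^ (σ - i) * (c2 * ((γ + 1) ^ 2 * 2 ^ γ + 2 ^ (l + i) * (β + 1)) +
      c3 * (2 ^ γ + 2 ^ (l + i) * (γ + 1) ^ c3)) =
      2 ^ (σ - i) * (2 ^ γ * (c2 * (γ + 1) ^ 2 + c3)) +
        2 ^ (σ + l) * (c2 * (β + 1) + c3 * (γ + 1) ^ c3) := by
    intro i hi
    have hi' : i ≤ σ := by
      have := Finset.mem_range.1 hi
      omega
    have h3 : 2 ^ (σ + l) = 2 ^ (σ - i) * 2 ^ (l + i) := by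
      rw [← pow_add]
      congr 1
      omega
    rw [h3]
    ring
  have t5 : ∑ i ∈ range (r + 1), 2 ^ (σ - i) *
      (c2 * ((γ + 1) ^ 2 * 2 ^ γ + 2 ^ (l + i) * (β + 1)) +
      c3 * (2 ^ γ + 2 ^ (l + i) * (γ + 1) ^ c3)) =
      (∑ i ∈ range (r + 1), 2 ^ (σ - i)) * (2 ^ γ * (c2 * (γ + 1) ^ 2 + c3)) +
        (r + 1) * (2 ^ (σ + l) * (c2 * (β + 1) + c3 * (γ + 1) ^ c3)) := by
    rw [Finset.sum_congr rfl t4, Finset.sum_add_distrib, ← Finset.sum_mul, Finset.sum_const,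
      Finset.card_range, smul_eq_mul]
  have hg : ∑ i ∈ range (r + 1), 2 ^ (σ - i) ≤ 4 * 2 ^ σ := by
    have h3 := t3_geom σ r
    have h4 : r < 2 ^ σ := lt_of_le_of_lt hrσ Nat.lt_two_pow_self
    rw [pow_succ] at h3
    omega
  have hσγ : 2 ^ σ * 2 ^ γ = X := by rw [← pow_add, hσ]
  have hK : K2 * 2 ^ (L / 4) * 2 ^ β ≤ K2 * ν := by
    rw [Nat.mul_assoc, ← pow_add]
    refine Nat.mul_le_mul_left _ (le_trans ?_ h1)
    exact Nat.pow_le_pow_right (by norm_num) (by omega)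
  have hγ6 : γ + 1 ≤ 4 * L + 6 := by omega
  have t6 : X * (γ + 1) ^ 2 ≤ K2 * Y := by
    have h3 : (γ + 1) ^ 2 ≤ K2 * 2 ^ (L / 4) := (Nat.pow_le_pow_left hγ6 2).trans (hK2 L)
    calc X * (γ + 1) ^ 2 ≤ 2 ^ β * B * (K2 * 2 ^ (L / 4)) := by
          rw [hXB]
          exact Nat.mul_le_mul_left _ h3
      _ = (K2 * 2 ^ (L / 4) * 2 ^ β) * B := by ring
      _ ≤ K2 * ν * B := Nat.mul_le_mul_right _ hK
      _ ≤ K2 * ν * B * (β + 1) := Nat.le_mul_of_pos_right _ (by omega)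
      _ = K2 * Y := by rw [hY]; ring
  have t7 : (∑ i ∈ range (r + 1), 2 ^ (σ - i)) * (2 ^ γ * (c2 * (γ + 1) ^ 2 + c3)) ≤
      4 * c2 * K2 * Y + 4 * c3 * X := by
    calc (∑ i ∈ range (r + 1), 2 ^ (σ - i)) * (2 ^ γ * (c2 * (γ + 1) ^ 2 + c3)) ≤
          4 * 2 ^ σ * (2 ^ γ * (c2 * (γ + 1) ^ 2 + c3)) := Nat.mul_le_mul_right _ hg
      _ = 4 * c2 * ((2 ^ σ * 2 ^ γ) * (γ + 1) ^ 2) + 4 * c3 * (2 ^ σ * 2 ^ γ) := by ring
      _ = 4 * c2 * (X * (γ + 1) ^ 2) + 4 * c3 * X := by rw [hσγ]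
      _ ≤ 4 * c2 * (K2 * Y) + 4 * c3 * X := Nat.add_le_add_right (Nat.mul_le_mul_left _ t6) _
      _ = _ := by ring
  have hrγ : r + 1 ≤ γ + 1 := by omega
  have hrν : r + 1 ≤ ν := by omega
  have t8 : (r + 1) * (2 ^ (σ + l) * (c2 * (β + 1) + c3 * (γ + 1) ^ c3)) ≤
      2 ^ 15 * (c2 + c3 * K3) * Y := by
    have h3 : (r + 1) * (γ + 1) ^ c3 ≤ K3 * ν := by
      calc (r + 1) * (γ + 1) ^ c3 ≤ (γ + 1) * (γ + 1) ^ c3 := Nat.mul_le_mul_right _ hrγ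
        _ = (γ + 1) ^ (c3 + 1) := by rw [pow_succ]; ring
        _ ≤ (4 * L + 6) ^ (c3 + 1) := Nat.pow_le_pow_left hγ6 _
        _ ≤ K3 * 2 ^ (L / 4) := hK3 L
        _ ≤ K3 * ν := Nat.mul_le_mul_left _
            ((Nat.pow_le_pow_right (by norm_num) (by omega)).trans h1)
    have h4 : (r + 1) * ((β + 1) * B) ≤ Y := by
      rw [hY]
      calc (r + 1) * ((β + 1) * B) ≤ ν * ((β + 1) * B) := Nat.mul_le_mul_right _ hrν
        _ = _ := by ring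
    have h5 : (r + 1) * (γ + 1) ^ c3 * B ≤ K3 * Y := by
      calc (r + 1) * (γ + 1) ^ c3 * B ≤ K3 * ν * B := Nat.mul_le_mul_right _ h3
        _ ≤ K3 * ν * B * (β + 1) := Nat.le_mul_of_pos_right _ (by omega)
        _ = K3 * Y := by rw [hY]; ring
    rw [hl']
    calc (r + 1) * (2 ^ 15 * B * (c2 * (β + 1) + c3 * (γ + 1) ^ c3)) =
          2 ^ 15 * (c2 * ((r + 1) * ((β + 1) * B)) + c3 * ((r + 1) * (γ + 1) ^ c3 * B)) := by ring
      _ ≤ 2 ^ 15 * (c2 * Y + c3 * (K3 * Y)) := Nat.mul_le_mul_left _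
          (Nat.add_le_add (Nat.mul_le_mul_left _ h4) (Nat.mul_le_mul_left _ h5))
      _ = _ := by ring
  rw [t5, hσ, ← hX]
  rw [hσ] at t2 t3
  clear_value X Y B
  have u1 := Nat.mul_le_mul_left (c4 + 1) t1
  have u2 := Nat.mul_le_mul_left c1 (Nat.add_le_add (Nat.add_le_add_left t2 X) t3)
  have u3 := Nat.add_le_add t7 t8
  calc c4 * (X * (β + 1)) + X * (β + 1) + X +
        (c1 * (X + (ν + 1) ^ 2 * 2 ^ σ + (β + 1) * (ν + 1) * 2 ^ (σ + l)) +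
          ((∑ i ∈ range (r + 1), 2 ^ (σ - i)) * (2 ^ γ * (c2 * (γ + 1) ^ 2 + c3)) +
            (r + 1) * (2 ^ (σ + l) * (c2 * (β + 1) + c3 * (γ + 1) ^ c3)))) =
        (c4 + 1) * (X * (β + 1)) + X +
        (c1 * (X + (ν + 1) ^ 2 * 2 ^ σ + (β + 1) * (ν + 1) * 2 ^ (σ + l)) +
          ((∑ i ∈ range (r + 1), 2 ^ (σ - i)) * (2 ^ γ * (c2 * (γ + 1) ^ 2 + c3)) +
            (r + 1) * (2 ^ (σ + l) * (c2 * (β + 1) + c3 * (γ + 1) ^ c3)))) := by ring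
    _ ≤ (c4 + 1) * Y + X + (c1 * (X + X + 2 ^ 16 * Y) +
        (4 * c2 * K2 * Y + 4 * c3 * X + 2 ^ 15 * (c2 + c3 * K3) * Y)) :=
        Nat.add_le_add (Nat.add_le_add_right u1 _) (Nat.add_le_add u2 u3)
    _ ≤ _ := by
        have e1 : (c4 + 3 + 2 * c1 + 2 ^ 16 * c1 + 4 * c2 * K2 + 4 * c3 +
            2 ^ 15 * (c2 + c3 * K3)) * (X + Y) =
            (c4 + 1) * Y + X + (c1 * (X + X + 2 ^ 16 * Y) +
              (4 * c2 * K2 * Y + 4 * c3 * X + 2 ^ 15 * (c2 + c3 * K3) * Y)) +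
            ((c4 + 2) * X + 2 * Y + 2 ^ 16 * c1 * X + 2 * c1 * Y + 4 * c2 * K2 * X + 4 * c3 * Y +
              2 ^ 15 * (c2 + c3 * K3) * X) := by ring
        rw [e1]
        exact Nat.le_add_right _ _

/-- The marks with additional marks at the cells whose rank is divisible by `2 ^ β`. -/
private def t3_Q {ν : ℕ} (β : ℕ) (x : Fin (2 ^ ν) ⊕ Fin (2 ^ ν) → Bool) (i : Fin (2 ^ ν)) : Bool :=
  x (Sum.inr i) || !(decide (∃ t ∈ (univ : Finset (Fin β)),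
    (rk Fin.val (fun i => x (Sum.inl i)) (i : ℕ)).testBit t = true))

private theorem t3_Q_iff {ν β : ℕ} (x : Fin (2 ^ ν) ⊕ Fin (2 ^ ν) → Bool) (i : Fin (2 ^ ν)) :
    t3_Q β x i = true ↔ x (Sum.inr i) = true ∨
      2 ^ β ∣ rk Fin.val (fun i => x (Sum.inl i)) (i : ℕ) := by
  unfold t3_Q
  rw [t3_dvd, Bool.or_eq_true, Bool.not_eq_true', decide_eq_false_iff_not]
  constructor
  · rintro (h | h)
    · left; exact h
    · right
      intro t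
      by_contra h'
      exact h ⟨t, mem_univ _, by simpa using h'⟩
  · rintro (h | h)
    · left; exact h
    · right
      rintro ⟨t, _, ht⟩
      rw [h t] at ht
      exact absurd ht (by decide)

private theorem t3_cxQ {c4 : ℕ} (h4 : ∀ n w : ℕ, 0 < n → Cx (fun (P : Fin n → Bool)
    (p : Fin n × Fin w) => (rk Fin.val P p.1).testBit p.2) (c4 * (n * (w + 1)))) (ν β : ℕ)
    (hβ : 0 < β) :
    Cx (fun (x : Fin (2 ^ ν) ⊕ Fin (2 ^ ν) → Bool) => Sum.elim x (t3_Q β x))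
      (c4 * (2 ^ ν * (β + 1)) + 2 ^ ν * (β + 1) + 2 ^ ν) := by
  classical
  have : Nonempty (Fin β) := ⟨⟨0, hβ⟩⟩
  have h5 := (h4 (2 ^ ν) β (Nat.two_pow_pos _)).inp
    (Sum.inl : Fin (2 ^ ν) → Fin (2 ^ ν) ⊕ Fin (2 ^ ν))
  have h6 := (tOr (Fin β) univ).blocks (α := Fin (2 ^ ν))
  rw [Finset.card_univ, Fintype.card_fin, Fintype.card_fin] at h6
  have h7 := (h5.comp h6).keep
  have h8 := (Cx.layer (κ := Fin (2 ^ ν)) (ι := (Fin (2 ^ ν) ⊕ Fin (2 ^ ν)) ⊕ (Fin (2 ^ ν) × Unit))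
    (fun _ a b => a || !b) (fun i => Sum.inl (Sum.inr i)) (fun i => Sum.inr (i, ()))).keep
  rw [Fintype.card_fin] at h8
  have h9 := (h7.comp h8).out (Sum.elim (fun k => Sum.inl (Sum.inl k)) (fun i => Sum.inr i) :
    (Fin (2 ^ ν) ⊕ Fin (2 ^ ν)) ⊕ Fin (2 ^ ν) →
      ((Fin (2 ^ ν) ⊕ Fin (2 ^ ν)) ⊕ (Fin (2 ^ ν) × Unit)) ⊕ Fin (2 ^ ν))
  refine h9.congr fun x j => ?_
  rcases j with j | j
  · rfl
  · unfold t3_Q
    simp only [Sum.elim_inr, Sum.elim_inl]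
    congr

theorem tT3 (h1 : S_Main) (h2 : S_ComN) (h3 : S_Dec) (h4 : S_PreM) (h5 : S_Num) : S_T3 := by
  classical
  obtain ⟨c1, h1⟩ := h1
  obtain ⟨c2, h2⟩ := h2
  obtain ⟨c3, h3⟩ := h3
  obtain ⟨c4, h4⟩ := h4
  obtain ⟨K2, hK2⟩ := h5 2
  obtain ⟨K3, hK3⟩ := h5 (c3 + 1)
  refine ⟨c4 + 3 + 2 * c1 + 2 ^ 16 * c1 + 4 * c2 * K2 + 4 * c3 + 2 ^ 15 * (c2 + c3 * K3), ?_⟩
  intro ν β hβ hβL
  set L : ℕ := Nat.log 2 ν with hL
  have hL31 : 31 ≤ L := by omega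
  have hν0 : ν ≠ 0 := by
    rintro rfl
    rw [Nat.log_zero_right] at hL
    omega
  have hν1 : 2 ^ L ≤ ν := Nat.pow_log_le_self 2 hν0
  have hν2 : ν < 2 ^ (L + 1) := Nat.lt_pow_succ_log_self (by norm_num) ν
  have hexp := t3_exp L hL31
  clear_value L
  obtain ⟨γ, hγ⟩ : ∃ γ, γ = 4 * (L + 1) := ⟨_, rfl⟩
  obtain ⟨σ, hσ⟩ : ∃ σ, σ + γ = ν := ⟨ν - γ, by omega⟩
  obtain ⟨r, hr⟩ : ∃ r, r + 14 = β := ⟨β - 14, by omega⟩
  obtain ⟨l, hl⟩ : ∃ l, l + β = γ + 15 := ⟨γ + 15 - β, by omega⟩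
  obtain ⟨F, hF, hFx⟩ := h1 σ γ l r β False
    (fun i => c2 * ((γ + 1) ^ 2 * 2 ^ γ + 2 ^ (l + i) * (β + 1)))
    (fun i => c3 * (2 ^ γ + 2 ^ (l + i) * (γ + 1) ^ c3)) (by omega) (by omega) (by omega)
    (by omega) (by omega) (fun i _ => h2 γ (l + i) β (by omega) (by omega))
    (fun i hi => h3 γ (l + i) β (by omega) (by omega))
  have hsize := t3_size c1 c2 c3 c4 K2 K3 hK2 hK3 ν β L hβ hβL hν1 hν2 σ γ l r hγ hσ (by omega) hr
  have hγ0 : 0 < 2 ^ γ := Nat.two_pow_pos _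
  have hprod : 2 ^ σ * 2 ^ γ = 2 ^ ν := by rw [← pow_add, hσ]
  have he : ∀ p : Fin (2 ^ σ) × Fin (2 ^ γ), bpos (2 ^ γ) p < 2 ^ ν := by
    rintro ⟨a, b⟩
    unfold bpos
    have ha : (a : ℕ) + 1 ≤ 2 ^ σ := a.isLt
    have hb := b.isLt
    calc (a : ℕ) * 2 ^ γ + b < (a : ℕ) * 2 ^ γ + 2 ^ γ := Nat.add_lt_add_left hb _
      _ = ((a : ℕ) + 1) * 2 ^ γ := by ring
      _ ≤ 2 ^ σ * 2 ^ γ := Nat.mul_le_mul_right _ ha
      _ = 2 ^ ν := hprod
  let e : Fin (2 ^ σ) × Fin (2 ^ γ) → Fin (2 ^ ν) := fun p => ⟨bpos (2 ^ γ) p, he p⟩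
  have hdiv : ∀ j : Fin (2 ^ ν), (j : ℕ) / 2 ^ γ < 2 ^ σ := by
    intro j
    rw [Nat.div_lt_iff_lt_mul hγ0, hprod]
    exact j.isLt
  let f : Fin (2 ^ ν) → Fin (2 ^ σ) × Fin (2 ^ γ) := fun j =>
    (⟨(j : ℕ) / 2 ^ γ, hdiv j⟩, ⟨(j : ℕ) % 2 ^ γ, Nat.mod_lt _ hγ0⟩)
  have hef : ∀ j, e (f j) = j := fun j => Fin.ext (Nat.div_add_mod' _ _)
  have heinj : Function.Injective e := by
    rintro ⟨a, b⟩ ⟨a', b'⟩ h
    have h6 : (a : ℕ) * 2 ^ γ + b = (a' : ℕ) * 2 ^ γ + b' := congrArg Fin.val h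
    have h7 : (a : ℕ) = a' := by
      have h8 : ((a : ℕ) * 2 ^ γ + b) / 2 ^ γ = ((a' : ℕ) * 2 ^ γ + b') / 2 ^ γ := by rw [h6]
      rw [Nat.mul_comm, Nat.mul_add_div hγ0, Nat.div_eq_of_lt b.isLt, Nat.add_zero,
        Nat.mul_comm (a' : ℕ), Nat.mul_add_div hγ0, Nat.div_eq_of_lt b'.isLt, Nat.add_zero] at h8
      exact h8
    have h8 : (b : ℕ) = b' := by
      rw [h7] at h6
      omega
    exact Prod.ext (Fin.ext h7) (Fin.ext h8)
  -- the circuit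
  let g : Fin 3 × (Fin (2 ^ σ) × Fin (2 ^ γ)) → (Fin (2 ^ ν) ⊕ Fin (2 ^ ν)) ⊕ Fin (2 ^ ν) :=
    fun k => if k.1 = 0 then Sum.inl (Sum.inl (e k.2)) else
      if k.1 = 1 then Sum.inr (e k.2) else Sum.inl (Sum.inr (e k.2))
  have hS := (t3_cxQ h4 ν β (by omega)).out g
  refine ⟨fun x j => F (fun k => Sum.elim x (t3_Q β x) (g k)) (f j),
    ((hS.comp hF).out f).mono hsize, ?_⟩
  intro x hx j
  set y : Fin 3 × (Fin (2 ^ σ) × Fin (2 ^ γ)) → Bool := fun k => Sum.elim x (t3_Q β x) (g k) with hy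
  have hy0 : ∀ p, y (0, p) = x (Sum.inl (e p)) := fun p => by simp [hy, g]
  have hy1 : ∀ p, y (1, p) = t3_Q β x (e p) := fun p => by simp [hy, g]
  have hy2 : ∀ p, y (2, p) = x (Sum.inr (e p)) := fun p => by
    simp only [hy, g]
    rw [if_neg (by decide), if_neg (by decide)]
    rfl
  have hrk : ∀ q, rk Fin.val (fun i => x (Sum.inl i)) q = rk (bpos (2 ^ γ)) (fun p => y (0, p)) q :=
    fun q => t3_rk_map (bpos (2 ^ γ)) Fin.val (fun p => y (0, p)) (fun i => x (Sum.inl i)) e heinj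
      (fun _ => rfl) (fun p => (hy0 p).symm) (fun b _ => ⟨f b, hef b⟩) q
  have hcmp : cmp Fin.val (fun i => x (Sum.inl i)) (fun i => x (Sum.inr i)) j =
      cmp (bpos (2 ^ γ)) (fun p => y (0, p)) (fun p => y (1, p) && y (2, p)) j := by
    rw [t3_cmp_map (bpos (2 ^ γ)) Fin.val (fun p => y (0, p)) (fun p => y (2, p))
      (fun i => x (Sum.inl i)) (fun i => x (Sum.inr i)) e heinj
      (fun _ => rfl) (fun p => (hy0 p).symm) (fun p => (hy2 p).symm) (fun b _ => ⟨f b, hef b⟩) j]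
    congr 1
    funext p
    rw [hy1, hy2]
    by_cases h6 : x (Sum.inr (e p)) = true
    · have h7 : t3_Q β x (e p) = true := (t3_Q_iff x (e p)).2 (Or.inl h6)
      rw [h6, h7]
      rfl
    · rw [Bool.not_eq_true] at h6
      rw [h6, Bool.and_false]
  rw [hcmp]
  have hfin := hFx y (fun h => h.elim) ?_ ?_ (f j).1 (f j).2
  · have h6 : ((f j).1 : ℕ) * 2 ^ γ + ((f j).2 : ℕ) = j := Nat.div_add_mod' _ _
    rw [h6] at hfin
    exact hfin
  · have h6 : (univ.filter fun p => y (0, p) = true ∧ y (1, p) = true).card ≤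
        (univ.filter fun i : Fin (2 ^ ν) => x (Sum.inl i) = true ∧ t3_Q β x i = true).card := by
      refine Finset.card_le_card_of_injOn e ?_ heinj.injOn
      intro p hp
      rw [Finset.mem_coe, mem_filter] at hp ⊢
      rw [hy0, hy1] at hp
      exact ⟨mem_univ _, hp.2⟩
    have h7 : (univ.filter fun i : Fin (2 ^ ν) => x (Sum.inl i) = true ∧ t3_Q β x i = true).card ≤
        (univ.filter fun i => x (Sum.inl i) = true ∧ x (Sum.inr i) = true).card +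
        (univ.filter fun i => x (Sum.inl i) = true ∧
          2 ^ β ∣ rk Fin.val (fun i => x (Sum.inl i)) (i : ℕ)).card := by
      refine le_trans (Finset.card_le_card ?_) (Finset.card_union_le _ _)
      intro i hi
      rw [mem_filter, t3_Q_iff] at hi
      rw [mem_union, mem_filter, mem_filter]
      rcases hi.2.2 with h | h
      · left; exact ⟨mem_univ _, hi.2.1, h⟩
      · right; exact ⟨mem_univ _, hi.2.1, h⟩
    have h8 := t3_card_mult (ν := ν) (β := β) (by omega) (fun i => x (Sum.inl i))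
    refine (h6.trans (h7.trans (Nat.add_le_add hx h8))).trans ?_
    have h9 : σ - 13 + l = (ν - β) + 2 := by omega
    rw [h9, pow_succ, pow_add]
    omega
  · intro _ p hp hd
    rw [hy1, t3_Q_iff]
    right
    rw [hrk]
    exact hd

end Pool.Agent.Lin
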