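import Pool.Agent.Lib.MP_76b24b_lcM.Spec2

/-!
# MP_76b24b_lc, package M: Top2
-/

set_option autoImplicit false

namespace Pool.Agent.Lin

open Finset

/-- A chain of steps. -/
private theorem top_scan {ι : Type} (g : ℕ → (ι → Bool) → Bool) (s c : ℕ)
    (h0 : Cx (fun x (_ : Unit) => g 0 x) s) (st : ℕ → (ι ⊕ Unit → Bool) → Bool)
    (hst : ∀ i, Cx (fun z (_ : Unit) => st i z) c)
    (hg : ∀ i x, g (i + 1) x = st i (Sum.elim x fun _ => g i x)) (n : ℕ) :
    Cx (fun x (i : Fin (n + 1)) => g i x) (s + c * n) := by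
  induction n with
  | zero =>
    refine ((h0.out (fun _ : Fin (0 + 1) => ())).congr fun x i => ?_).mono (by omega)
    have hi : (i : ℕ) = 0 := by omega
    rw [hi]
  | succ n ih =>
    have h2 : Cx (fun (z : ι ⊕ Fin (n + 1) → Bool) => Sum.elim z (fun (_ : Unit) =>
        st n (fun p => z (Sum.map id (fun _ => Fin.last n) p)))) c :=
      ((hst n).inp (Sum.map id (fun _ => Fin.last n))).keep
    have h3 := (ih.keep.comp h2).out (fun i : Fin (n + 2) => if h : (i : ℕ) < n + 1 then
      (Sum.inl (Sum.inr ⟨i, h⟩) : (ι ⊕ Fin (n + 1)) ⊕ Unit) else Sum.inr ())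
    refine (h3.congr fun x i => ?_).mono (by rw [Nat.mul_succ, Nat.add_assoc])
    by_cases hi : (i : ℕ) < n + 1
    · simp only [hi, dif_pos, Sum.elim_inl, Sum.elim_inr]
    · simp only [hi, dif_neg, not_false_eq_true, Sum.elim_inr]
      have hi' : (i : ℕ) = n + 1 := by omega
      rw [hi', hg]
      congr 1
      funext p
      rcases p with p | p
      · simp
      · simp

/-- The letter which is current before the place `i`. -/
private def pvN {n : ℕ} : ℕ → (Fin n × Fin 2 → Bool) → Bool
  | 0, _ => false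
  | i + 1, y => if h : i < n then (y (⟨i, h⟩, 0) || (y (⟨i, h⟩, 1) && pvN i y)) else false

private theorem cx_pv (n : ℕ) (hn : 0 < n) :
    Cx (fun (y : Fin n × Fin 2 → Bool) (i : Fin n) => pvN i y) (1 + 2 * n) := by
  have : Nonempty (Fin n × Fin 2) := ⟨(⟨0, hn⟩, 0)⟩
  have h := top_scan (ι := Fin n × Fin 2) (fun i y => pvN i y) 1 2 (Cx.const false)
    (fun i z => if h : i < n then (z (Sum.inl (⟨i, h⟩, 0)) || (z (Sum.inl (⟨i, h⟩, 1)) &&
      z (Sum.inr ()))) else false) (fun i => ?_) (fun i x => ?_) n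
  · exact h.out (fun i : Fin n => ⟨i, by omega⟩)
  · by_cases hi : i < n
    · simp only [hi, dif_pos]
      have h1 : Cx (fun (z : (Fin n × Fin 2) ⊕ Unit → Bool) (_ : Unit) =>
          (z (Sum.inl (⟨i, hi⟩, 1)) && z (Sum.inr ()))) 1 := Cx.gate and _ _
      have h2 : Cx (fun (w : ((Fin n × Fin 2) ⊕ Unit) ⊕ Unit → Bool) (_ : Unit) =>
          (w (Sum.inl (Sum.inl (⟨i, hi⟩, 0))) || w (Sum.inr ()))) 1 := Cx.gate or _ _
      exact h1.ext h2
    · simp only [hi, dif_neg, not_false_eq_true]
      exact (Cx.const false).mono (by omega)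
  · simp only [pvN, Sum.elim_inl, Sum.elim_inr]

/-- `P` and `Q`. -/
private theorem cx_PQ (n : ℕ) (hn : 0 < n) :
    Cx (fun (y : Fin n × Fin 2 → Bool) => Sum.elim (fun i : Fin n => !y (i, 1))
      (fun i : Fin n => (!y (i, 1)) && (y (i, 0) ^^ pvN i y))) (6 * n) := by
  have h1 : Cx (fun (y : Fin n × Fin 2 → Bool) (i : Fin n) => !y (i, 1)) n := by
    have := Cx.layer (ι := Fin n × Fin 2) (κ := Fin n) (fun _ a _ => !a) (fun i => (i, 1))
      (fun i => (i, 1))
    rwa [Fintype.card_fin] at this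
  have h2 : Cx (fun (w : (Fin n × Fin 2) ⊕ Fin n → Bool) (i : Fin n) =>
      (w (Sum.inl (i, 0)) ^^ w (Sum.inr i))) n := by
    have := Cx.layer (ι := (Fin n × Fin 2) ⊕ Fin n) (κ := Fin n) (fun _ a b => a ^^ b)
      (fun i => Sum.inl (i, 0)) (fun i => Sum.inr i)
    rwa [Fintype.card_fin] at this
  have h3 : Cx (fun (y : Fin n × Fin 2 → Bool) (i : Fin n) => (y (i, 0) ^^ pvN i y))
      (1 + 2 * n + n) := (cx_pv n hn).ext h2
  have h4 : Cx (fun (w : (Fin n × Fin 2) ⊕ Fin n → Bool) (i : Fin n) =>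
      ((!w (Sum.inl (i, 1))) && w (Sum.inr i))) n := by
    have := Cx.layer (ι := (Fin n × Fin 2) ⊕ Fin n) (κ := Fin n) (fun _ a b => (!a) && b)
      (fun i => Sum.inl (i, 1)) (fun i => Sum.inr i)
    rwa [Fintype.card_fin] at this
  have h5 : Cx (fun (y : Fin n × Fin 2 → Bool) (i : Fin n) =>
      ((!y (i, 1)) && (y (i, 0) ^^ pvN i y))) (1 + 2 * n + n + n) := h3.ext h4
  exact (h1.pair h5).mono (by omega)

/-- The parity of the number of the `e j'`, `j' < j`. -/
private def xrN {n : ℕ} : ℕ → (Fin n → Bool) → Bool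
  | 0, _ => false
  | i + 1, e => if h : i < n then (xrN i e ^^ e ⟨i, h⟩) else xrN i e

private theorem cx_xr (n : ℕ) (hn : 0 < n) :
    Cx (fun (e : Fin n → Bool) (i : Fin n) => xrN (i + 1) e) (1 + n) := by
  have : Nonempty (Fin n) := ⟨⟨0, hn⟩⟩
  have h := top_scan (ι := Fin n) (fun i y => xrN i y) 1 1 (Cx.const false)
    (fun i z => if h : i < n then (z (Sum.inr ()) ^^ z (Sum.inl ⟨i, h⟩)) else z (Sum.inr ()))
    (fun i => ?_) (fun i x => ?_) n
  · have h' := h.out (fun i : Fin n => ⟨i + 1, by omega⟩)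
    rwa [Nat.one_mul] at h'
  · by_cases hi : i < n
    · simp only [hi, dif_pos]
      exact Cx.gate xor _ _
    · simp only [hi, dif_neg, not_false_eq_true]
      exact (Cx.proj (fun _ : Unit => (Sum.inr () : Fin n ⊕ Unit))).mono (by omega)
  · simp only [xrN, Sum.elim_inl, Sum.elim_inr]

private theorem xr_eq {n : ℕ} (e : Fin n → Bool) (i : ℕ) (hi : i ≤ n) :
    xrN i e = decide ((univ.filter fun j : Fin n => (j : ℕ) < i ∧ e j = true).card % 2 = 1) := by
  induction i with
  | zero => simp [xrN]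
  | succ i ih =>
    have hin : i < n := by omega
    have h1 : (univ.filter fun j : Fin n => (j : ℕ) < i + 1 ∧ e j = true) =
        (univ.filter fun j : Fin n => (j : ℕ) < i ∧ e j = true) ∪
          (univ.filter fun j : Fin n => j = ⟨i, hin⟩ ∧ e j = true) := by
      ext j
      simp only [mem_filter, mem_univ, true_and, mem_union, Fin.ext_iff]
      constructor
      · rintro ⟨h1, h2⟩
        rcases Nat.lt_succ_iff_lt_or_eq.1 h1 with h | h
        · exact Or.inl ⟨h, h2⟩
        · exact Or.inr ⟨h, h2⟩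
      · rintro (⟨h1, h2⟩ | ⟨h1, h2⟩)
        · exact ⟨by omega, h2⟩
        · exact ⟨by omega, h2⟩
    have h2 : Disjoint (univ.filter fun j : Fin n => (j : ℕ) < i ∧ e j = true)
        (univ.filter fun j : Fin n => j = ⟨i, hin⟩ ∧ e j = true) := by
      rw [disjoint_left]
      intro j hj hj'
      simp only [mem_filter, mem_univ, true_and, Fin.ext_iff] at hj hj'
      omega
    rw [h1, card_union_of_disjoint h2]
    have h3 : (univ.filter fun j : Fin n => j = ⟨i, hin⟩ ∧ e j = true).card =
        if e ⟨i, hin⟩ = true then 1 else 0 := by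
      split_ifs with h
      · rw [card_eq_one]
        refine ⟨⟨i, hin⟩, ?_⟩
        ext j
        simp only [mem_filter, mem_univ, true_and, mem_singleton]
        constructor
        · exact fun h => h.1
        · rintro rfl
          exact ⟨rfl, h⟩
      · rw [card_eq_zero, filter_eq_empty_iff]
        rintro j - ⟨rfl, h'⟩
        exact h h'
    rw [h3]
    simp only [xrN, hin, dif_pos, ih (by omega)]
    generalize (univ.filter fun j : Fin n => (j : ℕ) < i ∧ e j = true).card = m
    rcases Bool.eq_false_or_eq_true (e ⟨i, hin⟩) with h | h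
    · rw [h, if_pos rfl, Bool.xor_true]
      rcases Nat.mod_two_eq_zero_or_one m with hm | hm
      · have : (m + 1) % 2 = 1 := by omega
        simp [hm, this]
      · have : (m + 1) % 2 = 0 := by omega
        simp [hm, this]
    · rw [h, Bool.xor_false]
      simp

/-- The second `decide` of `chg`. -/
private theorem pv_eq {n : ℕ} (x : Fin n → Fin 3) (y : Fin n × Fin 2 → Bool)
    (hy : ∀ i, y (i, 0) = decide (x i = 1) ∧ y (i, 1) = decide (x i = 2)) (k : ℕ) (hk : k ≤ n) :
    pvN k y = decide (∃ i' : Fin n, (i' : ℕ) < k ∧ x i' = 1 ∧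
      ∀ l : Fin n, i' < l → (l : ℕ) < k → x l = 2) := by
  induction k with
  | zero => simp [pvN]
  | succ k ih =>
    have hkn : k < n := by omega
    simp only [pvN, hkn, dif_pos, (hy ⟨k, hkn⟩).1, (hy ⟨k, hkn⟩).2, ih (by omega)]
    rw [← Bool.decide_and, ← Bool.decide_or, decide_eq_decide]
    constructor
    · rintro (h | ⟨h1, i', h2, h3, h4⟩)
      · refine ⟨⟨k, hkn⟩, by simp, h, fun l hl hl' => ?_⟩
        rw [Fin.lt_def] at hl
        simp only at hl
        omega
      · refine ⟨i', by omega, h3, fun l hl hl' => ?_⟩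
        rcases Nat.lt_succ_iff_lt_or_eq.1 hl' with h | h
        · exact h4 l hl h
        · have : l = ⟨k, hkn⟩ := Fin.ext h
          rw [this]
          exact h1
    · rintro ⟨i', h2, h3, h4⟩
      rcases Nat.lt_succ_iff_lt_or_eq.1 h2 with h | h
      · refine Or.inr ⟨h4 ⟨k, hkn⟩ (by rw [Fin.lt_def]; exact h) (by simp), i', h, h3,
          fun l hl hl' => h4 l hl (by omega)⟩
      · have : i' = ⟨k, hkn⟩ := Fin.ext h
        rw [this] at h3
        exact Or.inl h3

/-- Ranks are strictly increasing. -/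
private theorem rk_lt {n : ℕ} (P : Fin n → Bool) {i i' : Fin n} (hi : P i = true) (h : i < i') :
    rk Fin.val P i < rk Fin.val P i' := by
  refine card_lt_card ?_
  rw [Finset.ssubset_iff_of_subset]
  · refine ⟨i, ?_, ?_⟩
    · simp only [mem_filter, mem_univ, true_and]
      exact ⟨h, hi⟩
    · simp
  · intro a ha
    simp only [mem_filter, mem_univ, true_and] at ha ⊢
    have := Fin.lt_def.1 h
    exact ⟨by omega, ha.2⟩

private theorem rk_inj {n : ℕ} (P : Fin n → Bool) {i i' : Fin n} (hi : P i = true)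
    (hi' : P i' = true) (h : rk Fin.val P i = rk Fin.val P i') : i = i' := by
  rcases lt_trichotomy i i' with h1 | h1 | h1
  · have := rk_lt P hi h1
    omega
  · exact h1
  · have := rk_lt P hi' h1
    omega

private theorem rk_lt_card {n : ℕ} (P : Fin n → Bool) {i : Fin n} (hi : P i = true) :
    rk Fin.val P i < (univ.filter fun i => P i = true).card := by
  refine card_lt_card ?_
  rw [Finset.ssubset_iff_of_subset]
  · refine ⟨i, ?_, ?_⟩
    · simp only [mem_filter, mem_univ, true_and]
      exact hi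
    · simp
  · intro a ha
    simp only [mem_filter, mem_univ, true_and] at ha ⊢
    exact ha.2

private theorem rk_surj {n : ℕ} (P : Fin n → Bool) {j : ℕ}
    (hj : j < (univ.filter fun i => P i = true).card) :
    ∃ i, P i = true ∧ rk Fin.val P i = j := by
  have h1 : (univ.filter fun i => P i = true).image (fun i : Fin n => rk Fin.val P i) =
      range (univ.filter fun i => P i = true).card := by
    refine eq_of_subset_of_card_le ?_ ?_
    · intro r hr
      obtain ⟨i, hi, rfl⟩ := mem_image.1 hr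
      exact mem_range.2 (rk_lt_card P (mem_filter.1 hi).2)
    · rw [card_range, card_image_of_injOn]
      intro i hi i' hi' h
      exact rk_inj P (mem_filter.1 hi).2 (mem_filter.1 hi').2 h
  have h2 := mem_range.2 hj
  rw [← h1] at h2
  obtain ⟨i, hi, h3⟩ := mem_image.1 h2
  exact ⟨i, (mem_filter.1 hi).2, h3⟩

/-- The size of the circuit for at most `max m 1` alternations. -/
private theorem top2_size (n m C : ℕ) (hn : 0 < n) :
    C * (n + max m 1 * Nat.log 2 n * (Nat.log 2 (n / max m 1) + 1)) ≤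
      5 * C * (n + m * Nat.log 2 n * (Nat.log 2 (n / m) + 1)) := by
  rcases Nat.eq_zero_or_pos m with hm | hm
  · subst hm
    have e : ∀ L : ℕ, L * (L + 1) ≤ 4 * 2 ^ L := by
      intro L
      induction L with
      | zero => simp
      | succ L ih =>
        have h1 : L < 2 ^ L := Nat.lt_two_pow_self
        rw [pow_succ]
        nlinarith
    have h1 := e (Nat.log 2 n)
    have h2 : 2 ^ Nat.log 2 n ≤ n := Nat.pow_log_le_self 2 hn.ne'
    rw [max_eq_right (Nat.zero_le 1), Nat.div_one, Nat.one_mul, Nat.zero_mul, Nat.zero_mul,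
      Nat.add_zero]
    have h3 : n + Nat.log 2 n * (Nat.log 2 n + 1) ≤ 5 * n := by omega
    calc C * (n + Nat.log 2 n * (Nat.log 2 n + 1)) ≤ C * (5 * n) := Nat.mul_le_mul_left _ h3
      _ = 5 * C * n := by ring
  · rw [max_eq_left hm]
    exact Nat.mul_le_mul_right _ (by omega)

theorem tTop2 (h1 : S_SpM) (h2 : S_Cnt) (h3 : S_Lst) (h4 : S_Chg) : S_Top2 := by
  obtain ⟨C1, h1⟩ := h1
  obtain ⟨C2, h2⟩ := h2
  refine ⟨5 * C1 + C2 + 12, fun n m => ?_⟩
  rcases Nat.eq_zero_or_pos n with hn | hn
  · subst hn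
    exact ⟨fun x j => x j, (Cx.proj id).mono (by omega), fun x _ y _ j => j.elim0⟩
  have hsize := top2_size n m C1 hn
  obtain ⟨F, hF, hF'⟩ := h1 n (max m 1) (by omega)
  set sz : ℕ := n + m * Nat.log 2 n * (Nat.log 2 (n / m) + 1) with hsz
  have hnsz : n ≤ sz := Nat.le_add_right _ _
  clear_value sz
  replace hF := hF.mono hsize
  -- the circuit
  have c1 : Cx (fun (y : Fin n × Fin 2 → Bool) (j : Fin n) => xrN (j + 1)
      (F (Sum.elim (fun i : Fin n => !y (i, 1))
        (fun i : Fin n => (!y (i, 1)) && (y (i, 0) ^^ pvN i y))))) (6 * n + 5 * C1 * sz + (1 + n)) :=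
    ((cx_PQ n hn).comp hF).comp (cx_xr n hn)
  have c2 : Cx (fun (y : Fin n × Fin 2 → Bool) (i : Fin n) => !y (i, 1)) n := by
    have := Cx.layer (ι := Fin n × Fin 2) (κ := Fin n) (fun _ a _ => !a) (fun i => (i, 1))
      (fun i => (i, 1))
    rwa [Fintype.card_fin] at this
  have c3 := c1.pair (c2.comp (h2 n))
  have c4 : Cx (fun (w : Fin n ⊕ Fin n → Bool) (p : Fin n × Fin 2) =>
      if p.2 = 0 then (w (Sum.inl p.1) && w (Sum.inr p.1)) else !(w (Sum.inr p.1))) (n * 2) := by
    have := Cx.layer (ι := Fin n ⊕ Fin n) (κ := Fin n × Fin 2)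
      (fun p a b => if p.2 = 0 then (a && b) else !b) (fun p => Sum.inl p.1)
      (fun p => Sum.inr p.1)
    rwa [Fintype.card_prod, Fintype.card_fin, Fintype.card_fin] at this
  have c5 := c3.comp c4
  refine ⟨_, c5.mono ?_, ?_⟩
  · have e1 : (5 * C1 + C2 + 12) * sz = 5 * C1 * sz + C2 * sz + 12 * sz := by ring
    have e2 : C2 * n ≤ C2 * sz := Nat.mul_le_mul_left _ hnsz
    rw [e1]
    omega
  intro x hx y hy j
  have hP : (fun i : Fin n => !y (i, 1)) = fun i => decide (x i ≠ 2) := by
    funext i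
    rw [(hy i).2, decide_not]
  have hQ : (fun i : Fin n => (!y (i, 1)) && (y (i, 0) ^^ pvN i y)) = chg x := by
    funext i
    rw [(hy i).1, (hy i).2, pv_eq x y hy i i.isLt.le, ← decide_not]
    rfl
  obtain ⟨h5, h6⟩ := h4 n x
  obtain ⟨h7, h8⟩ := h3 n x j
  have hcond : (univ.filter fun i => (Sum.elim (fun i => decide (x i ≠ 2)) (chg x) :
      Fin n ⊕ Fin n → Bool) (Sum.inl i) = true ∧ (Sum.elim (fun i => decide (x i ≠ 2)) (chg x) :
      Fin n ⊕ Fin n → Bool) (Sum.inr i) = true).card ≤ 2 * max m 1 := by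
    simp only [Sum.elim_inl, Sum.elim_inr, decide_eq_true_eq]
    omega
  have he := hF' _ hcond
  simp only [Sum.elim_inl, Sum.elim_inr] at he
  have he' : F (Sum.elim (fun i => decide (x i ≠ 2)) (chg x)) =
      fun j : Fin n => cmp Fin.val (fun i => decide (x i ≠ 2)) (chg x) j := funext he
  have hc : (univ.filter fun i : Fin n => (!y (i, 1)) = true) =
      univ.filter fun i => x i ≠ 2 := by
    ext i
    simp [(hy i).2]
  have hcard : (univ.filter fun i => (decide (x i ≠ 2)) = true) =
      univ.filter fun i => x i ≠ 2 := by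
    ext i
    simp
  have hX : xrN (j + 1) (F (Sum.elim (fun i : Fin n => !y (i, 1))
      (fun i : Fin n => (!y (i, 1)) && (y (i, 0) ^^ pvN i y)))) =
      xrN (j + 1) (fun j : Fin n => cmp Fin.val (fun i => decide (x i ≠ 2)) (chg x) j) := by
    rw [hP, hQ, he']
  simp only [Sum.elim_inl, Sum.elim_inr, if_true, Fin.isValue, one_ne_zero, if_false]
  rw [hX]
  simp only [hc, h7, h8]
  constructor
  · by_cases hT : (j : ℕ) < (univ.filter fun i => x i ≠ 2).card
    · rw [decide_eq_true hT, Bool.and_true]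
      rw [← hcard] at hT
      obtain ⟨i, hi, hij⟩ := rk_surj (fun i => decide (x i ≠ 2)) hT
      have h9 := h6 i (of_decide_eq_true hi)
      rw [xr_eq _ _ (by have := j.isLt; omega)]
      simp only [hij, ← Nat.lt_succ_iff] at h9
      rw [Nat.succ_eq_add_one] at h9
      rw [← h9, decide_eq_decide]
      constructor
      · exact fun h => ⟨i, h, hij⟩
      · rintro ⟨i', h10, h11⟩
        have h12 : i = i' := rk_inj (fun i => decide (x i ≠ 2)) hi
          (by rw [h10]; decide) (hij.trans h11.symm)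
        rw [h12]
        exact h10
    · rw [decide_eq_false hT, Bool.and_false]
      symm
      rw [decide_eq_false_iff_not]
      rintro ⟨i, h10, h11⟩
      have := rk_lt_card (fun i => decide (x i ≠ 2)) (i := i) (by rw [h10]; decide)
      rw [hcard] at this
      omega
  · rw [← decide_not, decide_eq_decide, not_lt]

end Pool.Agent.Lin
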